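import Pool.Agent.OT.StH

/-!
# OT, block HB (helper59): the bridge from theta series to the abstract theorem `Ot_H`, and `O_HETA`

Every statement is a `def Ob_X : Prop`; a module proves `theorem ob_X (h : ..) ... : Ob_X` in `Pool/Agent/OT/HB_X.lean`, namespace `Pool.Agent.OT` (private lemmas in `Pool.Agent.OT.X`), with the statements
named under USES as hypotheses (fewer is fine). Proved and usable without hypotheses: `Pool.Agent.OBH.to_X : So_X` (`OB/HN_X.lean`, `OB/HB_X.lean`; how to compose: `OB/HAll.lean`, `o_RAM`, `o_VAL`, `o_CHR`, `o_QBO`, `o_SAF`, `o_UAL`, `o_DVN`,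
`o_DVR`, `o_TYP`, `o_FAC`, `o_BDN`; import only the files you need), `Pool.Agent.MUXF.xf_X` (`MUX/XFAll.lean`), `TWB.t_DPL` (`TWB/DPL.lean`), `TWG.Gau` (`TWG/GAU.lean`), the lemmas of `MUX/HY_QSX.lean` (`MUXHY.Qsx`).
`v = V.valuation`, `M = p^(n+1)`, `ξ₀ = ex (-1/M)`.
-/

set_option autoImplicit false

namespace Pool.Agent.OT

open _root_.MU3 _root_.Pool.Agent.MU3A _root_.Pool.Agent.MU3B _root_.Pool.Agent.MU3F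
  _root_.Pool.Agent.MUX _root_.Pool.Agent.MuSym _root_.Pool.Agent.OB _root_.Pool.Agent.OBH OnePoint
open _root_.Pool.Agent.TWR (Gen)

noncomputable section

/-- the weights `kk_i / e(N b_i)` -/
def kk0 {A B : ℤ} {n : ℕ} {ι : Type} (R : Reps A B n ι) (e : OO A B → ℂ) (kk : ι → ℂ) (i : ι) : ℂ :=
  kk i / e ((nI (R.b i) : ℕ) : OO A B)

/-! ## Elementary -/

/-- (ZC) the integer `z₀`.

PROOF. (1) clear (`p ∣ z₀` would give `M ∣ 1`, or use `gen 1`). (2) `y = z₀^((p-1)/2)`, `M ∣ y² - 1 = (y - 1)(y + 1)`, `p` divides only one of the factors. If `M ∣ y - 1`: the map `k ↦ z₀^k` from `range (p-1)` to the nonzero classes modulo `p` is onto (`gen`), so one to one (`Finset.card`: `p - 1` classes), but `k = 0` and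
`k = (p-1)/2` give the same class (`p ≥ 3`). So `p ∤ y - 1`, `M ∣ y + 1`. (3) `gen`: `p ∣ c - z₀^m`; `c z₀^(p-1-m) ≡ 1` modulo `p` up to `z₀^(p-1) ≡ 1`. Claim: for `u ≡ 1` modulo `p` and every `n` there is `k'` with `p^(n+1) ∣ u - (1+p)^k'`. Induction on `n`: `n = 0` clear; step: `u ≡ (1+p)^k'` modulo `p^(n+1)`,
`u = (1+p)^k' + p^(n+1) w`, `(1+p)^(p^n j) ≡ 1 + j p^(n+1)` modulo `p^(n+2)` (`p` odd), take `j ≡ w` modulo `p`. (4) from (2): `p ∣ z₀^((p-1)/2) + 1`. (Search the tree first, e.g. `TWR/GPW.lean`.) -/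
def Ob_ZC : Prop :=
  ∀ (p n : ℕ) (z₀ : ℤ), p.Prime → p ≠ 2 → IsZ0 p n z₀ →
    ¬ (p : ℤ) ∣ z₀ ∧ ((p ^ (n + 1) : ℕ) : ℤ) ∣ z₀ ^ ((p - 1) / 2) + 1 ∧
    ∀ c : ℤ, ¬ (p : ℤ) ∣ c → ∃ m k' : ℕ, ((p ^ (n + 1) : ℕ) : ℤ) ∣ c - z₀ ^ m * (1 + (p : ℤ)) ^ k'

/-- (SGE) `SG` depends on `c` modulo `M`, and `SG (z₀^m c) = t(z₀)^(-m) SG c`, so the valuations agree.

PROOF. (1) `SnX R m M e i c` depends only on `c` modulo `M` (the condition `M ∣ nm x * nI b - c`), so does `STX`, so does `SG`. (2) `SG(z₀ c) = Σ_(k < p-1) t(z₀^k) STX(z₀^(k+1) c)`; `t(z₀) t(z₀^k) = t(z₀^(k+1))`, and the term `k + 1 = p - 1` is the term `0` (`M ∣ z₀^(p-1) - 1`, `t(z₀^(p-1)) = 1` by `per`): `t(z₀) SG(z₀ c) = SG(c)`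
(`Finset.sum_range_succ'`). Induction on `m`. (`¬ p ∣ z₀` from `IsZ0`: `p ∣ z₀` would give `p ∣ 1`; `t(z₀)^q = 1`, `q ≠ 0` because `¬ p ∣ q`.) -/
def Ob_SGE : Prop :=
  ∀ (p n : ℕ) (z₀ : ℤ) (t : ℤ → ℂ) (q : ℕ) (A B : ℤ) (n' : ℕ) (ι : Type) [Fintype ι]
    (R : Reps A B n' ι) (m a : ℕ) (e : OO A B → ℂ) (kk : ι → ℂ), p.Prime → IsZ0 p n z₀ →
    IsTw p q t → ¬ p ∣ q →
    (∀ c c' : ℤ, ((p ^ (n + 1) : ℕ) : ℤ) ∣ c - c' →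
      SG p R m (p ^ (n + 1)) a e kk t z₀ c = SG p R m (p ^ (n + 1)) a e kk t z₀ c') ∧
    t z₀ ^ q = 1 ∧
    ∀ (c : ℤ) (j : ℕ), t z₀ ^ j * SG p R m (p ^ (n + 1)) a e kk t z₀ (z₀ ^ j * c) =
      SG p R m (p ^ (n + 1)) a e kk t z₀ c

/-- (EPS) the twist of `e` by a character of the norm.

PROOF. `nm` is multiplicative, `nm 1 = nm (-1) = 1`; `idl (p f l^r) ≤ idl (p f)`, and `nm x ≡ nm y` modulo `l^r` if `x - y ∈ idl (p (f l^r))` (`x = y + l^r z`). `supp`: if `IsCoprime (sp x) (idl (p f))` then, as `l ∣ f`, `IsCoprime (sp x) (idl l)`, so `IsCoprime (sp x) (idl (l^r))` and `IsCoprime (sp x) (idl (p (f l^r)))`; also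
`nm x = x star x` is a unit modulo `l` (the argument of `So_QBO`, `OB/HB_QBO.lean`), so `ψ (nm x) ≠ 0`. Conversely `e x ≠ 0` is enough. -/
def Ob_EPS : Prop :=
  ∀ (A B : ℤ), CQ A B → ∀ (p f l r : ℕ), p.Prime → f ≠ 0 → l.Prime → l ∣ f →
    ∀ e : OO A B → ℂ, IsEI (idl (A := A) (B := B) (p * f)) e →
    ∀ ψ : DirichletCharacter ℂ (l ^ r),
      IsEI (idl (A := A) (B := B) (p * (f * l ^ r))) (fun x => e x * ψ (nm x))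

/-! ## From Theorem G to the symbols `Yh` -/

/-- (ND) the field `nd` of `HypT` for `QT`.

USES `OTH.S_NDN`, `OTH.S_NDR` (`OT/StH.lean`), `So_HQ1`, `So_HQ2` (as hypotheses of the module), `o_REL`, `o_RAM`. PROOF. `er = 1`: `QT 1 p R e kk s u z₀ 0 = sgnPart s (PhiK R e kk / (u om_0))` (`kkE 1 .. = kk`; ring), HQ1 and NDN with `q' = nI P - 1` (`nI P = p` or `p²` by RAM, so `q' ≤ p² - 1 < (p-1) p²`; `i ≤ nI P - 2` gives `i < q'`), `s₀ = 1`.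
`er = 2`: `QT 2 p R e kk s u z₀ 0 = QR p R e kk s u` (`z₀^0 = 1`), `nI P = p`, `2 ≤ i` from `2 (p-1) ≤ i (p-1)`, `i < p - 1`; HQ2, `o_REL`, NDR with `om = exp(2πi/p)` (`Complex.isPrimitiveRoot_exp`), `s₀ = 2`. -/
def Ob_ND : Prop :=
  ∀ (p er : ℕ) (A B : ℤ) (P : Ideal (OO A B)) (V : ValuationSubring ℂ) (f : ℕ),
    SetO p er A B P V f → TorX A B →
    ∀ (ι : Type) [Fintype ι] (R : Reps A B (p * f) ι) (u el lam : ℂ),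
    GoodL V (R.L R.i0) u el lam → ∀ w : OO A B → ℂ, IsTeiP p er P V w →
    ∀ e : OO A B → ℂ, IsEI (idl (A := A) (B := B) (p * f)) e → ∀ r : ℕ, ¬ p ∣ r →
    (∀ x, e x ≠ 0 → e x ^ r = 1) → ∀ i : ℕ, er * (nI P - 1) ≤ i * (p - 1) → i ≤ nI P - 2 →
    (∀ x, x - 1 ∈ gO P f → x ∉ P → e x = w x ^ i) →
    ∀ s : ℂ, s = 1 ∨ s = -1 → ∀ kk : ι → ℂ, (∀ i, kk i ^ r = 1) → ∀ (z₀ : ℤ) (n : ℕ), 2 ≤ n →
    ∀ ξ : ℂ, IsPrimitiveRoot ξ (p ^ (n + 1)) →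
    OTH.ND p n V (p ^ (er + 1) * N0O p er A B f) ξ (QT er p R e kk s u z₀ 0)

/-! ## The other hypotheses of `Ot_H` -/

/-- (HT1) symbols, algebraic, bounded.

USES `o_SAF`, `o_BDN`, `o_VAL`. PROOF. `kkE er p R kk d i` is `0` or `kk i`, so SAF applies to the families `kkE er p R kk d` (`0` or a root of unity). `QT k = Φ + s ι^* Φ'`, `Φ = PhiK R e (kkE er p R kk (z₀^k))/(u om_0)`, `Φ' = PhiK R e (kkE er p R kk (-z₀^k))/(u om_0)`. Symbol: `isSym_neg`, `isSym_add` of `NS/HGR.lean` (or copy them). Bounded: BDN for each family;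
`kkE er p R kk d` depends only on `er` and on `J(d | p) ∈ {0, 1, -1}` (`kkJ p R kk d = kkJ p R kk d'` if `J(d | p) = J(d' | p)`: `jacobiSym.mul_left`), so there are only finitely many families (or: only finitely many `d` modulo `p`): take the maximum of the exponents; `v s ≤ 1`. -/
def Ob_HT1 : Prop :=
  ∀ (p er : ℕ) (A B : ℤ) (P : Ideal (OO A B)) (V : ValuationSubring ℂ) (f : ℕ),
    SetO p er A B P V f → TorX A B → ∀ (ι : Type) [Fintype ι] (R : Reps A B (p * f) ι)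
    (e : OO A B → ℂ), IsEI (idl (A := A) (B := B) (p * f)) e → ∀ r : ℕ, r ≠ 0 →
    (∀ x, e x ≠ 0 → e x ^ r = 1) → ∀ kk : ι → ℂ, (∀ i, kk i ^ r = 1) →
    ∀ u : ℂ, u ≠ 0 → IsAlgebraic ℚ u → ∀ s : ℂ, s = 1 ∨ s = -1 → ∀ z₀ : ℤ,
    (∀ k, IsSym (p ^ (er + 1) * N0O p er A B f) (nuX e) (QT er p R e kk s u z₀ k)) ∧
    (∀ k x y, IsAlgebraic ℚ (QT er p R e kk s u z₀ k x y)) ∧
    ∃ K : ℕ, ∀ k x y, V.valuation ((p : ℂ) ^ K * QT er p R e kk s u z₀ k x y) ≤ 1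

/-- (HT2) `ι^*` and the period in `k`.

USES ZC (2). PROOF. `z₀^(k + (p-1)/2) ≡ -z₀^k` and `z₀^(k + (p-1)) ≡ z₀^k` modulo `p` (`p ∣ M`), and `kkE er p R kk d` depends only on `d` modulo `p` (`jacobiSym.mod_left`); `ι ι = 1` (`mob (-1) 0 0 1 (mob (-1) 0 0 1 x) = x`), `s² = 1`. -/
def Ob_HT2 : Prop :=
  ∀ (p er n : ℕ) (z₀ : ℤ), p.Prime → p ≠ 2 → IsZ0 p n z₀ → ∀ (A B : ℤ) (n' : ℕ) (ι : Type)
    [Fintype ι] (R : Reps A B n' ι) (e : OO A B → ℂ) (kk : ι → ℂ) (s u : ℂ), s = 1 ∨ s = -1 →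
    (∀ k x y, QT er p R e kk s u z₀ k (mob (-1) 0 0 1 x) (mob (-1) 0 0 1 y) =
      s * QT er p R e kk s u z₀ (k + (p - 1) / 2) x y) ∧
    ∀ k, QT er p R e kk s u z₀ (k + (p - 1)) = QT er p R e kk s u z₀ k

/-- (HT3) depletion at `l`.

PROOF. `TWB.t_DPL` for `PhiI (R.b i) e` (`idl (p f) ≤ sp l`, as `l ∣ f`); linear combination. Second part: `mob (-1) 0 0 1 ∞ = ∞`, `mob (-1) 0 0 1 (x + j/l) = -x - j/l`, and by the period 1 (`MUXHY.Qsx.PhiI_per`) the value at `-x - j/l` is the value at `-x + (l - j)/l`; `j ↦ l - j` (`Finset.sum_range_reflect`, the term `j = l` is the term `j = 0`). MODEL: `TWB/TWB.lean`. -/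
def Ob_HT3 : Prop :=
  ∀ (A B : ℤ), CQ A B → ∀ (p er f l : ℕ), p ≠ 0 → f ≠ 0 → l.Prime → l ∣ f → ∀ (ι : Type)
    [Fintype ι] (R : Reps A B (p * f) ι) (e : OO A B → ℂ),
    IsEI (idl (A := A) (B := B) (p * f)) e → ∀ (kk : ι → ℂ) (s u : ℂ) (z₀ : ℤ) (k : ℕ) (x : ℚ),
    ∑ j ∈ Finset.range l,
      QT er p R e kk s u z₀ k ∞ ((x + (j : ℚ) / l : ℚ) : OnePoint ℚ) = 0

/-- (HT) the hypotheses of the abstract theorem.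

USES ZC, ND, HT1, HT2, HT3, `o_RAM`, `o_VAL`, `o_CHR`, `o_UAL`. PROOF. `s = t(-1) = ±1` (`t(-1)² = t 1 = 1`), `tw` with `q = nI P - 1` (`nI P = p` or `p²`, so `p ∤ q`). `nuper` from CHR (`p N₀ ∣ p^(er+1) N₀`). `nua`: `nuX e d = chiX A B d * e d`, an integer times `0` or a root of unity. `l ≠ 0`: `l` is prime (`Gen`). -/
def Ob_HT : Prop :=
  ∀ (p er : ℕ) (A B : ℤ) (P : Ideal (OO A B)) (V : ValuationSubring ℂ) (f : ℕ),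
    SetO p er A B P V f → TorX A B →
    ∀ (ι : Type) [Fintype ι] (R : Reps A B (p * f) ι) (u el lam : ℂ),
    GoodL V (R.L R.i0) u el lam → ∀ w : OO A B → ℂ, IsTeiP p er P V w →
    ∀ e : OO A B → ℂ, IsEI (idl (A := A) (B := B) (p * f)) e → ∀ r : ℕ, ¬ p ∣ r →
    (∀ x, e x ≠ 0 → e x ^ r = 1) → ∀ i : ℕ, er * (nI P - 1) ≤ i * (p - 1) → i ≤ nI P - 2 →
    (∀ x, x - 1 ∈ gO P f → x ∉ P → e x = w x ^ i) →
    ∀ t : ℤ → ℂ, IsTw p (nI P - 1) t → ∀ kk : ι → ℂ, (∀ i, kk i ^ r = 1) →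
    ∀ l : ℕ, l.Prime → l ∣ f → ∀ n : ℕ, 5 ≤ n → ∀ z₀ : ℤ, IsZ0 p n z₀ →
    ∀ ξ : ℂ, IsPrimitiveRoot ξ (p ^ (n + 1)) →
    HypT p n V (p ^ (er + 1) * N0O p er A B f) (nuX e) (t (-1)) z₀ t
      (QT er p R e kk (t (-1)) u z₀) ξ l

/-! ## Theta series -/

/-- (SGP) the sums of the final statement as values of `PV`.

USES `MUXF.xf_F5` (`MUXHY.Qsx.SnX_eq MUXF.xf_F5`). PROOF. `q0 p * p^n = p^(n+1)` (`p ≠ 2`). `Qsx.SnX_eq`: `Σ_i kk_i SnX i c = (2 f/om_0) Σ_(β < M) ex(-β c/M) PhiK R e (kk0 R e kk) ∞ (β/M) = (2 f/om_0) Yh M (ξ₀^c) (PhiK R e (kk0 R e kk)) ∞ 0` (`tM M β ∞ = ∞`, `tM M β 0 = β/M`; the part `hSn` of the proof of `ty_QSX`). So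
`STX c = (2 f/om_0) (a Yh(ξ₀^(a² c)) - a² Yh(ξ₀^c))`; insert in `SG`, compare term by term with `PV`, `coT` (`r = 0, 1`). -/
def Ob_SGP : Prop :=
  ∀ (p : ℕ), p.Prime → p ≠ 2 → ∀ (A B : ℤ), CQ A B → ∀ f : ℕ, f ≠ 0 → ∀ (ι : Type) [Fintype ι]
    (R : Reps A B (p * f) ι) (e : OO A B → ℂ), IsEI (idl (A := A) (B := B) (p * f)) e →
    ∀ (kk : ι → ℂ) (t : ℤ → ℂ) (z₀ : ℤ) (n : ℕ) (c : ℤ),
    ∑ j ∈ Finset.range 2, (-1 : ℂ) ^ (1 - j) *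
        SG p R (lvX p f n) (p ^ (n + 1)) (aX p f) e kk t z₀ (c * (1 + (p : ℤ)) ^ j) =
      2 * f / R.om R.i0 * PV p n (ex (-1 / ((p ^ (n + 1) : ℕ) : ℚ))) (aX p f : ℕ) z₀ t
        (fun _ => PhiK R e (kk0 R e kk)) c ∞ ((0 : ℚ) : OnePoint ℚ)

/-- (BIR) Birch's formula: the twist of the symbol by a character of the norm.

PROOF. `qb b x = nm x / nI b` for `x ∈ b` (`MUXF.xf_QB`), `ψ (nm x) = ψ (nI b) ψ (qb b x)`, `gaussSum ψ⁻¹ * ψ (qb) = Σ_(c < N) ψ⁻¹ c ex (c qb/N)` (`TWG.Gau.shift` for `ψ⁻¹`, `Gau.prim_inv`), `exp(2πi qb (z + c/N)) = exp(2πi qb z) ex(c qb/N)`: term by term `gaussSum ψ⁻¹ thetaI b e' z = ψ (nI b) Σ_c ψ⁻¹ c thetaI b e (z + c/N)`, `e' = e ψ(nm)`; then integrate.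
MODEL: `theta0`, `iv0`, `t_DPL` in `TWB/DPL.lean` (summability `xf_TSM`, integrability `xf_ITG`; `thetaI b e'` needs `IsEI g' e'`: hypothesis), `PhiI b e ∞ r = - IvI b e r`. -/
def Ob_BIR : Prop :=
  ∀ (A B : ℤ), CQ A B → ∀ (b g g' : Ideal (OO A B)) (e : OO A B → ℂ), b ≠ ⊥ → g ≠ ⊥ → g' ≠ ⊥ →
    IsEI g e → ∀ (N : ℕ) [NeZero N] (ψ : DirichletCharacter ℂ N), ψ.IsPrimitive →
    IsEI g' (fun x => e x * ψ (nm x)) → ∀ x : ℚ,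
    gaussSum ψ⁻¹ ZMod.stdAddChar *
        PhiI b (fun x => e x * ψ (nm x)) ∞ ((x : ℚ) : OnePoint ℚ) =
      ψ ((nI b : ℕ)) * ∑ c ∈ Finset.range N, ψ⁻¹ (c : ZMod N) *
        PhiI b e ∞ ((x + (c : ℚ) / N : ℚ) : OnePoint ℚ)

/-- (GEN) the wrong genus, ramified case.

USES `o_QBO`. PROOF. `ξ₀^m = ex(-m/M)`, `tM M b' ∞ = ∞`, `tM M b' x = x + b'/M`. `Σ_(b' < M) ex(-m b'/M) thetaI b e (z + b'/M)`: the term of `x` has the factor `Σ_(b' < M) ex((qb b x - m) b'/M)`, which is `0` unless `M ∣ qb b x - m`; then `p ∣ qb b x - m`, so if `e x ≠ 0`: `J(m | p) = J(qb b x | p) = J(nI b | p)` (QBO), `≠ 0` (`p ∤ m`), so `J(m nI b | p) = 1`,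
excluded. Integrate as in `TWB/DPL.lean` (`theta0`, `iv0`). -/
def Ob_GEN : Prop :=
  ∀ (p : ℕ) (A B : ℤ) (P : Ideal (OO A B)) (V : ValuationSubring ℂ) (f : ℕ),
    SetO p 2 A B P V f → ∀ e : OO A B → ℂ, IsEI (idl (A := A) (B := B) (p * f)) e →
    ∀ b : Ideal (OO A B), b ≠ ⊥ → ∀ (n : ℕ) (m : ℤ), ¬ (p : ℤ) ∣ m →
    jacobiSym (m * (nI b : ℤ)) p ≠ 1 → ∀ x : ℚ,
    Yh (p ^ (n + 1)) (ex (-1 / ((p ^ (n + 1) : ℕ) : ℚ)) ^ m) (PhiI b e) ∞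
      ((x : ℚ) : OnePoint ℚ) = 0

/-- (SYE) the symbol `PV` of `QT` and of the whole `PhiK`.

USES ZC, GEN. PROOF. `Y k c x = Yh M (ξ₀^c) (PhiK R e k) ∞ x = Σ_b ξ₀^(c b) PhiK R e k ∞ (x + b/M)`. (0) `Yh M (ξ₀^c) (ι^* PhiK R e k) ∞ x = Y k (-c) (-x)` (`b ↦ -b`, period `M`: `Qsx.PhiI_per`). (1) `er = 1`: `QT k = (Φ + s ι^* Φ)/(u om_0)`, `Φ = PhiK R e kk`. `PV (QT) c ∞ x = (u om_0)⁻¹ Σ_k t(z₀^k) Σ_(j,r) coT (Y(m z₀^k, x) + s Y(-m z₀^k, -x))`, `m = c a^(2r) (1+p)^j`.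
`-z₀^k ≡ z₀^(k + (p-1)/2)` modulo `M` (ZC), `s t(z₀^k) = t(-z₀^k) = t(z₀^(k + (p-1)/2))` (`ts : t (-1) = s`), and the sum over `k` modulo `p - 1` is shifted: the second part is `Σ_k t(z₀^k) Σ coT Y(m z₀^k, -x)`. (2) `er = 2`: the same with the families `kkJ p R kk (z₀^k)` (`kkJ p R kk (-z₀^k) = kkJ p R kk (z₀^(k + (p-1)/2))`):
`PV (QT) c ∞ x = (u om_0)⁻¹ Σ_k t(z₀^k) Σ coT (Y (kkJ (z₀^k)) (m z₀^k) x + Y (kkJ (z₀^k)) (m z₀^k) (-x))`. `J(m | p) = J(c | p)` (`a ≡ 1 + p ≡ 1` modulo `p`). GEN: the part of `b_i` in `Y kk (m z₀^k)` is `0` unless `J(c z₀^k nI b_i | p) = 1`. If `J(c | p) = 1` this says that `Y (kkJ (z₀^k)) (m z₀^k) = Y kk (m z₀^k)`; if `J(c | p) = -1`: the `i` in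
`kkJ (z₀^k)` have `J(z₀^k nI b_i | p) = 1`, so `Y (kkJ (z₀^k)) (m z₀^k) = 0`. (`¬ p ∣ m z₀^k`: ZC (1).) -/
def Ob_SYE : Prop :=
  ∀ (p er : ℕ) (A B : ℤ) (P : Ideal (OO A B)) (V : ValuationSubring ℂ) (f : ℕ),
    SetO p er A B P V f → ∀ (ι : Type) [Fintype ι] (R : Reps A B (p * f) ι) (e : OO A B → ℂ),
    IsEI (idl (A := A) (B := B) (p * f)) e → ∀ (kk : ι → ℂ) (u : ℂ) (t : ℤ → ℂ) (q n : ℕ),
    IsTw p q t → ∀ z₀ : ℤ, IsZ0 p n z₀ → ∀ a : ℤ, (p : ℤ) ∣ a - 1 → ∀ c : ℤ, ¬ (p : ℤ) ∣ c →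
    ∀ x : ℚ,
    ((er = 1 ∨ jacobiSym c p = 1) →
      PV p n (ex (-1 / ((p ^ (n + 1) : ℕ) : ℚ))) a z₀ t (QT er p R e kk (t (-1)) u z₀) c ∞
          ((x : ℚ) : OnePoint ℚ) =
        (PV p n (ex (-1 / ((p ^ (n + 1) : ℕ) : ℚ))) a z₀ t (fun _ => PhiK R e kk) c ∞
            ((x : ℚ) : OnePoint ℚ) +
          PV p n (ex (-1 / ((p ^ (n + 1) : ℕ) : ℚ))) a z₀ t (fun _ => PhiK R e kk) c ∞
            ((-x : ℚ) : OnePoint ℚ)) / (u * R.om R.i0)) ∧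
    (er = 2 → jacobiSym c p ≠ 1 →
      PV p n (ex (-1 / ((p ^ (n + 1) : ℕ) : ℚ))) a z₀ t (QT er p R e kk (t (-1)) u z₀) c ∞
        ((x : ℚ) : OnePoint ℚ) = 0)

/-! ## The result -/

/-- (HETA) assembly: module `theorem ob_HETA (hH : Ot_H) (h1 : Ob_HT) (h2 : Ob_SGP) (h3 : Ob_BIR) (h4 : Ob_EPS) (h5 : Ob_SYE) (h6 : Ob_ZC) (h7 : Ob_SGE) : O_HETA`, `OT/HB_HETA.lean`.

PROOF. `κ = kk0 R e kk`, `κ_i^r₁ = 1`. HT for `κ`, `ξ₀`; `Ot_H`: `r₀`; take `max r₀ 2`. Let `r ≥ max r₀ 2`, `ψ` even with `ψ(1 + l^(r-1)) ≠ 1`; `ψ⁻¹` has the same properties, `ψ` is primitive (`TWG.Gau.prim`). `q = l^r`, `f' = f q`, `a = aX p f' = 1 + 2 p f'`: `p ∣ a - 1`, `p² ∤ a - 1`. `Ot_H` for `ψ⁻¹`, `a`: `c`, `p ∤ c`, `v p < v S`, `S = Σ_(e < q) ψ⁻¹ e PV (QT κ) c ∞ (e/q)`.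
SYE: `er = 2`, `J(c | p) ≠ 1` is excluded (`S = 0`), so `S = (u om_0)⁻¹ Σ_e ψ⁻¹ e (G(e/q) + G(-e/q))`, `G x = PV (PhiK R e κ) c ∞ x`, of period 1 (`Qsx.PhiI_per`), so (`ψ⁻¹` even, `e ↦ -e`) `S = (2/(u om_0)) Σ_e ψ⁻¹ e G(e/q)`. Let `e' = e ψ(nm)` (EPS), `R' = RL R l r hl` (same `b`, `om`), `kk'_i = kk_i ψ(nI b_i)`: `kk0 R' e' kk' i = κ_i ψ(nI b_i)⁻¹` (`ψ(nI b_i) ≠ 0`: `nI b_i` is
prime to `l`; `e'(nI b_i) = e(nI b_i) ψ(nI b_i)²`). BIR, summed with these weights: `τ PhiK R' e' (kk0 R' e' kk') ∞ x = Σ_c ψ⁻¹ c PhiK R e κ ∞ (x + c/q)`, `τ = gaussSum ψ⁻¹`, for all `x ∈ ℚ`, hence `τ PV (PhiK R' e' (kk0 ..)) c ∞ 0 = Σ_e ψ⁻¹ e G(e/q)`. SGP for `f'`, `R'`, `e'`, `kk'`: `Σ_j ± SG(c (1+p)^j) = (2 f'/om_0) PV (PhiK R' e' (kk0 ..)) c ∞ 0`. Together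
`S = τ/(u f') Σ_j ± SG(c (1+p)^j)`, `v τ = 1` (`TWG.Gau.gone`, `v q = 1`), `v f' = 1`. ZC: `c ≡ z₀^m (1+p)^k'`, SGE: `SG(c (1+p)^j) = t(z₀)^(-m) SG((1+p)^(k'+j))`, `v t(z₀) = 1`. -/
def Ob_HETA : Prop := Ot_H → O_HETA

end

end Pool.Agent.OT
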