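import Pool.Agent.OT.J_LLV
import Pool.Agent.RI.LAY

/-!
# OT, block J, module ABL (helper88)

The composite of `K₀` and of the `r`-th layer of the cyclotomic `ℤ_l`-extension is abelian over `k`, of degree prime to `p`.
-/

set_option autoImplicit false

namespace Pool.Agent.OT

open _root_.MU3 Pool.Agent.MU3 Pool.Agent.MU3A Pool.Agent.MU3B Pool.Agent.RI Pool.Agent.RID
  Pool.Agent.MUX Pool.Agent.MUXE Pool.Agent.MUXK Pool.Agent.MUXJ
open Pool.Agent.TWR (Gen)

namespace JABL

/-- an element of order `p` of a group with a homomorphism to a group of order prime to `p` -/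
theorem hom_one {G H : Type*} [Group G] [Group H] (φ : G →* H) {p m : ℕ} (hp : p.Prime)
    (hm : ∀ h : H, h ^ m = 1) (hpm : ¬ p ∣ m) {σ : G} (h1 : σ ^ p = 1) : φ σ = 1 := by
  have h2 : (φ σ) ^ p = 1 := by rw [← map_pow, h1, map_one]
  have h3 := hm (φ σ)
  have hc : Nat.Coprime p m := (Nat.Prime.coprime_iff_not_dvd hp).2 hpm
  have h4 : orderOf (φ σ) ∣ Nat.gcd p m :=
    Nat.dvd_gcd (orderOf_dvd_of_pow_eq_one h2) (orderOf_dvd_of_pow_eq_one h3)
  rw [hc] at h4
  exact orderOf_eq_one_iff.1 (Nat.dvd_one.1 h4)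

/-- degree of the composite with a Galois extension of `ℚ` -/
theorem deg {k K₀ L : IntermediateField ℚ ℂ} (hk : k ≤ K₀) (hk' : k ≤ K₀ ⊔ L)
    [IsGalois k (IntermediateField.extendScalars hk)]
    [FiniteDimensional k (IntermediateField.extendScalars hk)]
    [IsGalois k (IntermediateField.extendScalars hk')]
    [FiniteDimensional k (IntermediateField.extendScalars hk')]
    [FiniteDimensional ℚ L] [IsGalois ℚ L] {p : ℕ} (hp : p.Prime)
    (h1 : ¬ p ∣ Module.finrank k (IntermediateField.extendScalars hk))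
    (h2 : ¬ p ∣ Module.finrank ℚ L) :
    ¬ p ∣ Module.finrank k (IntermediateField.extendScalars hk') := by
  intro hd
  set S := IntermediateField.extendScalars hk' with hS
  set E0 := IntermediateField.extendScalars hk with hE0
  have hle : E0 ≤ S := fun x hx => (le_sup_left : K₀ ≤ K₀ ⊔ L) hx
  rw [← IsGalois.card_aut_eq_finrank] at hd
  have : Fact p.Prime := ⟨hp⟩
  obtain ⟨σ, hσ⟩ := exists_prime_orderOf_dvd_card' p hd
  have hσp : σ ^ p = 1 := by rw [← hσ]; exact pow_orderOf_eq_one σ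
  have hσ1 : σ ≠ 1 := by
    intro h
    rw [h, orderOf_one] at hσ
    exact hp.one_lt.ne hσ
  -- `σ` is trivial on `K₀`
  have hK : ∀ (x : ℂ) (hx : x ∈ K₀), σ ⟨x, hle hx⟩ = ⟨x, hle hx⟩ := by
    intro x hx
    let _ : Algebra E0 S := (IntermediateField.inclusion hle).toRingHom.toAlgebra
    have : IsScalarTower k E0 S := IsScalarTower.of_algebraMap_eq fun x => rfl
    have h3 := hom_one (AlgEquiv.restrictNormalHom (F := k) (K₁ := S) E0) hp
      (m := Module.finrank k E0) (fun h => by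
        rw [← IsGalois.card_aut_eq_finrank]
        exact pow_card_eq_one') h1 hσp
    have h4 := AlgEquiv.restrictNormal_commutes σ E0 (⟨x, hx⟩ : E0)
    have h5 : AlgEquiv.restrictNormal σ E0 = 1 := h3
    rw [h5] at h4
    exact h4.symm
  have hL : ∀ (x : ℂ) (hx : x ∈ L), σ ⟨x, (le_sup_right : L ≤ K₀ ⊔ L) hx⟩ =
      ⟨x, (le_sup_right : L ≤ K₀ ⊔ L) hx⟩ := by
    intro x hx
    let j : L →+* S := { toFun := fun y => ⟨y, (le_sup_right : L ≤ K₀ ⊔ L) y.2⟩
                         map_one' := rfl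
                         map_mul' := fun _ _ => rfl
                         map_zero' := rfl
                         map_add' := fun _ _ => rfl }
    let _ : Algebra L S := j.toAlgebra
    have : IsScalarTower ℚ L S := inferInstance
    have hσq : (AlgEquiv.restrictScalars ℚ σ) ^ p = 1 := by
      have h6 : ∀ n : ℕ, ∀ y : S, ((AlgEquiv.restrictScalars ℚ σ) ^ n) y = (σ ^ n) y := by
        intro n
        induction n with
        | zero => intro y; rfl
        | succ n ih =>
          intro y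
          rw [pow_succ, pow_succ, AlgEquiv.mul_apply, AlgEquiv.mul_apply, ih]
          rfl
      ext y
      rw [h6, hσp]
      rfl
    have h3 := hom_one (AlgEquiv.restrictNormalHom (F := ℚ) (K₁ := S) L) hp
      (m := Module.finrank ℚ L) (fun h => by
        rw [← IsGalois.card_aut_eq_finrank]
        exact pow_card_eq_one') h2 hσq
    have h4 := AlgEquiv.restrictNormal_commutes (AlgEquiv.restrictScalars ℚ σ) L (⟨x, hx⟩ : L)
    have h5 : AlgEquiv.restrictNormal (AlgEquiv.restrictScalars ℚ σ) L = 1 := h3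
    rw [h5] at h4
    exact h4.symm
  -- the fixed field
  set F' : IntermediateField k S := IntermediateField.fixedField (Subgroup.zpowers σ) with hF'
  have hmem : ∀ y : S, σ y = y → y ∈ F' := by
    intro y hy
    rw [hF', IntermediateField.mem_fixedField_iff]
    intro f hf
    obtain ⟨n, rfl⟩ := Subgroup.mem_zpowers_iff.1 hf
    have h6 : σ ∈ MulAction.stabilizer (S ≃ₐ[k] S) y := hy
    exact Subgroup.zpow_mem _ h6 n
  have hsup : K₀ ⊔ L ≤ (IntermediateField.lift F').restrictScalars ℚ := by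
    refine sup_le ?_ ?_
    · intro x hx
      exact (IntermediateField.mem_lift (⟨x, hle hx⟩ : S)).2 (hmem _ (hK x hx))
    · intro x hx
      exact (IntermediateField.mem_lift (⟨x, (le_sup_right : L ≤ K₀ ⊔ L) hx⟩ : S)).2
        (hmem _ (hL x hx))
  apply hσ1
  ext y
  have h6 : y ∈ F' := (IntermediateField.mem_lift y).1 (hsup y.2)
  rw [hF', IntermediateField.mem_fixedField_iff] at h6
  rw [h6 σ (Subgroup.mem_zpowers σ)]
  rfl

end JABL

open JABL

/-- Module ABL. -/
theorem t_ABL (l g h : ℕ) (hG : Gen l g h) (A B : ℤ) (T : TorX A B) (hN : NLex A B) (p f : ℕ)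
    (hp : p.Prime) (hp5 : 5 ≤ p) (hf : f ≠ 0) (K₀ : IntermediateField ℚ ℂ) (hk : kk A B ≤ K₀)
    (hK : ∀ y ∈ K₀, y ∈ RF (idl (A := A) (B := B) (lvX p f 0)))
    (hcop : ¬ p ∣ Module.finrank (kk A B) (IntermediateField.extendScalars hk)) (r : ℕ)
    (L : IntermediateField ℚ ℂ) (hL : IsLayer l r L) (hk' : kk A B ≤ K₀ ⊔ L) :
    IsGalois (kk A B) (IntermediateField.extendScalars hk') ∧
    (∀ σ τ : (IntermediateField.extendScalars hk') ≃ₐ[kk A B]
      (IntermediateField.extendScalars hk'), σ * τ = τ * σ) ∧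
    ¬ p ∣ Module.finrank (kk A B) (IntermediateField.extendScalars hk') := by
  have hl := JLLV.gen_cases hG
  have hl0 : l ≠ 0 := by rcases hl with rfl | rfl <;> norm_num
  have hlp : Fact l.Prime := ⟨by rcases hl with rfl | rfl <;> norm_num⟩
  have hq : ∀ f', f' ≠ 0 → lvX p f' 0 ≠ 0 := by
    intro f' hf'
    unfold lvX q0
    split_ifs with h2
    · exact mul_ne_zero (mul_ne_zero hf' (by norm_num)) (pow_ne_zero _ hp.ne_zero)
    · exact mul_ne_zero (mul_ne_zero hf' hp.ne_zero) (pow_ne_zero _ hp.ne_zero)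
  obtain ⟨g1, g2, -⟩ := t_GAL A B T _ (JLLV.idl_ne (hq f hf)) K₀ hk hK
  obtain ⟨g3, g4, g5⟩ := t_GAL A B T _
    (JLLV.idl_ne (hq (f * l ^ (r + h)) (mul_ne_zero hf (pow_ne_zero _ hl0)))) (K₀ ⊔ L) hk'
    (t_LLV l g h hG A B T hN p f hp.ne_zero hf K₀ hK r L hL)
  obtain ⟨h1, h2, -⟩ := LAY_thm l r L hL
  have hdeg : ¬ p ∣ Module.finrank ℚ L := by
    rw [hL.1]
    intro h3
    have h4 := hp.dvd_of_dvd_pow h3
    have h5 := Nat.le_of_dvd (Nat.pos_of_ne_zero hl0) h4
    rcases hl with rfl | rfl <;> omega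
  exact ⟨g3, g5, deg hk hk' hp hcop hdeg⟩

end Pool.Agent.OT
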