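import Pool.Agent.OT.StF
import Pool.Agent.OT.J_ABL
import Pool.Agent.OB.F_SUB
import Pool.Agent.VB.VFinal
import Pool.Agent.VB.V_NRM
import Pool.Agent.MUX.J_LAY

/-!
# OT, FINAL (helper60): field theory for the final statement

`ab_sup`: the composite of `K` and a layer for `l` is abelian over `k`. `exists_res`, `factor`: restriction and factorisation of characters. `two_fields`: a character which is trivial on
`Gal(M/A)` and on `Gal(M/C)` is trivial on `Gal(M/A ∩ C)`.
-/

set_option autoImplicit false

open NumberField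

namespace Pool.Agent.OTF

open _root_.Pool.Agent.MuCyc Pool.Agent.OBF

theorem prime_l {l : ℕ} (hl : l = 2 ∨ l = 3) : l.Prime := by
  rcases hl with rfl | rfl <;> norm_num

theorem lay_fin {l r : ℕ} (hl : l = 2 ∨ l = 3) {B : IntermediateField ℚ ℂ} (hB : IsLayer l r B) :
    FiniteDimensional ℚ B :=
  Module.finite_of_finrank_pos (by rw [hB.1]; exact pow_pos (prime_l hl).pos r)

theorem nrm_lay {l r : ℕ} (hl : l = 2 ∨ l = 3) {B : IntermediateField ℚ ℂ} (hB : IsLayer l r B)
    (k : IntermediateField ℚ ℂ) : VB.Nrm k B := by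
  have : Fact l.Prime := ⟨prime_l hl⟩
  obtain ⟨h1, h2, -⟩ := RI.LAY_thm l r B hB
  have h4 : Normal ℚ B := h2.to_normal
  intro σ _ x hx
  let σ' : ℂ →ₐ[ℚ] ℂ := { (σ : ℂ →+* ℂ) with commutes' := fun q => by simp }
  have h5 := @RI.LAY.mem_of_normal ℚ ℂ _ _ _ B h4
  exact h5 (σ'.comp B.val) ⟨x, hx⟩

theorem cmt_lay {l r : ℕ} (hl : l = 2 ∨ l = 3) {B : IntermediateField ℚ ℂ} (hB : IsLayer l r B)
    (k : IntermediateField ℚ ℂ) : VB.Cmt k B := by
  obtain ⟨-, -, m, hm⟩ := hB
  have h1 : VB.Cmt k (IntermediateField.adjoin ℚ {z : ℂ | z ^ (l ^ m) = 1}) := by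
    apply VB.cmt_adj
    intro σ τ x hx
    have hpos : 0 < l ^ m := pow_pos (prime_l hl).pos m
    obtain ⟨n, hn⟩ : ∃ n, orderOf x = n := ⟨_, rfl⟩
    have hn0 : 0 < n := by
      rw [← hn]
      exact orderOf_pos_iff.2 (isOfFinOrder_iff_pow_eq_one.2 ⟨l ^ m, hpos, hx⟩)
    exact VB.zeta_cmt n σ τ x (by rw [← hn]; exact IsPrimitiveRoot.orderOf x) hn0
  exact fun σ τ hσ hτ x hx => h1 σ τ hσ hτ x (hm hx)

/-- The composite with a layer is abelian over `k`, of degree prime to `p`. -/
theorem ab_sup (p : ℕ) [Fact p.Prime] (hp : 5 ≤ p) {k K B : IntermediateField ℚ ℂ} (h : k ≤ K)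
    (hK : Abelian p h) {l r : ℕ} (hl : l = 2 ∨ l = 3) (hB : IsLayer l r B) (h' : k ≤ K ⊔ B) :
    Abelian p h' := by
  have hpp : p.Prime := Fact.out
  have hfK := hK.fin
  have hfB := lay_fin hl hB
  have hfKB : FiniteDimensional ℚ ↥(K ⊔ B) := IntermediateField.finiteDimensional_sup K B
  have h1 : VB.AbE k K := ⟨h, hK.gal, hK.comm⟩
  obtain ⟨hN, hC⟩ := (VB.abE_iff VB.tb_NRM h inferInstance).1 h1
  have h2 : VB.AbE k (K ⊔ B) := by
    rw [VB.abE_iff VB.tb_NRM h' inferInstance]
    exact ⟨VB.nrm_sup hN (nrm_lay hl hB k), VB.cmt_sup hC (cmt_lay hl hB k)⟩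
  obtain ⟨h3, hG, hc⟩ := h2
  refine ⟨hfKB, hG, hc, ?_⟩
  have : Fact l.Prime := ⟨prime_l hl⟩
  obtain ⟨-, hgB, -⟩ := RI.LAY_thm l r B hB
  have := hgB
  have := hK.gal
  have := hG
  have hfk : FiniteDimensional ℚ k :=
    FiniteDimensional.of_injective (IntermediateField.inclusion h).toLinearMap
      (IntermediateField.inclusion h).injective
  have f1 : FiniteDimensional k (IntermediateField.extendScalars h) := by
    have h1 : FiniteDimensional ℚ (IntermediateField.extendScalars h) :=
      inferInstanceAs (FiniteDimensional ℚ K)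
    exact Module.Finite.of_restrictScalars_finite ℚ k _
  have f2 : FiniteDimensional k (IntermediateField.extendScalars h') := by
    have h1 : FiniteDimensional ℚ (IntermediateField.extendScalars h') :=
      inferInstanceAs (FiniteDimensional ℚ ↥(K ⊔ B))
    exact Module.Finite.of_restrictScalars_finite ℚ k _
  refine OT.JABL.deg h h' hpp hK.prime_to ?_
  rw [hB.1]
  intro h4
  have h5 := hpp.dvd_of_dvd_pow h4
  rw [Nat.prime_dvd_prime_iff_eq hpp (prime_l hl)] at h5
  omega

theorem mul_deg {E F : IntermediateField ℚ ℂ} (hEF : E ≤ F) [FiniteDimensional ℚ F] :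
    Module.finrank ℚ E * Module.finrank E (IntermediateField.extendScalars hEF) =
      Module.finrank ℚ F := by
  let _ := RI.algC hEF
  have : FiniteDimensional ℚ E :=
    FiniteDimensional.of_injective (IntermediateField.inclusion hEF).toLinearMap
      (IntermediateField.inclusion hEF).injective
  have : IsScalarTower ℚ E F := IsScalarTower.of_algebraMap_eq fun _ => rfl
  rw [← RI.finrank_algC hEF]
  exact Module.finrank_mul_finrank ℚ E F

theorem deg_Q (p : ℕ) [Fact p.Prime] (hp : 5 ≤ p) {k K : IntermediateField ℚ ℂ} (h : k ≤ K)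
    (hk : ImQuad k) (hK : Abelian p h) : ¬ p ∣ Module.finrank ℚ K := by
  have hpp : p.Prime := Fact.out
  have := hK.fin
  rw [← mul_deg h, hk.deg, hpp.dvd_mul, not_or]
  refine ⟨fun h0 => ?_, hK.prime_to⟩
  have := Nat.le_of_dvd (by norm_num) h0
  omega

/-- Restriction of automorphisms. -/
theorem exists_res {k L K : IntermediateField ℚ ℂ} [FiniteDimensional ℚ K] (hL : k ≤ L)
    (hLK : L ≤ K) (hK : k ≤ K) (hG : IsGalois k (IntermediateField.extendScalars hL))
    (hGK : IsGalois k (IntermediateField.extendScalars hK)) :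
    ∃ res : Gal hK →* Gal hL, Function.Surjective res ∧ ∀ (s : Gal hK)
      (x : IntermediateField.extendScalars hL) (x' : IntermediateField.extendScalars hK),
      (x' : ℂ) = x → ((s x' : IntermediateField.extendScalars hK) : ℂ) =
        (res s x : IntermediateField.extendScalars hL) := by
  have hE : IntermediateField.extendScalars hL ≤ IntermediateField.extendScalars hK :=
    fun x hx => hLK hx
  let L₀ : IntermediateField k (IntermediateField.extendScalars hK) :=
    IntermediateField.restrict hE
  let e : IntermediateField.extendScalars hL ≃ₐ[k] L₀ := IntermediateField.restrictAlgEquiv hE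
  have hg₀ : IsGalois k L₀ := IsGalois.of_algEquiv e
  refine ⟨((AlgEquiv.autCongr e.symm).toMonoidHom).comp
    (AlgEquiv.restrictNormalHom (F := k) (K₁ := IntermediateField.extendScalars hK) L₀), ?_, ?_⟩
  · exact (AlgEquiv.autCongr e.symm).surjective.comp (AlgEquiv.restrictNormalHom_surjective _)
  intro s x x' hx
  have h3 := AlgEquiv.restrictNormal_commutes s L₀ (e x)
  have h4 : (algebraMap L₀ (IntermediateField.extendScalars hK)) (e x) = x' := by
    apply Subtype.ext
    rw [hx]
    rfl
  rw [h4] at h3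
  rw [← h3]
  show _ = ((e.symm ((AlgEquiv.restrictNormal s L₀) (e x)) : IntermediateField.extendScalars hL) :
    ℂ)
  have h5 : ∀ y : L₀, ((e.symm y : IntermediateField.extendScalars hL) : ℂ) =
      ((algebraMap L₀ (IntermediateField.extendScalars hK)) y :
        IntermediateField.extendScalars hK) := by
    intro y
    obtain ⟨z, rfl⟩ := e.surjective y
    rw [e.symm_apply_apply]
    rfl
  rw [h5]

theorem res_unique {k L K : IntermediateField ℚ ℂ} {hL : k ≤ L} (hLK : L ≤ K) {hK : k ≤ K}
    {res : Gal hK →* Gal hL} (hres : ∀ (s : Gal hK)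
      (x : IntermediateField.extendScalars hL) (x' : IntermediateField.extendScalars hK),
      (x' : ℂ) = x → ((s x' : IntermediateField.extendScalars hK) : ℂ) =
        (res s x : IntermediateField.extendScalars hL)) (s : Gal hL) (s' : Gal hK)
    (h : ∀ (x : IntermediateField.extendScalars hL) (x' : IntermediateField.extendScalars hK),
      (x' : ℂ) = x → ((s' x' : IntermediateField.extendScalars hK) : ℂ) =
        (s x : IntermediateField.extendScalars hL)) : res s' = s := by
  apply AlgEquiv.ext
  intro x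
  apply Subtype.ext
  rw [← hres s' x ⟨x, hLK x.2⟩ rfl, h x ⟨x, hLK x.2⟩ rfl]

/-- A character which is trivial on `Gal(K/L)` comes from `Gal(L/k)`. -/
theorem factor (p : ℕ) [Fact p.Prime] {k L K : IntermediateField ℚ ℂ} [FiniteDimensional ℚ K]
    (hL : k ≤ L) (hLK : L ≤ K) (hK : k ≤ K)
    (hG : IsGalois k (IntermediateField.extendScalars hL))
    (hGK : IsGalois k (IntermediateField.extendScalars hK)) (χ : Chr p hK)
    (hχ : ∀ s : Gal hK, (∀ x : IntermediateField.extendScalars hK, (x : ℂ) ∈ L → s x = x) →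
      χ s = 1) :
    ∃ χ₁ : Chr p hL, ∀ (s : Gal hL) (s' : Gal hK),
      (∀ (x : IntermediateField.extendScalars hL) (x' : IntermediateField.extendScalars hK),
        (x' : ℂ) = x → ((s' x' : IntermediateField.extendScalars hK) : ℂ) =
          (s x : IntermediateField.extendScalars hL)) → χ s' = χ₁ s := by
  obtain ⟨res, hsur, hres⟩ := exists_res hL hLK hK hG hGK
  have hker : res.ker ≤ χ.ker := by
    intro s hs
    rw [MonoidHom.mem_ker] at hs ⊢
    apply hχ
    intro x hx
    apply Subtype.ext
    rw [hres s ⟨x, hx⟩ x rfl, hs]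
    rfl
  refine ⟨res.liftOfRightInverse (Function.surjInv hsur) (Function.rightInverse_surjInv hsur)
    ⟨χ, hker⟩, ?_⟩
  intro s s' h
  rw [← res_unique hLK hres s s' h]
  exact (MonoidHom.liftOfRightInverse_comp_apply res (Function.surjInv hsur)
    (Function.rightInverse_surjInv hsur) ⟨χ, hker⟩ s').symm

/-- Galois theory: a homomorphism which is trivial on `Gal(M/A)` and on `Gal(M/C)` is trivial on `Gal(M/A ∩ C)`. -/
theorem two_fields {k A C M : IntermediateField ℚ ℂ} [FiniteDimensional ℚ M] (hA : k ≤ A)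
    (hC : k ≤ C) (hAM : A ≤ M) (hCM : C ≤ M) (hM : k ≤ M)
    (hGM : IsGalois k (IntermediateField.extendScalars hM)) {X : Type} [Group X]
    (χ : Gal hM →* X)
    (h1 : ∀ s : Gal hM, (∀ x : IntermediateField.extendScalars hM, (x : ℂ) ∈ A → s x = x) →
      χ s = 1)
    (h2 : ∀ s : Gal hM, (∀ x : IntermediateField.extendScalars hM, (x : ℂ) ∈ C → s x = x) →
      χ s = 1)
    (s : Gal hM) (hs : ∀ x : IntermediateField.extendScalars hM, (x : ℂ) ∈ A ⊓ C → s x = x) :
    χ s = 1 := by
  have fdk : FiniteDimensional k (IntermediateField.extendScalars hM) := by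
    have h1 : FiniteDimensional ℚ (IntermediateField.extendScalars hM) :=
      inferInstanceAs (FiniteDimensional ℚ M)
    exact Module.Finite.of_restrictScalars_finite ℚ k _
  have key : ∀ (D : IntermediateField ℚ ℂ) (hD : k ≤ D) (_ : D ≤ M)
      (_ : ∀ s : Gal hM, (∀ x : IntermediateField.extendScalars hM, (x : ℂ) ∈ D → s x = x) →
        χ s = 1), ∀ x ∈ IntermediateField.fixedField χ.ker, ((x :
          IntermediateField.extendScalars hM) : ℂ) ∈ D := by
    intro D hD hDM hχ x hx
    have hE : IntermediateField.extendScalars hD ≤ IntermediateField.extendScalars hM :=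
      fun x hx => hDM hx
    have h3 : (IntermediateField.restrict hE).fixingSubgroup ≤ χ.ker := by
      intro s hs
      rw [MonoidHom.mem_ker]
      apply hχ
      intro y hy
      exact (IntermediateField.mem_fixingSubgroup_iff _ _).1 hs y
        ((IntermediateField.mem_restrict hE y).2 hy)
    have h4 : IntermediateField.fixedField χ.ker ≤ IntermediateField.restrict hE := by
      have h5 := IntermediateField.fixedField_antitone h3
      rwa [IsGalois.fixedField_fixingSubgroup] at h5
    exact (IntermediateField.mem_restrict hE x).1 (h4 hx)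
  rw [← MonoidHom.mem_ker, ← IntermediateField.fixingSubgroup_fixedField χ.ker,
    IntermediateField.mem_fixingSubgroup_iff]
  intro x hx
  exact hs x ⟨key A hA hAM h1 x hx, key C hC hCM h2 x hx⟩

end Pool.Agent.OTF
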