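import Pool.Agent.OT.StF
import Pool.Agent.OT.F_T1
import Pool.Agent.OB.StF2
import Pool.Agent.MUX.StJX
import Pool.Agent.TWF.CHR
import Pool.Agent.TWF.CYC
import Pool.Agent.TWF.COR
import Pool.Agent.VB.VFinal

/-!
# OT, module NEWK (helper84): the new characters for all `K`, from `K(μ_p)`

`K' = K(μ_p)`. If `B' = Ln (r+1)` is not contained in `K'` then there is a `t ∈ Gal(K'B'/K'B)` which is not trivial on `B'`; `Gal(B'/B)` has
prime order, so every `s ∈ Gal(K B'/K B)` is the restriction of a power of `t`. So the inflation `χ'` of a new character `χ` is new, and `μ = 0` for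
`χ'` gives `μ = 0` for `χ` (`Sf_IFM`).
-/

set_option autoImplicit false

open NumberField

namespace Pool.Agent.OTF

open _root_.Pool.Agent.RI _root_.Pool.Agent.RID _root_.Pool.Agent.MU3

namespace NEWKx

/-- two maps on `C` which agree on `K` and on `B` agree on `K ⊔ B` -/
theorem ext_sup {K B C : IntermediateField ℚ ℂ} (φ ψ : ↥C →+* ℂ)
    (h1 : ∀ x : ↥C, (x : ℂ) ∈ K → φ x = ψ x) (h2 : ∀ x : ↥C, (x : ℂ) ∈ B → φ x = ψ x)
    (hK : K ≤ C) (hB : B ≤ C) (x : ↥C) (hx : (x : ℂ) ∈ K ⊔ B) : φ x = ψ x := by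
  let T : IntermediateField ℚ ℂ :=
    { carrier := {z | ∃ hz : z ∈ C, φ ⟨z, hz⟩ = ψ ⟨z, hz⟩}
      mul_mem' := by
        rintro a b ⟨ha, ha'⟩ ⟨hb, hb'⟩
        refine ⟨mul_mem ha hb, ?_⟩
        have e : (⟨a * b, mul_mem ha hb⟩ : ↥C) = ⟨a, ha⟩ * ⟨b, hb⟩ := rfl
        rw [e, map_mul, map_mul, ha', hb']
      add_mem' := by
        rintro a b ⟨ha, ha'⟩ ⟨hb, hb'⟩
        refine ⟨add_mem ha hb, ?_⟩
        have e : (⟨a + b, add_mem ha hb⟩ : ↥C) = ⟨a, ha⟩ + ⟨b, hb⟩ := rfl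
        rw [e, map_add, map_add, ha', hb']
      algebraMap_mem' := by
        intro r
        refine ⟨algebraMap_mem _ r, ?_⟩
        have e : (⟨algebraMap ℚ ℂ r, algebraMap_mem _ r⟩ : ↥C) = (r : ↥C) := by
          apply Subtype.ext
          simp
        rw [e, map_ratCast, map_ratCast]
      inv_mem' := by
        rintro a ⟨ha, ha'⟩
        refine ⟨inv_mem ha, ?_⟩
        have e : (⟨a⁻¹, inv_mem ha⟩ : ↥C) = (⟨a, ha⟩)⁻¹ := rfl
        rw [e, map_inv₀, map_inv₀, ha'] }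
  have hT : K ⊔ B ≤ T := by
    apply sup_le
    · intro a ha
      exact ⟨hK ha, h1 _ ha⟩
    · intro b hb
      exact ⟨hB hb, h2 _ hb⟩
  obtain ⟨hz, hx'⟩ := hT hx
  exact hx'

/-- the automorphisms of `B_(r+1)` over `B_r` are the powers of each nontrivial one -/
theorem lay_pow (l r : ℕ) [hl : Fact l.Prime] (B B' : IntermediateField ℚ ℂ)
    (hB : RI.IsLayer l r B) (hB' : RI.IsLayer l (r + 1) B') (hle : B ≤ B')
    (g₁ g₂ : ↥B' ≃ₐ[ℚ] ↥B') (h1 : ∀ x : ↥B', (x : ℂ) ∈ B → g₁ x = x)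
    (h2 : ∀ x : ↥B', (x : ℂ) ∈ B → g₂ x = x) (h3 : g₂ ≠ 1) : ∃ m : ℕ, g₁ = g₂ ^ m := by
  obtain ⟨fdB, hGB, -⟩ := LAY_thm l (r + 1) B' hB'
  let i1 : Algebra B B' := (IntermediateField.inclusion hle).toRingHom.toAlgebra
  have tow : IsScalarTower ℚ B B' := IsScalarTower.of_algebraMap_eq (fun _ => rfl)
  have hBf : FiniteDimensional ℚ B := FiniteDimensional.of_injective
    (IntermediateField.inclusion hle).toLinearMap
    (IntermediateField.inclusion hle).toRingHom.injective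
  have hf : FiniteDimensional B B' := Module.Finite.of_restrictScalars_finite ℚ B B'
  have hG' : IsGalois B B' := IsGalois.tower_top_of_isGalois ℚ B B'
  have hfr : Module.finrank B B' = l := by
    have h1 := Module.finrank_mul_finrank ℚ B B'
    rw [hB.1, hB'.1, pow_succ] at h1
    exact Nat.eq_of_mul_eq_mul_left (pow_pos hl.out.pos _) h1
  have hc : Nat.card (B' ≃ₐ[B] B') = l := by rw [IsGalois.card_aut_eq_finrank, hfr]
  let τ₁ : B' ≃ₐ[B] B' := AlgEquiv.ofRingEquiv (f := g₁.toRingEquiv)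
    (fun x => h1 _ x.2)
  let τ₂ : B' ≃ₐ[B] B' := AlgEquiv.ofRingEquiv (f := g₂.toRingEquiv)
    (fun x => h2 _ x.2)
  have h4 : τ₂ ≠ 1 := by
    intro h
    apply h3
    apply AlgEquiv.ext
    intro x
    exact congrArg (fun t : B' ≃ₐ[B] B' => t x) h
  have h5 : τ₁ ∈ Submonoid.powers τ₂ := by
    have := isOfFinOrder_of_finite τ₂
    rw [mem_powers_iff_mem_zpowers]
    exact mem_zpowers_of_prime_card hc h4
  obtain ⟨m, hm⟩ := h5
  refine ⟨m, ?_⟩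
  have h6 : ∀ (n : ℕ) (x : ↥B'), (τ₂ ^ n) x = (g₂ ^ n) x := by
    intro n
    induction n with
    | zero => intro x; rfl
    | succ n ih =>
      intro x
      rw [pow_succ, pow_succ, AlgEquiv.mul_apply, AlgEquiv.mul_apply, ih]
      rfl
  apply AlgEquiv.ext
  intro x
  have hm' : τ₂ ^ m = τ₁ := hm
  rw [← h6 m x, hm']
  rfl

/-- an automorphism over `K ⊔ B` which is not trivial on `B'` -/
theorem exists_t (l r : ℕ) [hl : Fact l.Prime] {k K : IntermediateField ℚ ℂ}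
    (B B' : IntermediateField ℚ ℂ) (hB : RI.IsLayer l r B) (hB' : RI.IsLayer l (r + 1) B')
    (hle : B ≤ B') (hK : k ≤ K) (hC : k ≤ K ⊔ B') [FiniteDimensional ℚ ↥(K ⊔ B')]
    (hG : letI := algC hC; IsGalois k ↥(K ⊔ B')) (hn : ¬ B' ≤ K) :
    letI := algC hC
    ∃ (t : ↥(K ⊔ B') ≃ₐ[k] ↥(K ⊔ B')) (g : ↥B' ≃ₐ[ℚ] ↥B'),
      (∀ x : ↥(K ⊔ B'), (x : ℂ) ∈ K → t x = x) ∧
      (∀ (x : ↥(K ⊔ B')) (y : ↥B'), (x : ℂ) = y → ((t x : ↥(K ⊔ B')) : ℂ) = (g y : ↥B')) ∧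
      g ≠ 1 ∧ ∀ x : ↥B', (x : ℂ) ∈ B → g x = x := by
  let _ := algC hC
  let _ := algC (le_sup_right : B' ≤ K ⊔ B')
  obtain ⟨fdB, hGB, -⟩ := LAY_thm l (r + 1) B' hB'
  have tB : IsScalarTower ℚ B' ↥(K ⊔ B') := IsScalarTower.of_algebraMap_eq (fun _ => rfl)
  have tk : IsScalarTower ℚ k ↥(K ⊔ B') := IsScalarTower.of_algebraMap_eq (fun _ => rfl)
  obtain ⟨x, hxB, hxK⟩ := Set.not_subset.1 hn
  have h1 : ∃ σ : ↥(K ⊔ B') ≃ₐ[k] ↥(K ⊔ B'), (∀ y : ↥(K ⊔ B'), (y : ℂ) ∈ K → σ y = y) ∧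
      σ ⟨x, (le_sup_right : B' ≤ K ⊔ B') hxB⟩ ≠ ⟨x, (le_sup_right : B' ≤ K ⊔ B') hxB⟩ := by
    by_contra hcon
    apply hxK
    refine TWF.fix_mem hK (le_sup_left : K ≤ K ⊔ B') hC hG
      ⟨x, (le_sup_right : B' ≤ K ⊔ B') hxB⟩ fun σ hσ => ?_
    by_contra h2
    exact hcon ⟨σ, hσ, h2⟩
  obtain ⟨σ, hσK, hσx⟩ := h1
  -- the restriction to `B'`
  let res : (↥(K ⊔ B') ≃ₐ[ℚ] ↥(K ⊔ B')) →* (↥B' ≃ₐ[ℚ] ↥B') :=
    AlgEquiv.restrictNormalHom ↥B'
  have hres : ∀ (τ : ↥(K ⊔ B') ≃ₐ[ℚ] ↥(K ⊔ B')) (x : ↥(K ⊔ B')) (y : ↥B'), (x : ℂ) = y →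
      ((τ x : ↥(K ⊔ B')) : ℂ) = (res τ y : ↥B') := by
    intro τ x y hxy
    have h2 := AlgEquiv.restrictNormal_commutes τ ↥B' y
    have h3 : x = algebraMap ↥B' ↥(K ⊔ B') y := Subtype.ext hxy
    rw [h3, ← h2]
    rfl
  let σQ : ↥(K ⊔ B') ≃ₐ[ℚ] ↥(K ⊔ B') := σ.restrictScalars ℚ
  have hg1 : res σQ ≠ 1 := by
    intro h2
    apply hσx
    apply Subtype.ext
    have h3 := hres σQ ⟨x, (le_sup_right : B' ≤ K ⊔ B') hxB⟩ ⟨x, hxB⟩ rfl
    rw [h2] at h3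
    exact h3
  have hcard : Nat.card (↥B' ≃ₐ[ℚ] ↥B') = l ^ (r + 1) := by
    rw [IsGalois.card_aut_eq_finrank, hB'.1]
  have hdvd : orderOf (res σQ) ∣ l ^ (r + 1) := hcard ▸ orderOf_dvd_natCard _
  obtain ⟨e, he, hoe⟩ := (Nat.dvd_prime_pow hl.out).1 hdvd
  have he0 : e ≠ 0 := by
    rintro rfl
    rw [pow_zero, orderOf_eq_one_iff] at hoe
    exact hg1 hoe
  obtain ⟨e, rfl⟩ := Nat.exists_eq_succ_of_ne_zero he0
  set g : ↥B' ≃ₐ[ℚ] ↥B' := (res σQ) ^ (l ^ e) with hgdef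
  have hgl : g ^ l = 1 := by
    rw [hgdef, ← pow_mul, ← pow_succ, ← hoe, pow_orderOf_eq_one]
  have hgne : g ≠ 1 := by
    intro h2
    have h3 := orderOf_dvd_of_pow_eq_one h2
    rw [hoe] at h3
    have h4 := (Nat.pow_dvd_pow_iff_le_right hl.out.one_lt).1 h3
    omega
  have hσn : ∀ (n : ℕ) (y : ↥(K ⊔ B')), (y : ℂ) ∈ K → (σ ^ n) y = y := by
    intro n
    induction n with
    | zero => intro y _; rfl
    | succ n ih =>
      intro y hy
      rw [pow_succ, AlgEquiv.mul_apply, hσK y hy, ih y hy]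
  refine ⟨σ ^ (l ^ e), g, hσn _, ?_, hgne, ?_⟩
  · intro x y hxy
    have h2 : ((σ ^ (l ^ e)) x : ↥(K ⊔ B')) = (σQ ^ (l ^ e)) x := by
      have h3 : ∀ (n : ℕ) (z : ↥(K ⊔ B')), (σ ^ n) z = (σQ ^ n) z := by
        intro n
        induction n with
        | zero => intro z; rfl
        | succ n ih =>
          intro z
          rw [pow_succ, pow_succ, AlgEquiv.mul_apply, AlgEquiv.mul_apply, ih]
          rfl
      exact h3 _ x
    rw [h2, hres (σQ ^ (l ^ e)) x y hxy, map_pow]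
  · have h2 := TWF.lay_fix l (r + 1) 1 (by omega) B B' hB hB' hle g (by rw [pow_one]; exact hgl)
    exact h2

end NEWKx

open NEWKx in
/-- NEWK -/
theorem t_NEWK (hLAY : _root_.Pool.Agent.MUXJ.Sj_LAY) (hIFM : _root_.Pool.Agent.OBF.Sf_IFM)
    (hNEW : S_NEW) : S_NEWK := by
  intro p _ hp k K h hk hK l hl
  have hpp : p.Prime := Fact.out
  have hfK := hK.fin
  have hlp : Fact l.Prime := ⟨prime_l hl⟩
  have hfk : FiniteDimensional ℚ k :=
    FiniteDimensional.of_injective (IntermediateField.inclusion h).toLinearMap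
      (IntermediateField.inclusion h).injective
  -- the field `K' = K(ζ)`
  obtain ⟨ζ, hζ⟩ : ∃ ζ : ℂ, IsPrimitiveRoot ζ p :=
    ⟨_, Complex.isPrimitiveRoot_exp p hpp.ne_zero⟩
  obtain ⟨hfK', hK'⟩ := VB.abE_zeta VB.tb_NRM p hpp.pos (⟨h, hK.gal, hK.comm⟩ : VB.AbE k K) ζ hζ
  set K' : IntermediateField ℚ ℂ := K ⊔ IntermediateField.adjoin ℚ {ζ} with hK'def
  obtain ⟨hkK', hG', hc'⟩ := hK'
  have hKK' : K ≤ K' := le_sup_left
  have hζK' : ζ ∈ K' := (le_sup_right : _ ≤ K') (IntermediateField.mem_adjoin_simple_self ℚ ζ)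
  -- the degree
  have hdeg : ¬ p ∣ Module.finrank k (IntermediateField.extendScalars hkK') := by
    have e1 : IntermediateField.extendScalars hKK' = IntermediateField.adjoin K {ζ} := by
      apply le_antisymm
      · have h2 : K' ≤ (IntermediateField.adjoin K {ζ}).restrictScalars ℚ := by
          refine sup_le ?_ ?_
          · intro x hx
            exact (IntermediateField.adjoin K {ζ}).algebraMap_mem ⟨x, hx⟩
          · rw [IntermediateField.adjoin_simple_le_iff]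
            exact IntermediateField.mem_adjoin_simple_self K ζ
        exact fun x hx => h2 hx
      · rw [IntermediateField.adjoin_simple_le_iff]
        exact hζK'
    have hint : IsIntegral K ζ := (hζ.isIntegral hpp.pos).tower_top
    have e2 : Module.finrank K (IntermediateField.extendScalars hKK') < p := by
      rw [e1, IntermediateField.adjoin.finrank hint]
      have h3 : minpoly K ζ ∣ Polynomial.cyclotomic p K := by
        apply minpoly.dvd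
        rw [Polynomial.aeval_def, Polynomial.eval₂_eq_eval_map, Polynomial.map_cyclotomic]
        exact hζ.isRoot_cyclotomic hpp.pos
      have h5 := Polynomial.natDegree_le_of_dvd h3 (Polynomial.cyclotomic_ne_zero p K)
      rw [Polynomial.natDegree_cyclotomic, Nat.totient_prime hpp] at h5
      have := hpp.one_lt
      omega
    have e3 : Module.finrank k (IntermediateField.extendScalars h) *
        Module.finrank K (IntermediateField.extendScalars hKK') =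
        Module.finrank k (IntermediateField.extendScalars hkK') := by
      let _ := algC h
      let _ := algC hKK'
      let _ := algC hkK'
      have : IsScalarTower k K K' := towerC h hKK'
      rw [← finrank_algC h, ← finrank_algC hKK', ← finrank_algC hkK']
      exact Module.finrank_mul_finrank k K K'
    rw [← e3, hpp.dvd_mul, not_or]
    refine ⟨hK.prime_to, fun h0 => ?_⟩
    have h6 : 0 < Module.finrank K (IntermediateField.extendScalars hKK') := by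
      have f1 : FiniteDimensional K (IntermediateField.extendScalars hKK') := by
        have h1 : FiniteDimensional ℚ (IntermediateField.extendScalars hKK') :=
          inferInstanceAs (FiniteDimensional ℚ K')
        exact Module.Finite.of_restrictScalars_finite ℚ K _
      exact Module.finrank_pos
    have := Nat.le_of_dvd h6 h0
    omega
  have hAb : MuCyc.Abelian p hkK' := ⟨hfK', hG', hc', hdeg⟩
  obtain ⟨r₀, hr₀⟩ := hNEW p hp k K' hkK' hk hAb ⟨ζ, hζK', hζ⟩ l hl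
  -- the layers
  obtain ⟨Ln, hlay, hmono, huniq⟩ := hLAY l hl
  have hex : ∃ j : ℕ, ∀ r, j ≤ r → ¬ Ln (r + 1) ≤ K' := by
    refine ⟨Module.finrank ℚ K', fun r hr hle => ?_⟩
    have h1 : Module.finrank ℚ (Ln (r + 1)) ∣ Module.finrank ℚ K' := by
      rw [← mul_deg hle]
      exact Dvd.intro _ rfl
    rw [(hlay (r + 1)).1] at h1
    have h2 := Nat.le_of_dvd Module.finrank_pos h1
    have h3 : r + 1 < l ^ (r + 1) := Nat.lt_pow_self hlp.out.one_lt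
    omega
  obtain ⟨j, hj⟩ := hex
  refine ⟨max r₀ j, fun r hr B B' hB hB' h' χ hχ => ?_⟩
  obtain rfl : B = Ln r := huniq r B hB
  obtain rfl : B' = Ln (r + 1) := huniq (r + 1) B' hB'
  have hle : Ln r ≤ Ln (r + 1) := hmono (Nat.le_succ r)
  have hnot := hj r (le_trans (le_max_right _ _) hr)
  have h'' : k ≤ K' ⊔ Ln (r + 1) := hkK'.trans le_sup_left
  have hA1 : MuCyc.Abelian p h' := ab_sup p hp h hK hl (hlay (r + 1)) h'
  have hA2 : MuCyc.Abelian p h'' := ab_sup p hp hkK' hAb hl (hlay (r + 1)) h''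
  have hf1 := hA1.fin
  have hf2 := hA2.fin
  have hLL : K ⊔ Ln (r + 1) ≤ K' ⊔ Ln (r + 1) := sup_le_sup_right hKK' _
  obtain ⟨res, -, hres⟩ := exists_res h' hLL h'' hA1.gal hA2.gal
  refine hIFM p (by omega) k (K ⊔ Ln (r + 1)) (K' ⊔ Ln (r + 1)) h' h'' hLL hf2 hA2.gal hA2.comm
    (deg_Q p hp h'' hk hA2) χ (χ.comp res) ?_ ?_
  · intro s s' hs
    show χ (res s') = χ s
    congr 1
    apply AlgEquiv.ext
    intro x
    apply Subtype.ext
    rw [← hres s' x ⟨(x : ℂ), hLL x.2⟩ rfl]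
    exact hs x ⟨(x : ℂ), hLL x.2⟩ rfl
  · refine hr₀ r (le_trans (le_max_left _ _) hr) (Ln r) (Ln (r + 1)) hB hB' h'' (χ.comp res) ?_
    obtain ⟨s, hs, hχs⟩ := hχ
    -- `s` on `B'`
    let aC := algC h'
    let aC' := algC h''
    have g1 : IsGalois k ↥(K ⊔ Ln (r + 1)) := (isGalois_algC h').2 hA1.gal
    have g2 : IsGalois k ↥(K' ⊔ Ln (r + 1)) := (isGalois_algC h'').2 hA2.gal
    obtain ⟨t, g, ht1, ht2, hgne, hgB⟩ := exists_t l r (Ln r) (Ln (r + 1)) hB hB' hle hkK' h'' g2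
      hnot
    let s₁ : ↥(K ⊔ Ln (r + 1)) ≃ₐ[k] ↥(K ⊔ Ln (r + 1)) := AlgEquiv.autCongr (extEquiv h') s
    have hs₁ : ∀ x : ↥(K ⊔ Ln (r + 1)), ((s₁ x : ↥(K ⊔ Ln (r + 1))) : ℂ) =
        (s ⟨(x : ℂ), x.2⟩ : IntermediateField.extendScalars h') := fun x => rfl
    let _ := algC (le_sup_right : Ln (r + 1) ≤ K ⊔ Ln (r + 1))
    obtain ⟨fdB, hGB, -⟩ := LAY_thm l (r + 1) (Ln (r + 1)) (hlay (r + 1))
    have tB : IsScalarTower ℚ (Ln (r + 1)) ↥(K ⊔ Ln (r + 1)) :=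
      IsScalarTower.of_algebraMap_eq (fun _ => rfl)
    let g₁ : ↥(Ln (r + 1)) ≃ₐ[ℚ] ↥(Ln (r + 1)) :=
      AlgEquiv.restrictNormalHom ↥(Ln (r + 1)) (s₁.restrictScalars ℚ)
    have hg₁ : ∀ (x : ↥(K ⊔ Ln (r + 1))) (y : ↥(Ln (r + 1))), (x : ℂ) = y →
        ((s₁ x : ↥(K ⊔ Ln (r + 1))) : ℂ) = (g₁ y : ↥(Ln (r + 1))) := by
      intro x y hxy
      have h2 := AlgEquiv.restrictNormal_commutes (s₁.restrictScalars ℚ) ↥(Ln (r + 1)) y
      have h3 : x = algebraMap ↥(Ln (r + 1)) ↥(K ⊔ Ln (r + 1)) y := Subtype.ext hxy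
      rw [h3]
      exact (congrArg Subtype.val h2).symm
    have hg₁B : ∀ x : ↥(Ln (r + 1)), (x : ℂ) ∈ Ln r → g₁ x = x := by
      intro x hx
      apply Subtype.ext
      rw [← hg₁ ⟨(x : ℂ), (le_sup_right : Ln (r + 1) ≤ K ⊔ Ln (r + 1)) x.2⟩ x rfl, hs₁]
      exact congrArg Subtype.val (hs ⟨(x : ℂ), (le_sup_right : Ln (r + 1) ≤ K ⊔ Ln (r + 1)) x.2⟩
        ((le_sup_right : Ln r ≤ K ⊔ Ln r) hx))
    obtain ⟨m, hm⟩ := lay_pow l r (Ln r) (Ln (r + 1)) hB hB' hle g₁ g hg₁B hgB hgne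
    -- the power of `t`
    have htm : ∀ (n : ℕ), (∀ x : ↥(K' ⊔ Ln (r + 1)), (x : ℂ) ∈ K' → (t ^ n) x = x) ∧
        ∀ (x : ↥(K' ⊔ Ln (r + 1))) (y : ↥(Ln (r + 1))), (x : ℂ) = y →
          (((t ^ n) x : ↥(K' ⊔ Ln (r + 1))) : ℂ) = ((g ^ n) y : ↥(Ln (r + 1))) := by
      intro n
      induction n with
      | zero => exact ⟨fun x _ => rfl, fun x y hxy => hxy⟩
      | succ n ih =>
        obtain ⟨i1, i2⟩ := ih
        refine ⟨fun x hx => ?_, fun x y hxy => ?_⟩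
        · rw [pow_succ, AlgEquiv.mul_apply, ht1 x hx, i1 x hx]
        · rw [pow_succ, pow_succ, AlgEquiv.mul_apply, AlgEquiv.mul_apply]
          exact i2 _ _ (ht2 x y hxy)
    obtain ⟨w1, w2⟩ := htm m
    let u : MuCyc.Gal h'' := (AlgEquiv.autCongr (extEquiv h'')).symm (t ^ m)
    have hu : ∀ x : IntermediateField.extendScalars h'',
        ((u x : IntermediateField.extendScalars h'') : ℂ) =
          ((t ^ m) ⟨(x : ℂ), x.2⟩ : ↥(K' ⊔ Ln (r + 1))) := fun x => rfl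
    refine ⟨u, ?_, ?_⟩
    · intro x hx
      apply Subtype.ext
      rw [hu]
      have h3 := ext_sup (K := K') (B := Ln r) (C := K' ⊔ Ln (r + 1))
        (((K' ⊔ Ln (r + 1)).val : ↥(K' ⊔ Ln (r + 1)) →+* ℂ).comp
          ((t ^ m : ↥(K' ⊔ Ln (r + 1)) ≃ₐ[k] ↥(K' ⊔ Ln (r + 1))) :
            ↥(K' ⊔ Ln (r + 1)) →+* ↥(K' ⊔ Ln (r + 1))))
        ((K' ⊔ Ln (r + 1)).val : ↥(K' ⊔ Ln (r + 1)) →+* ℂ)
        (fun y hy => congrArg Subtype.val (w1 y hy))
        (fun y hy => by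
          have h4 := w2 y ⟨(y : ℂ), hle hy⟩ rfl
          rw [← hm, hg₁B ⟨(y : ℂ), hle hy⟩ hy] at h4
          exact h4)
        le_sup_left (hle.trans le_sup_right) ⟨(x : ℂ), x.2⟩ hx
      exact h3
    · have h3 : res u = s := by
        apply AlgEquiv.ext
        intro x
        apply Subtype.ext
        rw [← hres u x ⟨(x : ℂ), hLL x.2⟩ rfl, hu]
        have h4 := ext_sup (K := K) (B := Ln (r + 1)) (C := K ⊔ Ln (r + 1))
          ((((K' ⊔ Ln (r + 1)).val : ↥(K' ⊔ Ln (r + 1)) →+* ℂ).comp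
            ((t ^ m : ↥(K' ⊔ Ln (r + 1)) ≃ₐ[k] ↥(K' ⊔ Ln (r + 1))) :
              ↥(K' ⊔ Ln (r + 1)) →+* ↥(K' ⊔ Ln (r + 1)))).comp
            (IntermediateField.inclusion hLL : ↥(K ⊔ Ln (r + 1)) →+* ↥(K' ⊔ Ln (r + 1))))
          (((K ⊔ Ln (r + 1)).val : ↥(K ⊔ Ln (r + 1)) →+* ℂ).comp
            ((s₁ : ↥(K ⊔ Ln (r + 1)) ≃ₐ[k] ↥(K ⊔ Ln (r + 1))) :
              ↥(K ⊔ Ln (r + 1)) →+* ↥(K ⊔ Ln (r + 1))))
          (fun y hy => by
            have h5 : (t ^ m) ⟨(y : ℂ), hLL y.2⟩ = ⟨(y : ℂ), hLL y.2⟩ := w1 _ (hKK' hy)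
            have h6 : s ⟨(y : ℂ), y.2⟩ = ⟨(y : ℂ), y.2⟩ :=
              hs ⟨(y : ℂ), y.2⟩ ((le_sup_left : K ≤ K ⊔ Ln r) hy)
            show (((t ^ m) ⟨(y : ℂ), hLL y.2⟩ : ↥(K' ⊔ Ln (r + 1))) : ℂ) =
              ((s₁ y : ↥(K ⊔ Ln (r + 1))) : ℂ)
            rw [h5, hs₁, h6])
          (fun y hy => by
            have h5 := w2 ⟨(y : ℂ), hLL y.2⟩ ⟨(y : ℂ), hy⟩ rfl
            have h6 := hg₁ y ⟨(y : ℂ), hy⟩ rfl
            show (((t ^ m) ⟨(y : ℂ), hLL y.2⟩ : ↥(K' ⊔ Ln (r + 1))) : ℂ) =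
              ((s₁ y : ↥(K ⊔ Ln (r + 1))) : ℂ)
            rw [h5, h6, hm])
          le_sup_left le_sup_right ⟨(x : ℂ), x.2⟩ x.2
        exact h4
      show χ (res u) ≠ 1
      rw [h3]
      exact hχs

end Pool.Agent.OTF
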