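import Pool.Agent.OT.StL
import Pool.Agent.OB.StF2

/-!
# OT (Theorem T, problem MP_b78433_nt), FINAL (helper60): the input for the final statement, the final statement

`S_NEW` : the characters of `Gal(K B_(r+1)/k)` which are not trivial on `Gal(K B_(r+1)/K B_r)`, `r ≥ r₀`, `μ_p ⊂ K`; from the result of block J (`NilC`) by `OBF.nil_mu`. `S_NEWK` : the same without
the hypothesis `μ_p ⊂ K` (for `K(μ_p)` and inflation). The final statement is `FinalT`.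
-/

set_option autoImplicit false

open NumberField

namespace Pool.Agent.OTF

open _root_.Pool.Agent.MuCyc

noncomputable section

/-- NEW: the new characters of the fields `K B_(r+1)`, `r` large. -/
def S_NEW : Prop := ∀ (p : ℕ) [Fact p.Prime], 5 ≤ p → ∀ (k K : IntermediateField ℚ ℂ) (h : k ≤ K),
  ImQuad k → Abelian p h → (∃ ζ ∈ K, IsPrimitiveRoot ζ p) → ∀ l : ℕ, l = 2 ∨ l = 3 →
  ∃ r₀ : ℕ, ∀ r, r₀ ≤ r → ∀ B B' : IntermediateField ℚ ℂ, IsLayer l r B → IsLayer l (r + 1) B' →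
    ∀ (h' : k ≤ K ⊔ B') (χ : Chr p h'),
      (∃ s : Gal h', (∀ x : IntermediateField.extendScalars h', (x : ℂ) ∈ K ⊔ B → s x = x) ∧
        χ s ≠ 1) → MuZeroC p h' χ

/-- NEWK: the same for all `K`. Module of helper60. -/
def S_NEWK : Prop := ∀ (p : ℕ) [Fact p.Prime], 5 ≤ p → ∀ (k K : IntermediateField ℚ ℂ)
  (h : k ≤ K), ImQuad k → Abelian p h → ∀ l : ℕ, l = 2 ∨ l = 3 →
  ∃ r₀ : ℕ, ∀ r, r₀ ≤ r → ∀ B B' : IntermediateField ℚ ℂ, IsLayer l r B → IsLayer l (r + 1) B' →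
    ∀ (h' : k ≤ K ⊔ B') (χ : Chr p h'),
      (∃ s : Gal h', (∀ x : IntermediateField.extendScalars h', (x : ℂ) ∈ K ⊔ B → s x = x) ∧
        χ s ≠ 1) → MuZeroC p h' χ

/-- THE FINAL STATEMENT. -/
def FinalT : Prop := ∀ (p : ℕ) [Fact p.Prime], 5 ≤ p → ∀ (k K : IntermediateField ℚ ℂ)
  (h : k ≤ K), ImQuad k → Abelian p h → ∀ l : ℕ, l = 2 ∨ l = 3 →
  ∃ (r₀ : ℕ) (B₀ : IntermediateField ℚ ℂ), IsLayer l r₀ B₀ ∧
    ∀ (r : ℕ) (B : IntermediateField ℚ ℂ), IsLayer l r B →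
      (∀ (hB : k ≤ K ⊔ B) (χ : Chr p hB),
        (∃ s : Gal hB, (∀ x : IntermediateField.extendScalars hB, (x : ℂ) ∈ K ⊔ B₀ → s x = x) ∧
          χ s ≠ 1) → MuZeroC p hB χ) ∧
      ∀ L : IntermediateField ℚ ℂ, k ≤ L → L ≤ K ⊔ B → MuLE p L (L ⊓ (K ⊔ B₀))

end

end Pool.Agent.OTF
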