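import Pool.Agent.RID.St2
import Pool.Agent.MU3.StP
import Pool.Agent.OB.StF
import Pool.Agent.OT.StF
import Pool.Agent.MUX.StJX

/-!
# OT (Theorem T+, problem MP_b78433_nt), block E (helper60): extensions of `p`-power degree, relative version

AIM (`Se_PEX`): `K/F` Galois of degree prime to `p`, `M/F` Galois of `p`-power degree, `F` totally complex. If `v_p h(K B_n) ≤ v_p h(F B_n) + poly(n)`
then `v_p h(K M B_n) ≤ v_p h(M B_n) + poly(n)` (`B_n` the layers of the cyclotomic `ℤ_p`-extension of `ℚ`).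

Every `def Se_X : Prop` is the statement of a module; it is proved as `theorem te_X (h : Se_Y) .. : Se_X` in `Pool/Agent/OT/E_X.lean`, namespace `Pool.Agent.OTE` (private
lemmas in `Pool.Agent.OTE.X`), where the `Se_Y` are the statements named after USES (or fewer). Files import originals (RI, RID, MU3, OB, MUX, ..), never MVF.
PROVED and usable without hypotheses (how to plug them: `Pool/Agent/RID/Final.lean`): all `RID.t_X` (`RID/P_X.lean`): `t_CYC`, `t_RES`, `t_NUS`, `t_HERBQ (t_HQ1) (t_HQ3 ..)`, `t_RK1`, `t_RK2`, `t_RK3`, `t_ALG2`, `t_SCN`,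
`t_SCM`, `t_SCI`, `t_NRM`, `t_GCC`, `t_SGL`, `t_GENA`; `MU3.n_..` (`MU3/N_*.lean`), `MU3.u_..` (`MU3/PAll.lean`); `CHIEF_thm`, `BCH_thm`, `LAY_thm`, `INF_thm`, `RAMB_thm` of RI.
-/

set_option autoImplicit false

open NumberField IsDedekindDomain Finset
open scoped nonZeroDivisors Pointwise

namespace Pool.Agent.OTE

open _root_.Pool.Agent.RI _root_.Pool.Agent.RID _root_.Pool.Agent.MU3 _root_.MU3

/-! ## One cyclic step -/

/-- `RID.AD` without the field `inv`. -/
structure AD0 (p q : ℕ) {A I A' I' G κ : Type} [CommGroup A] [CommGroup I] [CommGroup A']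
    [CommGroup I'] [Group G] [MulDistribMulAction G A] [MulDistribMulAction G I] (l : List κ)
    (k : κ → ℕ) (νA : κ → A →* A) (νI : κ → I →* I) (νA' : κ → A' →* A') (νI' : κ → I' →* I')
    (dv : A →* I) (dv' : A' →* I') (ι : A' →* A) (ε : I' →* I) (g : G) : Prop where
  cop : ∀ i ∈ l, (k i).Coprime p
  qA : QP l k νA
  qI : QP l k νI
  gq : g ^ q = 1
  dvg : ∀ x, dv (g • x) = g • dv x
  gA : ∀ i ∈ l, ∀ x, g • νA i x = νA i (g • x)
  gI : ∀ i ∈ l, ∀ x, g • νI i x = νI i (g • x)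
  dvν : ∀ i ∈ l, ∀ x, dv (νA i x) = νI i (dv x)
  sq : ∀ x, ε (dv' x) = dv (ι x)
  εν : ∀ i ∈ l, ∀ x, ε (νI' i x) = νI i (ε x)
  ιν : ∀ i ∈ l, ∀ x, ι (νA' i x) = νA i (ι x)
  εinj : Function.Injective ε
  gε : ∀ x, g • ε x = ε x
  gι : ∀ x, g • ι x = ι x
  h90 : ∀ x : A, ng g q x = 1 → ∃ y, x = y / g • y
  fixA : ∀ x : A, g • x = x → ∃ y, ι y = x
  fin : Finite (I ⧸ dv.range)
  fin' : Finite (I' ⧸ dv'.range)

/-- (ABR) the ambiguous classes, abstract form, with ramification.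

PROOF (models: `RID/P_ABS1.lean`, `RID/P_ABS2.lean`, almost the same proof). Names: `P = dv.range`, `P' = dv'.range`, `E = dv.ker ⊓ part l νA`, `w = wt l k`, `pr = pr l k ν`, `U⁺ = partM l νI P ⊓ P.comap (dg g)`, `N₀ = E.map (ng g q)`, `B₀ = E ⊓ (dg g).ker`, `B₁ = E.map (dg g)`, `Z₁ = E ⊓ (ng g q).ker`,
`V = part l νI ⊓ (dg g).ker`, `X = (part l νI').map ε ≤ V`, `W = (part l νI' ⊓ P').map ε ≤ V ⊓ P`.
(1) as in ABS1: `Γ`, `Γ₀`, `U₀`: `[U⁺ : U₀]` divides `[B₀ : N₀]`, `P ≤ U₀`, `V ≤ U₀` (for `b ∈ V` take `x = 1`), and for `b ∈ U₀`: `b ^ (w w) ∈ V ⊔ P` (the element `b₁ = y ^ w / dv y₁` is in `V`; no `inv` needed). So `v_p [U⁺ : P] ≤ v_p [B₀ : N₀] + v_p [V ⊔ P : P]`, `[V ⊔ P : P] = [V : V ⊓ P]`.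
(2) `[V : V ⊓ P] [V ⊓ P : W] = [V : W] = [V : X] [X : W]` and `[X : W] = [part l νI' : part l νI' ⊓ P']` (`ε` injective) divides `[partM l νI' P' : P']` (`part l νI' ≤ partM l νI' P'`; `P' ≤ partM l νI' P'`: `νI' i (dv' a)` is `dv' (νA' i a)` by `εinj`).
(3) `v_p [Z₁ : B₁] ≤ v_p [V ⊓ P : W]`: as in ABS2 with `Λ` = the set of the `(u, b)`, `u ∈ Z₁`, `b ∈ V ⊓ P`, such that there is `y ∈ part l νA` with `u ^ w = dg g y`, `dv y = b`: onto `Z₁` (`h90`, `y = pr y₀`), and if `b ∈ W`, `b = ε (dv' a) = dv (ι a)`, then `y = ι a v`, `dv v = 1`, `u ^ w = dg g v`, `u ^ (w w) = dg g (pr v) ∈ B₁`.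
All indices are finite and not `0` (`fin`, `fin'`, the hypotheses). -/
def Se_ABR : Prop := ∀ (p q : ℕ) [Fact p.Prime] (A I A' I' G κ : Type) [CommGroup A]
    [CommGroup I] [CommGroup A'] [CommGroup I'] [Group G] [MulDistribMulAction G A]
    [MulDistribMulAction G I] (l : List κ) (k : κ → ℕ) (νA : κ → A →* A) (νI : κ → I →* I)
    (νA' : κ → A' →* A') (νI' : κ → I' →* I') (dv : A →* I) (dv' : A' →* I') (ι : A' →* A)
    (ε : I' →* I) (g : G), AD0 p q l k νA νI νA' νI' dv dv' ι ε g →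
    ((dv.ker ⊓ part l νA).map (ng g q)).relIndex (dv.ker ⊓ part l νA ⊓ (dg g).ker) ≠ 0 →
    ((dv.ker ⊓ part l νA).map (dg g)).relIndex (dv.ker ⊓ part l νA ⊓ (ng g q).ker) ≠ 0 →
    ((part l νI').map ε).relIndex (part l νI ⊓ (dg g : I →* I).ker) ≠ 0 →
    padicValNat p (dv.range.relIndex (partM l νI dv.range ⊓ dv.range.comap (dg g))) +
      padicValNat p
        (((dv.ker ⊓ part l νA).map (dg g)).relIndex (dv.ker ⊓ part l νA ⊓ (ng g q).ker)) ≤
      padicValNat p
        (((dv.ker ⊓ part l νA).map (ng g q)).relIndex (dv.ker ⊓ part l νA ⊓ (dg g).ker)) +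
      padicValNat p (dv'.range.relIndex (partM l νI' dv'.range)) +
      padicValNat p (((part l νI').map ε).relIndex (part l νI ⊓ (dg g : I →* I).ker))

/-- `RID.Sys` without the field `ram`. -/
structure Sy0 (p : ℕ) (F K L : Type) {κ : Type} [Field F] [NumberField F] [Field K]
    [NumberField K] [Field L] [NumberField L] [Algebra F K] [Algebra F L] [Algebra K L]
    [IsScalarTower F K L] (l : List κ) (N' : κ → Subgroup (K ≃ₐ[F] K))
    (N : κ → Subgroup (L ≃ₐ[F] L)) (g : L ≃ₐ[F] L) (a : ℕ) : Prop where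
  galK : IsGalois F K
  galL : IsGalois F L
  ne : l ≠ []
  cyc : CycExt F K L g (p ^ a)
  nrm : ∀ i ∈ l, (N i).Normal
  nrm' : ∀ i ∈ l, (N' i).Normal
  cop : ∀ i ∈ l, (Nat.card (N i)).Coprime p
  com : ∀ i ∈ l, ∀ σ ∈ N i, σ * g = g * σ
  mat : ∀ i ∈ l, Match (N' i) (N i)
  inf : Nat.card (InfinitePlace L) = p ^ a * Nat.card (InfinitePlace K)

/-- (RK4) `RID.S_RK4` for `Sy0`.

PROOF. Copy `RID/P_RK4.lean`: the field `ram` is not used there. -/
def Se_RK4 : Prop := ∀ (p a : ℕ) [Fact p.Prime] (F K L κ : Type) [Field F] [NumberField F]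
    [Field K] [NumberField K] [Field L] [NumberField L] [Algebra F K] [Algebra F L]
    [Algebra K L] [IsScalarTower F K L] (l : List κ) (N' : κ → Subgroup (K ≃ₐ[F] K))
    (N : κ → Subgroup (L ≃ₐ[F] L)) (g : L ≃ₐ[F] L), Sy0 p F K L l N' N g a → ∀ i ≤ a,
    Module.finrank ℤ (Additive (WU l N (Subgroup.zpowers (g ^ (p ^ i))))) =
      p ^ i * Module.finrank ℤ (Additive (WU l N (Subgroup.zpowers g)))

/-- (STC) the relative Chevalley inequality.

USES ABR, RK4. PROOF. As `RID/P_STEPC.lean` (`mkAD` without `inv`; HERBQ gives `[B₀ : N₀] = [Z₁ : B₁] ≠ 0`), with ABR. The last term: `(part l νI').map (ext K L) = part l νI ⊓ (ext K L).range` (`RES`, `ext_injective`), so its index in `part l νI ⊓ (dg g).ker` is the index of `(ext K L).range` in that group, which divides (or is at most, and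
not `0`) the index in `(dg g).ker`, which is `≤ (p^a)^|S|` and not `0` by `N_AMBI` (`MU3/N_AMBI.lean`); so its `v_p` is at most `a |S|`. -/
def Se_STC : Prop := ∀ (p a : ℕ) [Fact p.Prime] (F K L κ : Type) [Field F] [NumberField F]
    [Field K] [NumberField K] [Field L] [NumberField L] [Algebra F K] [Algebra F L]
    [Algebra K L] [IsScalarTower F K L] (l : List κ) (N' : κ → Subgroup (K ≃ₐ[F] K))
    (N : κ → Subgroup (L ≃ₐ[F] L)) (g : L ≃ₐ[F] L), Sy0 p F K L l N' N g a →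
    ∀ S : Finset (HeightOneSpectrum (𝓞 K)),
    (∀ w : HeightOneSpectrum (𝓞 L), w.asIdeal.ramificationIdx (𝓞 K) ≠ 1 →
      ∃ v ∈ S, w.asIdeal.under (𝓞 K) = v.asIdeal) →
    padicValNat p ((prin : Lˣ →* J L).range.relIndex
      (XsJ l N ⊓ (prin : Lˣ →* J L).range.comap (dg g))) ≤
    padicValNat p ((prin : Kˣ →* J K).range.relIndex (XsJ l N')) + a * S.card

/-- `v_p |X / P|`, `P` the principal ideals. -/
noncomputable def vX (p : ℕ) (L : Type) [Field L] [NumberField L] (X : Subgroup (J L)) : ℕ :=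
  padicValNat p ((_root_.MU3.PI L).relIndex X)

/-- `v_p |(X / P)[p]|`. -/
noncomputable def rX (p : ℕ) (L : Type) [Field L] [NumberField L] (X : Subgroup (J L)) : ℕ :=
  padicValNat p (Nat.card {c : J L ⧸ _root_.MU3.PI L // (∃ b ∈ X, (b : J L ⧸ _root_.MU3.PI L) = c) ∧
    c ^ p = 1})

/-- (RNK) the rank of `X / P` and the ambiguous classes.

PROOF. `N_NIL` (`MU3/N_NIL.lean`), `l = p`, for the group `A = X / P` (additive), `γ` induced by `g`; model: `MU3/P_RKA.lean`, `MU3/N_NILR.lean` (there `X = ⊤`), and `ALGR.ga` in `RID/P_ALGR.lean` for a quotient `X / P`. `(γ - 1)^p = p h(γ)` up to sign as `γ^p = 1`. -/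
def Se_RNK : Prop := ∀ (p : ℕ) [Fact p.Prime] (F L : Type) [Field F] [Field L]
    [NumberField L] [Algebra F L] (g : L ≃ₐ[F] L) (X : Subgroup (J L)), g ^ p = 1 →
    _root_.MU3.PI L ≤ X → (∀ x ∈ X, g • x ∈ X) →
    rX p L X ≤ p * padicValNat p ((_root_.MU3.PI L).relIndex (X ⊓ (_root_.MU3.PI L).comap (dg g)))

/-- (STP) one step of a tower for `X / P`.

PROOF. `t_ALG2` for `A = X / P`; model: the second half of `RID/P_ALGR.lean` (`t_ALGR`; `ALGR.ga` and the lemmas there), without ALG1. -/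
def Se_STP : Prop := ∀ (p m : ℕ) [Fact p.Prime] (F L : Type) [Field F] [Field L]
    [NumberField L] [Algebra F L] (g : L ≃ₐ[F] L) (X : Subgroup (J L)),
    g ^ (p ^ (m + 1)) = 1 → _root_.MU3.PI L ≤ X → (∀ x ∈ X, g • x ∈ X) →
    rX p L X < p ^ m * (p - 1) →
    vX p L X ≤ padicValNat p ((_root_.MU3.PI L).relIndex
      (X.map (ng (g ^ (p ^ m)) p) ⊔ _root_.MU3.PI L)) + rX p L X

/-! ## Subfields of `ℂ` -/

/-- `K/F` Galois of degree prime to `p`, `M/F` Galois of `p`-power degree, `F` totally complex. -/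
structure C0 (p : ℕ) (F K M : IntermediateField ℚ ℂ) : Prop where
  hK : F ≤ K
  hM : F ≤ M
  gK : IsGalois F (IntermediateField.extendScalars hK)
  copK : ¬ p ∣ Module.finrank F (IntermediateField.extendScalars hK)
  gM : IsGalois F (IntermediateField.extendScalars hM)
  degM : ∃ a : ℕ, Module.finrank F (IntermediateField.extendScalars hM) = p ^ a
  tc : TotCx F

/-- the ideals of `K M` whose norm to `M` is principal -/
noncomputable def XF (F K M : IntermediateField ℚ ℂ) [FiniteDimensional ℚ F]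
    [FiniteDimensional ℚ ↥(K ⊔ M)] (h : F ≤ K ⊔ M) : Subgroup (J ↥(K ⊔ M)) :=
  letI := algC h
  XsJ [F] (fun E => NC h (E ⊔ M))

/-- (SY0) the situation of one step.

PROOF. `CD p F K M [F, K]` holds: `ram` is clear because `K ∈ [F, K]` (`E = K`: `OnlyAbove le_rfl P`), `inf` from `TotCx F` (an embedding of `M` which is real on `F` does not exist), `mem`: `F`, `K`. So `t_SCN`, `t_SCM t_SCN`, `t_SCI`, `t_CDR` give everything for `E = F ∈ [F, K]`, as in `RID/P_SYSC.lean`. -/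
def Se_SY0 : Prop := ∀ (p a : ℕ) [Fact p.Prime] (F K M' M : IntermediateField ℚ ℂ)
    [FiniteDimensional ℚ F] [FiniteDimensional ℚ K] [FiniteDimensional ℚ M']
    [FiniteDimensional ℚ M], C0 p F K M →
    ∀ (h₁ : F ≤ M'), M' ≤ M → IsGalois F (IntermediateField.extendScalars h₁) →
    ∀ (h : F ≤ K ⊔ M') (h' : K ⊔ M' ≤ K ⊔ M),
    letI := algC h
    letI := algC h'
    letI := algC (h.trans h')
    letI := towerC h h'
    ∀ g : ↥(K ⊔ M) ≃ₐ[F] ↥(K ⊔ M), CycExt F ↥(K ⊔ M') ↥(K ⊔ M) g (p ^ a) →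
      Sy0 p F ↥(K ⊔ M') ↥(K ⊔ M) [F] (fun E => NC h (E ⊔ M'))
        (fun E => NC (h.trans h') (E ⊔ M)) g a

/-- (IDX) the class numbers.

PROOF. Either `t_SGL` (`eOf p K M {F} + v_p h(M) = v_p h(K M)`) and the proof of `t_GENC` (`RID/P_GENC.lean`; the field `ram` of `CD` is not needed; or use that lemma for `l = [F]` after copying it), or directly: `A = J L ⧸ PI L`, `L = K M`, the endomorphism induced by the norm to `M` (`CL.nm M L`, which is `nuS (NC h (F ⊔ M))`, `F ⊔ M = M`; see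
`P_GENC`), kernel `XF / P`, image = the image of `Cl(M)` up to groups of order prime to `p` (`CL.nm_mem`, `CL.nm_ext`; `ext` is injective on the `p`-part because `[L : M]` is prime to `p`); compare `OB/F_RIX.lean`. `L/M` is Galois of degree dividing `[K : F]` (`BCH_thm`). -/
def Se_IDX : Prop := ∀ (p : ℕ) [Fact p.Prime] (F K M : IntermediateField ℚ ℂ)
    [FiniteDimensional ℚ F] [FiniteDimensional ℚ K] [FiniteDimensional ℚ M], C0 p F K M →
    ∀ h : F ≤ K ⊔ M,
    vX p ↥(K ⊔ M) (XF F K M h) + padicValNat p (classNo M) = padicValNat p (classNo (K ⊔ M))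

/-- (RKL) the ranks at the layers, `[M : M'] = p`.

USES STC, RNK, SY0, IDX. PROOF. Model: `MU3/P_RKE.lean` (`P_RKE`). `t` from `P_BAD`, `P_NPL` (for `F := K M'`, `L := K M`; `MU3.u_..`). Fix `n`, `M'_n = M' ⊔ B n ≤ M_n = M ⊔ B n`, both Galois over `F` of `p`-power degree (`BCH_thm`; `B n / ℚ` Galois of degree `p^n`, `LAY_thm`); `[K M_n : K M'_n]` is `1` or `p` (it divides `p`: `BCH_thm`). Degree `1`: `K M_n = K M'_n`, so
`M_n = M'_n` (the degrees over `F` are `[K : F] [M_n : F]`, `BCH_thm`/coprime degrees), `rX ≤ vX` and IDX. Degree `p`: a generator `g` of `Gal(K M_n / K M'_n)`, as an automorphism over `F`, `CycExt .. g (p ^ 1)`; SY0, STC with `a = 1`, `S` = the primes of `K M'_n` which contain some bad prime number; RNK with `X = XF` (stable: `NUS`); IDX for `M'_n`. -/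
def Se_RKL : Prop := ∀ (p : ℕ) [Fact p.Prime] (F K M' M : IntermediateField ℚ ℂ)
    [FiniteDimensional ℚ F] [FiniteDimensional ℚ K] [FiniteDimensional ℚ M']
    [FiniteDimensional ℚ M] (B : ℕ → IntermediateField ℚ ℂ) [∀ n, FiniteDimensional ℚ (B n)],
    C0 p F K M → ∀ (h₁ : F ≤ M') (h₂ : M' ≤ M), IsGalois F (IntermediateField.extendScalars h₁) →
    Module.finrank M' (IntermediateField.extendScalars h₂) = p → (∀ n, IsLayer p n (B n)) →
    ∃ t : ℕ, ∀ (n : ℕ) (h : F ≤ K ⊔ (M ⊔ B n)),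
      rX p ↥(K ⊔ (M ⊔ B n)) (XF F K (M ⊔ B n) h) + p * padicValNat p (classNo (M' ⊔ B n)) ≤
        p * (padicValNat p (classNo (K ⊔ (M' ⊔ B n))) + t)

/-- (TWR) one step of the tower over `K M`.

USES STP, IDX. PROOF. Models: `MU3/P_TOW.lean`, `MU3/P_LST.lean` (`P_TOW`, `P_LST` for the field `K M`: `K ⊔ (M ⊔ B n) = (K ⊔ M) ⊔ B n`, `sup_assoc`), `RID/P_NRM.lean` (`S_NRM`: for `b ∈ XsJ l N` there is `c ∈ XsJ l N'` with `ext c = ng g q b`), `OB/F_RST.lean`. `[K M : ℚ] ≤ [K : ℚ] [M : ℚ]`. If `K M B_(n+1) ≠ K M B_n`: `g` (over `K M`, restrict to `F`) of order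
`p^(m+1)`, `p^n ≤ p^m [K M : ℚ]`, `g^(p^m)` generates `Gal(K M B_(n+1) / K M B_n)`; the hypothesis gives `rX < p^m (p - 1)`; STP; SY0 (only the part `Match`, `com`) for `M' := M ⊔ B n`, `M := M ⊔ B (n+1)` and `t_NRM` give that `X.map (ng (g^(p^m)) p) ⊔ P` is contained in `(XF ..).map ext ⊔ P`, so the first term of STP is at most `vX` for `n`; IDX for both. If the fields
`K M B_n`, `K M B_(n+1)` are equal, then so are `M B_n`, `M B_(n+1)` (degrees over `F`). -/
def Se_TWR : Prop := ∀ (p : ℕ) [Fact p.Prime] (F K M : IntermediateField ℚ ℂ)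
    [FiniteDimensional ℚ F] [FiniteDimensional ℚ K] [FiniteDimensional ℚ M]
    (B : ℕ → IntermediateField ℚ ℂ) [∀ n, FiniteDimensional ℚ (B n)],
    C0 p F K M → (∀ n, IsLayer p n (B n)) → Monotone B →
    ∀ (n : ℕ) (h : F ≤ K ⊔ (M ⊔ B (n + 1))),
      rX p ↥(K ⊔ (M ⊔ B (n + 1))) (XF F K (M ⊔ B (n + 1)) h) *
        (Module.finrank ℚ K * Module.finrank ℚ M) < p ^ n * (p - 1) →
      padicValNat p (classNo (K ⊔ (M ⊔ B (n + 1)))) + padicValNat p (classNo (M ⊔ B n)) ≤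
        padicValNat p (classNo (K ⊔ (M ⊔ B n))) + padicValNat p (classNo (M ⊔ B (n + 1))) +
          rX p ↥(K ⊔ (M ⊔ B (n + 1))) (XF F K (M ⊔ B (n + 1)) h)

/-- (ONE) an extension of degree `p`.

USES RKL, TWR, IDX. PROOF. `P_REC` (`MU3/P_REC.lean`) with `v n = v_p h(K M B_n) - v_p h(M B_n)` (natural subtraction, `≥ 0` by IDX), `r n = rX ..`, `D = [K : ℚ] [M : ℚ]`: `r n ≤ p (C (n+1)^k + t) ≤ p (C + t) (n + 1)^k`. -/
def Se_ONE : Prop := ∀ (p : ℕ) [Fact p.Prime] (F K M' M : IntermediateField ℚ ℂ)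
    [FiniteDimensional ℚ F] [FiniteDimensional ℚ K] [FiniteDimensional ℚ M']
    [FiniteDimensional ℚ M] (B : ℕ → IntermediateField ℚ ℂ) [∀ n, FiniteDimensional ℚ (B n)],
    C0 p F K M → ∀ (h₁ : F ≤ M') (h₂ : M' ≤ M), IsGalois F (IntermediateField.extendScalars h₁) →
    Module.finrank M' (IntermediateField.extendScalars h₂) = p → (∀ n, IsLayer p n (B n)) →
    Monotone B →
    (∃ C k : ℕ, ∀ n, padicValNat p (classNo (K ⊔ (M' ⊔ B n))) ≤
      padicValNat p (classNo (M' ⊔ B n)) + C * (n + 1) ^ k) →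
    ∃ C k : ℕ, ∀ n, padicValNat p (classNo (K ⊔ (M ⊔ B n))) ≤
      padicValNat p (classNo (M ⊔ B n)) + C * (n + 1) ^ k

/-- (PEX) extensions of `p`-power degree.

USES ONE. PROOF. Induction on the exponent of `[M : F]`, `CHIEF_thm`; model: `MU3/P_PEX.lean`, `RID/P_MAIN1.lean`. `C0 p F K M'` for `M' ≤ M` Galois over `F`: the degree divides `p^a`. Start: `M = F`, `F ⊔ B n`, `K ⊔ (F ⊔ B n) = K ⊔ B n`. -/
def Se_PEX : Prop := ∀ (p : ℕ) [Fact p.Prime] (F K M : IntermediateField ℚ ℂ)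
    [FiniteDimensional ℚ F] [FiniteDimensional ℚ K] [FiniteDimensional ℚ M]
    (B : ℕ → IntermediateField ℚ ℂ) [∀ n, FiniteDimensional ℚ (B n)],
    C0 p F K M → (∀ n, IsLayer p n (B n)) → Monotone B →
    (∃ C k : ℕ, ∀ n, padicValNat p (classNo (K ⊔ B n)) ≤
      padicValNat p (classNo (F ⊔ B n)) + C * (n + 1) ^ k) →
    ∃ C k : ℕ, ∀ n, padicValNat p (classNo (K ⊔ (M ⊔ B n))) ≤
      padicValNat p (classNo (M ⊔ B n)) + C * (n + 1) ^ k

/-! ## The final statement -/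

/-- (PPP) the parts of an abelian extension.

PROOF. `G = Gal(L/k)` finite commutative. `L₁` = the fixed field of the Sylow `p`-subgroup `P` (`MU3.P_SYL`, proved in `MU3/PAll.lean`, gives it), `L_p` = the fixed field of the subgroup `P'` of the elements of order prime to `p` (`|G| = p^a m`: `P'` = the elements killed by `m`; `|G/P'| = p^a`). `P ⊓ P' = ⊥`, so `L₁ ⊔ L_p = L`. -/
def Se_PPP : Prop := ∀ (p : ℕ) [Fact p.Prime] (k L : IntermediateField ℚ ℂ)
    [FiniteDimensional ℚ L] (h : k ≤ L), IsGalois k (IntermediateField.extendScalars h) →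
    (∀ a b : (IntermediateField.extendScalars h) ≃ₐ[k] (IntermediateField.extendScalars h),
      a * b = b * a) →
    ∃ (L₁ Lp : IntermediateField ℚ ℂ) (h₁ : k ≤ L₁) (hp : k ≤ Lp), L₁ ⊔ Lp = L ∧
      IsGalois k (IntermediateField.extendScalars h₁) ∧
      ¬ p ∣ Module.finrank k (IntermediateField.extendScalars h₁) ∧
      IsGalois k (IntermediateField.extendScalars hp) ∧
      ∃ a : ℕ, Module.finrank k (IntermediateField.extendScalars hp) = p ^ a

/-- (CPD) relatively prime degrees.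

PROOF. `A D / A` is Galois of degree dividing `[D : k]` (`BCH_thm`), and it divides `[N : A]`, so it is `1`. -/
def Se_CPD : Prop := ∀ (k A D N : IntermediateField ℚ ℂ) [FiniteDimensional ℚ N] (_ : k ≤ A)
    (hA : A ≤ N) (hD : k ≤ D) (_ : D ≤ N), IsGalois k (IntermediateField.extendScalars hD) →
    (Module.finrank k (IntermediateField.extendScalars hD)).Coprime
      (Module.finrank A (IntermediateField.extendScalars hA)) → D ≤ A

end Pool.Agent.OTE
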