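import Pool.Agent.OT.F_T2
import Pool.Agent.OT.StE
import Pool.Agent.RI.CHIEF

/-!
# OT, FINAL (helper60), Theorem T+: all finite abelian `K/k`, and extensions of `p`-power degree
-/

set_option autoImplicit false

open NumberField

namespace Pool.Agent.OTF

open _root_.Pool.Agent.MuCyc Pool.Agent.OBF

/-- THE FINAL STATEMENT (Theorem T+). -/
def FinalE : Prop := ∀ (p : ℕ) [Fact p.Prime], 5 ≤ p → ∀ (k K : IntermediateField ℚ ℂ)
  (h : k ≤ K), ImQuad k → FiniteDimensional ℚ K →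
  IsGalois k (IntermediateField.extendScalars h) → (∀ σ τ : Gal h, σ * τ = τ * σ) →
  ∀ l : ℕ, l = 2 ∨ l = 3 →
  ∃ (r₀ : ℕ) (B₀ : IntermediateField ℚ ℂ), IsLayer l r₀ B₀ ∧
    ∀ (r : ℕ) (B : IntermediateField ℚ ℂ), IsLayer l r B →
      (∀ (L : IntermediateField ℚ ℂ) (hL : k ≤ L), L ≤ K ⊔ B →
        ¬ p ∣ Module.finrank k (IntermediateField.extendScalars hL) → ∀ χ : Chr p hL,
        (∃ s : Gal hL, (∀ x : IntermediateField.extendScalars hL, (x : ℂ) ∈ K ⊔ B₀ → s x = x) ∧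
          χ s ≠ 1) → MuZeroC p hL χ) ∧
      ∀ L : IntermediateField ℚ ℂ, k ≤ L → L ≤ K ⊔ B →
        ∀ (E : IntermediateField ℚ ℂ) (hE : k ≤ E), FiniteDimensional ℚ E →
        IsGalois k (IntermediateField.extendScalars hE) →
        (∃ a : ℕ, Module.finrank k (IntermediateField.extendScalars hE) = p ^ a) →
        ∃ C : ℕ, ∀ (m : ℕ) (Q : IntermediateField ℚ ℂ), IsLayer p m Q →
          padicValNat p (classNo (L ⊔ E ⊔ Q)) ≤
            padicValNat p (classNo ((L ⊓ (K ⊔ B₀)) ⊔ E ⊔ Q)) + C * (m + 1) ^ C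

/-- (1) for subfields -/
theorem chars_L (hIFM : Sf_IFM) (p : ℕ) [Fact p.Prime]
    (hp : 5 ≤ p) (k K : IntermediateField ℚ ℂ) (h : k ≤ K) (hk : ImQuad k) (hK : Abelian p h)
    (l : ℕ) (hl : l = 2 ∨ l = 3) (B₀ : IntermediateField ℚ ℂ)
    (r : ℕ) (B : IntermediateField ℚ ℂ) (hB : IsLayer l r B)
    (hχ : ∀ (hB : k ≤ K ⊔ B) (χ : Chr p hB),
        (∃ s : Gal hB, (∀ x : IntermediateField.extendScalars hB, (x : ℂ) ∈ K ⊔ B₀ → s x = x) ∧
          χ s ≠ 1) → MuZeroC p hB χ)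
    (L : IntermediateField ℚ ℂ) (hkL : k ≤ L) (hL : L ≤ K ⊔ B) (χ : Chr p hkL)
    (hs : ∃ s : Gal hkL, (∀ x : IntermediateField.extendScalars hkL, (x : ℂ) ∈ K ⊔ B₀ → s x = x) ∧
      χ s ≠ 1) : MuZeroC p hkL χ := by
  obtain ⟨s, hs, hχs⟩ := hs
  have hkB : k ≤ K ⊔ B := h.trans le_sup_left
  have hA := ab_sup p hp h hK hl hB hkB
  have := hA.fin
  obtain ⟨hGL, hcL⟩ := sub_ab hkL hL hkB hA.gal hA.comm
  have hdM : ¬ p ∣ Module.finrank ℚ ↥(K ⊔ B) := deg_Q p hp hkB hk hA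
  obtain ⟨res, hsur, hres⟩ := exists_res hkL hL hkB hGL hA.gal
  have hss : ∀ (s : Gal hkL) (s' : Gal hkB), (∀ (x : IntermediateField.extendScalars hkL)
      (x' : IntermediateField.extendScalars hkB), (x' : ℂ) = x →
        ((s' x' : IntermediateField.extendScalars hkB) : ℂ) =
          (s x : IntermediateField.extendScalars hkL)) → (χ.comp res) s' = χ s := by
    intro s s' h1
    show χ (res s') = χ s
    rw [res_unique hL hres s s' h1]
  refine hIFM p (by omega) k L (K ⊔ B) hkL hkB hL hA.fin hA.gal hA.comm hdM χ (χ.comp res) hss ?_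
  apply hχ
  by_contra h0
  push Not at h0
  have h1 : ∀ s : Gal hkB, (∀ x : IntermediateField.extendScalars hkB, (x : ℂ) ∈ L → s x = x) →
      (χ.comp res) s = 1 := by
    intro s hs
    show χ (res s) = 1
    have h2 : res s = 1 := by
      apply AlgEquiv.ext
      intro x
      apply Subtype.ext
      rw [← hres s x ⟨x, hL x.2⟩ rfl, hs ⟨x, hL x.2⟩ x.2]
      rfl
    rw [h2, map_one]
  have h3 : ∀ s : Gal hkB, (∀ x : IntermediateField.extendScalars hkB,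
      (x : ℂ) ∈ (K ⊔ B₀) ⊓ (K ⊔ B) → s x = x) → (χ.comp res) s = 1 :=
    fun s hs => h0 s fun x hx => hs x ⟨hx, x.2⟩
  obtain ⟨s', rfl⟩ := hsur s
  apply hχs
  refine two_fields hkL (le_inf (h.trans le_sup_left) hkB) hL inf_le_right hkB hA.gal
    (χ.comp res) h1 h3 s' ?_
  intro x hx
  have hxL : (x : ℂ) ∈ L := hx.1
  have h4 := hs ⟨x, hxL⟩ hx.2.1
  apply Subtype.ext
  rw [hres s' ⟨x, hxL⟩ x rfl, h4]

/-- The composite of an abelian extension with a layer is abelian. -/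
theorem ab_sup0 {k K B : IntermediateField ℚ ℂ} (h : k ≤ K) [FiniteDimensional ℚ K]
    (hG : IsGalois k (IntermediateField.extendScalars h)) (hc : ∀ σ τ : Gal h, σ * τ = τ * σ)
    {l r : ℕ} (hl : l = 2 ∨ l = 3) (hB : IsLayer l r B) (h' : k ≤ K ⊔ B) :
    IsGalois k (IntermediateField.extendScalars h') ∧ ∀ σ τ : Gal h', σ * τ = τ * σ := by
  have hfB := lay_fin hl hB
  have h1 : VB.AbE k K := ⟨h, hG, hc⟩
  obtain ⟨hN, hC⟩ := (VB.abE_iff VB.tb_NRM h inferInstance).1 h1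
  have h2 : VB.AbE k (K ⊔ B) := by
    rw [VB.abE_iff VB.tb_NRM h' inferInstance]
    exact ⟨VB.nrm_sup hN (nrm_lay hl hB k), VB.cmt_sup hC (cmt_lay hl hB k)⟩
  obtain ⟨_, hG', hc'⟩ := h2
  exact ⟨hG', hc'⟩

/-- `[K B : K]` divides `l ^ r`. -/
theorem deg_lay {K B : IntermediateField ℚ ℂ} [FiniteDimensional ℚ K] {l r : ℕ}
    (hl : l = 2 ∨ l = 3) (hB : IsLayer l r B) (h : K ≤ K ⊔ B) :
    Module.finrank K (IntermediateField.extendScalars h) ∣ l ^ r := by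
  have : Fact l.Prime := ⟨prime_l hl⟩
  have hfB := lay_fin hl hB
  obtain ⟨-, hgB, -⟩ := RI.LAY_thm l r B hB
  have hb : (⊥ : IntermediateField ℚ ℂ) ≤ B := bot_le
  have hG : IsGalois (⊥ : IntermediateField ℚ ℂ) (IntermediateField.extendScalars hb) := by
    have h1 : IsGalois ℚ (IntermediateField.extendScalars hb) := hgB
    exact IsGalois.tower_top_of_isGalois ℚ (⊥ : IntermediateField ℚ ℂ)
      (IntermediateField.extendScalars hb)
  have h2 : K = (⊥ : IntermediateField ℚ ℂ) ⊔ K := by rw [bot_sup_eq]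
  have h3 := (RI.BCH_thm.1 ⊥ B K K (K ⊔ B) hb h h2 (sup_comm K B) hG).2
  have h4 := mul_deg hb
  rw [IntermediateField.finrank_bot, one_mul, hB.1] at h4
  rwa [h4] at h3

/-- T+ from T. -/
theorem final_E (hT : FinalT) (hIFM : Sf_IFM) (hPEX : OTE.Se_PEX) (hPPP : OTE.Se_PPP)
    (hCPD : OTE.Se_CPD) (hSYL : _root_.MU3.P_SYL) (hSUB : MUXJ.Sj_SUB) (hTCQ : VB.Sb_TCQ)
    (hLAY : Sf_LAY) : FinalE := by
  intro p _ hp k K h hk hfK hG hc l hl
  have hpp : p.Prime := Fact.out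
  obtain ⟨K₁, h₁, h₂, hG₁, hd₁, hG₂, a, ha⟩ := hSYL p k K h hG hc
  have hfK₁ : FiniteDimensional ℚ K₁ :=
    FiniteDimensional.of_injective (IntermediateField.inclusion h₂).toLinearMap
      (IntermediateField.inclusion h₂).injective
  have A₁ : Abelian p h₁ := ⟨hfK₁, hG₁, (sub_ab h₁ h₂ h hG hc).2, hd₁⟩
  obtain ⟨r₀, B₀, hB₀, hmain⟩ := hT p hp k K₁ h₁ hk A₁ l hl
  refine ⟨r₀, B₀, hB₀, fun r B hB => ?_⟩
  have hfB := lay_fin hl hB
  have hfB₀ := lay_fin hl hB₀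
  have hkN : k ≤ K ⊔ B := h.trans le_sup_left
  obtain ⟨hGN, hcN⟩ := ab_sup0 h hG hc hl hB hkN
  -- fields of degree prime to `p`
  have hL1 : ∀ (L : IntermediateField ℚ ℂ) (hL : k ≤ L), L ≤ K ⊔ B →
      ¬ p ∣ Module.finrank k (IntermediateField.extendScalars hL) → L ≤ K₁ ⊔ B := by
    intro L hL hLN hd
    have hGL := (sub_ab hL hLN hkN hGN hcN).1
    have hle : K₁ ⊔ B ≤ K ⊔ B := sup_le_sup_right h₂ B
    have hdv := (RI.BCH_thm.1 K₁ K B (K₁ ⊔ B) (K ⊔ B) h₂ hle rfl rfl hG₂).2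
    rw [ha] at hdv
    refine hCPD k (K₁ ⊔ B) L (K ⊔ B) (h₁.trans le_sup_left) hle hL hLN hGL ?_
    refine Nat.Coprime.coprime_dvd_right hdv (Nat.Coprime.pow_right a ?_)
    exact ((Nat.Prime.coprime_iff_not_dvd hpp).2 hd).symm
  refine ⟨?_, ?_⟩
  · rintro L hL hLN hd χ ⟨s, hs, hχs⟩
    exact chars_L hIFM p hp k K₁ h₁ hk A₁ l hl B₀ r B hB (hmain r B hB).1 L hL (hL1 L hL hLN hd) χ
      ⟨s, fun x hx => hs x ((sup_le_sup_right h₂ B₀) hx), hχs⟩
  · intro L hL hLN E hE hfE hGE hdE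
    have hfL : FiniteDimensional ℚ L :=
      FiniteDimensional.of_injective (IntermediateField.inclusion hLN).toLinearMap
        (IntermediateField.inclusion hLN).injective
    obtain ⟨hGL, hcL⟩ := sub_ab hL hLN hkN hGN hcN
    obtain ⟨L₁, Lp, g₁, gp, hsup, hGL₁, hdL₁, hGLp, b, hb⟩ := hPPP p k L hL hGL hcL
    obtain ⟨e, he⟩ := hdE
    have hL₁L : L₁ ≤ L := by rw [← hsup]; exact le_sup_left
    have hLpL : Lp ≤ L := by rw [← hsup]; exact le_sup_right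
    have hfL₁ : FiniteDimensional ℚ L₁ :=
      FiniteDimensional.of_injective (IntermediateField.inclusion hL₁L).toLinearMap
        (IntermediateField.inclusion hL₁L).injective
    have hfLp : FiniteDimensional ℚ Lp :=
      FiniteDimensional.of_injective (IntermediateField.inclusion hLpL).toLinearMap
        (IntermediateField.inclusion hLpL).injective
    have hL₁' : L₁ ≤ K₁ ⊔ B := hL1 L₁ g₁ (hL₁L.trans hLN) hdL₁
    have hLpK : Lp ≤ K := by
      refine hCPD k K Lp (K ⊔ B) h le_sup_left gp (hLpL.trans hLN) hGLp ?_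
      rw [hb]
      refine Nat.Coprime.coprime_dvd_right (deg_lay hl hB le_sup_left) ?_
      refine Nat.Coprime.pow b r ?_
      rw [Nat.coprime_primes hpp (prime_l hl)]
      rcases hl with rfl | rfl <;> omega
    obtain ⟨C₀, hC₀⟩ := (hmain r B hB).2 L₁ g₁ hL₁'
    set F₁ : IntermediateField ℚ ℂ := L₁ ⊓ (K₁ ⊔ B₀) with hF₁
    have hkF : k ≤ F₁ := le_inf g₁ (h₁.trans le_sup_left)
    have hFL : F₁ ≤ L₁ := inf_le_left
    have hfF : FiniteDimensional ℚ F₁ :=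
      FiniteDimensional.of_injective (IntermediateField.inclusion hFL).toLinearMap
        (IntermediateField.inclusion hFL).injective
    have hkLE : k ≤ Lp ⊔ E := gp.trans le_sup_left
    have hGLE : IsGalois k (IntermediateField.extendScalars hkLE) :=
      RI.BCH_thm.2 k Lp E gp hE hkLE hGLp hGE
    have hdLE : ∃ c : ℕ, Module.finrank k (IntermediateField.extendScalars hkLE) = p ^ c := by
      have hEE : E ≤ Lp ⊔ E := le_sup_right
      have hEk : E = k ⊔ E := (sup_eq_right.2 hE).symm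
      have h3 := (RI.BCH_thm.1 k Lp E E (Lp ⊔ E) gp hEE hEk rfl hGLp).2
      have h4 := RI.CHIEF.finrank_mul hE hEE
      rw [hb] at h3
      obtain ⟨c, -, hc⟩ := (Nat.dvd_prime_pow hpp).1 h3
      rw [he, hc] at h4
      exact ⟨e + c, by rw [← h4, pow_add]⟩
    have hM : F₁ ≤ (Lp ⊔ E) ⊔ F₁ := le_sup_right
    have hkF' : F₁ = k ⊔ F₁ := (sup_eq_right.2 hkF).symm
    have hBM := RI.BCH_thm.1 k (Lp ⊔ E) F₁ F₁ ((Lp ⊔ E) ⊔ F₁) hkLE hM hkF' rfl hGLE
    have hC0 : OTE.C0 p F₁ L₁ ((Lp ⊔ E) ⊔ F₁) := by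
      refine ⟨hFL, hM, ?_, ?_, hBM.1, ?_, ?_⟩
      · exact (RI.BCH_thm.1 k L₁ F₁ F₁ L₁ g₁ hFL hkF' (sup_eq_left.2 hFL).symm hGL₁).1
      · intro h0
        have h4 := RI.CHIEF.finrank_mul hkF hFL
        exact hdL₁ (h4 ▸ h0.mul_left _)
      · obtain ⟨c, hc⟩ := hdLE
        have h5 := hBM.2
        rw [hc] at h5
        obtain ⟨d, -, hd⟩ := (Nat.dvd_prime_pow hpp).1 h5
        exact ⟨d, hd⟩
      · exact hTCQ k F₁ hk.deg hk.imag hkF
    obtain ⟨Bp, hlay, hmono, hu⟩ := hLAY p (by omega)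
    have hfBp : ∀ n, FiniteDimensional ℚ (Bp n) := fun n => (RI.LAY_thm p n (Bp n) (hlay n)).1
    obtain ⟨C₁, c₁, hC₁⟩ := hPEX p F₁ L₁ ((Lp ⊔ E) ⊔ F₁) Bp hC0 hlay hmono
      ⟨C₀, 2, fun n => hC₀ n (Bp n) (hlay n)⟩
    have hle2 : (Lp ⊔ E) ⊔ F₁ ≤ (L ⊓ (K ⊔ B₀)) ⊔ E := by
      refine sup_le (sup_le ?_ le_sup_right) ?_
      · exact le_sup_of_le_left (le_inf hLpL (hLpK.trans le_sup_left))
      · exact le_sup_of_le_left (le_inf (hFL.trans hL₁L)
          (inf_le_right.trans (sup_le_sup_right h₂ B₀)))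
    have hfi : FiniteDimensional ℚ ↥(L ⊓ (K ⊔ B₀)) :=
      FiniteDimensional.of_injective (IntermediateField.inclusion inf_le_left).toLinearMap
        (IntermediateField.inclusion (inf_le_left : L ⊓ (K ⊔ B₀) ≤ L)).injective
    obtain ⟨C₂, hC₂⟩ := hSUB p ((Lp ⊔ E) ⊔ F₁) ((L ⊓ (K ⊔ B₀)) ⊔ E) hle2
    refine ⟨C₁ + C₂ + c₁, fun m Q hQ => ?_⟩
    obtain rfl : Q = Bp m := hu m Q hQ
    have e1 : L ⊔ E ⊔ Bp m = L₁ ⊔ ((Lp ⊔ E) ⊔ F₁ ⊔ Bp m) := by
      rw [← hsup]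
      apply le_antisymm
      · refine sup_le (sup_le (sup_le le_sup_left ?_) ?_) ?_
        · exact le_sup_of_le_right (le_sup_of_le_left (le_sup_of_le_left le_sup_left))
        · exact le_sup_of_le_right (le_sup_of_le_left (le_sup_of_le_left le_sup_right))
        · exact le_sup_of_le_right le_sup_right
      · refine sup_le ?_ (sup_le (sup_le (sup_le ?_ ?_) ?_) le_sup_right)
        · exact le_sup_of_le_left (le_sup_of_le_left le_sup_left)
        · exact le_sup_of_le_left (le_sup_of_le_left le_sup_right)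
        · exact le_sup_of_le_left le_sup_right
        · exact hFL.trans (le_sup_of_le_left (le_sup_of_le_left le_sup_left))
    have h5 : padicValNat p (classNo (L₁ ⊔ ((Lp ⊔ E) ⊔ F₁ ⊔ Bp m))) ≤
        padicValNat p (classNo ((Lp ⊔ E) ⊔ F₁ ⊔ Bp m)) + C₁ * (m + 1) ^ c₁ := hC₁ m
    have h6 : padicValNat p (classNo ((Lp ⊔ E) ⊔ F₁ ⊔ Bp m)) ≤
        padicValNat p (classNo ((L ⊓ (K ⊔ B₀)) ⊔ E ⊔ Bp m)) + C₂ := hC₂ m (Bp m) (hlay m)
    rw [e1]
    have h7 : (m + 1) ^ c₁ ≤ (m + 1) ^ (C₁ + C₂ + c₁) :=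
      Nat.pow_le_pow_right (Nat.succ_pos m) (by omega)
    have h8 : 1 ≤ (m + 1) ^ (C₁ + C₂ + c₁) := Nat.one_le_pow _ _ (Nat.succ_pos m)
    have h9 : C₁ * (m + 1) ^ c₁ + C₂ ≤ (C₁ + C₂ + c₁) * (m + 1) ^ (C₁ + C₂ + c₁) := by
      calc C₁ * (m + 1) ^ c₁ + C₂ ≤
          C₁ * (m + 1) ^ (C₁ + C₂ + c₁) + C₂ * (m + 1) ^ (C₁ + C₂ + c₁) := by
            have := Nat.mul_le_mul_left C₁ h7
            have := Nat.mul_le_mul_left C₂ h8
            omega
        _ ≤ (C₁ + C₂ + c₁) * (m + 1) ^ (C₁ + C₂ + c₁) := by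
          rw [← Nat.add_mul]
          exact Nat.mul_le_mul_right _ (by omega)
    omega

end Pool.Agent.OTF
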