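import Pool.Agent.OT.StH
import Pool.Agent.MUX.HX_HZ

/-!
# OT, block H: module CNG (helper51)

Only the class of `a` modulo a power of `p` matters for the vector symbol `PV`: `h_CNG : S_CNG`.
-/

set_option autoImplicit false

namespace Pool.Agent.OTH

open _root_.MU3 Pool.Agent.MuSym Pool.Agent.MUXH OnePoint Pool.Agent.OBH Pool.Agent.OT
open Pool.Agent.TWR (Gen)
open Pool.Agent.TWV (IsVSym)

noncomputable section

namespace CNG

open Pool.Agent.MUXH.Hz (val_int val_int_p val_root val_p)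

section

variable {p n : ℕ} {V : ValuationSubring ℂ} {N : ℕ} {nu : ℤ → ℂ} {s : ℂ} {z₀ : ℤ} {t : ℤ → ℂ}
  {Q : ℕ → OnePoint ℚ → OnePoint ℚ → ℂ} {ξ : ℂ} {l : ℕ}

/-- `v(1 - ξ) < 1` -/
theorem v_xi (H : HypT p n V N nu s z₀ t Q ξ l) : V.valuation (1 - ξ) < 1 := by
  have h1 := val_p p H.pp V n ξ H.xi
  rw [← neg_sub, Valuation.map_neg]
  by_contra h
  have h2 : (1 : V.ValueGroup) ≤ V.valuation (ξ - 1) ^ (p ^ n * (p - 1)) := one_le_pow₀ (not_lt.1 h)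
  rw [h1] at h2
  exact absurd H.vp (not_lt.2 h2)

theorem xi_ne (H : HypT p n V N nu s z₀ t Q ξ l) : (1 : ℂ) - ξ ≠ 0 := by
  intro h
  have h1 : ξ = 1 := by linear_combination -h
  have h2 : p ^ (n + 1) = 1 := by
    have := H.xi
    rw [h1] at this
    exact this.unique IsPrimitiveRoot.one
  have h3 : 1 < p ^ (n + 1) := Nat.one_lt_pow (by omega) H.pp.one_lt
  omega

theorem p_ne (H : HypT p n V N nu s z₀ t Q ξ l) : (p : ℂ) ≠ 0 := Nat.cast_ne_zero.2 H.pp.ne_zero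

theorem v_p0 (H : HypT p n V N nu s z₀ t Q ξ l) : (0 : V.ValueGroup) < V.valuation (p : ℂ) :=
  lt_of_le_of_ne zero_le ((Valuation.ne_zero_iff _).2 (p_ne H)).symm

/-- `v p < v ρ` -/
theorem v_rho (H : HypT p n V N nu s z₀ t Q ξ l) :
    V.valuation (p : ℂ) < V.valuation ((p : ℂ) / (1 - ξ)) := by
  have h0 : (0 : V.ValueGroup) < V.valuation (1 - ξ) :=
    lt_of_le_of_ne zero_le ((Valuation.ne_zero_iff _).2 (xi_ne H)).symm
  rw [map_div₀, lt_div_iff₀ h0]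
  calc V.valuation (p : ℂ) * V.valuation (1 - ξ) < V.valuation (p : ℂ) * 1 :=
        mul_lt_mul_of_pos_left (v_xi H) (v_p0 H)
    _ = V.valuation (p : ℂ) := mul_one _

/-- `z₀` is prime to `p` -/
theorem z0_cop (H : HypT p n V N nu s z₀ t Q ξ l) (k : ℕ) : ¬ (p : ℤ) ∣ z₀ ^ k := by
  intro h
  have hp : Prime (p : ℤ) := Nat.prime_iff_prime_int.1 H.pp
  have h1 : (p : ℤ) ∣ z₀ := hp.dvd_of_dvd_pow h
  have h2 : (p : ℤ) ∣ z₀ ^ (p - 1) := dvd_pow h1 (by have := H.p5; omega)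
  have h3 : (p : ℤ) ∣ z₀ ^ (p - 1) - 1 :=
    dvd_trans (Int.natCast_dvd_natCast.2 (dvd_pow_self p (by omega))) H.z0.one
  have h4 : (p : ℤ) ∣ 1 := by
    have := dvd_sub h2 h3
    rwa [sub_sub_cancel] at this
  exact hp.not_dvd_one h4

theorem v_t (H : HypT p n V N nu s z₀ t Q ξ l) (k : ℕ) : V.valuation (t (z₀ ^ k)) ≤ 1 := by
  obtain ⟨q, hq, ht⟩ := H.tw
  have hq0 : q ≠ 0 := by
    rintro rfl
    exact hq (dvd_zero _)
  exact (val_root V q hq0 _ (ht.pow _ (z0_cop H k))).le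

/-- the powers of `ξ` with congruent exponents -/
theorem xi_zpow (H : HypT p n V N nu s z₀ t Q ξ l) (a b : ℤ)
    (h : ((p ^ (n + 1) : ℕ) : ℤ) ∣ a - b) : ξ ^ a = ξ ^ b := by
  have h0 : ξ ≠ 0 := H.xi.ne_zero (pow_ne_zero _ H.pp.ne_zero)
  have h1 : ξ ^ (a - b) = 1 := (H.xi.zpow_eq_one_iff_dvd _).2 h
  rw [zpow_sub₀ h0] at h1
  exact (div_eq_one_iff_eq (zpow_ne_zero _ h0)).1 h1

/-- the sums `Yh` multiplied by `p^K m` -/
theorem v_yh (H : HypT p n V N nu s z₀ t Q ξ l) (K : ℕ)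
    (hK : ∀ k x y, V.valuation ((p : ℂ) ^ K * Q k x y) ≤ 1) (c : ℤ) (k : ℕ) (x y : OnePoint ℚ) :
    V.valuation ((p : ℂ) ^ (K + 1) * Yh (p ^ (n + 1)) (ξ ^ c) (Q k) x y) ≤
      V.valuation (p : ℂ) := by
  have hM : p ^ (n + 1) ≠ 0 := pow_ne_zero _ H.pp.ne_zero
  have e : (p : ℂ) ^ (K + 1) * Yh (p ^ (n + 1)) (ξ ^ c) (Q k) x y =
      p * ∑ b ∈ Finset.range (p ^ (n + 1)), (ξ ^ c) ^ b *
        ((p : ℂ) ^ K * Q k (tM (p ^ (n + 1)) b x) (tM (p ^ (n + 1)) b y)) := by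
    unfold Yh
    rw [Finset.mul_sum, Finset.mul_sum]
    refine Finset.sum_congr rfl fun b _ => ?_
    ring
  rw [e, map_mul]
  refine mul_le_of_le_one_right' ?_
  refine Valuation.map_sum_le _ fun b _ => ?_
  rw [map_mul]
  have h1 : V.valuation ((ξ ^ c) ^ b) = 1 := by
    refine val_root V (p ^ (n + 1)) hM _ ?_
    have h2 : (ξ ^ c) ^ (p ^ (n + 1)) = 1 := by
      rw [← zpow_natCast, ← zpow_mul, mul_comm, zpow_mul, zpow_natCast, H.xi.pow_eq_one, one_zpow]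
    rw [← pow_mul, mul_comm, pow_mul, h2, one_pow]
  rw [h1, one_mul]
  exact hK _ _ _

/-- the coefficients for congruent `a`, `a'` -/
theorem coT_sub (a a' : ℤ) (m : ℕ) (h : ((p ^ m : ℕ) : ℤ) ∣ a - a') (j r : ℕ) :
    ∃ w : ℤ, coT a j r - coT a' j r = (p : ℂ) ^ m * w := by
  obtain ⟨w, hw⟩ := h
  have hw' : (a : ℂ) - a' = (p : ℂ) ^ m * w := by
    have := congrArg (Int.cast (R := ℂ)) hw
    push_cast at this
    exact this
  unfold coT
  by_cases hr : r = 0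
  · rw [if_pos hr, if_pos hr]
    refine ⟨-((-1) ^ (1 - j) * w * (a + a')), ?_⟩
    push_cast
    linear_combination -((-1) ^ (1 - j) * ((a : ℂ) + a')) * hw'
  · rw [if_neg hr, if_neg hr]
    refine ⟨(-1) ^ (1 - j) * w, ?_⟩
    push_cast
    linear_combination (-1) ^ (1 - j) * hw'

/-- only the class of `a` modulo `p^(K + n + 1)` matters -/
theorem v_diff (H : HypT p n V N nu s z₀ t Q ξ l) (K : ℕ)
    (hK : ∀ k x y, V.valuation ((p : ℂ) ^ K * Q k x y) ≤ 1) (a a' : ℤ)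
    (h : ((p ^ (K + n + 1) : ℕ) : ℤ) ∣ a - a') (c : ℤ) (x y : OnePoint ℚ) :
    V.valuation (PV p n ξ a z₀ t Q c x y - PV p n ξ a' z₀ t Q c x y) ≤
      V.valuation (p : ℂ) := by
  have hM : ((p ^ (n + 1) : ℕ) : ℤ) ∣ a - a' :=
    dvd_trans (Int.natCast_dvd_natCast.2 (pow_dvd_pow p (by omega))) h
  have hK1 : ((p ^ (K + 1) : ℕ) : ℤ) ∣ a - a' :=
    dvd_trans (Int.natCast_dvd_natCast.2 (pow_dvd_pow p (by omega))) h
  have e : PV p n ξ a z₀ t Q c x y - PV p n ξ a' z₀ t Q c x y =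
      ∑ k ∈ Finset.range (p - 1), t (z₀ ^ k) * ∑ j ∈ Finset.range 2, ∑ r ∈ Finset.range 2,
        (coT a j r - coT a' j r) *
          Yh (p ^ (n + 1)) (ξ ^ (c * a ^ (2 * r) * (1 + (p : ℤ)) ^ j * z₀ ^ k)) (Q k) x y := by
    unfold PV
    rw [← Finset.sum_sub_distrib]
    refine Finset.sum_congr rfl fun k _ => ?_
    rw [← mul_sub, ← Finset.sum_sub_distrib]
    congr 1
    refine Finset.sum_congr rfl fun j _ => ?_
    rw [← Finset.sum_sub_distrib]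
    refine Finset.sum_congr rfl fun r _ => ?_
    have h1 : ξ ^ (c * a ^ (2 * r) * (1 + (p : ℤ)) ^ j * z₀ ^ k) =
        ξ ^ (c * a' ^ (2 * r) * (1 + (p : ℤ)) ^ j * z₀ ^ k) := by
      refine xi_zpow H _ _ ?_
      have h2 : ((p ^ (n + 1) : ℕ) : ℤ) ∣ a ^ (2 * r) - a' ^ (2 * r) :=
        dvd_trans hM (sub_dvd_pow_sub_pow _ _ _)
      have h3 : c * a ^ (2 * r) * (1 + (p : ℤ)) ^ j * z₀ ^ k -
          c * a' ^ (2 * r) * (1 + (p : ℤ)) ^ j * z₀ ^ k =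
          (a ^ (2 * r) - a' ^ (2 * r)) * (c * (1 + (p : ℤ)) ^ j * z₀ ^ k) := by ring
      rw [h3]
      exact Dvd.dvd.mul_right h2 _
    rw [h1]
    ring
  rw [e]
  refine Valuation.map_sum_le _ fun k _ => ?_
  rw [map_mul]
  refine (mul_le_of_le_one_left' (v_t H k)).trans ?_
  refine Valuation.map_sum_le _ fun j _ => ?_
  refine Valuation.map_sum_le _ fun r _ => ?_
  obtain ⟨w, hw⟩ := coT_sub a a' (K + 1) hK1 j r
  rw [hw]
  have e2 : (p : ℂ) ^ (K + 1) * (w : ℂ) *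
      Yh (p ^ (n + 1)) (ξ ^ (c * a ^ (2 * r) * (1 + (p : ℤ)) ^ j * z₀ ^ k)) (Q k) x y =
      (w : ℂ) * ((p : ℂ) ^ (K + 1) *
        Yh (p ^ (n + 1)) (ξ ^ (c * a ^ (2 * r) * (1 + (p : ℤ)) ^ j * z₀ ^ k)) (Q k) x y) := by
    ring
  rw [e2, map_mul]
  exact (mul_le_of_le_one_left' (val_int V w)).trans (v_yh H K hK _ k x y)

end

end CNG

open CNG in
/-- (CNG) -/
theorem h_CNG : S_CNG := by
  intro p n V N nu s z₀ t Q ξ l H
  obtain ⟨K, hK⟩ := H.bdd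
  refine ⟨K + n + 2, by omega, fun a a' h c x y => v_diff H K hK a a' ?_ c x y⟩
  refine dvd_trans ?_ h
  push_cast
  exact pow_dvd_pow _ (by omega)

end

end Pool.Agent.OTH
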