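import Pool.Agent.OT.H_CNG

/-!
# OT, block H: module HT (helper51)

The abstract theorem `Ot_H` from the vector version `TWV.S_TWV` of the rigidity theorem. The family `I` = the classes of
`a` modulo `p^K` with `p ∣ a - 1`, `p² ∤ a - 1`.
-/

set_option autoImplicit false

namespace Pool.Agent.OTH

open _root_.MU3 Pool.Agent.MuSym Pool.Agent.MUXH OnePoint Pool.Agent.OBH Pool.Agent.OT
open Pool.Agent.TWR (Gen)
open Pool.Agent.TWV (IsVSym)

noncomputable section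

namespace HT

open Pool.Agent.MUXH.Hz (val_int val_int_p val_root val_p)

/-- the values of `ψ` -/
theorem v_psi (V : ValuationSubring ℂ) (m : ℕ) (hm : m ≠ 0) (ψ : DirichletCharacter ℂ m)
    (x : ZMod m) : V.valuation (ψ x) ≤ 1 := by
  have : NeZero m := ⟨hm⟩
  by_cases hx : IsUnit x
  · obtain ⟨u, rfl⟩ := hx
    have h1 : ψ (u : ZMod m) ^ Nat.card (ZMod m)ˣ = 1 := by
      rw [← map_pow, ← Units.val_pow_eq_pow_val, pow_card_eq_one', Units.val_one, map_one]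
    exact (val_root V _ Nat.card_pos.ne' _ h1).le
  · rw [MulChar.map_nonunit _ hx, map_zero]
    exact zero_le

end HT

open HT CNG in
/-- The abstract theorem. -/
theorem h_HT (h1 : S_LAG) (h2 : S_VSY) (h3 : S_CNG) (h5 : Pool.Agent.TWV.S_TWV) : Ot_H := by
  intro l g h hG p n V N nu s z₀ t Q ξ H
  have hl : l.Prime := by rcases hG with ⟨rfl, _, _⟩ | ⟨rfl, _, _⟩ <;> norm_num
  obtain ⟨K, hK2, hK⟩ := h3 p n V N nu s z₀ t Q ξ l H
  have hE0 : p ^ K ≠ 0 := pow_ne_zero _ H.pp.ne_zero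
  have : NeZero (p ^ K) := ⟨hE0⟩
  have hMne : p ^ (n + 1) ≠ 0 := pow_ne_zero _ H.pp.ne_zero
  have : NeZero (p ^ (n + 1)) := ⟨hMne⟩
  -- the classes of `a`
  let I : Type := {i : ZMod (p ^ K) //
    ∃ a : ℤ, (a : ZMod (p ^ K)) = i ∧ (p : ℤ) ∣ a - 1 ∧ ¬ (p : ℤ) ^ 2 ∣ a - 1}
  have hI : Finite I := Subtype.finite
  choose rep hrep using fun i : I => i.2
  have hvp0 : (0 : V.ValueGroup) < V.valuation (p : ℂ) := v_p0 H
  have hvx0 : (0 : V.ValueGroup) < V.valuation (1 - ξ) :=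
    lt_of_le_of_ne zero_le ((Valuation.ne_zero_iff _).2 (xi_ne H)).symm
  have hNM : N * p ^ (2 * (n + 1)) ≠ 0 := mul_ne_zero H.N0 (pow_ne_zero _ H.pp.ne_zero)
  have hNdvd : N ∣ N * p ^ (2 * (n + 1)) := Dvd.intro _ rfl
  obtain ⟨-, -, -, -, hsg1, hsgp, -, hval⟩ := h2 p n V N nu s z₀ t Q ξ l H 1
  obtain ⟨r₀, hr₀⟩ := h5 l g h hG V p H.pp H.p5 H.vp I (ZMod (p ^ (n + 1)))ˣ
    (N * p ^ (2 * (n + 1))) hNM (sE (p ^ (n + 1))) hsg1 hsgp (fun _ => nu) (fun _ => H.nuv)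
    (fun _ => H.nu1)
    (fun _ d d' hd => H.nuper d d' (dvd_trans (Int.natCast_dvd_natCast.2 hNdvd) hd))
    (fun _ => H.nua) (fun i => PE p n ξ (rep i) z₀ t Q)
    (fun i => (h2 p n V N nu s z₀ t Q ξ l H (rep i)).1)
    (fun i e x => (h2 p n V N nu s z₀ t Q ξ l H (rep i)).2.1 e _ _)
    (fun i e x => (h2 p n V N nu s z₀ t Q ξ l H (rep i)).2.2.1 e x)
    (fun i e x => (h2 p n V N nu s z₀ t Q ξ l H (rep i)).2.2.2.1 e x)
    (fun i N' hN' hd => by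
      obtain ⟨al, be, ga, de, c, hc, hdet, hga, hde, hv⟩ := h1 p n V N nu s z₀ t Q ξ l H (rep i)
        (hrep i).2.1 (hrep i).2.2 N' hN' (hNdvd.trans hd)
      obtain ⟨e, he⟩ := (h2 p n V N nu s z₀ t Q ξ l H (rep i)).2.2.2.2.2.2.1 c hc
      refine ⟨al, be, ga, de, e, hdet, hga, hde, ?_⟩
      rw [he, map_mul, map_div₀, div_mul_eq_mul_div, le_div_iff₀ hvp0, one_mul, mul_comm]
      exact hv)
  refine ⟨r₀, fun r hr ψ hψ1 hψ2 a ha ha2 => ?_⟩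
  -- the class of `a`
  let i : I := ⟨(a : ZMod (p ^ K)), a, rfl, ha, ha2⟩
  have hai : (p : ℤ) ^ K ∣ rep i - a := by
    have h6 : ((p ^ K : ℕ) : ℤ) ∣ rep i - a := by
      rw [← ZMod.intCast_zmod_eq_zero_iff_dvd, Int.cast_sub, (hrep i).1]
      exact sub_self _
    exact_mod_cast h6
  obtain ⟨e, he⟩ := hr₀ r hr i ψ hψ1 hψ2
  refine ⟨((e : ZMod (p ^ (n + 1))).val : ℤ), hval e, ?_⟩
  set c : ℤ := ((e : ZMod (p ^ (n + 1))).val : ℤ) with hc
  have h4 : V.valuation (p : ℂ) < V.valuation (∑ b ∈ Finset.range (l ^ r), ψ b *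
      PV p n ξ (rep i) z₀ t Q c ∞ (((b : ℚ) / (l : ℚ) ^ r : ℚ) : OnePoint ℚ)) := by
    have e1 : (∑ b ∈ Finset.range (l ^ r), ψ b *
        PE p n ξ (rep i) z₀ t Q e ∞ (((b : ℚ) / (l : ℚ) ^ r : ℚ) : OnePoint ℚ)) =
        (1 - ξ) / p * (∑ b ∈ Finset.range (l ^ r), ψ b *
          PV p n ξ (rep i) z₀ t Q c ∞ (((b : ℚ) / (l : ℚ) ^ r : ℚ) : OnePoint ℚ)) := by
      rw [Finset.mul_sum]
      refine Finset.sum_congr rfl fun b _ => ?_
      unfold PE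
      ring
    rw [e1, map_mul, map_div₀, div_mul_eq_mul_div, le_div_iff₀ hvp0, one_mul] at he
    refine lt_of_le_of_lt he ?_
    set w := V.valuation (∑ b ∈ Finset.range (l ^ r), ψ b *
      PV p n ξ (rep i) z₀ t Q c ∞ (((b : ℚ) / (l : ℚ) ^ r : ℚ) : OnePoint ℚ)) with hw
    have hw0 : (0 : V.ValueGroup) < w := by
      rcases eq_or_ne w 0 with h7 | h7
      · rw [h7, mul_zero] at he
        exact absurd he (not_le.2 hvp0)
      · exact lt_of_le_of_ne zero_le h7.symm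
    calc V.valuation (1 - ξ) * w < 1 * w := mul_lt_mul_of_pos_right (v_xi H) hw0
      _ = w := one_mul w
  have h5' : V.valuation ((∑ b ∈ Finset.range (l ^ r), ψ b *
      PV p n ξ (rep i) z₀ t Q c ∞ (((b : ℚ) / (l : ℚ) ^ r : ℚ) : OnePoint ℚ)) -
      ∑ b ∈ Finset.range (l ^ r), ψ b *
        PV p n ξ a z₀ t Q c ∞ (((b : ℚ) / (l : ℚ) ^ r : ℚ) : OnePoint ℚ)) ≤
      V.valuation (p : ℂ) := by
    rw [← Finset.sum_sub_distrib]
    refine Valuation.map_sum_le _ fun b _ => ?_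
    rw [← mul_sub, map_mul]
    exact (mul_le_of_le_one_left' (v_psi V _ (pow_ne_zero _ hl.ne_zero) ψ _)).trans
      (hK (rep i) a hai c _ _)
  by_contra hcon
  have h6 := not_lt.1 hcon
  have h7 : V.valuation (∑ b ∈ Finset.range (l ^ r), ψ b *
      PV p n ξ (rep i) z₀ t Q c ∞ (((b : ℚ) / (l : ℚ) ^ r : ℚ) : OnePoint ℚ)) ≤
      V.valuation (p : ℂ) := by
    have e2 := Valuation.map_add V.valuation ((∑ b ∈ Finset.range (l ^ r), ψ b *
      PV p n ξ (rep i) z₀ t Q c ∞ (((b : ℚ) / (l : ℚ) ^ r : ℚ) : OnePoint ℚ)) -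
      ∑ b ∈ Finset.range (l ^ r), ψ b *
        PV p n ξ a z₀ t Q c ∞ (((b : ℚ) / (l : ℚ) ^ r : ℚ) : OnePoint ℚ))
      (∑ b ∈ Finset.range (l ^ r), ψ b *
        PV p n ξ a z₀ t Q c ∞ (((b : ℚ) / (l : ℚ) ^ r : ℚ) : OnePoint ℚ))
    rw [sub_add_cancel] at e2
    exact e2.trans (max_le h5' h6)
  exact absurd h4 (not_lt.2 h7)

end

end Pool.Agent.OTH
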