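import Pool.Agent.OB.StHN
import Pool.Agent.MUX.HX_HZ

/-!
# OT, block H2 (helper3): valuations of differences of roots of unity and isolation of a node (Lagrange)

`lag`: if all the sums `∑_k w_k z_k^b` are small then so is `w_{k₀} ∏_{k ≠ k₀} (z_{k₀} - z_k)` (the other `z_k` may coincide).
`val_d0`, `val_d1`: for a primitive root `ξ` of order `p^(n+1)`, `v(ξ^a - ξ^b)` is `v(1 - ξ)` if `p ∤ a - b`, and `v(1 - ξ)^p` if `p` divides `a - b`
exactly once.
-/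

set_option autoImplicit false

namespace Pool.Agent.OT.L

open Finset

noncomputable section

/-- Isolation of one node. -/
theorem lag (V : ValuationSubring ℂ) {ι : Type} [DecidableEq ι] (S : Finset ι) (w z : ι → ℂ)
    (k0 : ι) (hk0 : k0 ∈ S) (R : V.ValueGroup) (hR : R ≠ 0)
    (hz : ∀ k ∈ S, V.valuation (z k) ≤ 1)
    (hf : ∀ b : ℕ, V.valuation (∑ k ∈ S, w k * z k ^ b) < R) :
    V.valuation (w k0) * ∏ k ∈ S.erase k0, V.valuation (z k0 - z k) < R := by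
  obtain ⟨L, hL⟩ : ∃ L : Polynomial ℂ, L = ∏ k ∈ S.erase k0, (Polynomial.X - Polynomial.C (z k)) :=
    ⟨_, rfl⟩
  have hco : ∀ i, V.valuation (L.coeff i) ≤ 1 := by
    obtain ⟨L', hL'⟩ : ∃ L' : Polynomial V, L'.map (algebraMap V ℂ) = L := by
      refine ⟨∏ k ∈ (S.erase k0).attach, (Polynomial.X - Polynomial.C (⟨z k.1,
        (V.valuation_le_one_iff _).1 (hz k.1 (Finset.mem_of_mem_erase k.2))⟩ : V)), ?_⟩
      rw [Polynomial.map_prod, hL, ← Finset.prod_attach (S.erase k0)]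
      refine Finset.prod_congr rfl fun k _ => ?_
      rw [Polynomial.map_sub, Polynomial.map_X, Polynomial.map_C]
      rfl
    intro i
    rw [← hL', Polynomial.coeff_map]
    exact (V.valuation_le_one_iff _).2 (L'.coeff i).2
  have hev : ∀ k ∈ S, k ≠ k0 → L.eval (z k) = 0 := by
    intro k hk hkk
    rw [hL, Polynomial.eval_prod]
    refine Finset.prod_eq_zero (Finset.mem_erase.2 ⟨hkk, hk⟩) ?_
    simp
  have h0 : L.eval (z k0) = ∏ k ∈ S.erase k0, (z k0 - z k) := by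
    rw [hL, Polynomial.eval_prod]
    refine Finset.prod_congr rfl fun k _ => ?_
    simp
  have h1 : ∑ i ∈ Finset.range (L.natDegree + 1), L.coeff i * (∑ k ∈ S, w k * z k ^ i) =
      w k0 * L.eval (z k0) := by
    have h2 : ∑ k ∈ S, w k * L.eval (z k) = w k0 * L.eval (z k0) := by
      refine Finset.sum_eq_single_of_mem k0 hk0 fun k hk hkk => ?_
      rw [hev k hk hkk, mul_zero]
    rw [← h2]
    simp_rw [Finset.mul_sum]
    rw [Finset.sum_comm]
    refine Finset.sum_congr rfl fun k _ => ?_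
    rw [Polynomial.eval_eq_sum_range, Finset.mul_sum]
    refine Finset.sum_congr rfl fun i _ => ?_
    ring
  have h3 : V.valuation (w k0 * L.eval (z k0)) < R := by
    rw [← h1]
    refine Valuation.map_sum_lt _ hR fun i _ => ?_
    rw [map_mul]
    exact lt_of_le_of_lt (mul_le_of_le_one_left' (hco i)) (hf i)
  rwa [map_mul, h0, map_prod] at h3

variable {p : ℕ} {V : ValuationSubring ℂ} {n : ℕ} {ξ : ℂ}

theorem pos_p (hp : p.Prime) : (0 : V.ValueGroup) < V.valuation (p : ℂ) :=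
  lt_of_le_of_ne zero_le ((Valuation.ne_zero_iff _).2 (by exact_mod_cast hp.ne_zero)).symm

theorem xi_pow (hp : p.Prime) (hξ : IsPrimitiveRoot ξ (p ^ (n + 1))) :
    V.valuation (1 - ξ) ^ (p ^ n * (p - 1)) = V.valuation (p : ℂ) := by
  have h := Pool.Agent.MUXH.Hz.val_p p hp V n ξ hξ
  rwa [← neg_sub, Valuation.map_neg] at h

theorem xi_pos (hp : p.Prime) (hξ : IsPrimitiveRoot ξ (p ^ (n + 1))) :
    0 < V.valuation (1 - ξ) := by
  refine lt_of_le_of_ne zero_le fun h => ?_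
  have h1 := xi_pow (V := V) hp hξ
  have h2 : p ^ n * (p - 1) ≠ 0 := by
    have := hp.two_le
    exact (Nat.mul_pos (pow_pos hp.pos _) (by omega)).ne'
  rw [← h, zero_pow h2] at h1
  exact (pos_p (V := V) hp).ne h1

theorem xi_lt (hp : p.Prime) (hV : V.valuation (p : ℂ) < 1)
    (hξ : IsPrimitiveRoot ξ (p ^ (n + 1))) : V.valuation (1 - ξ) < 1 := by
  by_contra h
  have h1 : 1 ≤ V.valuation (1 - ξ) := not_lt.1 h
  have : 1 ≤ V.valuation (1 - ξ) ^ (p ^ n * (p - 1)) := one_le_pow₀ h1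
  rw [xi_pow hp hξ] at this
  exact absurd this (not_le.2 hV)

theorem val_xi (hp : p.Prime) (hξ : IsPrimitiveRoot ξ (p ^ (n + 1))) : V.valuation ξ = 1 :=
  Pool.Agent.MUXH.Hz.val_root V _ (pow_ne_zero _ hp.ne_zero) ξ hξ.pow_eq_one

theorem val_xi_zpow (hp : p.Prime) (hξ : IsPrimitiveRoot ξ (p ^ (n + 1))) (a : ℤ) :
    V.valuation (ξ ^ a) = 1 := by
  rw [map_zpow₀, val_xi hp hξ, one_zpow]

/-- `ξ^(c p^j)`, `p ∤ c`: the valuation of `1 - ·` is `v(1 - ξ)^(p^j)` -/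
theorem val_one_sub (hp : p.Prime) (hξ : IsPrimitiveRoot ξ (p ^ (n + 1))) (j : ℕ) (hj : j ≤ n)
    (c : ℤ) (hc : ¬ (p : ℤ) ∣ c) :
    V.valuation (1 - ξ ^ (c * (p : ℤ) ^ j)) = V.valuation (1 - ξ) ^ (p ^ j) := by
  obtain ⟨m, rfl⟩ : ∃ m, n = j + m := ⟨n - j, by omega⟩
  have h1 : IsPrimitiveRoot (ξ ^ p ^ j) (p ^ (m + 1)) := by
    refine hξ.pow (pow_pos hp.pos _) ?_
    rw [← pow_add]
    congr 1
  have h2 : IsPrimitiveRoot (ξ ^ (c * (p : ℤ) ^ j)) (p ^ (m + 1)) := by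
    have e : ξ ^ (c * (p : ℤ) ^ j) = (ξ ^ p ^ j) ^ c := by
      have : ((p : ℤ) ^ j) = ((p ^ j : ℕ) : ℤ) := by push_cast; rfl
      rw [mul_comm, zpow_mul, this, zpow_natCast]
    rw [e]
    refine h1.zpow_of_gcd_eq_one c ?_
    have h3 : IsCoprime c ((p ^ (m + 1) : ℕ) : ℤ) := by
      push_cast
      refine IsCoprime.pow_right ?_
      exact ((Prime.coprime_iff_not_dvd (Nat.prime_iff_prime_int.1 hp)).2 hc).symm
    exact Int.isCoprime_iff_gcd_eq_one.1 h3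
  have h3 := xi_pow (V := V) hp h2
  have h4 := xi_pow (V := V) hp hξ
  have h5 : (V.valuation (1 - ξ) ^ (p ^ j)) ^ (p ^ m * (p - 1)) = V.valuation (p : ℂ) := by
    rw [← pow_mul, ← mul_assoc, ← pow_add]
    exact h4
  have h6 : p ^ m * (p - 1) ≠ 0 := by
    have := hp.two_le
    exact (Nat.mul_pos (pow_pos hp.pos _) (by omega)).ne'
  exact (pow_left_inj₀ zero_le zero_le h6).1 (h3.trans h5.symm)

theorem val_d (hp : p.Prime) (hξ : IsPrimitiveRoot ξ (p ^ (n + 1))) (j : ℕ) (hj : j ≤ n)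
    (a b : ℤ) (h1 : (p : ℤ) ^ j ∣ a - b) (h2 : ¬ (p : ℤ) ^ (j + 1) ∣ a - b) :
    V.valuation (ξ ^ a - ξ ^ b) = V.valuation (1 - ξ) ^ (p ^ j) := by
  obtain ⟨c, hc⟩ := h1
  have hc' : ¬ (p : ℤ) ∣ c := by
    rintro ⟨d, rfl⟩
    exact h2 ⟨d, by rw [hc]; ring⟩
  have hξ0 : ξ ≠ 0 := hξ.ne_zero (pow_ne_zero _ hp.ne_zero)
  have e : ξ ^ a - ξ ^ b = - (ξ ^ b * (1 - ξ ^ (c * (p : ℤ) ^ j))) := by
    rw [mul_sub, mul_one, ← zpow_add₀ hξ0]
    have : b + c * (p : ℤ) ^ j = a := by linear_combination -hc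
    rw [this]
    ring
  rw [e, Valuation.map_neg, map_mul, val_xi_zpow hp hξ, one_mul,
    val_one_sub hp hξ j hj c hc']

end

end Pool.Agent.OT.L
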