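import Pool.Agent.OT.Defs
import Pool.Agent.OT.H2L

/-!
# OT, block H2 (helper3): the vector symbol is not small on the closed cycles

`nd_PV`: if the vector symbol `PV` were small (`v(PV) v(1 - ξ) < v p`) on all closed cycles of a level `N'`, for all indices `c` prime to `p`, then (the
translates of a closed cycle by `b/M` are closed cycles, and the node `ζ` is multiplied by `ζ^b`) every node would be small: `v(Yh) v(1 - ξ)^(7p-7) < v p`;
against `HypT.nd`, as `p^(n-2) ≥ 7 p - 7`.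
-/

set_option autoImplicit false

namespace Pool.Agent.OT

open _root_.MU3 _root_.Pool.Agent.MU3A _root_.Pool.Agent.MU3B _root_.Pool.Agent.MUX
  _root_.Pool.Agent.MuSym _root_.Pool.Agent.OB _root_.Pool.Agent.OBH OnePoint

noncomputable section

namespace H2

open Finset

/-! ### Elementary facts -/

theorem sum_shift (M : ℕ) (G : ℤ → ℂ) (hG : ∀ j, G (j + M) = G j) (b : ℕ) :
    ∑ i ∈ range M, G ((i : ℤ) + b) = ∑ i ∈ range M, G (i : ℤ) := by
  induction b with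
  | zero => simp
  | succ b ih =>
    rw [← ih]
    have h1 := Finset.sum_range_succ (fun i : ℕ => G ((i : ℤ) + b)) M
    have h2 := Finset.sum_range_succ' (fun i : ℕ => G ((i : ℤ) + b)) M
    rw [h1] at h2
    have h3 : G (((M : ℕ) : ℤ) + b) = G (((0 : ℕ) : ℤ) + b) := by
      have := hG b
      rw [add_comm] at this
      simpa using this
    rw [h3] at h2
    have h4 := add_right_cancel h2
    rw [h4]
    refine Finset.sum_congr rfl fun i _ => ?_
    congr 1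
    push_cast
    ring

theorem tM_inf (M : ℕ) (b : ℤ) : tM M b ∞ = ∞ := by
  unfold tM mob
  rw [OnePoint.elim_infty, if_pos rfl]

theorem tM_coe (M : ℕ) (hM : M ≠ 0) (b : ℤ) (x : ℚ) :
    tM M b (x : OnePoint ℚ) = ((x + (b : ℚ) / M : ℚ) : OnePoint ℚ) := by
  have h : (M : ℚ) ≠ 0 := by exact_mod_cast hM
  unfold tM mob
  rw [OnePoint.elim_some, if_neg (by push_cast; simpa using hM)]
  congr 1
  push_cast
  rw [zero_mul, zero_add, add_div, mul_div_cancel_left₀ _ h]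

theorem mob_inf_ne (α β γ δ : ℤ) (h : γ ≠ 0) :
    mob α β γ δ ∞ = (((α : ℚ) / γ : ℚ) : OnePoint ℚ) := by
  unfold mob
  rw [OnePoint.elim_infty, if_neg h]

theorem mob_inf_zero (α β δ : ℤ) : mob α β 0 δ ∞ = ∞ := by
  unfold mob
  rw [OnePoint.elim_infty, if_pos rfl]

variable {N : ℕ} {nu : ℤ → ℂ} {Q : OnePoint ℚ → OnePoint ℚ → ℂ}

theorem sym_inf (h : IsSym N nu Q) : Q ∞ ∞ = 0 := by
  have := h.add ∞ ∞ ∞
  simpa using this

theorem sym_per (h : IsSym N nu Q) (h1 : nu 1 = 1) (x : ℚ) :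
    Q ∞ ((x + 1 : ℚ) : OnePoint ℚ) = Q ∞ (x : OnePoint ℚ) := by
  have e := h.equiv 1 1 0 1 (by ring) (dvd_zero _) ∞ (x : OnePoint ℚ)
  have h2 : mob 1 1 0 1 (x : OnePoint ℚ) = ((x + 1 : ℚ) : OnePoint ℚ) := by
    unfold mob
    rw [OnePoint.elim_some]
    simp
  rw [mob_inf_zero, h2, h1, one_mul] at e
  exact e

theorem Yh_coe (M : ℕ) (hM : M ≠ 0) (ζ : ℂ) (x : ℚ) :
    Yh M ζ Q ∞ (x : OnePoint ℚ) =
      ∑ b ∈ range M, ζ ^ b * Q ∞ ((x + (b : ℚ) / M : ℚ) : OnePoint ℚ) := by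
  unfold Yh
  refine Finset.sum_congr rfl fun b _ => ?_
  rw [tM_inf, tM_coe M hM]
  push_cast
  rfl

theorem Yh_inf (h : IsSym N nu Q) (M : ℕ) (ζ : ℂ) : Yh M ζ Q ∞ ∞ = 0 := by
  unfold Yh
  refine Finset.sum_eq_zero fun b _ => ?_
  rw [tM_inf, sym_inf h, mul_zero]

/-- the translation by `-b/M` multiplies the node `ζ` by `ζ^b` -/
theorem Yh_shift (h : IsSym N nu Q) (h1 : nu 1 = 1) (M : ℕ) (hM : M ≠ 0) (ζ : ℂ)
    (hζ : ζ ^ M = 1) (x : ℚ) (b : ℕ) :
    Yh M ζ Q ∞ ((x - (b : ℚ) / M : ℚ) : OnePoint ℚ) = ζ ^ b * Yh M ζ Q ∞ (x : OnePoint ℚ) := by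
  have hM' : (M : ℚ) ≠ 0 := by exact_mod_cast hM
  have hζ0 : ζ ≠ 0 := by
    rintro rfl
    rw [zero_pow hM] at hζ
    exact zero_ne_one hζ
  rw [Yh_coe M hM, Yh_coe M hM]
  have e := sum_shift M (fun j : ℤ => ζ ^ j *
    Q ∞ ((x - (b : ℚ) / M + (j : ℚ) / M : ℚ) : OnePoint ℚ)) (fun j => by
      rw [zpow_add₀ hζ0, zpow_natCast, hζ, mul_one]
      congr 1
      have : (x - (b : ℚ) / M + ((j + (M : ℤ) : ℤ) : ℚ) / M : ℚ) =
          (x - (b : ℚ) / M + (j : ℚ) / M) + 1 := by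
        push_cast
        field_simp
        ring
      rw [this, sym_per h h1]) b
  have e1 : ∑ j ∈ range M, ζ ^ j * Q ∞ ((x - (b : ℚ) / M + (j : ℚ) / M : ℚ) : OnePoint ℚ) =
      ∑ j ∈ range M, ζ ^ (j : ℤ) *
        Q ∞ ((x - (b : ℚ) / M + (((j : ℤ)) : ℚ) / M : ℚ) : OnePoint ℚ) := by
    refine Finset.sum_congr rfl fun j _ => ?_
    rw [zpow_natCast, Int.cast_natCast]
  rw [e1, ← e, Finset.mul_sum]
  refine Finset.sum_congr rfl fun j _ => ?_
  have e2 : (x - (b : ℚ) / M + (((j : ℤ) + (b : ℤ) : ℤ) : ℚ) / M : ℚ) = x + (j : ℚ) / M := by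
    push_cast
    field_simp
    ring
  rw [e2, zpow_add₀ hζ0, zpow_natCast, zpow_natCast]
  ring

/-! ### The generator `z₀` -/

theorem z0_inj {p n : ℕ} (hp : p.Prime) {z₀ : ℤ} (h : IsZ0 p n z₀) (k : ℕ) (hk : k < p - 1)
    (hd : (p : ℤ) ∣ z₀ ^ k - 1) : k = 0 := by
  have : Fact p.Prime := ⟨hp⟩
  have h0 : (z₀ : ZMod p) ^ (p - 1) = 1 := by
    have h1 : ((z₀ ^ (p - 1) - 1 : ℤ) : ZMod p) = 0 := by
      rw [ZMod.intCast_zmod_eq_zero_iff_dvd]
      refine dvd_trans ?_ h.one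
      push_cast
      exact dvd_pow_self _ (by omega)
    push_cast at h1
    exact sub_eq_zero.1 h1
  have hz : IsUnit (z₀ : ZMod p) := by
    refine IsUnit.of_pow_eq_one h0 ?_
    have := hp.two_le
    omega
  obtain ⟨u, hu⟩ := hz
  have h2 : ∀ v : (ZMod p)ˣ, v ∈ Subgroup.zpowers u := by
    intro v
    obtain ⟨a, ha⟩ : ∃ a : ℤ, (a : ZMod p) = v := ZMod.intCast_surjective _
    obtain ⟨j, -, hj⟩ := h.gen a (by
      intro hpa
      have h3 : ((a : ℤ) : ZMod p) = 0 := (ZMod.intCast_zmod_eq_zero_iff_dvd a p).2 hpa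
      rw [h3] at ha
      exact v.ne_zero ha.symm)
    refine ⟨j, ?_⟩
    simp only [zpow_natCast]
    apply Units.ext
    rw [Units.val_pow_eq_pow_val, hu, ← ha]
    have h3 : ((a - z₀ ^ j : ℤ) : ZMod p) = 0 := (ZMod.intCast_zmod_eq_zero_iff_dvd _ p).2 hj
    push_cast at h3
    exact (sub_eq_zero.1 h3).symm
  have h3 : orderOf u = p - 1 := by
    rw [orderOf_eq_card_of_forall_mem_zpowers h2, Nat.card_eq_fintype_card, ZMod.card_units]
  have h4 : u ^ k = 1 := by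
    apply Units.ext
    rw [Units.val_pow_eq_pow_val, hu, Units.val_one]
    have h5 : ((z₀ ^ k - 1 : ℤ) : ZMod p) = 0 := (ZMod.intCast_zmod_eq_zero_iff_dvd _ p).2 hd
    push_cast at h5
    exact sub_eq_zero.1 h5
  have h5 := orderOf_dvd_of_pow_eq_one h4
  rw [h3] at h5
  exact Nat.eq_zero_of_dvd_of_lt h5 hk

/-- the exponent of the node -/
def nE (p : ℕ) (a z₀ c : ℤ) (x : ℕ × ℕ × ℕ) : ℤ :=
  c * a ^ (2 * x.2.2) * (1 + (p : ℤ)) ^ x.2.1 * z₀ ^ x.1

theorem dvd_pow_sub_one {p : ℕ} {a : ℤ} (h : (p : ℤ) ∣ a - 1) (m : ℕ) : (p : ℤ) ∣ a ^ m - 1 := by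
  have := sub_dvd_pow_sub_pow a 1 m
  rw [one_pow] at this
  exact h.trans this

theorem nE_ne {p n : ℕ} (hp : p.Prime) {z₀ : ℤ} (h : IsZ0 p n z₀) {a c : ℤ}
    (ha : (p : ℤ) ∣ a - 1) (hc : ¬ (p : ℤ) ∣ c) (r₀ : ℕ) (x : ℕ × ℕ × ℕ) (hx : x.1 < p - 1)
    (hx0 : x.1 ≠ 0) : ¬ (p : ℤ) ∣ nE p a z₀ c (0, 0, r₀) - nE p a z₀ c x := by
  intro hd
  have hpi : Prime (p : ℤ) := Nat.prime_iff_prime_int.1 hp
  unfold nE at hd
  simp only [pow_zero, mul_one] at hd
  obtain ⟨w1, hw1⟩ := dvd_pow_sub_one ha (2 * r₀)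
  obtain ⟨w2, hw2⟩ := dvd_pow_sub_one ha (2 * x.2.2)
  obtain ⟨w3, hw3⟩ := dvd_pow_sub_one (p := p) (a := 1 + (p : ℤ)) (by simp) x.2.1
  obtain ⟨w, hw⟩ := hd
  have h1 : (p : ℤ) ∣ c * (z₀ ^ x.1 - 1) := by
    have e1 : a ^ (2 * r₀) = 1 + p * w1 := by linear_combination hw1
    have e2 : a ^ (2 * x.2.2) = 1 + p * w2 := by linear_combination hw2
    have e3 : (1 + (p : ℤ)) ^ x.2.1 = 1 + p * w3 := by linear_combination hw3
    rw [e1, e2, e3] at hw
    refine ⟨c * w1 - c * z₀ ^ x.1 * (w2 + w3 + p * w2 * w3) - w, ?_⟩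
    linear_combination -hw
  rcases hpi.dvd_or_dvd h1 with h2 | h2
  · exact hc h2
  · exact hx0 (z0_inj hp h x.1 hx h2)

/-- for one of the two nodes `1`, `a²` all differences to the other nodes with the same `k` are divisible by `p` exactly once -/
theorem exists_r0 {p : ℕ} (hp : p.Prime) (hp5 : 5 ≤ p) {a : ℤ} (ha : (p : ℤ) ∣ a - 1)
    (ha2 : ¬ (p : ℤ) ^ 2 ∣ a - 1) : ∃ r₀ < 2, ∀ c z₀ : ℤ, ¬ (p : ℤ) ∣ c → ∀ j < 2, ∀ r < 2,
      (j, r) ≠ (0, r₀) →
      (p : ℤ) ∣ nE p a z₀ c (0, 0, r₀) - nE p a z₀ c (0, j, r) ∧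
      ¬ (p : ℤ) ^ 2 ∣ nE p a z₀ c (0, 0, r₀) - nE p a z₀ c (0, j, r) := by
  have hpi : Prime (p : ℤ) := Nat.prime_iff_prime_int.1 hp
  obtain ⟨m, hm⟩ := ha
  have ha' : a = 1 + p * m := by linear_combination hm
  have hpm : ¬ (p : ℤ) ∣ m := by
    rintro ⟨w, rfl⟩
    exact ha2 ⟨w, by rw [hm]; ring⟩
  have h2m : ¬ (p : ℤ) ∣ 2 * m := by
    intro h
    rcases hpi.dvd_or_dvd h with h | h
    · have := Int.le_of_dvd (by norm_num) h
      omega
    · exact hpm h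
  -- a number `p w` with `p ∤ w`
  have key : ∀ c z w : ℤ, ¬ (p : ℤ) ∣ c → z = c * (p * w) → ¬ (p : ℤ) ∣ w →
      (p : ℤ) ∣ z ∧ ¬ (p : ℤ) ^ 2 ∣ z := by
    rintro c z w hc rfl hw
    refine ⟨⟨c * w, by ring⟩, ?_⟩
    rintro ⟨v, hv⟩
    have h1 : (p : ℤ) * (c * w) = p * (p * v) := by linear_combination hv
    have h2 := mul_left_cancel₀ hpi.ne_zero h1
    rcases hpi.dvd_or_dvd ⟨v, h2⟩ with h | h
    · exact hc h
    · exact hw h
  have hadd : ∀ w v : ℤ, ¬ (p : ℤ) ∣ w → ¬ (p : ℤ) ∣ w + p * v := by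
    intro w v hw h
    exact hw ((Int.dvd_add_left (Dvd.intro _ rfl)).1 h)
  have hone : ¬ (p : ℤ) ∣ 1 := fun h => by
    have := Int.le_of_dvd (by norm_num) h
    omega
  have hneg : ∀ w : ℤ, ¬ (p : ℤ) ∣ w → ¬ (p : ℤ) ∣ -w := fun w hw h => hw ((dvd_neg).1 h)
  by_cases h : (p : ℤ) ∣ 2 * m + 1
  · -- then `p ∤ 2 m - 1`
    have h' : ¬ (p : ℤ) ∣ 2 * m - 1 := by
      intro h3
      have h4 := dvd_sub h h3
      have e : 2 * m + 1 - (2 * m - 1) = 2 := by ring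
      rw [e] at h4
      have := Int.le_of_dvd (by norm_num) h4
      omega
    refine ⟨1, by norm_num, fun c z₀ hc j hj r hr hjr => ?_⟩
    have hj' : j = 0 ∨ j = 1 := by omega
    have hr' : r = 0 ∨ r = 1 := by omega
    rcases hj' with rfl | rfl <;> rcases hr' with rfl | rfl
    · -- `a² - 1`
      refine key c _ (2 * m + p * m ^ 2) hc ?_ (hadd _ _ h2m)
      unfold nE
      simp only [mul_zero, pow_zero, mul_one]
      rw [ha']
      ring
    · exact absurd rfl hjr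
    · -- `a² - (1 + p)`
      refine key c _ (2 * m - 1 + p * m ^ 2) hc ?_ (hadd _ _ h')
      unfold nE
      simp only [mul_zero, pow_zero, mul_one, pow_one]
      rw [ha']
      ring
    · -- `a² - a² (1 + p)`
      refine key c _ (-1 + p * (-(2 * m + p * m ^ 2))) hc ?_ (hadd _ _ (hneg _ hone))
      unfold nE
      simp only [pow_zero, mul_one, pow_one]
      rw [ha']
      ring
  · refine ⟨0, by norm_num, fun c z₀ hc j hj r hr hjr => ?_⟩
    have hj' : j = 0 ∨ j = 1 := by omega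
    have hr' : r = 0 ∨ r = 1 := by omega
    rcases hj' with rfl | rfl <;> rcases hr' with rfl | rfl
    · exact absurd rfl hjr
    · -- `1 - a²`
      refine key c _ (-(2 * m) + p * (-m ^ 2)) hc ?_ (hadd _ _ (hneg _ h2m))
      unfold nE
      simp only [mul_zero, pow_zero, mul_one]
      rw [ha']
      ring
    · -- `1 - (1 + p)`
      refine key c _ (-1) hc ?_ (hneg _ hone)
      unfold nE
      simp only [mul_zero, pow_zero, mul_one, pow_one]
      ring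
    · -- `1 - a² (1 + p)`
      refine key c _ (-(2 * m + 1) + p * (-(m ^ 2 + 2 * m + p * m ^ 2))) hc ?_
        (hadd _ _ (hneg _ h))
      unfold nE
      simp only [mul_zero, pow_zero, mul_one, pow_one]
      rw [ha']
      ring

/-- the weight of a node -/
def nW (p n : ℕ) (ξ : ℂ) (a z₀ : ℤ) (t : ℤ → ℂ) (Q : ℕ → OnePoint ℚ → OnePoint ℚ → ℂ) (c : ℤ)
    (x : OnePoint ℚ) (y : ℕ × ℕ × ℕ) : ℂ :=
  t (z₀ ^ y.1) * coT a y.2.1 y.2.2 * Yh (p ^ (n + 1)) (ξ ^ nE p a z₀ c y) (Q y.1) ∞ x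

theorem PV_nodes (p n : ℕ) (ξ : ℂ) (a z₀ : ℤ) (t : ℤ → ℂ)
    (Q : ℕ → OnePoint ℚ → OnePoint ℚ → ℂ) (c : ℤ) (x : OnePoint ℚ) :
    PV p n ξ a z₀ t Q c ∞ x =
      ∑ y ∈ range (p - 1) ×ˢ range 2 ×ˢ range 2, nW p n ξ a z₀ t Q c x y := by
  unfold PV
  rw [Finset.sum_product]
  refine Finset.sum_congr rfl fun k _ => ?_
  rw [Finset.sum_product, Finset.mul_sum]
  refine Finset.sum_congr rfl fun j _ => ?_
  rw [Finset.mul_sum]
  refine Finset.sum_congr rfl fun r _ => ?_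
  unfold nW nE
  ring

/-- the number of the nodes with `k = 0` and with `k ≠ 0` -/
theorem sum_exp (p : ℕ) (hp : 2 ≤ p) : ∑ y ∈ range (p - 1) ×ˢ range 2 ×ˢ range 2,
    (if y.1 = 0 then p else 1) = 4 * p + 4 * (p - 2) := by
  rw [Finset.sum_product]
  have h1 : ∀ k : ℕ, ∑ y ∈ range 2 ×ˢ range 2, (if ((k, y) : ℕ × ℕ × ℕ).1 = 0 then p else 1) =
      4 * (if k = 0 then p else 1) := by
    intro k
    show ∑ _y ∈ range 2 ×ˢ range 2, (if k = 0 then p else 1) = _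
    rw [Finset.sum_const, smul_eq_mul]
    rfl
  simp_rw [h1]
  rw [← Finset.mul_sum]
  obtain ⟨m, rfl⟩ : ∃ m, p = m + 2 := ⟨p - 2, by omega⟩
  have h2 : m + 2 - 1 = m + 1 := by omega
  rw [h2, Finset.sum_range_succ']
  simp
  ring

end H2

open H2 Finset in
/-- The vector symbol is not small on some closed cycle of every level. -/
theorem nd_PV {p n : ℕ} {V : ValuationSubring ℂ} {N : ℕ} {nu : ℤ → ℂ} {s : ℂ} {z₀ : ℤ}
    {t : ℤ → ℂ} {Q : ℕ → OnePoint ℚ → OnePoint ℚ → ℂ} {ξ : ℂ} {l : ℕ}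
    (H : HypT p n V N nu s z₀ t Q ξ l) (a : ℤ) (ha : (p : ℤ) ∣ a - 1) (ha2 : ¬ (p : ℤ) ^ 2 ∣ a - 1)
    (N' : ℕ) (hN' : N' ≠ 0) (hNN : N ∣ N') : ∃ c α β γ δ : ℤ, ¬ (p : ℤ) ∣ c ∧
      α * δ - β * γ = 1 ∧ (N' : ℤ) ∣ γ ∧ (N' : ℤ) ∣ δ - 1 ∧
      V.valuation (p : ℂ) ≤ V.valuation (PV p n ξ a z₀ t Q c ∞ (mob α β γ δ ∞)) *
        V.valuation (1 - ξ) := by
  classical
  by_contra hcon
  push Not at hcon
  have hp := H.pp
  have hp5 := H.p5
  have hpi : Prime (p : ℤ) := Nat.prime_iff_prime_int.1 hp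
  obtain ⟨M, hMd⟩ : ∃ M, M = p ^ (n + 1) := ⟨_, rfl⟩
  have hM0 : M ≠ 0 := by rw [hMd]; exact pow_ne_zero _ hp.ne_zero
  have hMq : (M : ℚ) ≠ 0 := by exact_mod_cast hM0
  obtain ⟨α, β, γ, δ, c₀, hdet, hγ, hδ, hc₀, hv⟩ := H.nd (N' * M ^ 2)
    (mul_ne_zero hN' (pow_ne_zero _ hM0)) (hNN.mul_right _)
  have hγ0 : γ ≠ 0 := by
    rintro rfl
    rw [mob_inf_zero, Yh_inf (H.sym 0), map_zero, zero_mul] at hv
    exact absurd hv (not_lt.2 zero_le)
  obtain ⟨X, hXd⟩ : ∃ X, X = V.valuation (1 - ξ) := ⟨_, rfl⟩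
  have hX0 : 0 < X := by rw [hXd]; exact L.xi_pos hp H.xi
  have hX1 : X < 1 := by rw [hXd]; exact L.xi_lt hp H.vp H.xi
  rw [← hXd] at hv
  obtain ⟨r₀, hr₀, hr₁⟩ := exists_r0 hp hp5 ha ha2
  -- the index `c`
  have hap : IsCoprime a (p : ℤ) := by
    obtain ⟨m, hm⟩ := ha
    exact ⟨1, -m, by linear_combination hm⟩
  obtain ⟨c, hc, hcc⟩ : ∃ c : ℤ, ¬ (p : ℤ) ∣ c ∧ (M : ℤ) ∣ c * a ^ (2 * r₀) - c₀ := by
    have h1 : IsCoprime (a ^ (2 * r₀)) (M : ℤ) := by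
      rw [hMd]
      push_cast
      exact (hap.pow_left).pow_right
    obtain ⟨u, v, huv⟩ := h1
    refine ⟨c₀ * u, ?_, ⟨-(c₀ * v), by linear_combination c₀ * huv⟩⟩
    intro h
    have h2 : (p : ℤ) ∣ (M : ℤ) := by
      rw [hMd]
      push_cast
      exact dvd_pow_self _ (by omega)
    have h3 : (p : ℤ) ∣ c₀ := by
      have e : c₀ = c₀ * u * a ^ (2 * r₀) + M * (c₀ * v) := by linear_combination -c₀ * huv
      rw [e]
      exact dvd_add (h.mul_right _) (h2.mul_right _)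
    exact hc₀ h3
  have hξM : ξ ^ M = 1 := by rw [hMd]; exact H.xi.pow_eq_one
  have hξ0 : ξ ≠ 0 := H.xi.ne_zero (pow_ne_zero _ hp.ne_zero)
  have hnode : ξ ^ nE p a z₀ c (0, 0, r₀) = ξ ^ c₀ := by
    obtain ⟨w, hw⟩ := hcc
    have e : nE p a z₀ c (0, 0, r₀) = c₀ + M * w := by
      unfold nE
      simp only [pow_zero, mul_one]
      linear_combination hw
    rw [e, zpow_add₀ hξ0, zpow_mul, zpow_natCast, hξM, one_zpow, mul_one]
  -- the translates of the closed cycle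
  obtain ⟨x, hxd⟩ : ∃ x : ℚ, x = (α : ℚ) / γ := ⟨_, rfl⟩
  have hcyc : mob α β γ δ ∞ = (x : OnePoint ℚ) := by
    rw [mob_inf_ne _ _ _ _ hγ0, hxd]
  rw [hcyc, ← hMd] at hv
  have hsmall : ∀ b : ℕ, V.valuation (PV p n ξ a z₀ t Q c ∞
      ((x - (b : ℚ) / M : ℚ) : OnePoint ℚ)) * X < V.valuation (p : ℂ) := by
    intro b
    obtain ⟨g, hg⟩ := hγ
    obtain ⟨d, hd⟩ := hδ
    have hγM : γ = M * (M * (N' * g)) := by rw [hg]; push_cast; ring
    have hα : α - 1 = M * (N' * (M * (β * g - α * d))) := by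
      have e : α * (δ - 1) - β * γ = 1 - α := by linear_combination hdet
      rw [hd, hg] at e
      push_cast at e
      linear_combination e
    have hδM : δ - 1 = M * (M * (N' * d)) := by rw [hd]; push_cast; ring
    have h1 := hcon c (α - b * (M * (N' * g)))
      (β - b * (M * (N' * d) - N' * (M * (β * g - α * d))) - b ^ 2 * (N' * g)) γ
      (δ + b * (M * (N' * g))) hc (by
        have e1 : δ - 1 - (α - 1) = δ - α := by ring
        rw [hα, hδM] at e1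
        have e2 : (M : ℤ) * (M * (N' * d) - N' * (M * (β * g - α * d))) = δ - α := by
          linear_combination e1
        have hMz : (M : ℤ) ≠ 0 := by exact_mod_cast hM0
        obtain ⟨D, hD⟩ : ∃ D : ℤ, D = M * (N' * d) - N' * (M * (β * g - α * d)) := ⟨_, rfl⟩
        rw [← hD] at e2 ⊢
        obtain ⟨E, hE⟩ : ∃ E : ℤ, E = N' * g := ⟨_, rfl⟩
        rw [← hE] at hγM ⊢
        rw [hγM] at hdet ⊢
        linear_combination hdet + (b : ℤ) * M * E * e2) (by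
        rw [hγM]
        exact ⟨M * (M * g), by ring⟩) (by
        have e : δ + b * (M * (N' * g)) - 1 = N' * (M * (M * d) + b * (M * g)) := by
          linear_combination hδM
        rw [e]
        exact Dvd.intro _ rfl)
    have h2 : mob (α - b * (M * (N' * g)))
        (β - b * (M * (N' * d) - N' * (M * (β * g - α * d))) - b ^ 2 * (N' * g)) γ
        (δ + b * (M * (N' * g))) ∞ = ((x - (b : ℚ) / M : ℚ) : OnePoint ℚ) := by
      rw [mob_inf_ne _ _ _ _ hγ0, hxd]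
      congr 1
      have hγq : (γ : ℚ) ≠ 0 := by exact_mod_cast hγ0
      have e : (γ : ℚ) = M * (M * (N' * g)) := by exact_mod_cast hγM
      push_cast
      rw [sub_div]
      congr 1
      rw [div_eq_div_iff hγq hMq]
      rw [e]
      ring
    rw [h2, ← hXd] at h1
    exact h1
  -- Lagrange
  obtain ⟨S, hSd⟩ : ∃ S : Finset (ℕ × ℕ × ℕ), S = range (p - 1) ×ˢ range 2 ×ˢ range 2 := ⟨_, rfl⟩
  have hk0 : ((0, 0, r₀) : ℕ × ℕ × ℕ) ∈ S := by
    rw [hSd]
    simp only [Finset.mem_product, Finset.mem_range]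
    exact ⟨by omega, by norm_num, hr₀⟩
  have hone : ∀ y : ℕ × ℕ × ℕ, (ξ ^ nE p a z₀ c y) ^ M = 1 := by
    intro y
    rw [← zpow_natCast, ← zpow_mul, mul_comm, zpow_mul, zpow_natCast, hξM, one_zpow]
  have hlag := L.lag V S (fun y => (1 - ξ) * nW p n ξ a z₀ t Q c (x : OnePoint ℚ) y)
    (fun y => ξ ^ nE p a z₀ c y) (0, 0, r₀) hk0 (V.valuation (p : ℂ)) (L.pos_p hp).ne'
    (fun y _ => (L.val_xi_zpow hp H.xi _).le) (fun b => by
      have h1 := hsmall b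
      rw [PV_nodes, ← hSd, mul_comm, hXd, ← map_mul, Finset.mul_sum] at h1
      convert h1 using 2
      refine Finset.sum_congr rfl fun y _ => ?_
      unfold nW
      rw [← hMd, Yh_shift (H.sym y.1) H.nu1 M hM0 _ (hone y) x b]
      ring)
  -- the product of the differences
  have hprod : X ^ (7 * p - 8) = ∏ k ∈ S.erase (0, 0, r₀),
      V.valuation (ξ ^ nE p a z₀ c (0, 0, r₀) - ξ ^ nE p a z₀ c k) := by
    have h1 : ∀ k ∈ S.erase (0, 0, r₀),
        V.valuation (ξ ^ nE p a z₀ c (0, 0, r₀) - ξ ^ nE p a z₀ c k) =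
          X ^ (if k.1 = 0 then p else 1) := by
      rintro ⟨k, j, r⟩ hk
      obtain ⟨hk1, hk2⟩ := Finset.mem_erase.1 hk
      rw [hSd] at hk2
      simp only [Finset.mem_product, Finset.mem_range] at hk2
      obtain ⟨hkp, hj, hr⟩ := hk2
      by_cases h : k = 0
      · subst h
        have h2 := hr₁ c z₀ hc j hj r hr (by
          intro h3
          apply hk1
          rw [h3])
        have h3 := L.val_d (V := V) hp H.xi 1 (by have := H.n5; omega) _ _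
          (by rw [pow_one]; exact h2.1) h2.2
        rw [h3, hXd]
        simp
      · have h2 := nE_ne hp H.z0 ha hc r₀ (k, j, r) hkp h
        have h3 := L.val_d (V := V) hp H.xi 0 (by omega) _ _ (by simp) (by
          rw [zero_add, pow_one]; exact h2)
        rw [h3, hXd]
        simp [h]
    rw [Finset.prod_congr rfl h1, Finset.prod_pow_eq_pow_sum]
    congr 1
    have h2 := Finset.add_sum_erase S (fun k : ℕ × ℕ × ℕ => if k.1 = 0 then p else 1) hk0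
    rw [hSd, sum_exp p hp.two_le] at h2
    simp only [if_true] at h2
    rw [← hSd] at h2
    omega
  rw [← hprod, map_mul, ← hXd] at hlag
  have hw : V.valuation (nW p n ξ a z₀ t Q c (x : OnePoint ℚ) (0, 0, r₀)) =
      V.valuation (Yh M (ξ ^ c₀) (Q 0) ∞ (x : OnePoint ℚ)) := by
    unfold nW
    obtain ⟨q, -, ht⟩ := H.tw
    have hva : V.valuation (a : ℂ) = 1 := by
      obtain ⟨m, hm⟩ := ha
      have e : (a : ℂ) = 1 + p * m := by
        have : a = 1 + p * m := by linear_combination hm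
        rw [this]
        push_cast
        ring
      have h1 : V.valuation ((p : ℂ) * m) < 1 := by
        rw [map_mul]
        exact lt_of_le_of_lt (mul_le_of_le_one_right' (Pool.Agent.MUXH.Hz.val_int V m)) H.vp
      rw [e, Valuation.map_add_eq_of_lt_left _ (by rw [map_one]; exact h1), map_one]
    have hco : V.valuation (coT a 0 r₀) = 1 := by
      unfold coT
      split_ifs
      · rw [Valuation.map_neg, map_mul, map_pow, map_pow, Valuation.map_neg, map_one, hva]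
        simp
      · rw [map_mul, map_pow, Valuation.map_neg, map_one, hva]
        simp
    simp only [pow_zero]
    rw [hnode, ht.one, one_mul, map_mul, hco, one_mul, ← hMd]
  rw [hw] at hlag
  -- the end
  have h7 : 7 * p - 7 ≤ p ^ (n - 2) := by
    have h1 : p ^ 3 ≤ p ^ (n - 2) := Nat.pow_le_pow_right hp.pos (by have := H.n5; omega)
    have h2 : 25 * p ≤ p ^ 3 :=
      calc 25 * p = 5 * 5 * p := by ring
        _ ≤ p * p * p := Nat.mul_le_mul_right p (Nat.mul_le_mul hp5 hp5)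
        _ = p ^ 3 := by ring
    omega
  have h8 : X ^ p ^ (n - 2) ≤ X ^ (7 * p - 7) :=
    pow_le_pow_right_of_le_one' hX1.le h7
  have h9 : V.valuation (Yh M (ξ ^ c₀) (Q 0) ∞ (x : OnePoint ℚ)) * X ^ p ^ (n - 2) <
      V.valuation (p : ℂ) := by
    refine lt_of_le_of_lt (mul_le_mul_right h8 _) ?_
    have e : V.valuation (Yh M (ξ ^ c₀) (Q 0) ∞ (x : OnePoint ℚ)) * X ^ (7 * p - 7) =
        X * V.valuation (Yh M (ξ ^ c₀) (Q 0) ∞ (x : OnePoint ℚ)) * X ^ (7 * p - 8) := by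
      have : 7 * p - 7 = 7 * p - 8 + 1 := by omega
      rw [this, pow_succ, mul_comm (X ^ (7 * p - 8)) X, ← mul_assoc, mul_comm _ X]
    rw [e]
    exact hlag
  exact absurd hv (not_lt.2 h9.le)

end

end Pool.Agent.OT
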