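import Pool.Agent.OT.StH
import Pool.Agent.OT.H2P

/-!
# OT, block H, module LAG (helper3)
-/

set_option autoImplicit false

namespace Pool.Agent.OTH

open Pool.Agent.OT

theorem h_LAG : S_LAG := by
  intro p n V N nu s z₀ t Q ξ l H a ha ha2 N' hN' hNN
  obtain ⟨c, α, β, γ, δ, h1, h2, h3, h4, h5⟩ := nd_PV H a ha ha2 N' hN' hNN
  exact ⟨α, β, γ, δ, c, h1, h2, h3, h4, h5⟩

end Pool.Agent.OTH
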