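import Pool.Agent.OT.StH
import Pool.Agent.TWR.STA

/-!
# OT, block H, module VSY (helper34): the vector `PE` is a vector of symbols (hypotheses of `TWV.S_TWV`)

`VSY.Yh_law`: `Yh M ξ Q (γ x) (γ y) = nu d * Yh M (ξ^f) Q x y` for `γ` in `Γ₀(N M²)`, `f d² ≡ 1` modulo `M`.
`VSY.PV_per`, `PV_law`, `PV_add`, `PV_even`, `PV_dep`, `PV_alg`: the same for `PV`.
-/

set_option autoImplicit false

namespace Pool.Agent.OTH

open _root_.MU3 Pool.Agent.MuSym OnePoint Finset Pool.Agent.OT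
open Pool.Agent.TWV (IsVSym)

noncomputable section

namespace VSY

theorem mob_infty (a b c d : ℤ) :
    mob a b c d ∞ = if c = 0 then ∞ else ((a / c : ℚ) : OnePoint ℚ) := rfl

theorem mob_coe (a b c d : ℤ) (r : ℚ) :
    mob a b c d (r : OnePoint ℚ) = if (c : ℚ) * r + d = 0 then ∞ else
      (((a * r + b) / (c * r + d) : ℚ) : OnePoint ℚ) := rfl

theorem mob_mob (A B C D a b c d : ℤ) (h1 : A * D - B * C ≠ 0) (h2 : a * d - b * c ≠ 0)
    (x : OnePoint ℚ) : mob A B C D (mob a b c d x) =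
      mob (A * a + B * c) (A * b + B * d) (C * a + D * c) (C * b + D * d) x := by
  have H1 : (A : ℚ) * D - B * C ≠ 0 := by exact_mod_cast h1
  have H2 : (a : ℚ) * d - b * c ≠ 0 := by exact_mod_cast h2
  -- a general point `(u : v)`
  have key : ∀ u v : ℚ, (u ≠ 0 ∨ v ≠ 0) →
      (if v = 0 then mob A B C D ∞ else mob A B C D ((u / v : ℚ) : OnePoint ℚ)) =
        if (C : ℚ) * u + D * v = 0 then ∞ else
          (((A * u + B * v) / (C * u + D * v) : ℚ) : OnePoint ℚ) := by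
    intro u v huv
    by_cases hv : v = 0
    · subst hv
      have hu : u ≠ 0 := by simpa using huv
      rw [if_pos rfl, mob_infty]
      by_cases hC : C = 0
      · subst hC; simp
      · have hC' : (C : ℚ) ≠ 0 := by exact_mod_cast hC
        rw [if_neg hC, if_neg (by simpa using ⟨hC, hu⟩)]
        congr 1
        simp only [mul_zero, add_zero]
        field_simp
    · rw [if_neg hv, mob_coe]
      have e1 : (C : ℚ) * (u / v) + D = (C * u + D * v) / v := by field_simp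
      rw [e1]
      by_cases h0 : (C : ℚ) * u + D * v = 0
      · rw [h0, if_pos (by simp), if_pos rfl]
      · rw [if_neg (by rw [div_eq_zero_iff]; tauto), if_neg h0]
        congr 1
        field_simp
  induction x using OnePoint.rec with
  | infty =>
    have h := key a c (by
      by_contra hcon
      push Not at hcon
      rw [hcon.1, hcon.2] at H2
      simp at H2)
    rw [mob_infty, mob_infty]
    by_cases hc : c = 0
    · subst hc
      rw [if_pos rfl]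
      rw [if_pos (by simp)] at h
      rw [h]
      push_cast
      by_cases h5 : C * a + D * 0 = 0
      · rw [if_pos h5, if_pos (by exact_mod_cast h5)]
      · rw [if_neg h5, if_neg (by exact_mod_cast h5)]
    · rw [if_neg hc]
      rw [if_neg (by exact_mod_cast hc)] at h
      rw [h]
      push_cast
      by_cases h5 : C * a + D * c = 0
      · rw [if_pos h5, if_pos (by exact_mod_cast h5)]
      · rw [if_neg h5, if_neg (by exact_mod_cast h5)]
  | coe r =>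
    have h := key (a * r + b) (c * r + d) (by
      by_contra hcon
      push Not at hcon
      apply H2
      have e1 : (a : ℚ) * d - b * c = a * (c * r + d) - c * (a * r + b) := by ring
      rw [e1, hcon.1, hcon.2]; ring)
    rw [mob_coe, mob_coe]
    have e3 : ((C * a + D * c : ℤ) : ℚ) * r + ((C * b + D * d : ℤ) : ℚ) =
        C * (a * r + b) + D * (c * r + d) := by push_cast; ring
    have e4 : ((A * a + B * c : ℤ) : ℚ) * r + ((A * b + B * d : ℤ) : ℚ) =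
        A * (a * r + b) + B * (c * r + d) := by push_cast; ring
    rw [e3, e4, ← h]
    by_cases hc : (c : ℚ) * r + d = 0
    · rw [if_pos hc, if_pos hc]
    · rw [if_neg hc, if_neg hc]

/-- scaling a matrix by `M ≠ 0` does not change the action -/
theorem mob_scale (M : ℤ) (hM : M ≠ 0) (a b c d : ℤ) (x : OnePoint ℚ) :
    mob (M * a) (M * b) (M * c) (M * d) x = mob a b c d x := by
  have hM' : (M : ℚ) ≠ 0 := by exact_mod_cast hM
  induction x using OnePoint.rec with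
  | infty =>
    rw [mob_infty, mob_infty]
    by_cases hc : c = 0
    · rw [if_pos hc, if_pos (by rw [hc, mul_zero])]
    · rw [if_neg hc, if_neg (mul_ne_zero hM hc)]
      congr 1
      have : (c : ℚ) ≠ 0 := by exact_mod_cast hc
      push_cast
      field_simp
  | coe r =>
    rw [mob_coe, mob_coe]
    have e1 : ((M * c : ℤ) : ℚ) * r + ((M * d : ℤ) : ℚ) = M * (c * r + d) := by push_cast; ring
    have e2 : ((M * a : ℤ) : ℚ) * r + ((M * b : ℤ) : ℚ) = M * (a * r + b) := by push_cast; ring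
    rw [e1, e2]
    by_cases hc : (c : ℚ) * r + d = 0
    · rw [if_pos hc, if_pos (by rw [hc, mul_zero])]
    · rw [if_neg hc, if_neg (mul_ne_zero hM' hc)]
      congr 1
      field_simp

theorem tM_coe (M : ℕ) (hM : M ≠ 0) (b : ℤ) (x : ℚ) :
    tM M b (x : OnePoint ℚ) = ((x + (b : ℚ) / M : ℚ) : OnePoint ℚ) := by
  have hM' : (M : ℚ) ≠ 0 := by exact_mod_cast hM
  rw [tM, mob_coe, if_neg (by push_cast; simpa using hM)]
  congr 1
  push_cast
  rw [zero_mul, zero_add, add_div, mul_comm (M : ℚ) x, mul_div_cancel_right₀ _ hM']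

theorem tM_infty (M : ℕ) (b : ℤ) : tM M b ∞ = ∞ := by
  rw [tM, mob_infty, if_pos rfl]

/-- the translation of a translated point -/
theorem tM_add (M : ℕ) (hM : M ≠ 0) (b b' : ℤ) (x : OnePoint ℚ) :
    tM M b (tM M b' x) = tM M (b + b') x := by
  induction x using OnePoint.rec with
  | infty => rw [tM_infty, tM_infty, tM_infty]
  | coe r =>
    rw [tM_coe M hM, tM_coe M hM, tM_coe M hM]
    congr 1
    push_cast
    ring

theorem tM_self (M : ℕ) (hM : M ≠ 0) (x : OnePoint ℚ) : tM M M x = mob 1 1 0 1 x := by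
  have := mob_scale (M : ℤ) (by exact_mod_cast hM) 1 1 0 1 x
  rw [tM, ← this]
  congr 1 <;> ring

/-- the translates of a symbol are periodic -/
theorem tM_per {N : ℕ} {nu : ℤ → ℂ} {Q : OnePoint ℚ → OnePoint ℚ → ℂ} (hQ : IsSym N nu Q)
    (nu1 : nu 1 = 1) (M : ℕ) (hM : M ≠ 0) (b : ℤ) (x y : OnePoint ℚ) :
    Q (tM M (b + M) x) (tM M (b + M) y) = Q (tM M b x) (tM M b y) := by
  rw [add_comm b, ← tM_add M hM, ← tM_add M hM, tM_self M hM, tM_self M hM,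
    hQ.equiv 1 1 0 1 (by norm_num) (by simp), nu1, one_mul]

/-- the commutation of a translation with a matrix of `Γ₀(N M²)` -/
theorem tM_mob {N : ℕ} {nu : ℤ → ℂ} {Q : OnePoint ℚ → OnePoint ℚ → ℂ} (hQ : IsSym N nu Q)
    (nuper : ∀ d d' : ℤ, (N : ℤ) ∣ d - d' → nu d = nu d') (M : ℕ) (hM : M ≠ 0)
    (a b c d : ℤ) (hdet : a * d - b * c = 1) (hc : ((N * M ^ 2 : ℕ) : ℤ) ∣ c) (j : ℤ)
    (x y : OnePoint ℚ) :
    Q (tM M j (mob a b c d x)) (tM M j (mob a b c d y)) =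
      nu d * Q (tM M (j * d ^ 2) x) (tM M (j * d ^ 2) y) := by
  obtain ⟨k, hk⟩ := hc
  have hMz : (M : ℤ) ≠ 0 := by exact_mod_cast hM
  push_cast at hk
  -- the matrix
  set a' : ℤ := a + j * (N * M * k) with ha'
  set d' : ℤ := d - (N * M * k) * j * d ^ 2 with hd'
  set b' : ℤ := b - j * d * b * (N * M * k) - j ^ 2 * (N * k) * d ^ 2 with hb'
  have hdet' : a' * d' - b' * c = 1 := by
    rw [ha', hd', hb', hk]
    have hdet2 : a * d = 1 + b * (N * M ^ 2 * k) := by rw [← hk]; linear_combination hdet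
    linear_combination (1 - j * d * (N * M * k)) * hdet2
  have key : ∀ z : OnePoint ℚ, tM M j (mob a b c d z) = mob a' b' c d' (tM M (j * d ^ 2) z) := by
    intro z
    rw [tM, tM, mob_mob _ _ _ _ _ _ _ _ (by simpa using hM) (by rw [hdet]; exact one_ne_zero),
      mob_mob _ _ _ _ _ _ _ _ (by rw [hdet']; exact one_ne_zero) (by simpa using hM)]
    have hdet2 : a * d = 1 + b * (N * M ^ 2 * k) := by rw [← hk]; linear_combination hdet
    congr 1
    · rw [ha', hk]; ring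
    · rw [ha', hb']
      linear_combination (-(j * d)) * hdet2
    · ring
    · rw [hd', hk]; ring
  rw [key, key, hQ.equiv a' b' c d' hdet' ⟨M ^ 2 * k, by rw [hk]; ring⟩]
  congr 1
  apply nuper
  exact ⟨-(M * k * j * d ^ 2), by rw [hd']; ring⟩

/-- the vector symbol law for the functional `Yh` -/
theorem Yh_law {N : ℕ} {nu : ℤ → ℂ} {Q : OnePoint ℚ → OnePoint ℚ → ℂ} (hQ : IsSym N nu Q)
    (nu1 : nu 1 = 1) (nuper : ∀ d d' : ℤ, (N : ℤ) ∣ d - d' → nu d = nu d') (M : ℕ) (hM : M ≠ 0)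
    (ξ : ℂ) (hξ : ξ ^ M = 1)
    (a b c d : ℤ) (hdet : a * d - b * c = 1) (hc : ((N * M ^ 2 : ℕ) : ℤ) ∣ c) (f : ℤ)
    (hf : (M : ℤ) ∣ f * d ^ 2 - 1) (x y : OnePoint ℚ) :
    Yh M ξ Q (mob a b c d x) (mob a b c d y) = nu d * Yh M (ξ ^ f) Q x y := by
  have hξ0 : ξ ≠ 0 := by
    rintro rfl
    rw [zero_pow hM] at hξ
    exact zero_ne_one hξ
  have hξz : ∀ k : ℤ, ξ ^ ((M : ℤ) * k) = 1 := by
    intro k
    rw [zpow_mul, zpow_natCast, hξ, one_zpow]
  set H : ℤ → ℂ := fun j => (ξ ^ f) ^ j * Q (tM M j x) (tM M j y) with hH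
  have hHper : ∀ j, H (j + M) = H j := by
    intro j
    simp only [hH]
    rw [tM_per hQ nu1 M hM, zpow_add₀ (zpow_ne_zero _ hξ0), ← zpow_mul ξ f (M : ℤ), mul_comm f, hξz,
      mul_one]
  have hcop : IsCoprime (d ^ 2) (M : ℤ) := by
    obtain ⟨k, hk⟩ := hf
    exact ⟨f, -k, by linear_combination hk⟩
  have h1 := Pool.Agent.TWR.STAAux.sum_perm M hM H hHper (d ^ 2) hcop
  have h2 : Yh M (ξ ^ f) Q x y = ∑ j ∈ range M, H j := by
    rw [Yh]
    refine Finset.sum_congr rfl fun j _ => ?_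
    simp only [hH]
    rw [zpow_natCast]
  rw [h2, ← h1, Yh, Finset.mul_sum]
  refine Finset.sum_congr rfl fun j _ => ?_
  simp only [hH]
  rw [tM_mob hQ nuper M hM a b c d hdet hc j x y]
  have h3 : (ξ ^ f) ^ (d ^ 2 * (j : ℤ)) = ξ ^ j := by
    obtain ⟨k, hk⟩ := hf
    rw [← zpow_mul]
    have h4 : f * (d ^ 2 * (j : ℤ)) = (j : ℤ) + M * (k * j) := by linear_combination (j : ℤ) * hk
    rw [h4, zpow_add₀ hξ0, hξz, mul_one, zpow_natCast]
  rw [h3, mul_comm (d ^ 2) (j : ℤ)]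
  ring

/-- additivity -/
theorem Yh_add {N : ℕ} {nu : ℤ → ℂ} {Q : OnePoint ℚ → OnePoint ℚ → ℂ} (hQ : IsSym N nu Q)
    (M : ℕ) (ξ : ℂ) (x y z : OnePoint ℚ) : Yh M ξ Q x y + Yh M ξ Q y z = Yh M ξ Q x z := by
  rw [Yh, Yh, Yh, ← Finset.sum_add_distrib]
  refine Finset.sum_congr rfl fun j _ => ?_
  rw [← mul_add, hQ.add]

/-- the reflection -/
theorem Yh_neg {N : ℕ} {nu : ℤ → ℂ} {Q Q' : OnePoint ℚ → OnePoint ℚ → ℂ} (s : ℂ)
    (hQ : IsSym N nu Q') (nu1 : nu 1 = 1)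
    (hneg : ∀ x : ℚ, Q ∞ ((-x : ℚ) : OnePoint ℚ) = s * Q' ∞ (x : OnePoint ℚ)) (M : ℕ) (hM : M ≠ 0)
    (ξ : ℂ) (hξ : ξ ^ M = 1) (x : ℚ) :
    Yh M ξ Q ∞ ((-x : ℚ) : OnePoint ℚ) = s * Yh M (ξ ^ (-1 : ℤ)) Q' ∞ (x : OnePoint ℚ) := by
  have hξ0 : ξ ≠ 0 := by
    rintro rfl
    rw [zero_pow hM] at hξ
    exact zero_ne_one hξ
  have hξz : ∀ k : ℤ, ξ ^ ((M : ℤ) * k) = 1 := by
    intro k
    rw [zpow_mul, zpow_natCast, hξ, one_zpow]
  set H : ℤ → ℂ := fun j => (ξ ^ (-1 : ℤ)) ^ j * Q' (tM M j ∞) (tM M j (x : OnePoint ℚ)) with hH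
  have hHper : ∀ j, H (j + M) = H j := by
    intro j
    simp only [hH]
    rw [tM_per hQ nu1 M hM, zpow_add₀ (zpow_ne_zero _ hξ0), ← zpow_mul ξ (-1) (M : ℤ),
      mul_comm (-1 : ℤ), hξz, mul_one]
  have h1 := Pool.Agent.TWR.STAAux.sum_perm M hM H hHper (-1) isCoprime_one_left.neg_left
  have h2 : Yh M (ξ ^ (-1 : ℤ)) Q' ∞ (x : OnePoint ℚ) = ∑ j ∈ range M, H j := by
    rw [Yh]
    refine Finset.sum_congr rfl fun j _ => ?_
    simp only [hH]
    rw [zpow_natCast]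
  rw [h2, ← h1, Yh, Finset.mul_sum]
  refine Finset.sum_congr rfl fun j _ => ?_
  simp only [hH]
  have h3 : (ξ ^ (-1 : ℤ)) ^ (-1 * (j : ℤ)) = ξ ^ j := by
    rw [← zpow_mul]
    have h4 : (-1 : ℤ) * (-1 * (j : ℤ)) = j := by ring
    rw [h4, zpow_natCast]
  have h5 : Q (tM M j ∞) (tM M j ((-x : ℚ) : OnePoint ℚ)) =
      s * Q' (tM M (-1 * (j : ℤ)) ∞) (tM M (-1 * (j : ℤ)) (x : OnePoint ℚ)) := by
    rw [tM_infty, tM_infty, tM_coe M hM, tM_coe M hM]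
    have h6 : (-x + (j : ℚ) / M : ℚ) = -(x + ((-1 * (j : ℤ) : ℤ) : ℚ) / M) := by
      push_cast
      ring
    rw [Int.cast_natCast, h6, hneg]
  rw [h3, h5]
  ring

/-- the depletion in the direction of `l` -/
theorem Yh_dep {Q : OnePoint ℚ → OnePoint ℚ → ℂ} (l : ℕ)
    (hd : ∀ x : ℚ, ∑ k ∈ range l, Q ∞ ((x + (k : ℚ) / l : ℚ) : OnePoint ℚ) = 0) (M : ℕ) (hM : M ≠ 0)
    (ξ : ℂ) (x : ℚ) : ∑ k ∈ range l, Yh M ξ Q ∞ ((x + (k : ℚ) / l : ℚ) : OnePoint ℚ) = 0 := by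
  simp only [Yh]
  rw [Finset.sum_comm]
  refine Finset.sum_eq_zero fun j _ => ?_
  rw [← Finset.mul_sum]
  have h1 : ∀ k ∈ range l, Q (tM M j ∞) (tM M j ((x + (k : ℚ) / l : ℚ) : OnePoint ℚ)) =
      Q ∞ (((x + (j : ℚ) / M) + (k : ℚ) / l : ℚ) : OnePoint ℚ) := by
    intro k _
    rw [tM_infty, tM_coe M hM]
    congr 2
    push_cast
    ring
  rw [Finset.sum_congr rfl h1, hd, mul_zero]

theorem Yh_alg {Q : OnePoint ℚ → OnePoint ℚ → ℂ} (ha : ∀ x y, IsAlgebraic ℚ (Q x y)) (M : ℕ)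
    (ξ : ℂ) (hξ : IsAlgebraic ℚ ξ) (x y : OnePoint ℚ) : IsAlgebraic ℚ (Yh M ξ Q x y) := by
  rw [Yh]
  refine Finset.sum_induction _ (fun x => IsAlgebraic ℚ x) (fun _ _ h h' => h.add h')
    isAlgebraic_zero fun j _ => ?_
  exact (hξ.pow _).mul (ha _ _)

/-! ### The number `z₀` -/

/-- `z₀^((p-1)/2) ≡ -1` modulo `p^(n+1)` -/
theorem z0_half {p n : ℕ} (hp : p.Prime) (h5 : 5 ≤ p) {z₀ : ℤ} (hz : IsZ0 p n z₀) :
    ((p ^ (n + 1) : ℕ) : ℤ) ∣ z₀ ^ ((p - 1) / 2) + 1 := by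
  have : Fact p.Prime := ⟨hp⟩
  have hodd : p % 2 = 1 := by
    rcases hp.eq_two_or_odd with h | h
    · omega
    · exact h
  have h2 : (p - 1) / 2 * 2 = p - 1 := by omega
  -- the powers are different modulo `p`
  have hne : ¬ (p : ℤ) ∣ z₀ ^ ((p - 1) / 2) - 1 := by
    intro hd
    have hz1 : (z₀ : ZMod p) ^ (p - 1) = 1 := by
      have h3 : (p : ℤ) ∣ z₀ ^ (p - 1) - 1 :=
        Dvd.dvd.trans (by push_cast; exact dvd_pow_self _ (by omega)) hz.one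
      have h4 := (ZMod.intCast_zmod_eq_zero_iff_dvd _ p).2 h3
      push_cast at h4
      exact sub_eq_zero.1 h4
    have hzu : IsUnit (z₀ : ZMod p) := IsUnit.of_pow_eq_one hz1 (by omega)
    let F : Fin (p - 1) → (ZMod p)ˣ := fun k => hzu.unit ^ (k : ℕ)
    have hsur : Function.Surjective F := by
      intro u
      have hu : ¬ (p : ℤ) ∣ (((u : ZMod p).val : ℕ) : ℤ) := by
        rw [← ZMod.intCast_zmod_eq_zero_iff_dvd]
        push_cast
        rw [ZMod.natCast_zmod_val]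
        exact u.ne_zero
      obtain ⟨k, hk, hk'⟩ := hz.gen _ hu
      refine ⟨⟨k, hk⟩, ?_⟩
      apply Units.ext
      rw [← ZMod.intCast_zmod_eq_zero_iff_dvd] at hk'
      push_cast at hk'
      rw [ZMod.natCast_zmod_val] at hk'
      show ((hzu.unit ^ k : (ZMod p)ˣ) : ZMod p) = _
      rw [Units.val_pow_eq_pow_val, IsUnit.unit_spec]
      exact (sub_eq_zero.1 hk').symm
    have hbij : Function.Bijective F := by
      rw [Fintype.bijective_iff_surjective_and_card]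
      exact ⟨hsur, by rw [Fintype.card_fin, ZMod.card_units p]⟩
    have h6 : F ⟨(p - 1) / 2, by omega⟩ = F ⟨0, by omega⟩ := by
      apply Units.ext
      show ((hzu.unit ^ ((p - 1) / 2) : (ZMod p)ˣ) : ZMod p) = ((hzu.unit ^ 0 : (ZMod p)ˣ) : ZMod p)
      rw [Units.val_pow_eq_pow_val, IsUnit.unit_spec, pow_zero]
      have h7 := (ZMod.intCast_zmod_eq_zero_iff_dvd _ p).2 hd
      push_cast at h7
      exact sub_eq_zero.1 h7
    have h8 := hbij.1 h6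
    rw [Fin.mk.injEq] at h8
    omega
  have hcop : IsCoprime (z₀ ^ ((p - 1) / 2) - 1) (((p ^ (n + 1) : ℕ) : ℤ)) := by
    push_cast
    apply IsCoprime.pow_right
    exact ((Nat.prime_iff_prime_int.1 hp).coprime_iff_not_dvd.2 hne).symm
  have hprod : ((p ^ (n + 1) : ℕ) : ℤ) ∣ (z₀ ^ ((p - 1) / 2) - 1) * (z₀ ^ ((p - 1) / 2) + 1) := by
    have h9 : (z₀ ^ ((p - 1) / 2) - 1) * (z₀ ^ ((p - 1) / 2) + 1) = z₀ ^ (p - 1) - 1 := by
      have : z₀ ^ (p - 1) = z₀ ^ ((p - 1) / 2) * z₀ ^ ((p - 1) / 2) := by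
        rw [← pow_add]
        congr 1
        omega
      rw [this]
      ring
    rw [h9]
    exact hz.one
  exact hcop.symm.dvd_of_dvd_mul_left hprod

/-- a periodic sum over a period, shifted by half of it -/
theorem sum_shift (h : ℕ) (G : ℕ → ℂ) (hG : ∀ k, G (k + 2 * h) = G k) :
    ∑ k ∈ range (2 * h), G (k + h) = ∑ k ∈ range (2 * h), G k := by
  rw [two_mul, Finset.sum_range_add, Finset.sum_range_add, add_comm]
  congr 1
  · refine Finset.sum_congr rfl fun k _ => ?_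
    rw [← hG k]
    congr 1
    ring
  · refine Finset.sum_congr rfl fun k _ => ?_
    rw [add_comm]

/-! ### The vector -/

theorem zpow_per {M : ℕ} (hM : M ≠ 0) {ξ : ℂ} (hξ : ξ ^ M = 1) {c c' : ℤ} (h : (M : ℤ) ∣ c - c') :
    ξ ^ c = ξ ^ c' := by
  have hξ0 : ξ ≠ 0 := by
    rintro rfl
    rw [zero_pow hM] at hξ
    exact zero_ne_one hξ
  obtain ⟨k, hk⟩ := h
  have : c = c' + M * k := by linear_combination hk
  rw [this, zpow_add₀ hξ0, zpow_mul, zpow_natCast, hξ, one_zpow, mul_one]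

/-- the vector depends on the index modulo `p^(n+1)` -/
theorem PV_per {p n : ℕ} (hp : p ≠ 0) {ξ : ℂ} (hξ : ξ ^ (p ^ (n + 1)) = 1) (a z₀ : ℤ)
    (t : ℤ → ℂ) (Q : ℕ → OnePoint ℚ → OnePoint ℚ → ℂ) {c c' : ℤ}
    (h : ((p ^ (n + 1) : ℕ) : ℤ) ∣ c - c') (x y : OnePoint ℚ) :
    PV p n ξ a z₀ t Q c x y = PV p n ξ a z₀ t Q c' x y := by
  rw [PV, PV]
  refine Finset.sum_congr rfl fun k _ => ?_
  congr 1
  refine Finset.sum_congr rfl fun j _ => Finset.sum_congr rfl fun r _ => ?_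
  have h1 : ξ ^ (c * a ^ (2 * r) * (1 + (p : ℤ)) ^ j * z₀ ^ k) =
      ξ ^ (c' * a ^ (2 * r) * (1 + (p : ℤ)) ^ j * z₀ ^ k) := by
    apply zpow_per (pow_ne_zero _ hp) hξ
    obtain ⟨m, hm⟩ := h
    refine ⟨m * (a ^ (2 * r) * (1 + (p : ℤ)) ^ j * z₀ ^ k), ?_⟩
    linear_combination (a ^ (2 * r) * (1 + (p : ℤ)) ^ j * z₀ ^ k) * hm
  rw [h1]

theorem root_pow {M : ℕ} {ξ : ℂ} (hξ : ξ ^ M = 1) (c : ℤ) : (ξ ^ c) ^ M = 1 := by
  rw [← zpow_natCast, ← zpow_mul, mul_comm, zpow_mul, zpow_natCast, hξ, one_zpow]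

/-- the vector symbol law for `PV` -/
theorem PV_law {p n : ℕ} (hp : p ≠ 0) {N : ℕ} {nu : ℤ → ℂ} (nu1 : nu 1 = 1)
    (nuper : ∀ d d' : ℤ, (N : ℤ) ∣ d - d' → nu d = nu d') {ξ : ℂ} (hξ : ξ ^ (p ^ (n + 1)) = 1)
    (a z₀ : ℤ) (t : ℤ → ℂ) {Q : ℕ → OnePoint ℚ → OnePoint ℚ → ℂ} (hQ : ∀ k, IsSym N nu (Q k))
    (c α β γ δ : ℤ) (hdet : α * δ - β * γ = 1) (hγ : ((N * (p ^ (n + 1)) ^ 2 : ℕ) : ℤ) ∣ γ) (f : ℤ)
    (hf : ((p ^ (n + 1) : ℕ) : ℤ) ∣ f * δ ^ 2 - 1) (x y : OnePoint ℚ) :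
    PV p n ξ a z₀ t Q c (mob α β γ δ x) (mob α β γ δ y) =
      nu δ * PV p n ξ a z₀ t Q (c * f) x y := by
  rw [PV, PV, Finset.mul_sum]
  refine Finset.sum_congr rfl fun k _ => ?_
  rw [mul_left_comm]
  congr 1
  rw [Finset.mul_sum]
  refine Finset.sum_congr rfl fun j _ => ?_
  rw [Finset.mul_sum]
  refine Finset.sum_congr rfl fun r _ => ?_
  rw [Yh_law (hQ k) nu1 nuper _ (pow_ne_zero _ hp) _ (root_pow hξ _) α β γ δ hdet hγ f hf,
    ← zpow_mul]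
  rw [mul_left_comm]
  congr 4
  ring

theorem PV_add {p n : ℕ} {N : ℕ} {nu : ℤ → ℂ} {ξ : ℂ}
    (a z₀ : ℤ) (t : ℤ → ℂ) {Q : ℕ → OnePoint ℚ → OnePoint ℚ → ℂ} (hQ : ∀ k, IsSym N nu (Q k))
    (c : ℤ) (x y z : OnePoint ℚ) :
    PV p n ξ a z₀ t Q c x y + PV p n ξ a z₀ t Q c y z = PV p n ξ a z₀ t Q c x z := by
  rw [PV, PV, PV, ← Finset.sum_add_distrib]
  refine Finset.sum_congr rfl fun k _ => ?_
  rw [← mul_add]
  congr 1
  rw [← Finset.sum_add_distrib]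
  refine Finset.sum_congr rfl fun j _ => ?_
  rw [← Finset.sum_add_distrib]
  refine Finset.sum_congr rfl fun r _ => ?_
  rw [← mul_add, Yh_add (hQ k)]

/-- the sum over `z₀^k` makes every component even -/
theorem PV_even {p n : ℕ} {V : ValuationSubring ℂ} {N : ℕ} {nu : ℤ → ℂ} {s : ℂ} {z₀ : ℤ}
    {t : ℤ → ℂ} {Q : ℕ → OnePoint ℚ → OnePoint ℚ → ℂ} {ξ : ℂ} {l : ℕ}
    (H : HypT p n V N nu s z₀ t Q ξ l) (a c : ℤ) (x : ℚ) :
    PV p n ξ a z₀ t Q c ∞ ((-x : ℚ) : OnePoint ℚ) = PV p n ξ a z₀ t Q c ∞ (x : OnePoint ℚ) := by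
  have hp0 : p ≠ 0 := H.pp.ne_zero
  have hM : p ^ (n + 1) ≠ 0 := pow_ne_zero _ hp0
  have hξ := H.xi.pow_eq_one
  have h5 := H.p5
  have hodd : p % 2 = 1 := by
    rcases H.pp.eq_two_or_odd with h | h
    · omega
    · exact h
  obtain ⟨q, -, ht⟩ := H.tw
  obtain ⟨h, hh⟩ : ∃ h, h = (p - 1) / 2 := ⟨_, rfl⟩
  have h2 : p - 1 = 2 * h := by omega
  have hz := z0_half H.pp H.p5 H.z0
  rw [← hh] at hz
  have hpM : (p : ℤ) ∣ ((p ^ (n + 1) : ℕ) : ℤ) := by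
    push_cast
    exact dvd_pow_self _ (by omega)
  have htz : t (z₀ ^ h) = s := by
    rw [← H.ts]
    apply ht.per
    rw [sub_neg_eq_add]
    exact hpM.trans hz
  -- the summand
  set G : ℕ → ℂ := fun k => t (z₀ ^ k) * ∑ j ∈ range 2, ∑ r ∈ range 2,
    coT a j r * Yh (p ^ (n + 1)) (ξ ^ (c * a ^ (2 * r) * (1 + (p : ℤ)) ^ j * z₀ ^ k)) (Q k) ∞
      (x : OnePoint ℚ) with hG
  have hper : ∀ k, G (k + 2 * h) = G k := by
    intro k
    simp only [hG]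
    rw [← h2, H.perk k]
    have h3 : t (z₀ ^ (k + (p - 1))) = t (z₀ ^ k) := by
      apply ht.per
      have h4 : z₀ ^ (k + (p - 1)) - z₀ ^ k = z₀ ^ k * (z₀ ^ (p - 1) - 1) := by
        rw [pow_add]
        ring
      rw [h4]
      exact (hpM.trans H.z0.one).mul_left _
    rw [h3]
    congr 1
    refine Finset.sum_congr rfl fun j _ => Finset.sum_congr rfl fun r _ => ?_
    have h5 : ξ ^ (c * a ^ (2 * r) * (1 + (p : ℤ)) ^ j * z₀ ^ (k + (p - 1))) =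
        ξ ^ (c * a ^ (2 * r) * (1 + (p : ℤ)) ^ j * z₀ ^ k) := by
      apply zpow_per hM hξ
      have h6 : c * a ^ (2 * r) * (1 + (p : ℤ)) ^ j * z₀ ^ (k + (p - 1)) -
          c * a ^ (2 * r) * (1 + (p : ℤ)) ^ j * z₀ ^ k =
          c * a ^ (2 * r) * (1 + (p : ℤ)) ^ j * z₀ ^ k * (z₀ ^ (p - 1) - 1) := by
        rw [pow_add]
        ring
      rw [h6]
      exact H.z0.one.mul_left _
    rw [h5]
  have hR : PV p n ξ a z₀ t Q c ∞ (x : OnePoint ℚ) = ∑ k ∈ range (2 * h), G k := by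
    rw [PV, h2]
  rw [hR, ← sum_shift h G hper, PV, h2]
  refine Finset.sum_congr rfl fun k _ => ?_
  simp only [hG]
  have h7 : t (z₀ ^ (k + h)) = t (z₀ ^ k) * s := by
    rw [pow_add, ht.mul, htz]
  rw [h7, mul_assoc]
  congr 1
  rw [Finset.mul_sum]
  refine Finset.sum_congr rfl fun j _ => ?_
  rw [Finset.mul_sum]
  refine Finset.sum_congr rfl fun r _ => ?_
  have hneg : ∀ x : ℚ, Q k ∞ ((-x : ℚ) : OnePoint ℚ) = s * Q (k + h) ∞ (x : OnePoint ℚ) := by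
    intro x
    have h8 := H.neg k ∞ (x : OnePoint ℚ)
    rw [← hh] at h8
    rw [← h8]
    congr 1
    rw [mob_coe, if_neg (by simp)]
    congr 1
    push_cast
    ring
  rw [Yh_neg s (H.sym (k + h)) H.nu1 hneg _ hM _ (root_pow hξ _), ← zpow_mul]
  have h9 : ξ ^ (c * a ^ (2 * r) * (1 + (p : ℤ)) ^ j * z₀ ^ k * (-1)) =
      ξ ^ (c * a ^ (2 * r) * (1 + (p : ℤ)) ^ j * z₀ ^ (k + h)) := by
    apply zpow_per hM hξ
    have h6 : c * a ^ (2 * r) * (1 + (p : ℤ)) ^ j * z₀ ^ k * (-1) -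
        c * a ^ (2 * r) * (1 + (p : ℤ)) ^ j * z₀ ^ (k + h) =
        -(c * a ^ (2 * r) * (1 + (p : ℤ)) ^ j * z₀ ^ k) * (z₀ ^ h + 1) := by
      rw [pow_add]
      ring
    rw [h6]
    exact hz.mul_left _
  rw [h9]
  ring

theorem PV_dep {p n : ℕ} (hp : p ≠ 0) {ξ : ℂ} (a z₀ : ℤ) (t : ℤ → ℂ)
    {Q : ℕ → OnePoint ℚ → OnePoint ℚ → ℂ} (l : ℕ)
    (hd : ∀ k (x : ℚ), ∑ j ∈ range l, Q k ∞ ((x + (j : ℚ) / l : ℚ) : OnePoint ℚ) = 0)
    (c : ℤ) (x : ℚ) :
    ∑ i ∈ range l, PV p n ξ a z₀ t Q c ∞ ((x + (i : ℚ) / l : ℚ) : OnePoint ℚ) = 0 := by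
  simp only [PV]
  rw [Finset.sum_comm]
  refine Finset.sum_eq_zero fun k _ => ?_
  rw [← Finset.mul_sum, Finset.sum_comm]
  refine mul_eq_zero_of_right _ (Finset.sum_eq_zero fun j _ => ?_)
  rw [Finset.sum_comm]
  refine Finset.sum_eq_zero fun r _ => ?_
  rw [← Finset.mul_sum, Yh_dep l (hd k) _ (pow_ne_zero _ hp), mul_zero]

/-- a root of unity is algebraic -/
theorem root_alg {M : ℕ} (hM : M ≠ 0) {ξ : ℂ} (hξ : ξ ^ M = 1) : IsAlgebraic ℚ ξ := by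
  have h1 : IsIntegral ℚ ξ := by
    apply IsIntegral.of_pow (Nat.pos_of_ne_zero hM)
    rw [hξ]
    exact isIntegral_one
  exact h1.isAlgebraic

theorem PV_alg {p n : ℕ} {V : ValuationSubring ℂ} {N : ℕ} {nu : ℤ → ℂ} {s : ℂ} {z₀ : ℤ}
    {t : ℤ → ℂ} {Q : ℕ → OnePoint ℚ → OnePoint ℚ → ℂ} {ξ : ℂ} {l : ℕ}
    (H : HypT p n V N nu s z₀ t Q ξ l) (a c : ℤ) (x y : OnePoint ℚ) :
    IsAlgebraic ℚ (PV p n ξ a z₀ t Q c x y) := by
  have hp0 : p ≠ 0 := H.pp.ne_zero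
  have hM : p ^ (n + 1) ≠ 0 := pow_ne_zero _ hp0
  obtain ⟨q, hq, ht⟩ := H.tw
  have hq0 : q ≠ 0 := by
    rintro rfl
    exact hq (dvd_zero _)
  rw [PV]
  have hadd : ∀ u v : ℂ, IsAlgebraic ℚ u → IsAlgebraic ℚ v → IsAlgebraic ℚ (u + v) :=
    fun u v hu hv => hu.add hv
  refine Finset.sum_induction _ (fun x => IsAlgebraic ℚ x) hadd isAlgebraic_zero fun k _ => ?_
  have hzk : ¬ (p : ℤ) ∣ z₀ ^ k := by
    intro hd
    have h1 := (Nat.prime_iff_prime_int.1 H.pp).dvd_of_dvd_pow hd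
    have h2 : (p : ℤ) ∣ z₀ ^ (p - 1) - 1 :=
      Dvd.dvd.trans (by push_cast; exact dvd_pow_self _ (by omega)) H.z0.one
    have h5 := H.p5
    have h3 : (p : ℤ) ∣ z₀ ^ (p - 1) := dvd_pow h1 (by omega)
    have h4 : (p : ℤ) ∣ 1 := by
      have := dvd_sub h3 h2
      rwa [sub_sub_cancel] at this
    have := Int.le_of_dvd one_pos h4
    omega
  refine IsAlgebraic.mul (root_alg hq0 (ht.pow _ hzk)) ?_
  refine Finset.sum_induction _ (fun x => IsAlgebraic ℚ x) hadd isAlgebraic_zero fun j _ => ?_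
  refine Finset.sum_induction _ (fun x => IsAlgebraic ℚ x) hadd isAlgebraic_zero fun r _ => ?_
  refine IsAlgebraic.mul ?_ (Yh_alg (H.alg k) _ _ (root_alg hM (root_pow H.xi.pow_eq_one _)) x y)
  have h1 : coT a j r = ((if r = 0 then -((-1) ^ (1 - j) * a ^ 2) else (-1) ^ (1 - j) * a : ℤ) : ℂ) := by
    rw [coT]
    split_ifs <;> push_cast <;> rfl
  rw [h1]
  exact isAlgebraic_intCast _

theorem sE_one (M : ℕ) : sE M 1 = 1 := by
  have h : IsUnit ((1 : ℤ) : ZMod M) := by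
    rw [Int.cast_one]
    exact isUnit_one
  have h2 : h.unit = 1 := Units.ext (by rw [IsUnit.unit_spec, Int.cast_one, Units.val_one])
  unfold sE
  rw [dif_pos h, h2, one_pow, inv_one]

theorem sE_per (M : ℕ) (d d' : ℤ) (h : (M : ℤ) ∣ d - d') : sE M d = sE M d' := by
  have h1 : (d : ZMod M) = (d' : ZMod M) := by
    have := (ZMod.intCast_zmod_eq_zero_iff_dvd _ M).2 h
    push_cast at this
    exact sub_eq_zero.1 this
  by_cases hu : IsUnit (d : ZMod M)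
  · have hu' : IsUnit (d' : ZMod M) := h1 ▸ hu
    have h2 : hu.unit = hu'.unit := Units.ext (by rw [IsUnit.unit_spec, IsUnit.unit_spec, h1])
    unfold sE
    rw [dif_pos hu, dif_pos hu', h2]
  · have hu' : ¬ IsUnit (d' : ZMod M) := h1 ▸ hu
    unfold sE
    rw [dif_neg hu, dif_neg hu']

/-- the index after the action -/
theorem sE_index {M : ℕ} (hM : M ≠ 0) (e : (ZMod M)ˣ) {d : ℤ} {f : ℤ}
    (hf : (M : ℤ) ∣ f * d ^ 2 - 1) :
    (M : ℤ) ∣ ((e : ZMod M).val : ℤ) * f - (((e * sE M d : (ZMod M)ˣ) : ZMod M).val : ℤ) := by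
  have : NeZero M := ⟨hM⟩
  have h1 := (ZMod.intCast_zmod_eq_zero_iff_dvd _ M).2 hf
  push_cast at h1
  have hu : IsUnit (d : ZMod M) := by
    refine IsUnit.of_mul_eq_one ((f : ZMod M) * d) ?_
    linear_combination h1
  obtain ⟨w, hw⟩ : ∃ w, w = hu.unit := ⟨_, rfl⟩
  have h2 : (w : ZMod M) = d := by rw [hw]; exact hu.unit_spec
  have h5 : sE M d = (w ^ 2)⁻¹ := by
    unfold sE
    rw [dif_pos hu, hw]
  rw [← ZMod.intCast_zmod_eq_zero_iff_dvd]
  push_cast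
  rw [ZMod.natCast_zmod_val, ZMod.natCast_zmod_val, h5]
  have h3 : (((w ^ 2)⁻¹ : (ZMod M)ˣ) : ZMod M) * (w : ZMod M) ^ 2 = 1 := by
    rw [← Units.val_pow_eq_pow_val, Units.inv_mul]
  rw [h2] at h3
  have h4 : (f : ZMod M) = (((w ^ 2)⁻¹ : (ZMod M)ˣ) : ZMod M) := by
    linear_combination (((w ^ 2)⁻¹ : (ZMod M)ˣ) : ZMod M) * h1 - f * h3
  rw [h4]
  ring

end VSY

open VSY

theorem h_VSY : S_VSY := by
  intro p n V N nu s z₀ t Q ξ l H a
  have hp0 : p ≠ 0 := H.pp.ne_zero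
  have hM : p ^ (n + 1) ≠ 0 := pow_ne_zero _ hp0
  have hξ := H.xi.pow_eq_one
  have hlev : N * p ^ (2 * (n + 1)) = N * (p ^ (n + 1)) ^ 2 := by
    rw [← pow_mul, mul_comm 2]
  have : NeZero (p ^ (n + 1)) := ⟨hM⟩
  have hρ : IsAlgebraic ℚ ((1 - ξ) / p) := by
    rw [div_eq_mul_inv]
    refine IsAlgebraic.mul ?_ ?_
    · rw [sub_eq_add_neg]
      exact isAlgebraic_one.add (root_alg hM hξ).neg
    · exact (isAlgebraic_natCast p).inv
  refine ⟨⟨?_, ?_⟩, ?_, ?_, ?_, sE_one _, ?_, ?_, ?_⟩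
  · intro e x y z
    rw [PE, PE, PE, ← mul_add, PV_add a z₀ t H.sym]
  · intro e α β γ δ hdet hγ x y
    rw [hlev] at hγ
    -- the inverse of `δ²`
    obtain ⟨f, hf⟩ : ∃ f : ℤ, ((p ^ (n + 1) : ℕ) : ℤ) ∣ f * δ ^ 2 - 1 := by
      obtain ⟨k, hk⟩ := hγ
      refine ⟨α ^ 2, β * (N * (p ^ (n + 1) : ℕ) * k) * (α * δ + 1), ?_⟩
      have h1 : α * δ - 1 = β * γ := by linear_combination hdet
      push_cast at hk ⊢
      linear_combination (α * δ + 1) * h1 + (α * δ + 1) * β * hk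
    rw [PE, PE, PV_law hp0 H.nu1 H.nuper hξ a z₀ t H.sym _ α β γ δ hdet hγ f hf,
      PV_per hp0 hξ a z₀ t Q (sE_index hM e hf)]
    ring
  · intro e x y
    rw [PE]
    exact hρ.mul (PV_alg H a _ _ _)
  · intro e x
    rw [PE, PE, PV_even H]
  · intro e x
    simp only [PE]
    rw [← Finset.mul_sum, PV_dep hp0 a z₀ t l H.dep, mul_zero]
  · intro d d' hd
    rw [hlev] at hd
    refine sE_per _ d d' (Dvd.dvd.trans ?_ hd)
    push_cast
    exact (dvd_pow_self _ two_ne_zero).mul_left _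
  · intro c hc
    have hcop : IsCoprime c ((p ^ (n + 1) : ℕ) : ℤ) := by
      push_cast
      apply IsCoprime.pow_right
      exact ((Nat.prime_iff_prime_int.1 H.pp).coprime_iff_not_dvd.2 hc).symm
    have hu : IsUnit (c : ZMod (p ^ (n + 1))) := by
      obtain ⟨u, v, huv⟩ := hcop
      refine IsUnit.of_mul_eq_one (u : ZMod (p ^ (n + 1))) ?_
      have h1 := congrArg (Int.cast : ℤ → ZMod (p ^ (n + 1))) huv
      push_cast at h1
      have h2 : ((p : ZMod (p ^ (n + 1)))) ^ (n + 1) = 0 := by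
        have := ZMod.natCast_self (p ^ (n + 1))
        push_cast at this
        exact this
      rw [h2, mul_zero, add_zero] at h1
      rw [mul_comm]
      exact h1
    refine ⟨hu.unit, fun x y => ?_⟩
    rw [PE, IsUnit.unit_spec]
    congr 1
    apply PV_per hp0 hξ
    rw [← ZMod.intCast_zmod_eq_zero_iff_dvd]
    rw [Int.cast_sub, Int.cast_natCast, ZMod.natCast_zmod_val, sub_self]
  · intro e hd
    have h1 : (p : ℤ) ∣ ((p ^ (n + 1) : ℕ) : ℤ) := by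
      push_cast
      exact dvd_pow_self _ (by omega)
    have h2 : (e : ZMod (p ^ (n + 1))) ^ (n + 1) = 0 := by
      obtain ⟨k, hk⟩ := hd
      have h3 : ((e : ZMod (p ^ (n + 1))).val : ℤ) ^ (n + 1) = ((p ^ (n + 1) : ℕ) : ℤ) * k ^ (n + 1) := by
        rw [hk]
        push_cast
        ring
      have h4 := congrArg (Int.cast : ℤ → ZMod (p ^ (n + 1))) h3
      rw [Int.cast_mul, Int.cast_natCast, ZMod.natCast_self, zero_mul, Int.cast_pow, Int.cast_natCast,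
        ZMod.natCast_zmod_val] at h4
      exact h4
    have h5 : IsUnit ((e : ZMod (p ^ (n + 1))) ^ (n + 1)) := e.isUnit.pow _
    rw [h2, isUnit_zero_iff] at h5
    have h6 : 1 < p ^ (n + 1) := Nat.one_lt_pow (by omega) H.pp.one_lt
    have : Fact (1 < p ^ (n + 1)) := ⟨h6⟩
    exact zero_ne_one h5

end

end Pool.Agent.OTH
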