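import Pool.Agent.OT.StHB
import Pool.Agent.MUX.HY_QSX
import Pool.Agent.MUX.XFAll

/-!
# OT, block HB, module SGP (helper88): the sums of the final statement as values of `PV`
-/

set_option autoImplicit false

namespace Pool.Agent.OT

open _root_.MU3 _root_.Pool.Agent.MU3A _root_.Pool.Agent.MU3B _root_.Pool.Agent.MU3F
  _root_.Pool.Agent.MUX _root_.Pool.Agent.MuSym _root_.Pool.Agent.OB _root_.Pool.Agent.OBH OnePoint
open _root_.Pool.Agent.TWR (Gen)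

noncomputable section

namespace SGP

theorem tM_inf (M : ℕ) (b : ℤ) : tM M b ∞ = ∞ := by
  show (if (0 : ℤ) = 0 then ∞ else (((M : ℤ) / (0 : ℤ) : ℚ) : OnePoint ℚ)) = ∞
  rw [if_pos rfl]

theorem tM_zero (M : ℕ) (hM : M ≠ 0) (b : ℤ) :
    tM M b ((0 : ℚ) : OnePoint ℚ) = ((b / (M : ℚ) : ℚ) : OnePoint ℚ) := by
  show (if ((0 : ℤ) : ℚ) * 0 + ((M : ℤ) : ℚ) = 0 then ∞ else
    (((((M : ℤ) : ℚ) * 0 + (b : ℚ)) / (((0 : ℤ) : ℚ) * 0 + ((M : ℤ) : ℚ)) : ℚ) :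
      OnePoint ℚ)) = _
  have h : (((M : ℤ) : ℚ) * 0 + (b : ℚ)) / (((0 : ℤ) : ℚ) * 0 + ((M : ℤ) : ℚ)) =
      b / (M : ℚ) := by
    push_cast
    rw [mul_zero, mul_zero, zero_add, zero_add]
  rw [if_neg (by simpa using hM), h]

theorem ex_zpow (r : ℚ) (k : ℤ) : ex r ^ k = ex (k * r) := by
  unfold ex
  rw [← Complex.exp_int_mul]
  congr 1
  push_cast
  ring

/-- the function `Yh` of the full symbol at `c` -/
theorem Yh_eq {A B : ℤ} {n' : ℕ} {ι : Type} [Fintype ι] (R : Reps A B n' ι) (e : OO A B → ℂ)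
    (kk : ι → ℂ) (M : ℕ) (hM : M ≠ 0) (c : ℤ) :
    Yh M (ex (-1 / (M : ℚ)) ^ c) (PhiK R e kk) ∞ ((0 : ℚ) : OnePoint ℚ) =
      ∑ i, kk i * ∑ β ∈ Finset.range M, ex (-(β * c) / (M : ℚ)) *
        PhiI (R.b i) e ∞ (((β / (M : ℚ) : ℚ) : ℚ) : OnePoint ℚ) := by
  unfold Yh
  have h1 : ∀ β ∈ Finset.range M, (ex (-1 / (M : ℚ)) ^ c) ^ β *
      PhiK R e kk (tM M β ∞) (tM M β ((0 : ℚ) : OnePoint ℚ)) =
      ∑ i, kk i * (ex (-(β * c) / (M : ℚ)) *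
        PhiI (R.b i) e ∞ (((β / (M : ℚ) : ℚ) : ℚ) : OnePoint ℚ)) := by
    intro β _
    have h2 : (ex (-1 / (M : ℚ)) ^ c) ^ β = ex (-(β * c) / (M : ℚ)) := by
      rw [← zpow_natCast, ← zpow_mul, ex_zpow]
      congr 1
      push_cast
      ring
    rw [h2, tM_inf, tM_zero M hM]
    unfold PhiK
    rw [Finset.mul_sum]
    refine Finset.sum_congr rfl fun i _ => ?_
    push_cast
    ring
  rw [Finset.sum_congr rfl h1, Finset.sum_comm]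
  refine Finset.sum_congr rfl fun i _ => ?_
  rw [Finset.mul_sum]

end SGP

open SGP

/-- Module SGP. -/
theorem ob_SGP : Ob_SGP := by
  intro p hp hp2 A B hC f hf ι _ R e he kk t z₀ n c
  have hq0 : q0 p * p ^ n = p ^ (n + 1) := by
    unfold q0
    rw [if_neg hp2, pow_succ, mul_comm]
  have hM : p ^ (n + 1) ≠ 0 := pow_ne_zero _ hp.ne_zero
  set a : ℕ := aX p f with ha
  set D : ℂ := 2 * f / R.om R.i0 with hD
  set Y : ℤ → ℂ := fun m => Yh (p ^ (n + 1)) (ex (-1 / ((p ^ (n + 1) : ℕ) : ℚ)) ^ m)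
    (PhiK R e (kk0 R e kk)) ∞ ((0 : ℚ) : OnePoint ℚ) with hY
  -- the sums `SnX`
  have hS : ∀ m : ℤ, ∑ i, kk i * SnX R (lvX p f n) (p ^ (n + 1)) e i m = D * Y m := by
    intro m
    rw [hY]
    show _ = D * Yh (p ^ (n + 1)) (ex (-1 / ((p ^ (n + 1) : ℕ) : ℚ)) ^ m)
      (PhiK R e (kk0 R e kk)) ∞ ((0 : ℚ) : OnePoint ℚ)
    rw [Yh_eq R e (kk0 R e kk) _ hM m, Finset.mul_sum]
    refine Finset.sum_congr rfl fun i _ => ?_
    have h1 := MUXHY.Qsx.SnX_eq MUXF.xf_F5 hC hp hf R he (Ideal.mem_span_singleton_self _) n i m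
    rw [hq0] at h1
    rw [h1]
    unfold kk0
    ring
  -- the sums `STX`
  have hT : ∀ m : ℤ, STX R (lvX p f n) (p ^ (n + 1)) a e kk m =
      D * ((a : ℂ) * Y ((a : ℤ) ^ 2 * m) - (a : ℂ) ^ 2 * Y m) := by
    intro m
    unfold STX
    have h1 : ∀ i, kk i * ((a : ℂ) * SnX R (lvX p f n) (p ^ (n + 1)) e i ((a : ℤ) ^ 2 * m) -
        (a : ℂ) ^ 2 * SnX R (lvX p f n) (p ^ (n + 1)) e i m) =
        (a : ℂ) * (kk i * SnX R (lvX p f n) (p ^ (n + 1)) e i ((a : ℤ) ^ 2 * m)) -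
        (a : ℂ) ^ 2 * (kk i * SnX R (lvX p f n) (p ^ (n + 1)) e i m) := fun i => by ring
    rw [Finset.sum_congr rfl fun i _ => h1 i, Finset.sum_sub_distrib, ← Finset.mul_sum,
      ← Finset.mul_sum, hS, hS]
    ring
  unfold PV SG
  rw [Finset.mul_sum]
  have hL : ∀ j ∈ Finset.range 2, (-1 : ℂ) ^ (1 - j) * ∑ k ∈ Finset.range (p - 1), t (z₀ ^ k) *
      STX R (lvX p f n) (p ^ (n + 1)) a e kk (z₀ ^ k * (c * (1 + (p : ℤ)) ^ j)) =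
      ∑ k ∈ Finset.range (p - 1), (-1 : ℂ) ^ (1 - j) * (t (z₀ ^ k) *
      (D * ((a : ℂ) * Y ((a : ℤ) ^ 2 * (z₀ ^ k * (c * (1 + (p : ℤ)) ^ j))) -
        (a : ℂ) ^ 2 * Y (z₀ ^ k * (c * (1 + (p : ℤ)) ^ j))))) := by
    intro j _
    rw [Finset.mul_sum]
    exact Finset.sum_congr rfl fun k _ => by rw [hT]
  rw [Finset.sum_congr rfl hL, Finset.sum_comm]
  refine Finset.sum_congr rfl fun k _ => ?_
  have hR : ∀ j r : ℕ, Yh (p ^ (n + 1)) (ex (-1 / ((p ^ (n + 1) : ℕ) : ℚ)) ^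
      (c * (a : ℤ) ^ (2 * r) * (1 + (p : ℤ)) ^ j * z₀ ^ k)) (PhiK R e (kk0 R e kk)) ∞
      ((0 : ℚ) : OnePoint ℚ) = Y (c * (a : ℤ) ^ (2 * r) * (1 + (p : ℤ)) ^ j * z₀ ^ k) :=
    fun j r => rfl
  simp only [hR]
  rw [Finset.mul_sum, Finset.mul_sum]
  refine Finset.sum_congr rfl fun j hj => ?_
  rw [Finset.sum_range_succ, Finset.sum_range_one]
  have e0 : c * (a : ℤ) ^ (2 * 0) * (1 + (p : ℤ)) ^ j * z₀ ^ k =
      z₀ ^ k * (c * (1 + (p : ℤ)) ^ j) := by ring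
  have e1 : c * (a : ℤ) ^ (2 * 1) * (1 + (p : ℤ)) ^ j * z₀ ^ k =
      (a : ℤ) ^ 2 * (z₀ ^ k * (c * (1 + (p : ℤ)) ^ j)) := by ring
  rw [e0, e1]
  unfold coT
  rw [if_pos rfl, if_neg one_ne_zero]
  push_cast
  ring

end

end Pool.Agent.OT
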