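import Pool.Agent.OT.StHB
import Pool.Agent.MUX.HY_QSX
import Pool.Agent.TWR.STA

/-!
# OT, block HB: module SYE (helper11)
-/

set_option autoImplicit false

namespace Pool.Agent.OT

open _root_.MU3 _root_.Pool.Agent.MU3A _root_.Pool.Agent.MU3B _root_.Pool.Agent.MU3F
  _root_.Pool.Agent.MUX _root_.Pool.Agent.MuSym _root_.Pool.Agent.OB _root_.Pool.Agent.OBH OnePoint

noncomputable section

namespace SYE

lemma mob_inf (a b d : ℤ) : mob a b 0 d (∞ : OnePoint ℚ) = ∞ := by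
  unfold mob
  rw [OnePoint.elim_infty]
  simp

lemma mob_coe (M b : ℤ) (hM : M ≠ 0) (x : ℚ) :
    mob M b 0 M (x : OnePoint ℚ) = ((x + (b : ℚ) / (M : ℚ) : ℚ) : OnePoint ℚ) := by
  have hM' : (M : ℚ) ≠ 0 := by exact_mod_cast hM
  unfold mob
  rw [OnePoint.elim_some]
  have h1 : ¬ (((0 : ℤ) : ℚ) * x + (M : ℚ) = 0) := by simpa using hM'
  rw [if_neg h1]
  congr 1
  rw [show ((0 : ℤ) : ℚ) * x + (M : ℚ) = M by simp, add_div, mul_div_cancel_left₀ _ hM']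

lemma mob_neg (x : ℚ) : mob (-1) 0 0 1 (x : OnePoint ℚ) = ((-x : ℚ) : OnePoint ℚ) := by
  unfold mob
  rw [OnePoint.elim_some]
  have h1 : ¬ (((0 : ℤ) : ℚ) * x + ((1 : ℤ) : ℚ) = 0) := by simp
  rw [if_neg h1]
  congr 1
  push_cast
  ring

/-- `Yh` at `∞` and a rational number -/
lemma Yh_inf {M : ℕ} (hM : M ≠ 0) (ζ : ℂ) (Q : OnePoint ℚ → OnePoint ℚ → ℂ) (x : ℚ) :
    Yh M ζ Q ∞ (x : OnePoint ℚ) =
      ∑ b ∈ Finset.range M, ζ ^ b * Q ∞ ((x + (b : ℚ) / (M : ℚ) : ℚ) : OnePoint ℚ) := by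
  unfold Yh tM
  refine Finset.sum_congr rfl fun b _ => ?_
  rw [mob_inf, mob_coe _ _ (by exact_mod_cast hM)]
  push_cast
  rfl

lemma Yh_PhiK {A B : ℤ} {n : ℕ} {ι : Type} [Fintype ι] {M : ℕ} (ζ : ℂ) (R : Reps A B n ι)
    (e : OO A B → ℂ) (K : ι → ℂ) (x y : OnePoint ℚ) :
    Yh M ζ (PhiK R e K) x y = ∑ i, K i * Yh M ζ (PhiI (R.b i) e) x y := by
  unfold Yh PhiK
  simp only [Finset.mul_sum]
  rw [Finset.sum_comm]
  refine Finset.sum_congr rfl fun i _ => Finset.sum_congr rfl fun b _ => ?_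
  ring

/-- the reflected symbol -/
lemma Yh_flip {M : ℕ} (hM : M ≠ 0) {ζ : ℂ} (hζ : ζ ^ M = 1) (Q : OnePoint ℚ → OnePoint ℚ → ℂ)
    (hQ : ∀ (x : ℚ) (k : ℤ), Q ∞ ((x + k : ℚ) : OnePoint ℚ) = Q ∞ (x : OnePoint ℚ)) (x : ℚ) :
    Yh M ζ (fun x y => Q (mob (-1) 0 0 1 x) (mob (-1) 0 0 1 y)) ∞ (x : OnePoint ℚ) =
      Yh M ζ⁻¹ Q ∞ ((-x : ℚ) : OnePoint ℚ) := by
  have hMq : (M : ℚ) ≠ 0 := by exact_mod_cast hM
  have hζ0 : ζ ≠ 0 := by
    rintro rfl
    rw [zero_pow hM] at hζ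
    exact zero_ne_one hζ
  rw [Yh_inf hM, Yh_inf hM]
  have hper : ∀ j : ℤ, (fun b : ℤ => ζ⁻¹ ^ b * Q ∞ ((-x + (b : ℚ) / (M : ℚ) : ℚ) : OnePoint ℚ))
      (j + M) = (fun b : ℤ => ζ⁻¹ ^ b * Q ∞ ((-x + (b : ℚ) / (M : ℚ) : ℚ) : OnePoint ℚ)) j := by
    intro j
    show ζ⁻¹ ^ (j + (M : ℤ)) * Q ∞ ((-x + ((j + (M : ℤ) : ℤ) : ℚ) / (M : ℚ) : ℚ) : OnePoint ℚ) =
      ζ⁻¹ ^ j * Q ∞ ((-x + (j : ℚ) / (M : ℚ) : ℚ) : OnePoint ℚ)
    have e1 : (-x + ((j + (M : ℤ) : ℤ) : ℚ) / (M : ℚ) : ℚ) = -x + (j : ℚ) / (M : ℚ) + (1 : ℤ) := by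
      push_cast
      rw [add_div, div_self hMq]
      ring
    rw [e1, hQ, zpow_add₀ (inv_ne_zero hζ0), zpow_natCast, inv_pow, hζ, inv_one, mul_one]
  have h1 := Pool.Agent.TWR.STAAux.sum_perm M hM
    (fun b : ℤ => ζ⁻¹ ^ b * Q ∞ ((-x + (b : ℚ) / (M : ℚ) : ℚ) : OnePoint ℚ)) hper (-1)
    (isCoprime_one_left.neg_left)
  have h2 : ∑ b ∈ Finset.range M, ζ⁻¹ ^ b * Q ∞ ((-x + (b : ℚ) / (M : ℚ) : ℚ) : OnePoint ℚ) =
      ∑ b ∈ Finset.range M,
        (fun b : ℤ => ζ⁻¹ ^ b * Q ∞ ((-x + (b : ℚ) / (M : ℚ) : ℚ) : OnePoint ℚ)) (b : ℤ) := by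
    refine Finset.sum_congr rfl fun b _ => ?_
    show _ = ζ⁻¹ ^ ((b : ℕ) : ℤ) * Q ∞ ((-x + (((b : ℕ) : ℤ) : ℚ) / (M : ℚ) : ℚ) : OnePoint ℚ)
    rw [zpow_natCast, Int.cast_natCast]
  rw [h2, ← h1]
  refine Finset.sum_congr rfl fun b _ => ?_
  show ζ ^ b * Q (mob (-1) 0 0 1 ∞) (mob (-1) 0 0 1 _) =
    ζ⁻¹ ^ (-1 * ((b : ℕ) : ℤ)) *
      Q ∞ ((-x + ((-1 * ((b : ℕ) : ℤ) : ℤ) : ℚ) / (M : ℚ) : ℚ) : OnePoint ℚ)
  rw [mob_inf, mob_neg]
  congr 1
  · rw [neg_one_mul, zpow_neg, inv_zpow, inv_inv, zpow_natCast]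
  · congr 2
    push_cast
    ring

/-- shift of a sum over a period -/
lemma shiftN (m : ℕ) (F : ℕ → ℂ) (h : ∀ b, F (b + m) = F b) (k : ℕ) :
    ∑ b ∈ Finset.range m, F (b + k) = ∑ b ∈ Finset.range m, F b := by
  induction k with
  | zero => simp
  | succ k ih =>
    rw [← ih]
    have h1 := Finset.sum_range_succ (fun b : ℕ => F (b + k)) m
    have h2 := Finset.sum_range_succ' (fun b : ℕ => F (b + k)) m
    rw [h1] at h2
    have h3 : F (m + k) = F (0 + k) := by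
      rw [add_comm m, h, zero_add]
    rw [h3] at h2
    have h4 := add_right_cancel h2
    rw [h4]
    refine Finset.sum_congr rfl fun b _ => ?_
    congr 1
    omega

lemma jac_mod {p : ℕ} {a b : ℤ} (h : (p : ℤ) ∣ a - b) : jacobiSym a p = jacobiSym b p := by
  apply jacobiSym.mod_left'
  exact Int.emod_eq_emod_iff_emod_sub_eq_zero.2 (Int.emod_eq_zero_of_dvd h)

lemma kkE_mod {A B : ℤ} {n : ℕ} {ι : Type} (er p : ℕ) (R : Reps A B n ι) (kk : ι → ℂ) {d d' : ℤ}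
    (h : (p : ℤ) ∣ d - d') : kkE er p R kk d = kkE er p R kk d' := by
  unfold kkE
  split_ifs
  · rfl
  · funext i
    unfold kkJ
    rw [jac_mod (a := d * (nI (R.b i) : ℤ)) (b := d' * (nI (R.b i) : ℤ)) (by
      rw [← sub_mul]; exact h.mul_right _)]

lemma ex_pow (M : ℕ) (hM : M ≠ 0) : ex (-1 / (M : ℚ)) ^ M = 1 := by
  unfold ex
  rw [← Complex.exp_nat_mul]
  have hMC : (M : ℂ) ≠ 0 := by exact_mod_cast hM
  have e : (M : ℂ) * (2 * Real.pi * Complex.I * ((-1 / (M : ℚ) : ℚ) : ℂ)) =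
      -(2 * Real.pi * Complex.I) := by
    push_cast
    field_simp
  rw [e, Complex.exp_neg, Complex.exp_two_pi_mul_I, inv_one]

end SYE

open SYE in
/-- (SYE) -/
theorem ob_SYE (h0 : MUXF.Sx_PRD) (h1 : Ob_ZC) (h2 : Ob_GEN) : Ob_SYE := by
  intro p er A B P V f hS ι _ R e he kk u t q n ht z₀ hz a ha c hc x
  have hp := hS.pp
  have hpp : Prime (p : ℤ) := Nat.prime_iff_prime_int.1 hp
  have hp2 : p ≠ 2 := by have := hS.p5; omega
  have hM0 : p ^ (n + 1) ≠ 0 := pow_ne_zero _ hp.ne_zero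
  have hpM : (p : ℤ) ∣ ((p ^ (n + 1) : ℕ) : ℤ) := by
    push_cast
    exact dvd_pow_self _ (Nat.succ_ne_zero n)
  obtain ⟨hz1, hz2, -⟩ := h1 p n z₀ hp hp2 hz
  obtain ⟨ξ, hξ⟩ : ∃ ξ : ℂ, ξ = ex (-1 / ((p ^ (n + 1) : ℕ) : ℚ)) := ⟨_, rfl⟩
  have hξM : ξ ^ (p ^ (n + 1)) = 1 := by rw [hξ]; exact ex_pow _ hM0
  have hξ0 : ξ ≠ 0 := by
    intro h
    rw [h, zero_pow hM0] at hξM
    exact zero_ne_one hξM
  have hξz : ∀ m m' : ℤ, ((p ^ (n + 1) : ℕ) : ℤ) ∣ m - m' → ξ ^ m = ξ ^ m' := by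
    rintro m m' ⟨k, hk⟩
    have : m = m' + ((p ^ (n + 1) : ℕ) : ℤ) * k := by linear_combination hk
    rw [this, zpow_add₀ hξ0, zpow_mul, zpow_natCast, hξM, one_zpow, mul_one]
  rw [← hξ]
  -- the period
  have hper : ∀ (K : ι → ℂ) (x : ℚ) (k : ℤ),
      PhiK R e K ∞ ((x + k : ℚ) : OnePoint ℚ) = PhiK R e K ∞ (x : OnePoint ℚ) := by
    intro K x k
    unfold PhiK
    refine Finset.sum_congr rfl fun i _ => ?_
    rw [MUXHY.Qsx.PhiI_per h0 hS.cq (R.nl i).b_ne]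
  -- the exponents
  obtain ⟨m, hm⟩ : ∃ m : ℕ → ℕ → ℕ → ℤ,
      m = fun k j r => c * a ^ (2 * r) * (1 + (p : ℤ)) ^ j * z₀ ^ k := ⟨_, rfl⟩
  -- the terms
  obtain ⟨S, hSd⟩ : ∃ S : ℕ → ℚ → ℂ, S = fun k y => t (z₀ ^ k) * ∑ j ∈ Finset.range 2,
      ∑ r ∈ Finset.range 2, coT a j r *
        Yh (p ^ (n + 1)) (ξ ^ m k j r) (PhiK R e (kkE er p R kk (z₀ ^ k))) ∞
          ((y : ℚ) : OnePoint ℚ) := ⟨_, rfl⟩
  have hSper : ∀ (k : ℕ) (y : ℚ), S (k + (p - 1)) y = S k y := by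
    intro k y
    have hd : ((p ^ (n + 1) : ℕ) : ℤ) ∣ z₀ ^ (k + (p - 1)) - z₀ ^ k := by
      have : z₀ ^ (k + (p - 1)) - z₀ ^ k = z₀ ^ k * (z₀ ^ (p - 1) - 1) := by ring
      rw [this]
      exact hz.one.mul_left _
    rw [hSd]
    simp only
    rw [ht.per _ _ (hpM.trans hd), kkE_mod er p R kk (hpM.trans hd)]
    congr 1
    refine Finset.sum_congr rfl fun j _ => Finset.sum_congr rfl fun r _ => ?_
    rw [hξz (m (k + (p - 1)) j r) (m k j r) (by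
      rw [hm]
      simp only
      rw [← mul_sub]
      exact hd.mul_left _)]
  have hflip : ∀ (k : ℕ) (y : ℚ), t (z₀ ^ k) * ∑ j ∈ Finset.range 2, ∑ r ∈ Finset.range 2,
      coT a j r * Yh (p ^ (n + 1)) (ξ ^ m k j r) (QT er p R e kk (t (-1)) u z₀ k) ∞
        ((y : ℚ) : OnePoint ℚ) = (S k y + S (k + (p - 1) / 2) (-y)) / (u * R.om R.i0) := by
    intro k y
    have hd : ((p ^ (n + 1) : ℕ) : ℤ) ∣ -z₀ ^ k - z₀ ^ (k + (p - 1) / 2) := by
      have : -z₀ ^ k - z₀ ^ (k + (p - 1) / 2) = -(z₀ ^ k * (z₀ ^ ((p - 1) / 2) + 1)) := by ring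
      rw [this, dvd_neg]
      exact hz2.mul_left _
    have ht1 : t (z₀ ^ k) * t (-1) = t (z₀ ^ (k + (p - 1) / 2)) := by
      rw [← ht.mul]
      apply ht.per
      have : z₀ ^ k * -1 = -z₀ ^ k := by ring
      rw [this]
      exact hpM.trans hd
    have hY : ∀ j r : ℕ, Yh (p ^ (n + 1)) (ξ ^ m k j r) (QT er p R e kk (t (-1)) u z₀ k) ∞
        ((y : ℚ) : OnePoint ℚ) = (Yh (p ^ (n + 1)) (ξ ^ m k j r)
          (PhiK R e (kkE er p R kk (z₀ ^ k))) ∞ ((y : ℚ) : OnePoint ℚ) + t (-1) *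
          Yh (p ^ (n + 1)) (ξ ^ m (k + (p - 1) / 2) j r)
            (PhiK R e (kkE er p R kk (z₀ ^ (k + (p - 1) / 2)))) ∞
              ((-y : ℚ) : OnePoint ℚ)) / (u * R.om R.i0) := by
      intro j r
      have e1 := Yh_flip hM0 (ζ := ξ ^ m k j r) (by
        rw [← zpow_natCast, ← zpow_mul, mul_comm, zpow_mul, zpow_natCast, hξM, one_zpow])
        (PhiK R e (kkE er p R kk (-z₀ ^ k))) (hper _) y
      have e2 : (ξ ^ m k j r)⁻¹ = ξ ^ m (k + (p - 1) / 2) j r := by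
        rw [← zpow_neg]
        apply hξz
        rw [hm]
        simp only
        have : -(c * a ^ (2 * r) * (1 + (p : ℤ)) ^ j * z₀ ^ k) -
            c * a ^ (2 * r) * (1 + (p : ℤ)) ^ j * z₀ ^ (k + (p - 1) / 2) =
            c * a ^ (2 * r) * (1 + (p : ℤ)) ^ j * (-z₀ ^ k - z₀ ^ (k + (p - 1) / 2)) := by ring
        rw [this]
        exact hd.mul_left _
      rw [e2, kkE_mod er p R kk (hpM.trans hd)] at e1
      rw [← e1]
      unfold Yh QT
      rw [Finset.mul_sum, ← Finset.sum_add_distrib, Finset.sum_div]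
      refine Finset.sum_congr rfl fun b _ => ?_
      rw [kkE_mod er p R kk (hpM.trans hd)]
      ring
    simp only [hY]
    rw [hSd]
    simp only
    rw [← ht1]
    simp only [Finset.mul_sum, Finset.sum_div, add_div]
    rw [← Finset.sum_add_distrib]
    refine Finset.sum_congr rfl fun j _ => ?_
    rw [← Finset.sum_add_distrib]
    refine Finset.sum_congr rfl fun r _ => ?_
    ring
  have hPV : ∀ y : ℚ, PV p n ξ a z₀ t (QT er p R e kk (t (-1)) u z₀) c ∞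
      ((y : ℚ) : OnePoint ℚ) = (∑ k ∈ Finset.range (p - 1), S k y +
        ∑ k ∈ Finset.range (p - 1), S k (-y)) / (u * R.om R.i0) := by
    intro y
    rw [← shiftN (p - 1) (fun k => S k (-y)) (fun k => hSper k (-y)) ((p - 1) / 2),
      ← Finset.sum_add_distrib, Finset.sum_div]
    unfold PV
    refine Finset.sum_congr rfl fun k _ => ?_
    rw [← hflip k y, hm]
  -- the genus
  have hmp : ∀ k j r : ℕ, ¬ (p : ℤ) ∣ m k j r := by
    intro k j r hd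
    rw [hm] at hd
    simp only at hd
    rcases hpp.dvd_or_dvd hd with hd | hd
    · rcases hpp.dvd_or_dvd hd with hd | hd
      · rcases hpp.dvd_or_dvd hd with hd | hd
        · exact hc hd
        · have h5 := hpp.dvd_of_dvd_pow hd
          have h6 : (p : ℤ) ∣ 1 := by
            have := dvd_sub h5 ha
            simpa using this
          exact hpp.not_isUnit (isUnit_of_dvd_one h6)
      · have h5 := hpp.dvd_of_dvd_pow hd
        have h6 : (p : ℤ) ∣ 1 := by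
          have := dvd_sub h5 (dvd_refl (p : ℤ))
          simpa using this
        exact hpp.not_isUnit (isUnit_of_dvd_one h6)
    · exact hz1 (hpp.dvd_of_dvd_pow hd)
  have hJ : ∀ (k j r : ℕ) (N : ℤ), jacobiSym (m k j r * N) p =
      jacobiSym c p * jacobiSym (z₀ ^ k * N) p := by
    intro k j r N
    rw [← jacobiSym.mul_left]
    apply jac_mod
    rw [hm]
    simp only
    have h5 : (p : ℤ) ∣ a ^ (2 * r) * (1 + (p : ℤ)) ^ j - 1 := by
      have e1 : (p : ℤ) ∣ a ^ (2 * r) - 1 := by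
        have := sub_dvd_pow_sub_pow a 1 (2 * r)
        rw [one_pow] at this
        exact ha.trans this
      have e2 : (p : ℤ) ∣ (1 + (p : ℤ)) ^ j - 1 := by
        have := sub_dvd_pow_sub_pow (1 + (p : ℤ)) 1 j
        rw [one_pow] at this
        refine Dvd.dvd.trans ?_ this
        simp
      have e3 : a ^ (2 * r) * (1 + (p : ℤ)) ^ j - 1 =
          (a ^ (2 * r) - 1) * (1 + (p : ℤ)) ^ j + ((1 + (p : ℤ)) ^ j - 1) := by ring
      rw [e3]
      exact dvd_add (e1.mul_right _) e2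
    have h6 : c * a ^ (2 * r) * (1 + (p : ℤ)) ^ j * z₀ ^ k * N - c * (z₀ ^ k * N) =
        c * (z₀ ^ k * N) * (a ^ (2 * r) * (1 + (p : ℤ)) ^ j - 1) := by ring
    rw [h6]
    exact h5.mul_left _
  constructor
  · intro hcase
    have hSk : ∀ (k j r : ℕ) (y : ℚ), Yh (p ^ (n + 1)) (ξ ^ m k j r)
        (PhiK R e (kkE er p R kk (z₀ ^ k))) ∞ ((y : ℚ) : OnePoint ℚ) =
        Yh (p ^ (n + 1)) (ξ ^ m k j r) (PhiK R e kk) ∞ ((y : ℚ) : OnePoint ℚ) := by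
      intro k j r y
      by_cases her : er = 1
      · unfold kkE
        rw [if_pos her]
      · have hcJ : jacobiSym c p = 1 := hcase.resolve_left her
        have her2 : er = 2 := by
          rcases hS.ram with h | h
          · exact absurd h.1 her
          · exact h.1
        subst her2
        rw [Yh_PhiK, Yh_PhiK]
        refine Finset.sum_congr rfl fun i _ => ?_
        unfold kkE kkJ
        rw [if_neg her]
        by_cases hi : jacobiSym (z₀ ^ k * (nI (R.b i) : ℤ)) p = 1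
        · rw [if_pos hi]
        · rw [if_neg hi, zero_mul]
          have h5 := h2 p A B P V f hS e he (R.b i) (R.nl i).b_ne n (m k j r) (hmp k j r) (by
            rw [hJ, hcJ, one_mul]
            exact hi) y
          rw [← hξ] at h5
          rw [h5, mul_zero]
    have hSP : ∀ y : ℚ, ∑ k ∈ Finset.range (p - 1), S k y =
        PV p n ξ a z₀ t (fun _ => PhiK R e kk) c ∞ ((y : ℚ) : OnePoint ℚ) := by
      intro y
      unfold PV
      refine Finset.sum_congr rfl fun k _ => ?_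
      rw [hSd]
      simp only [hSk]
      rw [hm]
    rw [hPV, hSP, hSP]
  · intro her hcJ
    subst her
    have hcJ' : jacobiSym c p = -1 := by
      have hg : c.gcd p = 1 := by
        rw [← Int.isCoprime_iff_gcd_eq_one]
        exact ((Prime.coprime_iff_not_dvd hpp).2 hc).symm
      exact (jacobiSym.eq_one_or_neg_one hg).resolve_left hcJ
    have hSk : ∀ (k j r : ℕ) (y : ℚ), Yh (p ^ (n + 1)) (ξ ^ m k j r)
        (PhiK R e (kkE 2 p R kk (z₀ ^ k))) ∞ ((y : ℚ) : OnePoint ℚ) = 0 := by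
      intro k j r y
      rw [Yh_PhiK]
      refine Finset.sum_eq_zero fun i _ => ?_
      unfold kkE kkJ
      rw [if_neg (by norm_num : ¬ (2 = 1))]
      by_cases hi : jacobiSym (z₀ ^ k * (nI (R.b i) : ℤ)) p = 1
      · have h5 := h2 p A B P V f hS e he (R.b i) (R.nl i).b_ne n (m k j r) (hmp k j r) (by
          rw [hJ, hcJ', hi]
          norm_num) y
        rw [← hξ] at h5
        rw [h5, mul_zero]
      · rw [if_neg hi, zero_mul]
    rw [hPV]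
    have hS0 : ∀ (k : ℕ) (y : ℚ), S k y = 0 := by
      intro k y
      rw [hSd]
      simp only [hSk, mul_zero, Finset.sum_const_zero]
    simp only [hS0, Finset.sum_const_zero, add_zero, zero_div]

end

end Pool.Agent.OT
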