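import Pool.Agent.OT.StHB
import Pool.Agent.TWB.DPL
import Pool.Agent.TWG.GAU

/-!
# OT, block HB, module BIR (helper14): Birch's formula for the symbols of theta series
-/

set_option autoImplicit false

namespace Pool.Agent.OT

open _root_.MU3 _root_.Pool.Agent.MU3A _root_.Pool.Agent.MU3B _root_.Pool.Agent.MU3F OnePoint
open scoped ComplexConjugate

noncomputable section

namespace BIR

open _root_.Pool.Agent.MUXF

/-- Birch's formula for the theta series -/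
lemma theta (A B : ℤ) (hc : _root_.Pool.Agent.MUXF.CQ A B) (b g : Ideal (OO A B))
    (e : OO A B → ℂ) (hb : b ≠ ⊥) (hg : g ≠ ⊥) (he : _root_.Pool.Agent.MUXF.IsEI g e) (N : ℕ)
    [NeZero N] (ψ : DirichletCharacter ℂ N) (hψ : ψ.IsPrimitive) (z : ℂ) (hz : 0 < z.im) :
    gaussSum ψ⁻¹ ZMod.stdAddChar *
        _root_.Pool.Agent.MUXF.thetaI b (fun x => e x * ψ (nm x)) z =
      ψ ((nI b : ℕ)) * ∑ c ∈ Finset.range N, ψ⁻¹ (c : ZMod N) *
        _root_.Pool.Agent.MUXF.thetaI b e (z + (c : ℂ) / N) := by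
  obtain ⟨-, -, -, hfin, -⟩ := xf_ALG A B hc
  obtain ⟨hQ1, -, -⟩ := xf_QB A B hc b hb
  obtain ⟨-, C, -, hC⟩ := xf_BDD A B hc g e hg he
  have hS := xf_TSM A B hc b hb e C hC
  have hnb : nI b ≠ 0 := by
    have := hfin b hb
    exact (Nat.card_pos (α := OO A B ⧸ b)).ne'
  have hnb0 : (nI b : ℂ) ≠ 0 := Nat.cast_ne_zero.2 hnb
  have hN0 : (N : ℂ) ≠ 0 := Nat.cast_ne_zero.2 (NeZero.ne N)
  have him : ∀ j : ℕ, 0 < (z + (j : ℂ) / N).im := by
    intro j
    have : ((j : ℂ) / N).im = 0 := by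
      rw [show ((j : ℂ) / N) = (((j : ℝ) / N : ℝ) : ℂ) by push_cast; rfl]
      exact Complex.ofReal_im _
    rw [Complex.add_im, this, add_zero]
    exact hz
  have hnm : ∀ x : b, ((nm (x : OO A B) : ℂ) / nI b) = ((qb b (x : OO A B) : ℤ) : ℂ) := by
    intro x
    rw [(hQ1 x x.2).1]
    push_cast
    field_simp
  have hpsi : ∀ x : b, ψ ((nm (x : OO A B) : ℤ) : ZMod N) =
      ψ ((nI b : ℕ) : ZMod N) * ψ ((qb b (x : OO A B) : ℤ) : ZMod N) := by
    intro x
    rw [(hQ1 x x.2).1, ← map_mul]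
    push_cast
    rfl
  have hterm : ∀ x : b, gaussSum ψ⁻¹ ZMod.stdAddChar * ((e x * ψ ((nm (x : OO A B) : ℤ) : ZMod N)) *
      conj (emb (x : OO A B)) *
      Complex.exp (2 * Real.pi * Complex.I * ((nm (x : OO A B) : ℂ) / nI b) * z)) =
      ∑ c ∈ Finset.range N, ψ ((nI b : ℕ) : ZMod N) * ψ⁻¹ (c : ZMod N) *
        (e x * conj (emb (x : OO A B)) *
        Complex.exp (2 * Real.pi * Complex.I * ((nm (x : OO A B) : ℂ) / nI b) *
          (z + (c : ℂ) / N))) := by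
    intro x
    rw [hpsi x]
    have h1 := TWG.Gau.shift ψ⁻¹ (TWG.Gau.prim_inv hψ) (qb b (x : OO A B))
    rw [inv_inv] at h1
    have h2 : ∀ c ∈ Finset.range N, ψ ((nI b : ℕ) : ZMod N) * ψ⁻¹ (c : ZMod N) *
        (e x * conj (emb (x : OO A B)) *
        Complex.exp (2 * Real.pi * Complex.I * ((nm (x : OO A B) : ℂ) / nI b) *
          (z + (c : ℂ) / N))) =
        (ψ ((nI b : ℕ) : ZMod N) * (e x * conj (emb (x : OO A B)) *
        Complex.exp (2 * Real.pi * Complex.I * ((nm (x : OO A B) : ℂ) / nI b) * z))) *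
        (ψ⁻¹ (c : ZMod N) * ex (((c * qb b (x : OO A B) : ℤ) : ℚ) / N)) := by
      intro c _
      have h3 : Complex.exp (2 * Real.pi * Complex.I * ((nm (x : OO A B) : ℂ) / nI b) *
          (z + (c : ℂ) / N)) =
          Complex.exp (2 * Real.pi * Complex.I * ((nm (x : OO A B) : ℂ) / nI b) * z) *
          ex (((c * qb b (x : OO A B) : ℤ) : ℚ) / N) := by
        unfold ex
        rw [← Complex.exp_add, hnm x]
        congr 1
        push_cast
        field_simp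
      rw [h3]
      ring
    rw [Finset.sum_congr rfl h2, ← Finset.mul_sum, h1]
    ring
  unfold _root_.Pool.Agent.MUXF.thetaI
  have h4 : ∀ c ∈ Finset.range N, ψ⁻¹ (c : ZMod N) * (1 / 2 * ∑' x : b, e x *
      (starRingEnd ℂ) (emb (x : OO A B)) *
      Complex.exp (2 * Real.pi * Complex.I * ((nm (x : OO A B) : ℂ) / nI b) *
        (z + (c : ℂ) / N))) =
      1 / 2 * (ψ⁻¹ (c : ZMod N) * ∑' x : b, e x *
      (starRingEnd ℂ) (emb (x : OO A B)) *
      Complex.exp (2 * Real.pi * Complex.I * ((nm (x : OO A B) : ℂ) / nI b) *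
        (z + (c : ℂ) / N))) := fun c _ => by ring
  rw [Finset.sum_congr rfl h4, ← Finset.mul_sum]
  have h5 : ∑' x : b, gaussSum ψ⁻¹ ZMod.stdAddChar * ((e x * ψ ((nm (x : OO A B) : ℤ) : ZMod N)) *
      conj (emb (x : OO A B)) *
      Complex.exp (2 * Real.pi * Complex.I * ((nm (x : OO A B) : ℂ) / nI b) * z)) =
      ∑ c ∈ Finset.range N, ψ ((nI b : ℕ) : ZMod N) * ψ⁻¹ (c : ZMod N) * ∑' x : b,
        (e x * conj (emb (x : OO A B)) *
        Complex.exp (2 * Real.pi * Complex.I * ((nm (x : OO A B) : ℂ) / nI b) *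
          (z + (c : ℂ) / N))) := by
    rw [tsum_congr hterm, Summable.tsum_finsetSum (fun c _ => (hS _ (him c)).mul_left _)]
    exact Finset.sum_congr rfl fun c _ => tsum_mul_left
  rw [tsum_mul_left] at h5
  have h6 : ∀ (g t : ℂ), g * (1 / 2 * t) = 1 / 2 * (g * t) := fun g t => by ring
  rw [h6, h5, h6, Finset.mul_sum, Finset.mul_sum, Finset.mul_sum]
  refine Finset.sum_congr rfl fun c _ => ?_
  ring

/-- Birch's formula for the integrals -/
lemma iv (A B : ℤ) (hc : _root_.Pool.Agent.MUXF.CQ A B) (b g : Ideal (OO A B))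
    (e : OO A B → ℂ) (hb : b ≠ ⊥) (hg : g ≠ ⊥) (he : _root_.Pool.Agent.MUXF.IsEI g e) (N : ℕ)
    [NeZero N] (ψ : DirichletCharacter ℂ N) (hψ : ψ.IsPrimitive) (r : ℚ) :
    gaussSum ψ⁻¹ ZMod.stdAddChar *
        _root_.Pool.Agent.MUXF.IvI b (fun x => e x * ψ (nm x)) r =
      ψ ((nI b : ℕ)) * ∑ c ∈ Finset.range N, ψ⁻¹ (c : ZMod N) *
        _root_.Pool.Agent.MUXF.IvI b e (r + (c : ℚ) / N) := by
  have h1 : ∀ j ∈ Finset.range N, MeasureTheory.IntegrableOn
      (fun t : ℝ => (ψ ((nI b : ℕ) : ZMod N) * ψ⁻¹ (j : ZMod N)) *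
        thetaI b e (((r + (j : ℚ) / N : ℚ) : ℂ) + t * Complex.I)) (Set.Ioi 0) :=
    fun j _ => (xf_ITG A B hc b g e hb hg he _).const_mul _
  have h2 : ∫ t in Set.Ioi (0 : ℝ), ∑ j ∈ Finset.range N,
      (ψ ((nI b : ℕ) : ZMod N) * ψ⁻¹ (j : ZMod N)) *
      thetaI b e (((r + (j : ℚ) / N : ℚ) : ℂ) + t * Complex.I) =
      ∫ t in Set.Ioi (0 : ℝ), gaussSum ψ⁻¹ ZMod.stdAddChar *
        thetaI b (fun x => e x * ψ (nm x)) ((r : ℂ) + t * Complex.I) := by
    refine MeasureTheory.setIntegral_congr_fun measurableSet_Ioi fun t ht => ?_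
    have ht0 : (0 : ℝ) < t := ht
    have hz : 0 < ((r : ℂ) + t * Complex.I).im := by
      simpa using ht0
    have h3 := theta A B hc b g e hb hg he N ψ hψ _ hz
    show ∑ j ∈ Finset.range N, (ψ ((nI b : ℕ) : ZMod N) * ψ⁻¹ (j : ZMod N)) *
      thetaI b e (((r + (j : ℚ) / N : ℚ) : ℂ) + t * Complex.I) = _
    refine Eq.trans ?_ h3.symm
    rw [Finset.mul_sum]
    refine Finset.sum_congr rfl fun j _ => ?_
    rw [mul_assoc]
    congr 3
    push_cast
    ring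
  rw [MeasureTheory.integral_finsetSum _ h1, MeasureTheory.integral_const_mul] at h2
  unfold _root_.Pool.Agent.MUXF.IvI
  have h4 : ∀ (g t : ℂ), g * (-(2 * Real.pi) * t) = -(2 * Real.pi) * (g * t) := fun g t => by ring
  rw [h4, ← h2, Finset.mul_sum, Finset.mul_sum]
  refine Finset.sum_congr rfl fun c _ => ?_
  rw [MeasureTheory.integral_const_mul]
  ring

end BIR

/-- **BIR.** -/
theorem ob_BIR : Ob_BIR := by
  intro A B hc b g g' e hb hg _ he N _ ψ hψ _ x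
  have h1 := BIR.iv A B (_root_.Pool.Agent.MUXHY.toCQ hc) b g e hb hg
    (_root_.Pool.Agent.MUXHY.toEI he) N ψ hψ x
  have h2 : ∀ (e₀ : OO A B → ℂ) (q : ℚ), _root_.Pool.Agent.MUX.PhiI b e₀ ∞ (q : OnePoint ℚ) =
      - _root_.Pool.Agent.MUXF.IvI b e₀ q := by
    intro e₀ q
    change _root_.Pool.Agent.MUX.IcI b e₀ ∞ - _root_.Pool.Agent.MUX.IcI b e₀ (q : OnePoint ℚ) = _
    change (0 : ℂ) - _root_.Pool.Agent.MUXF.IvI b e₀ q = _
    rw [zero_sub]
  simp only [h2]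
  simp only [mul_neg, Finset.sum_neg_distrib]
  rw [neg_inj]
  exact h1

end

end Pool.Agent.OT
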