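import Pool.Agent.OT.StHB
import Pool.Agent.OB.HB_QBO

/-!
# OT, block HB (helper31): `Ob_EPS`, the twist of `e` by a character of the norm
-/

set_option autoImplicit false

namespace Pool.Agent.OT

open _root_.MU3 _root_.Pool.Agent.MU3A _root_.Pool.Agent.MU3B _root_.Pool.Agent.MU3F
  _root_.Pool.Agent.MUX _root_.Pool.Agent.MuSym _root_.Pool.Agent.OB _root_.Pool.Agent.OBH OnePoint

namespace EPS

variable {A B : ℤ}

lemma nm_congr (m : ℕ) (x y : OO A B) (h : ((m : ℕ) : OO A B) ∣ x - y) :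
    (m : ℤ) ∣ nm x - nm y := by
  obtain ⟨z, hz⟩ := h
  have hx : x = y + ((m : ℕ) : OO A B) * z := by rw [← hz]; ring
  have hre : x.re = y.re + (m : ℤ) * z.re := by
    rw [hx]
    simp only [QuadraticAlgebra.re_add, QuadraticAlgebra.re_mul, QuadraticAlgebra.re_natCast,
      QuadraticAlgebra.im_natCast]
    ring
  have him : x.im = y.im + (m : ℤ) * z.im := by
    rw [hx]
    simp only [QuadraticAlgebra.im_add, QuadraticAlgebra.im_mul, QuadraticAlgebra.re_natCast,
      QuadraticAlgebra.im_natCast]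
    ring
  refine ⟨z.re * (2 * y.re + m * z.re) + B * (y.re * z.im + z.re * y.im + m * z.re * z.im) -
    A * (z.im * (2 * y.im + m * z.im)), ?_⟩
  unfold nm
  rw [hre, him]
  ring

lemma psi_congr {q : ℕ} (ψ : DirichletCharacter ℂ q) (x y : OO A B)
    (h : ((q : ℕ) : OO A B) ∣ x - y) : ψ (nm x) = ψ (nm y) := by
  have h1 : ((nm x : ℤ) : ZMod q) = ((nm y : ℤ) : ZMod q) := by
    rw [← sub_eq_zero, ← Int.cast_sub, ZMod.intCast_zmod_eq_zero_iff_dvd]
    exact nm_congr q x y h
  rw [h1]

lemma nm_one' : nm (1 : OO A B) = 1 := by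
  unfold nm
  rw [QuadraticAlgebra.re_one, QuadraticAlgebra.im_one]
  ring

lemma nm_neg_one : nm (-1 : OO A B) = 1 := by
  unfold nm
  rw [QuadraticAlgebra.re_neg, QuadraticAlgebra.im_neg, QuadraticAlgebra.re_one,
    QuadraticAlgebra.im_one]
  ring

lemma idl_mul (a b : ℕ) : idl (A := A) (B := B) (a * b) = idl a * idl b := by
  unfold idl
  rw [Ideal.span_singleton_mul_span_singleton, Nat.cast_mul]

lemma idl_pow (a r : ℕ) : idl (A := A) (B := B) (a ^ r) = idl a ^ r := by
  unfold idl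
  rw [Ideal.span_singleton_pow, Nat.cast_pow]

lemma cop_iff (p l f' r : ℕ) (x : OO A B) :
    IsCoprime (sp x) (idl (A := A) (B := B) (p * (l * f'))) ↔
      IsCoprime (sp x) (idl (A := A) (B := B) (p * (l * f' * l ^ r))) := by
  have e1 : p * (l * f' * l ^ r) = p * (l * f') * l ^ r := by ring
  have e2 : p * (l * f') = l * (p * f') := by ring
  rw [e1, idl_mul (p * (l * f')), idl_pow, IsCoprime.mul_right_iff]
  constructor
  · intro h
    refine ⟨h, IsCoprime.pow_right ?_⟩
    rw [e2, idl_mul, IsCoprime.mul_right_iff] at h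
    exact h.1
  · intro h
    exact h.1

lemma psi_ne {q r l : ℕ} (hl : l.Prime) (hq : q = l ^ r) (ψ : DirichletCharacter ℂ q) (a : ℤ)
    (h : ¬ (l : ℤ) ∣ a) : ψ a ≠ 0 := by
  subst hq
  have h2 : IsUnit ((a : ℤ) : ZMod (l ^ r)) := by
    rw [ZMod.coe_int_isUnit_iff_isCoprime]
    have h3 : IsCoprime (l : ℤ) a :=
      (Prime.coprime_iff_not_dvd (Nat.prime_iff_prime_int.1 hl)).2 h
    rw [Nat.cast_pow]
    exact h3.pow_left
  exact (h2.map ψ).ne_zero

end EPS

open EPS in
/-- (EPS) the twist of `e` by a character of the norm -/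
theorem ob_EPS : Ob_EPS := by
  intro A B hAB p f l r hp hf hl hlf e he ψ
  obtain ⟨f', rfl⟩ := hlf
  have hnm1 : nm (1 : OO A B) = 1 := nm_one'
  have hnmn : nm (-1 : OO A B) = 1 := nm_neg_one
  refine ⟨?_, ?_, ?_, ?_, ?_⟩
  · show e 1 * ψ (nm (1 : OO A B)) = 1
    rw [he.one, hnm1, Int.cast_one, map_one, mul_one]
  · intro x y
    show e (x * y) * ψ (nm (x * y)) = e x * ψ (nm x) * (e y * ψ (nm y))
    rw [he.mul, QBO.nm_mul', Int.cast_mul, map_mul]
    ring
  · intro x y hxy
    rw [Ideal.mem_span_singleton] at hxy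
    show e x * ψ (nm x) = e y * ψ (nm y)
    have h1 : e x = e y := by
      apply he.per
      rw [Ideal.mem_span_singleton]
      refine dvd_trans ⟨((l ^ r : ℕ) : OO A B), ?_⟩ hxy
      push_cast
      ring
    have h2 : ψ (nm x) = ψ (nm y) := by
      apply psi_congr
      refine dvd_trans ⟨((p * (l * f') : ℕ) : OO A B), ?_⟩ hxy
      push_cast
      ring
    rw [h1, h2]
  · intro x
    rw [← cop_iff]
    constructor
    · intro h
      exact (he.supp x).1 (left_ne_zero_of_mul h)
    · intro h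
      have hex := (he.supp x).2 h
      refine mul_ne_zero hex ?_
      have he' : IsEI (idl (A := A) (B := B) (l * (p * f'))) e := by
        have h0 : l * (p * f') = p * (l * f') := by ring
        rw [h0]
        exact he
      exact psi_ne hl rfl ψ _ (QBO.not_dvd hl he' hex)
  · show e (-1) * ψ (nm (-1 : OO A B)) = -1
    rw [he.neg, hnmn, Int.cast_one, map_one, mul_one]

end Pool.Agent.OT
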