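import Pool.Agent.OT.StHB
import Pool.Agent.OT.H2P
import Pool.Agent.MUX.XFAll
import Pool.Agent.MUX.HY_QSX
import Pool.Agent.MUX.HY_HFX
import Pool.Agent.MUX.HY_BRG
import Pool.Agent.TWG.GAU

/-!
# OT, block HB: module HETA (helper59), the assembly `O_HETA`
-/

set_option autoImplicit false

namespace Pool.Agent.OT

open _root_.MU3 _root_.Pool.Agent.MU3A _root_.Pool.Agent.MU3B _root_.Pool.Agent.MU3F
  _root_.Pool.Agent.MUX _root_.Pool.Agent.MuSym _root_.Pool.Agent.OB _root_.Pool.Agent.OBH OnePoint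
  _root_.Pool.Agent.MUXHY
open _root_.Pool.Agent.TWR (Gen)
open Finset

noncomputable section

namespace Heta

/-- the coefficients of the values `Q ∞ (x + b/M)` in `PV` -/
def Wb (p : ℕ) (ξ : ℂ) (a z₀ : ℤ) (t : ℤ → ℂ) (c : ℤ) (b : ℕ) : ℂ :=
  ∑ k ∈ range (p - 1), ∑ j ∈ range 2, ∑ r ∈ range 2, t (z₀ ^ k) *
    (coT a j r * (ξ ^ (c * a ^ (2 * r) * (1 + (p : ℤ)) ^ j * z₀ ^ k)) ^ b)

theorem PV_coe (p n : ℕ) (hp : p ≠ 0) (ξ : ℂ) (a z₀ : ℤ) (t : ℤ → ℂ)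
    (Q : OnePoint ℚ → OnePoint ℚ → ℂ) (c : ℤ) (x : ℚ) :
    PV p n ξ a z₀ t (fun _ => Q) c ∞ (x : OnePoint ℚ) = ∑ b ∈ range (p ^ (n + 1)),
      Wb p ξ a z₀ t c b * Q ∞ ((x + (b : ℚ) / ((p ^ (n + 1) : ℕ) : ℚ) : ℚ) : OnePoint ℚ) := by
  unfold PV Wb
  simp only [H2.Yh_coe (p ^ (n + 1)) (pow_ne_zero _ hp), Finset.mul_sum, Finset.sum_mul]
  simp only [Finset.sum_comm (s := range 2) (t := range (p ^ (n + 1))),
    Finset.sum_comm (s := range (p - 1)) (t := range (p ^ (n + 1)))]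
  refine Finset.sum_congr rfl fun b _ => ?_
  refine Finset.sum_congr rfl fun k _ => ?_
  refine Finset.sum_congr rfl fun j _ => ?_
  refine Finset.sum_congr rfl fun r _ => ?_
  ring

theorem phi_per {A B : ℤ} (hC : CQ A B) {m : ℕ} {ι : Type} [Fintype ι] (R : Reps A B m ι)
    (e : OO A B → ℂ) (kk : ι → ℂ) (x : ℚ) (k : ℤ) :
    PhiK R e kk ∞ ((x + k : ℚ) : OnePoint ℚ) = PhiK R e kk ∞ (x : OnePoint ℚ) := by
  unfold PhiK
  refine Finset.sum_congr rfl fun i _ => ?_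
  rw [Qsx.PhiI_per MUXF.xf_PRD hC (R.nl i).b_ne]

end Heta

open Heta in
theorem ob_HETA (hH : Ot_H) (hHT : Ob_HT) (hSGP : Ob_SGP) (hBIR : Ob_BIR) (hEPS : Ob_EPS)
    (hSYE : Ob_SYE) (hZC : Ob_ZC) (hSGE : Ob_SGE) (hVAL : So_VAL) (hRAM : So_RAM) : O_HETA := by
  intro p er A B P V f hS hTor ι _ R u el lam hG w hw e he r₁ hr₁ her i hi1 hi2 hew t ht kk hkk
    l g h hGen hl n hn z₀ hz₀
  obtain ⟨vp, -, v1, vr, -, -, gne, -, hpf, -, -, -, -, -⟩ := hVAL p er A B P V f hS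
  obtain ⟨hnI, -, -⟩ := hRAM p er A B P V hS.toCaseO
  have hcq : CQ A B := hS.cq
  have hp : p.Prime := hS.pp
  have hp5 : 5 ≤ p := hS.p5
  have hp2 : p ≠ 2 := by omega
  have hpz : Prime (p : ℤ) := Nat.prime_iff_prime_int.mp hp
  have hf0 : f ≠ 0 := hS.f0
  have hlp : l.Prime := by
    rcases hGen with ⟨h, -, -⟩ | ⟨h, -, -⟩ <;> rw [h]
    · exact Nat.prime_three
    · exact Nat.prime_two
  have hpl : ¬ p ∣ l := fun h1 => hS.fp (h1.trans hl)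
  -- the weights
  have heN : ∀ c, e ((nI (R.b c) : ℕ) : OO A B) ≠ 0 := Brg.e_nI R he hpf
  have hκ : ∀ c, kk0 R e kk c ^ r₁ = 1 := by
    intro c
    unfold kk0
    rw [div_pow, hkk, her _ (heN c), div_one]
  -- the root of unity
  set M : ℕ := p ^ (n + 1) with hM
  have hM0 : M ≠ 0 := pow_ne_zero _ hp.ne_zero
  have hξ : IsPrimitiveRoot (ex (-1 / ((p ^ (n + 1) : ℕ) : ℚ))) (p ^ (n + 1)) := by
    have h1 := Hfx.prim p (n + 1) hp (-1) (by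
      intro h
      exact hpz.not_isUnit (isUnit_of_dvd_one ((dvd_neg).1 h)))
    push_cast at h1 ⊢
    exact h1
  have hT := hHT p er A B P V f hS hTor ι R u el lam hG w hw e he r₁ hr₁ her i hi1 hi2 hew t ht
    (kk0 R e kk) hκ l hlp hl n hn z₀ hz₀ _ hξ
  obtain ⟨r₀, hr₀⟩ := hH l g h hGen p n V _ _ _ z₀ t _ _ hT
  refine ⟨max r₀ 2, fun r hr ψ hψ1 hψ2 => ?_⟩
  have hr2 : 2 ≤ r := (le_max_right _ _).trans hr
  have hNZ : NeZero (l ^ r) := ⟨pow_ne_zero _ hlp.ne_zero⟩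
  have hψp : ψ.IsPrimitive := TWG.Gau.prim hlp hr2 ψ hψ2
  have hi1' : ψ⁻¹ (-1) = 1 := by rw [MulChar.inv_apply_eq_inv', hψ1, inv_one]
  have hi2' : ψ⁻¹ (1 + (l : ZMod (l ^ r)) ^ (r - 1)) ≠ 1 := by
    rw [MulChar.inv_apply_eq_inv']
    intro h
    exact hψ2 (inv_eq_one.1 h)
  -- the number `a`
  set f' : ℕ := f * l ^ r with hf'
  have hf'0 : f' ≠ 0 := mul_ne_zero hf0 (pow_ne_zero _ hlp.ne_zero)
  have hpf' : ¬ p ∣ f' := by
    intro h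
    rcases (Nat.Prime.dvd_mul hp).1 h with h | h
    · exact hS.fp h
    · exact hpl (hp.dvd_of_dvd_pow h)
  have hq0 : q0 p = p := by
    unfold q0
    rw [if_neg hp2]
  have haz : ((aX p f' : ℕ) : ℤ) - 1 = p * (2 * f') := by
    unfold aX
    rw [hq0]
    push_cast
    ring
  have hap : (p : ℤ) ∣ ((aX p f' : ℕ) : ℤ) - 1 := by rw [haz]; exact Dvd.intro _ rfl
  have hap2 : ¬ (p : ℤ) ^ 2 ∣ ((aX p f' : ℕ) : ℤ) - 1 := by
    rw [haz, sq]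
    intro h
    have h1 : (p : ℤ) ∣ 2 * (f' : ℤ) :=
      (mul_dvd_mul_iff_left (by exact_mod_cast hp.ne_zero)).1 h
    rcases hpz.dvd_or_dvd h1 with h2 | h2
    · have := Int.le_of_dvd (by norm_num) h2
      omega
    · exact hpf' (by exact_mod_cast h2)
  obtain ⟨c, hc, hcv⟩ := hr₀ r ((le_max_left _ _).trans hr) ψ⁻¹ hi1' hi2' ((aX p f' : ℕ) : ℤ)
    hap hap2
  have hsye := fun x : ℚ => hSYE p er A B P V f hS ι R e he (kk0 R e kk) u t (nI P - 1) n ht z₀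
    hz₀ ((aX p f' : ℕ) : ℤ) hap c hc x
  -- the right genus
  have hgen : er = 1 ∨ jacobiSym c p = 1 := by
    by_contra hne
    push Not at hne
    have her2 : er = 2 := by
      rcases hS.ram with h | h
      · exact absurd h.1 hne.1
      · exact h.1
    have h0 : ∀ x : ℚ, PV p n (ex (-1 / ((p ^ (n + 1) : ℕ) : ℚ))) ((aX p f' : ℕ) : ℤ) z₀ t
        (QT er p R e (kk0 R e kk) (t (-1)) u z₀) c ∞ ((x : ℚ) : OnePoint ℚ) = 0 :=
      fun x => (hsye x).2 her2 hne.2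
    rw [Finset.sum_eq_zero (fun e' _ => by rw [h0, mul_zero]), map_zero] at hcv
    exact not_lt_zero hcv
  -- the functions
  set G : ℚ → ℂ := fun x => PV p n (ex (-1 / ((p ^ (n + 1) : ℕ) : ℚ))) ((aX p f' : ℕ) : ℤ) z₀ t
    (fun _ => PhiK R e (kk0 R e kk)) c ∞ ((x : ℚ) : OnePoint ℚ) with hGdef
  have hGc : ∀ x : ℚ, G x = ∑ b ∈ range (p ^ (n + 1)),
      Wb p (ex (-1 / ((p ^ (n + 1) : ℕ) : ℚ))) ((aX p f' : ℕ) : ℤ) z₀ t c b *
        PhiK R e (kk0 R e kk) ∞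
          ((x + (b : ℚ) / ((p ^ (n + 1) : ℕ) : ℚ) : ℚ) : OnePoint ℚ) := fun x =>
    PV_coe p n hp.ne_zero _ _ z₀ t _ c x
  have hGper : ∀ (x : ℚ) (k : ℤ), G (x + k) = G x := by
    intro x k
    rw [hGc, hGc]
    refine Finset.sum_congr rfl fun b _ => ?_
    have h1 : x + (k : ℚ) + (b : ℚ) / ((p ^ (n + 1) : ℕ) : ℚ) =
        (x + (b : ℚ) / ((p ^ (n + 1) : ℕ) : ℚ)) + (k : ℤ) := by ring
    rw [h1, phi_per hcq]
  have hq1 : ((l ^ r : ℕ) : ℚ) ≠ 0 := by exact_mod_cast hNZ.out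
  -- the even part
  have hev : ∑ e' ∈ range (l ^ r), ψ⁻¹ (e' : ZMod (l ^ r)) * G (-((e' : ℚ) / (l : ℚ) ^ r)) =
      ∑ e' ∈ range (l ^ r), ψ⁻¹ (e' : ZMod (l ^ r)) * G ((e' : ℚ) / (l : ℚ) ^ r) := by
    have h1 := MU3H.Qs.sum_mul (q := l ^ r)
      (G := fun b : ℤ => ψ⁻¹ (b : ZMod (l ^ r)) * G ((b : ℚ) / (l : ℚ) ^ r)) (fun b k => by
        have e1 : (((b + ((l ^ r : ℕ) : ℤ) * k : ℤ)) : ZMod (l ^ r)) = (b : ZMod (l ^ r)) := by
          push_cast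
          have := ZMod.natCast_self (l ^ r)
          push_cast at this
          rw [this, zero_mul, add_zero]
        have e2 : (((b + ((l ^ r : ℕ) : ℤ) * k : ℤ)) : ℚ) / (l : ℚ) ^ r =
            (b : ℚ) / (l : ℚ) ^ r + (k : ℤ) := by
          have : (l : ℚ) ^ r ≠ 0 := by exact_mod_cast hNZ.out
          push_cast
          field_simp
        show ψ⁻¹ (((b + ((l ^ r : ℕ) : ℤ) * k : ℤ)) : ZMod (l ^ r)) *
          G ((((b + ((l ^ r : ℕ) : ℤ) * k : ℤ)) : ℚ) / (l : ℚ) ^ r) = _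
        rw [e1, e2, hGper]) (u := -1) (isCoprime_one_left).neg_left
    refine Eq.trans (Finset.sum_congr rfl fun e' _ => ?_) (h1.trans
      (Finset.sum_congr rfl fun e' _ => ?_))
    · show ψ⁻¹ (e' : ZMod (l ^ r)) * G (-((e' : ℚ) / (l : ℚ) ^ r)) =
        ψ⁻¹ ((-1 * (e' : ℤ) : ℤ) : ZMod (l ^ r)) *
          G (((-1 * (e' : ℤ) : ℤ) : ℚ) / (l : ℚ) ^ r)
      have e1 : ((-1 * (e' : ℤ) : ℤ) : ZMod (l ^ r)) = (-1) * (e' : ZMod (l ^ r)) := by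
        push_cast
        ring
      have e2 : (((-1 * (e' : ℤ) : ℤ) : ℚ) / (l : ℚ) ^ r) = -((e' : ℚ) / (l : ℚ) ^ r) := by
        push_cast
        ring
      rw [e1, e2, map_mul, hi1', one_mul]
    · show ψ⁻¹ (((e' : ℤ)) : ZMod (l ^ r)) * G ((((e' : ℤ)) : ℚ) / (l : ℚ) ^ r) = _
      push_cast
      rfl
  have hS1 : ∑ e' ∈ range (l ^ r), ψ⁻¹ (e' : ZMod (l ^ r)) *
      PV p n (ex (-1 / ((p ^ (n + 1) : ℕ) : ℚ))) ((aX p f' : ℕ) : ℤ) z₀ t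
        (QT er p R e (kk0 R e kk) (t (-1)) u z₀) c ∞
          (((e' : ℚ) / (l : ℚ) ^ r : ℚ) : OnePoint ℚ) =
      2 / (u * R.om R.i0) * ∑ e' ∈ range (l ^ r), ψ⁻¹ (e' : ZMod (l ^ r)) *
        G ((e' : ℚ) / (l : ℚ) ^ r) := by
    have h1 : ∀ e' ∈ range (l ^ r), ψ⁻¹ (e' : ZMod (l ^ r)) *
      PV p n (ex (-1 / ((p ^ (n + 1) : ℕ) : ℚ))) ((aX p f' : ℕ) : ℤ) z₀ t
        (QT er p R e (kk0 R e kk) (t (-1)) u z₀) c ∞
          (((e' : ℚ) / (l : ℚ) ^ r : ℚ) : OnePoint ℚ) =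
        1 / (u * R.om R.i0) * (ψ⁻¹ (e' : ZMod (l ^ r)) * G ((e' : ℚ) / (l : ℚ) ^ r)) +
          1 / (u * R.om R.i0) * (ψ⁻¹ (e' : ZMod (l ^ r)) * G (-((e' : ℚ) / (l : ℚ) ^ r))) := by
      intro e' _
      rw [(hsye _).1 hgen]
      show ψ⁻¹ (e' : ZMod (l ^ r)) * ((G ((e' : ℚ) / (l : ℚ) ^ r) +
        G (-((e' : ℚ) / (l : ℚ) ^ r))) / (u * R.om R.i0)) = _
      ring
    rw [Finset.sum_congr rfl h1, Finset.sum_add_distrib, ← Finset.mul_sum, ← Finset.mul_sum, hev]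
    ring
  -- the level `f'`
  set R' : Reps A B (p * f') ι := RL R l r hl with hR'
  set e' : OO A B → ℂ := fun x => e x * ψ (nm x) with he'
  have hE' : IsEI (idl (A := A) (B := B) (p * f')) e' :=
    hEPS A B hcq p f l r hp hf0 hlp hl e he ψ
  set kk' : ι → ℂ := fun i => kk i * ψ ((nI (R.b i) : ℕ)) with hkk'
  have hgne' : idl (A := A) (B := B) (p * f') ≠ ⊥ := by
    have h1 : ((p * f' : ℕ) : OO A B) ∈ idl (A := A) (B := B) (p * f') :=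
      Ideal.mem_span_singleton_self _
    intro h2
    rw [h2, Ideal.mem_bot] at h1
    have h3 := congrArg QuadraticAlgebra.re h1
    rw [QuadraticAlgebra.re_natCast, QuadraticAlgebra.re_zero] at h3
    exact mul_ne_zero hp.ne_zero hf'0 (by exact_mod_cast h3)
  have hψu : ∀ i, ψ ((nI (R.b i) : ℕ)) ≠ 0 := by
    intro i
    have h1 := (RL R l r hl).cop i
    have h2 : (nI (R.b i)).Coprime (l ^ r) :=
      Nat.Coprime.coprime_mul_left_right (Nat.Coprime.coprime_mul_left_right h1)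
    have h3 : IsUnit ((nI (R.b i) : ℕ) : ZMod (l ^ r)) := (ZMod.isUnit_iff_coprime _ _).2 h2
    exact (h3.map ψ).ne_zero
  have hk1 : ∀ i, kk0 R' e' kk' i * ψ ((nI (R.b i) : ℕ)) = kk0 R e kk i := by
    intro i
    have h1 : e' ((nI (R.b i) : ℕ) : OO A B) =
        e ((nI (R.b i) : ℕ) : OO A B) * ψ ((nI (R.b i) : ℕ)) ^ 2 := by
      have hnm : nm (((nI (R.b i) : ℕ) : OO A B)) = (nI (R.b i) : ℤ) ^ 2 := by
        show (((nI (R.b i) : ℕ) : OO A B)).re ^ 2 + B * (((nI (R.b i) : ℕ) : OO A B)).re *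
          (((nI (R.b i) : ℕ) : OO A B)).im - A * (((nI (R.b i) : ℕ) : OO A B)).im ^ 2 = _
        rw [QuadraticAlgebra.re_natCast, QuadraticAlgebra.im_natCast]
        ring
      show e ((nI (R.b i) : ℕ) : OO A B) * ψ (nm ((nI (R.b i) : ℕ) : OO A B)) = _
      rw [hnm]
      push_cast
      rw [map_pow]
    show kk i * ψ ((nI (R.b i) : ℕ)) / e' ((nI (R.b i) : ℕ) : OO A B) *
      ψ ((nI (R.b i) : ℕ)) = kk i / e ((nI (R.b i) : ℕ) : OO A B)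
    rw [h1]
    have := heN i
    have := hψu i
    field_simp
  set τ : ℂ := gaussSum ψ⁻¹ (ZMod.stdAddChar (N := l ^ r)) with hτ
  have hB1 : ∀ x : ℚ, τ * PhiK R' e' (kk0 R' e' kk') ∞ (x : OnePoint ℚ) =
      ∑ c ∈ range (l ^ r), ψ⁻¹ (c : ZMod (l ^ r)) *
        PhiK R e (kk0 R e kk) ∞ ((x + (c : ℚ) / ((l ^ r : ℕ) : ℚ) : ℚ) : OnePoint ℚ) := by
    intro x
    unfold PhiK
    simp only [Finset.mul_sum]
    rw [Finset.sum_comm]
    refine Finset.sum_congr rfl fun i _ => ?_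
    have h1 := hBIR A B hcq (R.b i) (idl (A := A) (B := B) (p * f))
      (idl (A := A) (B := B) (p * f')) e (R.nl i).b_ne gne hgne' he (l ^ r) ψ hψp hE' x
    have h2 : τ * (kk0 R' e' kk' i * PhiI (R'.b i) e' ∞ (x : OnePoint ℚ)) =
        kk0 R' e' kk' i * (τ * PhiI (R.b i) e' ∞ (x : OnePoint ℚ)) := by
      show τ * (kk0 R' e' kk' i * PhiI (R.b i) e' ∞ (x : OnePoint ℚ)) = _
      ring
    rw [h2, h1, ← mul_assoc, hk1 i, Finset.mul_sum]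
    refine Finset.sum_congr rfl fun c _ => ?_
    ring
  have hB2 : τ * PV p n (ex (-1 / ((p ^ (n + 1) : ℕ) : ℚ))) ((aX p f' : ℕ) : ℤ) z₀ t
      (fun _ => PhiK R' e' (kk0 R' e' kk')) c ∞ ((0 : ℚ) : OnePoint ℚ) =
      ∑ e' ∈ range (l ^ r), ψ⁻¹ (e' : ZMod (l ^ r)) * G ((e' : ℚ) / (l : ℚ) ^ r) := by
    rw [PV_coe p n hp.ne_zero, Finset.mul_sum]
    simp only [hGc, Finset.mul_sum]
    rw [Finset.sum_comm]
    refine Finset.sum_congr rfl fun b _ => ?_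
    have h1 := hB1 (0 + (b : ℚ) / ((p ^ (n + 1) : ℕ) : ℚ))
    rw [mul_left_comm, h1, Finset.mul_sum]
    refine Finset.sum_congr rfl fun c' _ => ?_
    have h2 : 0 + (b : ℚ) / ((p ^ (n + 1) : ℕ) : ℚ) + (c' : ℚ) / ((l ^ r : ℕ) : ℚ) =
        (c' : ℚ) / (l : ℚ) ^ r + (b : ℚ) / ((p ^ (n + 1) : ℕ) : ℚ) := by
      push_cast
      ring
    rw [h2]
    ring
  have hP := hSGP p hp hp2 A B hcq f' hf'0 ι R' e' hE' kk' t z₀ n c
  set PVV : ℂ := PV p n (ex (-1 / ((p ^ (n + 1) : ℕ) : ℚ))) ((aX p f' : ℕ) : ℤ) z₀ t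
      (fun _ => PhiK R' e' (kk0 R' e' kk')) c ∞ ((0 : ℚ) : OnePoint ℚ) with hPVV
  set SS : ℂ := ∑ j ∈ Finset.range 2, (-1 : ℂ) ^ (1 - j) *
        SG p R' (lvX p f' n) (p ^ (n + 1)) (aX p f') e' kk' t z₀ (c * (1 + (p : ℤ)) ^ j) with hSS
  have hu0 : u ≠ 0 := hG.u0
  have hom : R.om R.i0 ≠ 0 := (R.nl R.i0).om_ne
  have hfc : (f' : ℂ) ≠ 0 := Nat.cast_ne_zero.2 hf'0
  have hfin : ∑ e' ∈ range (l ^ r), ψ⁻¹ (e' : ZMod (l ^ r)) *
      PV p n (ex (-1 / ((p ^ (n + 1) : ℕ) : ℚ))) ((aX p f' : ℕ) : ℤ) z₀ t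
        (QT er p R e (kk0 R e kk) (t (-1)) u z₀) c ∞
          (((e' : ℚ) / (l : ℚ) ^ r : ℚ) : OnePoint ℚ) = τ / f' * (SS / u) := by
    rw [hS1, ← hB2, hP]
    show 2 / (u * R.om R.i0) * (τ * PVV) = τ / f' * (2 * f' / R.om R.i0 * PVV / u)
    field_simp
  rw [hfin, map_mul, map_div₀] at hcv
  -- valuations
  have hvl : V.valuation ((l : ℕ) : ℂ) = 1 := by
    have := v1 l (fun h => hpl (by exact_mod_cast h))
    exact_mod_cast this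
  have hvτ : V.valuation τ = 1 := by
    refine TWG.Gau.gone V ψ⁻¹ (TWG.Gau.prim_inv hψp) ?_
    push_cast
    rw [map_pow, hvl, one_pow]
  have hvf : V.valuation (f' : ℂ) = 1 := by
    have := v1 f' (fun h => hpf' (by exact_mod_cast h))
    exact_mod_cast this
  rw [hvτ, hvf, div_one, one_mul] at hcv
  -- the index `c`
  obtain ⟨-, -, hzc⟩ := hZC p n z₀ hp hp2 hz₀
  obtain ⟨m, k', hmk⟩ := hzc c hc
  have hnP : nI P - 1 ≠ 0 ∧ ¬ p ∣ nI P - 1 := by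
    rcases hnI with h | h
    · rw [h]
      refine ⟨by omega, fun h1 => ?_⟩
      have := Nat.le_of_dvd (by omega) h1
      omega
    · rw [h]
      have h4 : p ≤ p ^ 2 := by nlinarith
      refine ⟨by omega, fun h1 => ?_⟩
      have h2 : p ∣ p ^ 2 := dvd_pow_self _ two_ne_zero
      have h3 := (Nat.dvd_sub_iff_right (by omega : 1 ≤ p ^ 2) h2).1 h1
      exact hp.one_lt.ne' (Nat.dvd_one.1 h3)
  obtain ⟨hs1, hs2, hs3⟩ := hSGE p n z₀ t (nI P - 1) A B (p * f') ι R' (lvX p f' n) (aX p f') e'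
    kk' hp hz₀ ht hnP.2
  have hvt : V.valuation (t z₀) = 1 := TWG.Gau.root_one V hnP.1 hs2
  have hSG : t z₀ ^ m * SS = ∑ j ∈ Finset.range 2, (-1 : ℂ) ^ (1 - j) *
      SG p R' (lvX p f' n) (p ^ (n + 1)) (aX p f') e' kk' t z₀ ((1 + (p : ℤ)) ^ (k' + j)) := by
    rw [hSS, Finset.mul_sum]
    refine Finset.sum_congr rfl fun j _ => ?_
    have h1 := hs1 (c * (1 + (p : ℤ)) ^ j) (z₀ ^ m * (1 + (p : ℤ)) ^ (k' + j)) (by
      have : c * (1 + (p : ℤ)) ^ j - z₀ ^ m * (1 + (p : ℤ)) ^ (k' + j) =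
          (c - z₀ ^ m * (1 + (p : ℤ)) ^ k') * (1 + (p : ℤ)) ^ j := by ring
      rw [this]
      exact Dvd.dvd.mul_right hmk _)
    rw [h1, mul_left_comm, hs3]
  refine ⟨k', ?_⟩
  have h5 : V.valuation (SS / u) = V.valuation ((t z₀ ^ m * SS) / u) := by
    rw [mul_div_assoc, map_mul, map_pow, hvt, one_pow, one_mul]
  rw [h5, hSG] at hcv
  exact hcv

end

end Pool.Agent.OT
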