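import Pool.Agent.OT.StHB

/-!
# OT, block HB, module ZC (helper21): the integer `z₀`
-/

set_option autoImplicit false

namespace Pool.Agent.OT

namespace ZC

/-- third order expansion of a power -/
theorem exp3 (y : ℤ) (m : ℕ) :
    ∃ q : ℤ, (1 + y) ^ m = 1 + m * y + (m.choose 2 : ℕ) * y ^ 2 + y ^ 3 * q := by
  induction m with
  | zero => exact ⟨0, by simp⟩
  | succ m ih =>
    obtain ⟨q, hq⟩ := ih
    refine ⟨(m.choose 2 : ℕ) + q + y * q, ?_⟩
    have h1 : (m + 1).choose 2 = m + m.choose 2 := by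
      rw [Nat.choose_succ_succ' m 1, Nat.choose_one_right]
    rw [pow_succ, hq, h1]
    push_cast
    ring

theorem pw (p : ℕ) (hp : p.Prime) (h2 : p ≠ 2) (k : ℕ) :
    ∃ w : ℤ, (1 + (p : ℤ)) ^ (p ^ k) = 1 + (p : ℤ) ^ (k + 1) * (1 + p * w) := by
  induction k with
  | zero => exact ⟨0, by simp⟩
  | succ k ih =>
    obtain ⟨w, hw⟩ := ih
    have hp3 : 2 < p := lt_of_le_of_ne hp.two_le (Ne.symm h2)
    obtain ⟨h, hh⟩ := hp.dvd_choose_self (k := 2) (by norm_num) hp3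
    obtain ⟨q, hq⟩ := exp3 ((p : ℤ) ^ (k + 1) * (1 + p * w)) p
    refine ⟨w + h * p ^ k * (1 + p * w) ^ 2 + p ^ (2 * k) * (1 + p * w) ^ 3 * q, ?_⟩
    rw [pow_succ p k, pow_mul, hw, hq, hh]
    push_cast
    ring

theorem exp2 (y : ℤ) (m : ℕ) : ∃ q : ℤ, (1 + y) ^ m = 1 + m * y + y ^ 2 * q := by
  obtain ⟨q, hq⟩ := exp3 y m
  exact ⟨(m.choose 2 : ℕ) + y * q, by rw [hq]; ring⟩

theorem ex (p : ℕ) (hp : p.Prime) (h2 : p ≠ 2) (u : ℤ) (hu : (p : ℤ) ∣ u - 1) (n : ℕ) :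
    ∃ k : ℕ, (p : ℤ) ^ (n + 1) ∣ u - (1 + (p : ℤ)) ^ k := by
  induction n with
  | zero => exact ⟨0, by simpa using hu⟩
  | succ n ih =>
    obtain ⟨k, w, hw⟩ := ih
    obtain ⟨a, ha⟩ := pw p hp h2 n
    have hp0 : (p : ℤ) ≠ 0 := by exact_mod_cast hp.ne_zero
    have h1 : u = (1 + (p : ℤ)) ^ k + (p : ℤ) ^ (n + 1) * w := by linarith
    -- `(1+p)^k ≡ 1` modulo `p`, so `j ≡ w` is enough
    obtain ⟨j, hj⟩ : ∃ j : ℕ, (p : ℤ) ∣ w - j := by
      refine ⟨(w % p).toNat, ?_⟩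
      have h3 : 0 ≤ w % (p : ℤ) := Int.emod_nonneg _ hp0
      rw [Int.toNat_of_nonneg h3]
      exact Int.dvd_self_sub_emod
    obtain ⟨b, hb⟩ := hj
    obtain ⟨q, hq⟩ := exp2 ((p : ℤ) ^ (n + 1) * (1 + p * a)) j
    obtain ⟨q', hq'⟩ := exp2 (p : ℤ) k
    refine ⟨k + p ^ n * j, ?_⟩
    have e1 : (1 + (p : ℤ)) ^ (k + p ^ n * j) = (1 + (p : ℤ)) ^ k * ((1 + (p : ℤ)) ^ p ^ n) ^ j := by
      rw [pow_add, pow_mul]
    rw [e1, ha, hq, h1]
    have hw' : w = j + p * b := by linarith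
    have hE : (1 + (p : ℤ)) ^ k = 1 + p * (k + p * q') := by rw [hq']; ring
    rw [hE, hw']
    refine ⟨b - j * a - (k + p * q') * j * (1 + p * a)
      - (1 + p * (k + p * q')) * p ^ n * (1 + p * a) ^ 2 * q, ?_⟩
    ring

end ZC

theorem ob_ZC : Ob_ZC := by
  intro p n z₀ hp h2 hz
  have iF : Fact p.Prime := ⟨hp⟩
  have hp0 : (p : ℤ) ≠ 0 := by exact_mod_cast hp.ne_zero
  have hpM : (p : ℤ) ∣ ((p ^ (n + 1) : ℕ) : ℤ) := by
    push_cast
    exact dvd_pow_self _ (Nat.succ_ne_zero n)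
  have h1p : 1 < p := hp.one_lt
  have hone := hz.one
  have hz0 : ¬ (p : ℤ) ∣ z₀ := by
    intro h
    have h3 : (p : ℤ) ∣ z₀ ^ (p - 1) := dvd_pow h (by omega)
    have h4 : (p : ℤ) ∣ 1 := by
      have h5 := dvd_sub h3 (hpM.trans hone)
      simpa using h5
    exact hp.one_lt.ne' (Nat.dvd_one.1 (by exact_mod_cast h4))
  have hodd : 2 * ((p - 1) / 2) = p - 1 := by
    have h3 : p % 2 = 1 := (hp.eq_two_or_odd).resolve_left h2
    omega
  refine ⟨hz0, ?_, ?_⟩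
  · -- the generator
    have hzu : IsUnit (z₀ : ZMod p) := by
      rw [isUnit_iff_ne_zero]
      intro h
      exact hz0 ((ZMod.intCast_zmod_eq_zero_iff_dvd z₀ p).1 h)
    obtain ⟨g, hg⟩ := hzu
    have hgen : ∀ x : (ZMod p)ˣ, x ∈ Subgroup.zpowers g := by
      intro x
      have h3 : ¬ (p : ℤ) ∣ (((x : ZMod p).val : ℕ) : ℤ) := by
        intro h
        have h4 := (ZMod.intCast_zmod_eq_zero_iff_dvd _ p).2 h
        push_cast at h4
        rw [ZMod.natCast_zmod_val] at h4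
        exact x.ne_zero h4
      obtain ⟨k, -, hk⟩ := hz.gen _ h3
      refine Subgroup.mem_zpowers_iff.2 ⟨k, ?_⟩
      ext
      have h4 := (ZMod.intCast_zmod_eq_zero_iff_dvd _ p).2 hk
      push_cast at h4
      rw [ZMod.natCast_zmod_val] at h4
      push_cast
      rw [zpow_natCast, hg]
      exact (sub_eq_zero.1 h4).symm
    have hord : orderOf g = p - 1 := by
      rw [orderOf_eq_card_of_forall_mem_zpowers hgen, Nat.card_eq_fintype_card, ZMod.card_units]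
    have hne : ¬ (p : ℤ) ∣ z₀ ^ ((p - 1) / 2) - 1 := by
      intro h
      have h4 := (ZMod.intCast_zmod_eq_zero_iff_dvd _ p).2 h
      push_cast at h4
      have h5 : g ^ ((p - 1) / 2) = 1 := by
        ext
        push_cast
        rw [hg]
        exact sub_eq_zero.1 h4
      have h6 := orderOf_dvd_of_pow_eq_one h5
      rw [hord] at h6
      have h7 := Nat.le_of_dvd (by omega) h6
      omega
    have hcop : IsCoprime ((p ^ (n + 1) : ℕ) : ℤ) (z₀ ^ ((p - 1) / 2) - 1) := by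
      push_cast
      refine IsCoprime.pow_left ?_
      exact (Prime.coprime_iff_not_dvd (Nat.prime_iff_prime_int.1 hp)).2 hne
    refine IsCoprime.dvd_of_dvd_mul_left hcop ?_
    have h8 : (z₀ ^ ((p - 1) / 2) - 1) * (z₀ ^ ((p - 1) / 2) + 1) = z₀ ^ (p - 1) - 1 := by
      have h9 : z₀ ^ (p - 1) = z₀ ^ ((p - 1) / 2) * z₀ ^ ((p - 1) / 2) := by
        rw [← pow_add]
        congr 1
        omega
      rw [h9]
      ring
    rw [h8]
    exact hone
  · intro c hc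
    obtain ⟨m, hm, hk⟩ := hz.gen c hc
    have hu : (p : ℤ) ∣ c * z₀ ^ (p - 1 - m) - 1 := by
      have h3 : c * z₀ ^ (p - 1 - m) - 1 =
          (c - z₀ ^ m) * z₀ ^ (p - 1 - m) + (z₀ ^ (p - 1) - 1) := by
        have h4 : z₀ ^ (p - 1) = z₀ ^ m * z₀ ^ (p - 1 - m) := by
          rw [← pow_add]
          congr 1
          omega
        rw [h4]
        ring
      rw [h3]
      exact dvd_add (hk.mul_right _) (hpM.trans hone)
    obtain ⟨k', hk'⟩ := ZC.ex p hp h2 _ hu n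
    refine ⟨m, k', ?_⟩
    have h3 : c - z₀ ^ m * (1 + (p : ℤ)) ^ k' =
        z₀ ^ m * (c * z₀ ^ (p - 1 - m) - (1 + (p : ℤ)) ^ k') - c * (z₀ ^ (p - 1) - 1) := by
      have h4 : z₀ ^ (p - 1) = z₀ ^ m * z₀ ^ (p - 1 - m) := by
        rw [← pow_add]
        congr 1
        omega
      rw [h4]
      ring
    rw [h3]
    refine dvd_sub (Dvd.dvd.mul_left ?_ _) (hone.mul_left _)
    push_cast
    exact hk'

end Pool.Agent.OT
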