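import Pool.Agent.OT.H2P
import Pool.Agent.OB.HN_DVN
import Pool.Agent.OB.HN_DVR
import Pool.Agent.OB.HN_TYP
import Pool.Agent.OB.HN_FAC

/-!
# OT, block H2 (helper3): the field `nd` of `HypT` from Theorem G and the divisibility theorems

`nd_un` (`p` unramified, DVN), `nd_ra` (`p` ramified, DVR): on some closed cycle of every level `Σ_b ζ^b Q(x + b/M)` (`ζ = ξ^c`) is larger than
`v p / v(1 - ξ)^(p^(n-2))`. PROOF. `y(b) = Q_t(∞, x + b/M)`, `Q_t = Q - Q(· + 1/p³)`; Theorem G for `Q_t` gives `v(y 0) ≥ 1`, and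
`Σ ζ^b y(b) = (1 - ζ^(-p^(n-2))) Σ ζ^b Q(∞, x + b/M)`.
-/

set_option autoImplicit false

namespace Pool.Agent.OT

open _root_.MU3 _root_.Pool.Agent.MU3A _root_.Pool.Agent.MU3B _root_.Pool.Agent.MUX
  _root_.Pool.Agent.MuSym _root_.Pool.Agent.OB _root_.Pool.Agent.OBH OnePoint

noncomputable section

namespace H2

open Finset

/-- `y(b) = Q(∞, x + b/M) - Q(∞, x + b/M + 1/p³)` -/
def yQ (p n : ℕ) (Q : OnePoint ℚ → OnePoint ℚ → ℂ) (x : ℚ) (b : ℤ) : ℂ :=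
  Q ∞ ((x + (b : ℚ) / (p : ℚ) ^ (n + 1) : ℚ) : OnePoint ℚ) -
    Q ∞ ((x + (b : ℚ) / (p : ℚ) ^ (n + 1) + 1 / (p : ℚ) ^ 3 : ℚ) : OnePoint ℚ)

variable {p n : ℕ} {V : ValuationSubring ℂ} {N : ℕ} {nu : ℤ → ℂ}
  {Q : OnePoint ℚ → OnePoint ℚ → ℂ} {ξ : ℂ}

theorem sym_perz (h : IsSym N nu Q) (h1 : nu 1 = 1) (x : ℚ) (t : ℤ) :
    Q ∞ ((x + t : ℚ) : OnePoint ℚ) = Q ∞ (x : OnePoint ℚ) := by
  have e := h.equiv 1 t 0 1 (by ring) (dvd_zero _) ∞ (x : OnePoint ℚ)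
  have h2 : mob 1 t 0 1 (x : OnePoint ℚ) = ((x + t : ℚ) : OnePoint ℚ) := by
    unfold mob
    rw [OnePoint.elim_some]
    simp
  rw [mob_inf_zero, h2, h1, one_mul] at e
  exact e

theorem yQ_per (hp : p.Prime) (h : IsSym N nu Q) (h1 : nu 1 = 1) (x : ℚ) (b c : ℤ)
    (hbc : (p : ℤ) ^ (n + 1) ∣ b - c) : yQ p n Q x b = yQ p n Q x c := by
  obtain ⟨t, ht⟩ := hbc
  have hq : ((p : ℚ) ^ (n + 1)) ≠ 0 := pow_ne_zero _ (by exact_mod_cast hp.ne_zero)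
  have e : (b : ℚ) / (p : ℚ) ^ (n + 1) = (c : ℚ) / (p : ℚ) ^ (n + 1) + t := by
    have : (b : ℚ) = c + (p : ℚ) ^ (n + 1) * t := by
      have : (b : ℤ) = c + (p : ℤ) ^ (n + 1) * t := by linear_combination ht
      exact_mod_cast this
    rw [this, add_div, mul_div_cancel_left₀ _ hq]
  unfold yQ
  rw [e]
  have e1 : x + ((c : ℚ) / (p : ℚ) ^ (n + 1) + t) = x + (c : ℚ) / (p : ℚ) ^ (n + 1) + t := by ring
  have e2 : x + ((c : ℚ) / (p : ℚ) ^ (n + 1) + t) + 1 / (p : ℚ) ^ 3 =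
      x + (c : ℚ) / (p : ℚ) ^ (n + 1) + 1 / (p : ℚ) ^ 3 + t := by ring
  rw [e2, e1, sym_perz h h1, sym_perz h h1]

/-- `x + (b + j p^n)/p^(n+1) = x + b/p^(n+1) + j/p` -/
theorem add_step (hp : p.Prime) (x : ℚ) (b : ℤ) (j : ℤ) :
    x + ((b + j * (p : ℤ) ^ n : ℤ) : ℚ) / (p : ℚ) ^ (n + 1) =
      x + (b : ℚ) / (p : ℚ) ^ (n + 1) + (j : ℚ) / p := by
  have hp0 : (p : ℚ) ≠ 0 := by exact_mod_cast hp.ne_zero
  have h3 : ((p : ℚ) ^ n) ≠ 0 := pow_ne_zero _ hp0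
  push_cast
  rw [pow_succ, add_div, add_assoc, mul_comm ((p : ℚ) ^ n) (p : ℚ), mul_div_mul_right _ _ h3]

/-- the sum of `y` -/
theorem yQ_sum (hp : p.Prime) (hn : 2 ≤ n) (h : IsSym N nu Q) (h1 : nu 1 = 1)
    (x : ℚ) (ζ : ℂ) (hζ : ζ ^ p ^ (n + 1) = 1) :
    ζ ^ p ^ (n - 2) * ∑ b ∈ range (p ^ (n + 1)), ζ ^ b * yQ p n Q x b =
      (ζ ^ p ^ (n - 2) - 1) * Yh (p ^ (n + 1)) ζ Q ∞ (x : OnePoint ℚ) := by
  have hM : p ^ (n + 1) ≠ 0 := pow_ne_zero _ hp.ne_zero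
  have hp0 : (p : ℚ) ≠ 0 := by exact_mod_cast hp.ne_zero
  have e1 := Yh_shift h h1 (p ^ (n + 1)) hM ζ hζ (x + 1 / (p : ℚ) ^ 3) (p ^ (n - 2))
  have e2 : x + 1 / (p : ℚ) ^ 3 - ((p ^ (n - 2) : ℕ) : ℚ) / ((p ^ (n + 1) : ℕ) : ℚ) = x := by
    obtain ⟨m, rfl⟩ : ∃ m, n = m + 2 := ⟨n - 2, by omega⟩
    have : m + 2 - 2 = m := by omega
    rw [this]
    push_cast
    have h4 : (p : ℚ) ^ (m + 2 + 1) = (p : ℚ) ^ m * (p : ℚ) ^ 3 := by ring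
    have h5 : (p : ℚ) ^ m ≠ 0 := pow_ne_zero _ hp0
    rw [h4, div_mul_eq_div_div, div_self h5]
    ring
  rw [e2] at e1
  have e3 : ∑ b ∈ range (p ^ (n + 1)), ζ ^ b * yQ p n Q x b =
      Yh (p ^ (n + 1)) ζ Q ∞ (x : OnePoint ℚ) -
        Yh (p ^ (n + 1)) ζ Q ∞ ((x + 1 / (p : ℚ) ^ 3 : ℚ) : OnePoint ℚ) := by
    rw [Yh_coe _ hM, Yh_coe _ hM, ← Finset.sum_sub_distrib]
    refine Finset.sum_congr rfl fun b _ => ?_
    unfold yQ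
    rw [mul_sub]
    push_cast
    congr 4
    ring
  rw [e3, mul_sub, ← e1]
  ring

/-- closed cycles from Theorem G -/
theorem closed_G {N₀ s₀ : ℕ} {pi : ℂ} {KI : Subfield ℂ} (H : HypQ p V N₀ s₀ nu Q pi KI)
    (N' : ℕ) (hN' : N' ≠ 0) (hNN : p ^ (s₀ + 1) * N₀ ∣ N') : ∃ (α β γ δ : ℤ) (x : ℚ),
      α * δ - β * γ = 1 ∧ (N' : ℤ) ∣ γ ∧ (N' : ℤ) ∣ δ - 1 ∧ mob α β γ δ ∞ = (x : OnePoint ℚ) ∧
      1 ≤ V.valuation (yQ p n Q x 0) := by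
  have hp0 : (p : ℚ) ≠ 0 := by exact_mod_cast H.pp.ne_zero
  obtain ⟨α, β, γ, δ, hdet, hγ, hδ, hv⟩ := H.G N' hN' hNN
  have hinf : mob ((p : ℤ) ^ 3) 1 0 ((p : ℤ) ^ 3) ∞ = ∞ := mob_inf_zero _ _ _
  have hpow : (p - 1) * p ^ 2 ≠ 0 := by
    have := H.pp.two_le
    exact (Nat.mul_pos (by omega) (pow_pos H.pp.pos _)).ne'
  have hγ0 : γ ≠ 0 := by
    rintro rfl
    rw [mob_inf_zero] at hv
    unfold PT at hv
    rw [hinf, sub_self, map_zero, zero_pow hpow] at hv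
    exact absurd hv (not_le.2 (L.pos_p H.pp))
  refine ⟨α, β, γ, δ, (α : ℚ) / γ, hdet, hγ, hδ, mob_inf_ne _ _ _ _ hγ0, ?_⟩
  rw [mob_inf_ne _ _ _ _ hγ0] at hv
  obtain ⟨x, hx⟩ : ∃ x : ℚ, x = (α : ℚ) / γ := ⟨_, rfl⟩
  rw [← hx] at hv ⊢
  have e : PT p Q ∞ (x : OnePoint ℚ) = yQ p n Q x 0 := by
    unfold PT yQ
    rw [hinf]
    have e1 : mob ((p : ℤ) ^ 3) 1 0 ((p : ℤ) ^ 3) (x : OnePoint ℚ) =
        ((x + 1 / (p : ℚ) ^ 3 : ℚ) : OnePoint ℚ) := by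
      have h3 : (p : ℚ) ^ 3 ≠ 0 := pow_ne_zero _ hp0
      unfold mob
      rw [OnePoint.elim_some, if_neg (by push_cast; simpa using H.pp.ne_zero)]
      congr 1
      push_cast
      rw [zero_mul, zero_add, add_div, mul_div_cancel_left₀ _ h3]
    rw [e1]
    simp
  rw [e] at hv
  obtain ⟨w, hw, ew⟩ : ∃ w ∈ KI, yQ p n Q x 0 = pi * w := by
    obtain ⟨w1, hw1, e1⟩ := H.typ ∞ ((x + ((0 : ℤ) : ℚ) / (p : ℚ) ^ (n + 1) : ℚ) : OnePoint ℚ)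
    obtain ⟨w2, hw2, e2⟩ := H.typ ∞
      ((x + ((0 : ℤ) : ℚ) / (p : ℚ) ^ (n + 1) + 1 / (p : ℚ) ^ 3 : ℚ) : OnePoint ℚ)
    refine ⟨w1 - w2, sub_mem hw1 hw2, ?_⟩
    unfold yQ
    rw [e1, e2]
    ring
  rw [ew] at hv ⊢
  exact H.gap w hw hv

theorem yQ_typ {N₀ s₀ : ℕ} {pi : ℂ} {KI : Subfield ℂ} (H : HypQ p V N₀ s₀ nu Q pi KI) (x : ℚ)
    (b : ℤ) : ∃ w ∈ KI, yQ p n Q x b = pi * w := by
  obtain ⟨w1, hw1, e1⟩ := H.typ ∞ ((x + (b : ℚ) / (p : ℚ) ^ (n + 1) : ℚ) : OnePoint ℚ)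
  obtain ⟨w2, hw2, e2⟩ := H.typ ∞
    ((x + (b : ℚ) / (p : ℚ) ^ (n + 1) + 1 / (p : ℚ) ^ 3 : ℚ) : OnePoint ℚ)
  refine ⟨w1 - w2, sub_mem hw1 hw2, ?_⟩
  unfold yQ
  rw [e1, e2]
  ring

theorem yQ_div {N₀ s₀ : ℕ} {pi : ℂ} {KI : Subfield ℂ} (H : HypQ p V N₀ s₀ nu Q pi KI) (x : ℚ)
    (b b' : ℤ) : yQ p n Q x b / yQ p n Q x b' ∈ KI := by
  obtain ⟨w, hw, e⟩ := yQ_typ (n := n) H x b
  obtain ⟨w', hw', e'⟩ := yQ_typ (n := n) H x b'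
  rw [e, e', mul_div_mul_left _ _ H.pi0]
  exact div_mem hw hw'

/-- from the sum of `y` to `Yh` -/
theorem final_step (hp : p.Prime) (hn : 2 ≤ n) (h : IsSym N nu Q) (h1 : nu 1 = 1)
    (hξ : IsPrimitiveRoot ξ (p ^ (n + 1))) (x : ℚ) (c : ℤ) (hc : ¬ (p : ℤ) ∣ c)
    (hv : V.valuation (p : ℂ) < V.valuation (∑ b ∈ range (p ^ (n + 1)), (ξ ^ c) ^ b *
      yQ p n Q x b)) :
    V.valuation (p : ℂ) < V.valuation (Yh (p ^ (n + 1)) (ξ ^ c) Q ∞ (x : OnePoint ℚ)) *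
      V.valuation (1 - ξ) ^ p ^ (n - 2) := by
  have hζ : (ξ ^ c) ^ p ^ (n + 1) = 1 := by
    rw [← zpow_natCast, ← zpow_mul, mul_comm, zpow_mul, zpow_natCast, hξ.pow_eq_one, one_zpow]
  have e := yQ_sum hp hn h h1 x (ξ ^ c) hζ
  have e2 : V.valuation ((ξ ^ c) ^ p ^ (n - 2) - 1) = V.valuation (1 - ξ) ^ p ^ (n - 2) := by
    rw [← neg_sub, Valuation.map_neg, ← L.val_one_sub hp hξ (n - 2) (by omega) c hc]
    congr 2
    rw [← zpow_natCast, ← zpow_mul]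
    push_cast
    rfl
  have e3 := congrArg V.valuation e
  rw [map_mul, map_mul, e2, map_pow, L.val_xi_zpow hp hξ, one_pow, one_mul, mul_comm] at e3
  rw [← e3]
  exact hv

end H2

open H2 in
/-- `p` unramified -/
theorem nd_un (p : ℕ) (V : ValuationSubring ℂ) (N₀ s₀ q' i : ℕ) (nu : ℤ → ℂ)
    (Q : OnePoint ℚ → OnePoint ℚ → ℂ) (pi : ℂ) (KI : Subfield ℂ)
    (H : HypQ p V N₀ s₀ nu Q pi KI)
    (hQd : ∀ x : ℚ, ∑ j ∈ Finset.range p, Q ∞ (((x + j) / p : ℚ) : OnePoint ℚ) = 0)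
    (hunr : ∀ w ∈ KI, V.valuation w < 1 → V.valuation w ≤ V.valuation (p : ℂ))
    (hq1 : q' ≤ i * (p - 1)) (hq2 : i < q') (hq3 : q' < (p - 1) * p ^ 2)
    (hvpi : V.valuation pi ^ q' * V.valuation (p : ℂ) ^ i = 1)
    (n : ℕ) (hn : 2 ≤ n) (ξ : ℂ) (hξ : IsPrimitiveRoot ξ (p ^ (n + 1)))
    (N' : ℕ) (hN' : N' ≠ 0) (hNN : p ^ (s₀ + 1) * N₀ ∣ N') : ∃ α β γ δ c : ℤ,
      α * δ - β * γ = 1 ∧ (N' : ℤ) ∣ γ ∧ (N' : ℤ) ∣ δ - 1 ∧ ¬ (p : ℤ) ∣ c ∧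
      V.valuation (p : ℂ) < V.valuation (Yh (p ^ (n + 1)) (ξ ^ c) Q ∞ (mob α β γ δ ∞)) *
        V.valuation (1 - ξ) ^ p ^ (n - 2) := by
  have hp := H.pp
  have hp0 : (p : ℚ) ≠ 0 := by exact_mod_cast hp.ne_zero
  obtain ⟨α, β, γ, δ, x, hdet, hγ, hδ, hx, hy⟩ := closed_G (n := n) H N' hN' hNN
  have h1c : ¬ (p : ℤ) ∣ 1 := fun h => by
    have := Int.le_of_dvd (by norm_num) h
    have := hp.two_le
    omega
  refine ⟨α, β, γ, δ, 1, hdet, hγ, hδ, h1c, ?_⟩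
  rw [hx]
  refine final_step hp hn H.sym H.nu1 hξ x 1 h1c ?_
  rw [zpow_one]
  refine to_DVN p hp H.p2 V H.vp KI hunr n (fun b => yQ p n Q x b)
    (fun b c hbc => yQ_per hp H.sym H.nu1 x b c hbc) ?_ (fun b b' _ => yQ_div H x b b') 0 ?_ ξ hξ
  · intro b
    have hz : ∀ x' : ℚ, ∑ j ∈ Finset.range p,
        Q ∞ ((x' + (j : ℚ) / p : ℚ) : OnePoint ℚ) = 0 := by
      intro x'
      rw [← hQd (p * x')]
      refine Finset.sum_congr rfl fun j _ => ?_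
      congr 2
      rw [add_div, mul_div_cancel_left₀ _ hp0]
    simp only [yQ]
    rw [Finset.sum_sub_distrib]
    have e1 := hz (x + (b : ℚ) / (p : ℚ) ^ (n + 1))
    have e2 := hz (x + (b : ℚ) / (p : ℚ) ^ (n + 1) + 1 / (p : ℚ) ^ 3)
    have e3 : ∀ j : ℕ, x + ((b + j * (p : ℤ) ^ n : ℤ) : ℚ) / (p : ℚ) ^ (n + 1) =
        x + (b : ℚ) / (p : ℚ) ^ (n + 1) + (j : ℚ) / p := by
      intro j
      have := add_step (n := n) hp x b j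
      rw [this]
      push_cast
      rfl
    have e4 : ∀ j : ℕ, x + (b : ℚ) / (p : ℚ) ^ (n + 1) + (j : ℚ) / p + 1 / (p : ℚ) ^ 3 =
        x + (b : ℚ) / (p : ℚ) ^ (n + 1) + 1 / (p : ℚ) ^ 3 + (j : ℚ) / p := fun j => by ring
    simp_rw [e3, e4]
    rw [e1, e2, sub_zero]
  · obtain ⟨w, hw, e⟩ := yQ_typ (n := n) H x 0
    rw [e] at hy ⊢
    exact (to_TYP p hp V H.vp KI 1 q' i le_rfl hq2 (by rwa [one_mul]) (by rwa [one_mul])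
      (fun w hw hw1 => by rw [pow_one]; exact hunr w hw hw1) pi (by rwa [one_mul]) w hw).2 hy

open H2 in
/-- `p` ramified -/
theorem nd_ra (p : ℕ) (V : ValuationSubring ℂ) (N₀ s₀ i : ℕ) (nu : ℤ → ℂ)
    (Q : OnePoint ℚ → OnePoint ℚ → ℂ) (pi : ℂ) (KI : Subfield ℂ) (om : ℂ)
    (H : HypQ p V N₀ s₀ nu Q pi KI) (hom : IsPrimitiveRoot om p)
    (hrel : ∀ x : ℚ, ∑ j ∈ Finset.range p, (jacobiSym (j : ℤ) p : ℂ) *
      Q ∞ ((x + (j : ℚ) / p : ℚ) : OnePoint ℚ) =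
      (∑ j ∈ Finset.range p, (jacobiSym (j : ℤ) p : ℂ) * om ^ j) * Q ∞ (x : OnePoint ℚ))
    (hunr : ∀ w ∈ KI, V.valuation w < 1 → V.valuation w ^ 2 ≤ V.valuation (p : ℂ))
    (hi1 : 2 ≤ i) (hi2 : i < p - 1)
    (hvpi : V.valuation pi ^ (2 * (p - 1)) * V.valuation (p : ℂ) ^ i = 1)
    (n : ℕ) (hn : 2 ≤ n) (ξ : ℂ) (hξ : IsPrimitiveRoot ξ (p ^ (n + 1)))
    (N' : ℕ) (hN' : N' ≠ 0) (hNN : p ^ (s₀ + 1) * N₀ ∣ N') : ∃ α β γ δ c : ℤ,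
      α * δ - β * γ = 1 ∧ (N' : ℤ) ∣ γ ∧ (N' : ℤ) ∣ δ - 1 ∧ ¬ (p : ℤ) ∣ c ∧
      V.valuation (p : ℂ) < V.valuation (Yh (p ^ (n + 1)) (ξ ^ c) Q ∞ (mob α β γ δ ∞)) *
        V.valuation (1 - ξ) ^ p ^ (n - 2) := by
  have hp := H.pp
  have hp0 : (p : ℚ) ≠ 0 := by exact_mod_cast hp.ne_zero
  have hp3 : 3 ≤ p := by
    have := hp.two_le
    have := H.p2
    omega
  obtain ⟨α, β, γ, δ, x, hdet, hγ, hδ, hx, hy⟩ := closed_G (n := n) H N' hN' hNN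
  -- the Gauss sum
  obtain ⟨G, hG⟩ : ∃ G : ℂ, G = ∑ j ∈ Finset.range p, (jacobiSym (j : ℤ) p : ℂ) * om ^ j :=
    ⟨_, rfl⟩
  rw [← hG] at hrel
  have hGK : G ∈ KI := by
    obtain ⟨x', hx'⟩ : ∃ x : ℚ, Q ∞ (x : OnePoint ℚ) ≠ 0 := by
      by_contra hcon
      push Not at hcon
      have e : yQ p n Q x 0 = 0 := by
        unfold yQ
        rw [hcon, hcon, sub_zero]
      rw [e, map_zero] at hy
      exact absurd hy (not_le.2 zero_lt_one)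
    have ht := hrel x'
    obtain ⟨w, hw, ew⟩ := H.typ ∞ (x' : OnePoint ℚ)
    have hw' : ∀ j : ℕ, ∃ w ∈ KI, Q ∞ ((x' + (j : ℚ) / p : ℚ) : OnePoint ℚ) = pi * w :=
      fun j => H.typ _ _
    choose w' hwK ew' using hw'
    have e2 : ∑ j ∈ Finset.range p, (jacobiSym (j : ℤ) p : ℂ) *
        Q ∞ ((x' + (j : ℚ) / p : ℚ) : OnePoint ℚ) =
        pi * ∑ j ∈ Finset.range p, (jacobiSym (j : ℤ) p : ℂ) * w' j := by
      rw [Finset.mul_sum]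
      refine Finset.sum_congr rfl fun j _ => ?_
      rw [ew']
      ring
    rw [e2, ew] at ht
    have hw0 : w ≠ 0 := by
      rintro rfl
      rw [ew, mul_zero] at hx'
      exact hx' rfl
    have e3 : G = (∑ j ∈ Finset.range p, (jacobiSym (j : ℤ) p : ℂ) * w' j) / w := by
      rw [eq_div_iff hw0]
      refine mul_left_cancel₀ H.pi0 ?_
      linear_combination -ht
    rw [e3]
    exact div_mem (sum_mem fun j _ => mul_mem (intCast_mem KI _) (hwK j)) hw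
  obtain ⟨F, Hh, hF, hH, hFK, hHK, hdeg, hFH, hFe, hFf⟩ := to_FAC p hp H.p2 om hom KI (hG ▸ hGK)
  -- the index `c`
  obtain ⟨c, hc, hco⟩ : ∃ c : ℤ, ¬ (p : ℤ) ∣ c ∧ (ξ ^ c) ^ p ^ n = om⁻¹ := by
    have h1 : IsPrimitiveRoot (ξ ^ p ^ n) p := by
      refine hξ.pow (pow_pos hp.pos _) ?_
      rw [pow_succ]
    have h2 : IsPrimitiveRoot (om⁻¹) p := hom.inv
    have : NeZero p := ⟨hp.ne_zero⟩
    obtain ⟨i, _, hi2, hi⟩ := (h1.isPrimitiveRoot_iff).1 h2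
    refine ⟨i, ?_, ?_⟩
    · intro h
      have h3 : p ∣ i := by exact_mod_cast h
      have h4 : p ∣ Nat.gcd i p := Nat.dvd_gcd h3 dvd_rfl
      rw [hi2] at h4
      exact hp.one_lt.ne' (Nat.dvd_one.1 h4)
    · rw [zpow_natCast, ← pow_mul, mul_comm, pow_mul]
      exact hi
  have hξc : IsPrimitiveRoot (ξ ^ c) (p ^ (n + 1)) := by
    refine hξ.zpow_of_gcd_eq_one c ?_
    have h3 : IsCoprime c ((p ^ (n + 1) : ℕ) : ℤ) := by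
      push_cast
      refine IsCoprime.pow_right ?_
      exact ((Prime.coprime_iff_not_dvd (Nat.prime_iff_prime_int.1 hp)).2 hc).symm
    exact Int.isCoprime_iff_gcd_eq_one.1 h3
  refine ⟨α, β, γ, δ, c, hdet, hγ, hδ, hc, ?_⟩
  rw [hx]
  refine final_step hp hn H.sym H.nu1 hξ x c hc ?_
  have hYrel : ∀ b : ℤ, ∑ j ∈ Finset.range p, (jacobiSym (j : ℤ) p : ℂ) *
      yQ p n Q x (b + j * (p : ℤ) ^ n) = G * yQ p n Q x b := by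
    intro b
    have e1 := hrel (x + (b : ℚ) / (p : ℚ) ^ (n + 1))
    have e2 := hrel (x + (b : ℚ) / (p : ℚ) ^ (n + 1) + 1 / (p : ℚ) ^ 3)
    have e3 : ∀ j : ℕ, x + ((b + j * (p : ℤ) ^ n : ℤ) : ℚ) / (p : ℚ) ^ (n + 1) =
        x + (b : ℚ) / (p : ℚ) ^ (n + 1) + (j : ℚ) / p := by
      intro j
      have := add_step (n := n) hp x b j
      rw [this]
      push_cast
      rfl
    have e4 : ∀ j : ℕ, x + (b : ℚ) / (p : ℚ) ^ (n + 1) + (j : ℚ) / p + 1 / (p : ℚ) ^ 3 =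
        x + (b : ℚ) / (p : ℚ) ^ (n + 1) + 1 / (p : ℚ) ^ 3 + (j : ℚ) / p := fun j => by ring
    simp only [yQ]
    simp_rw [e3, e4, mul_sub]
    rw [Finset.sum_sub_distrib, e1, e2]
  have hYF : ∀ b : ℤ, ∑ l ∈ Finset.range p, F.coeff l *
      yQ p n Q x (b - l * (p : ℤ) ^ n) = 0 := by
    intro b
    have h5 := hFf (fun l => yQ p n Q x (b + l * (p : ℤ) ^ n)) (by
      rintro l l' ⟨t, ht⟩
      apply yQ_per hp H.sym H.nu1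
      refine ⟨t, ?_⟩
      have : l = l' + p * t := by linear_combination ht
      rw [this]
      ring) (by
      intro b'
      have h6 := hYrel (b + b' * (p : ℤ) ^ n)
      rw [← hG, ← h6]
      refine Finset.sum_congr rfl fun j _ => ?_
      have e : b + (b' + (j : ℤ)) * (p : ℤ) ^ n = b + b' * (p : ℤ) ^ n + j * (p : ℤ) ^ n := by ring
      rw [e]) 0
    rw [← h5]
    refine Finset.sum_congr rfl fun l _ => ?_
    have e : b + (0 - (l : ℤ)) * (p : ℤ) ^ n = b - l * (p : ℤ) ^ n := by ring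
    rw [e]
  have hpp : 0 < p - 1 := by omega
  have hb : 1 ≤ V.valuation (yQ p n Q x 0) ^ (p - 1) * V.valuation (p : ℂ) := by
    obtain ⟨w, hw, ew⟩ := yQ_typ (n := n) H x 0
    have h5 := to_TYP p hp V H.vp KI 2 (p - 1) i (by norm_num) hi2
      (Nat.mul_le_mul_right _ hi1) (by
        rw [mul_comm]
        exact Nat.mul_lt_mul_of_pos_left (by nlinarith) hpp) hunr pi hvpi w hw
    rw [← ew] at h5
    exact h5.2 hy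
  refine to_DVR p hp H.p2 V H.vp KI hunr n (fun b => yQ p n Q x b)
    (fun b c hbc => yQ_per hp H.sym H.nu1 x b c hbc) F Hh hF hH hFK hHK hdeg hFH hYF
    (fun b b' _ => yQ_div H x b b') 0 hb (ξ ^ c) hξc ?_
  rw [hco]
  exact hFe

end

end Pool.Agent.OT
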