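import Pool.Agent.OT.StH
import Pool.Agent.OT.H2Y

/-!
# OT, block H, module NDN (helper3); `b_NDR` is the same for `p` ramified
-/

set_option autoImplicit false

namespace Pool.Agent.OTH

open Pool.Agent.OT

theorem h_NDN : S_NDN := by
  intro p V N₀ s₀ q' i nu Q pi KI H hQd hunr hq1 hq2 hq3 hvpi n hn ξ hξ N' hN' hNN
  exact nd_un p V N₀ s₀ q' i nu Q pi KI H hQd hunr hq1 hq2 hq3 hvpi n hn ξ hξ N' hN' hNN

theorem b_NDR : S_NDR := by
  intro p V N₀ s₀ i nu Q pi KI om H hom hrel hunr hi1 hi2 hvpi n hn ξ hξ N' hN' hNN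
  exact nd_ra p V N₀ s₀ i nu Q pi KI om H hom hrel hunr hi1 hi2 hvpi n hn ξ hξ N' hN' hNN

end Pool.Agent.OTH
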