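import Pool.Agent.OT.StHB

/-!
# OT, block HB: the hypotheses of the abstract theorem (module HT, helper52)
-/

set_option autoImplicit false

namespace Pool.Agent.OT

open _root_.MU3 _root_.Pool.Agent.MU3A _root_.Pool.Agent.MU3B _root_.Pool.Agent.MU3F
  _root_.Pool.Agent.MUX _root_.Pool.Agent.MuSym _root_.Pool.Agent.OB _root_.Pool.Agent.OBH OnePoint

noncomputable section

namespace HT

lemma sq_m1 {p q : ℕ} {t : ℤ → ℂ} (ht : IsTw p q t) : t (-1) = 1 ∨ t (-1) = -1 := by
  have h : t (-1) * t (-1) = 1 := by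
    rw [← ht.mul, neg_mul_neg, one_mul, ht.one]
  exact mul_self_eq_one_iff.1 h

lemma alg_root {r : ℕ} (hr : r ≠ 0) {z : ℂ} (hz : z = 0 ∨ z ^ r = 1) : IsAlgebraic ℚ z := by
  rcases hz with rfl | hz
  · exact isAlgebraic_zero
  · exact (IsIntegral.of_pow (Nat.pos_of_ne_zero hr) (by rw [hz]; exact isIntegral_one)).isAlgebraic

end HT

open HT in
/-- (HT) the hypotheses of the abstract theorem -/
theorem ob_HT (h1 : Ob_ND) (h2 : Ob_HT1) (h3 : Ob_HT2) (h4 : Ob_HT3) (h5 : So_RAM) (h6 : So_VAL)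
    (h7 : So_CHR) (h8 : So_UAL) : Ob_HT := by
  intro p er A B P V f hS hT ι _ R u el lam hg w hw e he r hrp her i hi1 hi2 hty t ht kk hkk l hl
    hlf n hn z₀ hz ξ hξ
  have hr0 : r ≠ 0 := by
    rintro rfl
    exact hrp (dvd_zero p)
  have pp : p.Prime := hS.pp
  have p5 : 5 ≤ p := hS.p5
  have p2 : p ≠ 2 := by omega
  obtain ⟨vp, -, -, -, -, -, -, -, -, -, hN0, -, -, -⟩ := h6 p er A B P V f hS
  obtain ⟨hnu1, -, hnuper, hnuv⟩ := h7 p er A B P V f hS e he r hr0 her
  obtain ⟨r1, -, -⟩ := h5 p er A B P V hS.toCaseO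
  have hs := sq_m1 ht
  have hua : IsAlgebraic ℚ u := h8 A B hS.cq hT (p * f) ι R V u el lam hg
  obtain ⟨hsym, halg, hbdd⟩ := h2 p er A B P V f hS hT ι R e he r hr0 her kk hkk u hg.u0 hua
    (t (-1)) hs z₀
  obtain ⟨hneg, hperk⟩ := h3 p er n z₀ pp p2 hz A B (p * f) ι R e kk (t (-1)) u hs
  refine
    { pp := pp
      p5 := p5
      vp := vp
      n5 := hn
      N0 := mul_ne_zero (pow_ne_zero _ pp.ne_zero) hN0
      nu1 := hnu1
      nuv := hnuv
      nua := ?_
      nuper := ?_
      s1 := hs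
      z0 := hz
      tw := ⟨nI P - 1, ?_, ht⟩
      ts := rfl
      xi := hξ
      sym := hsym
      alg := halg
      bdd := hbdd
      neg := hneg
      perk := hperk
      dep := fun k x => h4 A B hS.cq p er f l pp.ne_zero hS.f0 hl hlf ι R e he kk (t (-1)) u z₀ k x
      nd := h1 p er A B P V f hS hT ι R u el lam hg w hw e he r hrp her i hi1 hi2 hty (t (-1)) hs kk
        hkk z₀ n (by omega) ξ hξ }
  · intro d
    unfold nuX
    refine IsAlgebraic.mul ?_ (alg_root hr0 ?_)
    · exact isAlgebraic_intCast _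
    · by_cases h : e (d : OO A B) = 0
      · exact Or.inl h
      · exact Or.inr (her _ h)
  · intro d d' h
    refine hnuper d d' (dvd_trans ?_ h)
    rw [Int.natCast_dvd_natCast]
    exact Nat.mul_dvd_mul_right (dvd_pow_self p (by omega)) (N0O p er A B f)
  · intro h
    have h9 : p ∣ nI P := by
      rcases r1 with h' | h'
      · rw [h']
      · rw [h']
        exact dvd_pow_self p two_ne_zero
    have h10 : 1 ≤ nI P := by
      rcases r1 with h' | h'
      · rw [h']
        exact pp.one_lt.le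
      · rw [h']
        exact Nat.one_le_pow _ _ pp.pos
    have h11 := (Nat.dvd_sub_iff_right h10 h9).1 h
    exact pp.one_lt.ne' (Nat.dvd_one.1 h11)

end

end Pool.Agent.OT
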