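import Pool.Agent.OT.StHB
import Pool.Agent.OB.HB_SAF
import Pool.Agent.OB.HB_VAL
import Pool.Agent.OB.HB_RAM
import Pool.Agent.OB.HN_BDN
import Pool.Agent.MUX.HX_HK

/-!
# OT, block HB, module HT1 (helper53): the symbols `QT` are symbols, algebraic, bounded

No hypothesis: `to_SAF`, `to_VAL`, `to_RAM`, `to_BDN` are used. The weights `kkE er p R kk d` are the restriction of `kk` to
a subset of `ι`, so there are only finitely many families.
-/

set_option autoImplicit false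

namespace Pool.Agent.OT

open _root_.MU3 _root_.Pool.Agent.MU3A _root_.Pool.Agent.MU3B _root_.Pool.Agent.MU3F
  _root_.Pool.Agent.MUX _root_.Pool.Agent.MUXH _root_.Pool.Agent.MuSym _root_.Pool.Agent.OB
  _root_.Pool.Agent.OBH OnePoint

noncomputable section

namespace HT1

/-- the symbol `ι^* P` -/
theorem isSym_neg {N : ℕ} {nu : ℤ → ℂ} {P : OnePoint ℚ → OnePoint ℚ → ℂ} (h : IsSym N nu P) :
    IsSym N nu (fun x y => P (mob (-1) 0 0 1 x) (mob (-1) 0 0 1 y)) := by
  constructor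
  · intro x y z
    exact h.add _ _ _
  · intro a b c d hd hc x y
    show P (mob (-1) 0 0 1 (mob a b c d x)) (mob (-1) 0 0 1 (mob a b c d y)) = _
    rw [Hk.mob_conj, Hk.mob_conj]
    exact h.equiv a (-b) (-c) d (by linear_combination hd) (hc.neg_right) _ _

theorem isSym_add {N : ℕ} {nu : ℤ → ℂ} {P Q : OnePoint ℚ → OnePoint ℚ → ℂ} (h : IsSym N nu P)
    (h' : IsSym N nu Q) (s : ℂ) : IsSym N nu (fun x y => P x y + s * Q x y) := by
  constructor
  · intro x y z
    rw [← h.add x y z, ← h'.add x y z]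
    ring
  · intro a b c d hd hc x y
    show P (mob a b c d x) (mob a b c d y) + s * Q (mob a b c d x) (mob a b c d y) = _
    rw [h.equiv a b c d hd hc, h'.equiv a b c d hd hc]
    ring

/-- the weights are a restriction of `kk` -/
theorem kkE_eq {A B : ℤ} {n : ℕ} {ι : Type} (er p : ℕ) (R : Reps A B n ι) (kk : ι → ℂ)
    (d : ℤ) : kkE er p R kk d =
      Set.indicator {i | er = 1 ∨ jacobiSym (d * (nI (R.b i) : ℤ)) p = 1} kk := by
  classical
  funext i
  rw [Set.indicator_apply]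
  unfold kkE
  by_cases h1 : er = 1
  · rw [if_pos h1, if_pos (show i ∈ {i | er = 1 ∨ jacobiSym (d * (nI (R.b i) : ℤ)) p = 1} from
      Or.inl h1)]
  · rw [if_neg h1]
    unfold kkJ
    by_cases h2 : jacobiSym (d * (nI (R.b i) : ℤ)) p = 1
    · rw [if_pos h2, if_pos (show i ∈ {i | er = 1 ∨ jacobiSym (d * (nI (R.b i) : ℤ)) p = 1} from
        Or.inr h2)]
    · rw [if_neg h2, if_neg (show i ∉ {i | er = 1 ∨ jacobiSym (d * (nI (R.b i) : ℤ)) p = 1} from
        fun h => h.elim h1 h2)]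

theorem QT_eq {A B : ℤ} {n : ℕ} {ι : Type} [Fintype ι] (er p : ℕ) (R : Reps A B n ι)
    (e : OO A B → ℂ) (kk : ι → ℂ) (s u : ℂ) (z₀ : ℤ) (k : ℕ) (x y : OnePoint ℚ) :
    QT er p R e kk s u z₀ k x y =
      PhiK R e (kkE er p R kk (z₀ ^ k)) x y / (u * R.om R.i0) +
      s * (PhiK R e (kkE er p R kk (-z₀ ^ k)) (mob (-1) 0 0 1 x) (mob (-1) 0 0 1 y) /
        (u * R.om R.i0)) := by
  unfold QT
  rw [add_div, mul_div_assoc]

theorem mono (V : ValuationSubring ℂ) (p : ℕ) (vp : V.valuation (p : ℂ) ≤ 1) (K K' : ℕ)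
    (h : K' ≤ K) (z : ℂ) (hz : V.valuation ((p : ℂ) ^ K' * z) ≤ 1) :
    V.valuation ((p : ℂ) ^ K * z) ≤ 1 := by
  obtain ⟨m, rfl⟩ := Nat.exists_eq_add_of_le h
  rw [show (p : ℂ) ^ (K' + m) * z = (p : ℂ) ^ m * ((p : ℂ) ^ K' * z) by rw [pow_add]; ring,
    map_mul, map_pow]
  exact mul_le_one' (pow_le_one' vp m) hz

end HT1

/-- (HT1) symbols, algebraic, bounded -/
theorem ob_HT1 : Ob_HT1 := by
  intro p er A B P V f hS hT ι _ R e he r hr0 her kk hkk u hu hua s hs z₀
  have h2 : So_VAL := to_VAL to_RAM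
  have h6 : So_SAF := to_SAF h2
  have hpp : p.Prime := hS.pp
  obtain ⟨vp, vZ, -⟩ := h2 p er A B P V f hS
  have hk0 : ∀ (S : Set ι) (j : ι), S.indicator kk j = 0 ∨ S.indicator kk j ^ r = 1 := by
    intro S j
    by_cases hj : j ∈ S
    · rw [Set.indicator_of_mem hj]
      exact Or.inr (hkk j)
    · rw [Set.indicator_of_notMem hj]
      exact Or.inl rfl
  have key := fun S : Set ι => h6 p er A B P V f hS hT ι R e he r hr0 her (S.indicator kk)
    (hk0 S) u hu hua
  have bd : ∀ S : Set ι, ∃ K : ℕ, ∀ x y,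
      V.valuation ((p : ℂ) ^ K * (PhiK R e (S.indicator kk) x y / (u * R.om R.i0))) ≤ 1 :=
    fun S => to_BDN p hpp V vp _ (key S).2.1 (key S).2.2
  choose K' hK' using bd
  obtain ⟨K, hK⟩ := (Set.finite_range K').bddAbove
  have hK1 : ∀ S : Set ι, K' S ≤ K := fun S => hK (Set.mem_range_self S)
  have sA : IsAlgebraic ℚ s := by
    rcases hs with rfl | rfl
    · exact isAlgebraic_one
    · exact isAlgebraic_one.neg
  have sv : V.valuation s ≤ 1 := by
    rcases hs with rfl | rfl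
    · rw [map_one]
    · rw [Valuation.map_neg, map_one]
  refine ⟨fun k => ?_, fun k x y => ?_, K, fun k x y => ?_⟩
  · have h9 := HT1.isSym_add (key {i | er = 1 ∨ jacobiSym (z₀ ^ k * (nI (R.b i) : ℤ)) p = 1}).1
      (HT1.isSym_neg (key {i | er = 1 ∨ jacobiSym (-z₀ ^ k * (nI (R.b i) : ℤ)) p = 1}).1) s
    have h12 : (fun x y => (fun x y => PhiK R e
          (Set.indicator {i | er = 1 ∨ jacobiSym (z₀ ^ k * (nI (R.b i) : ℤ)) p = 1} kk) x y /
            (u * R.om R.i0)) x y +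
          s * (fun x y => (fun x y => PhiK R e
            (Set.indicator {i | er = 1 ∨ jacobiSym (-z₀ ^ k * (nI (R.b i) : ℤ)) p = 1} kk) x y /
            (u * R.om R.i0)) (mob (-1) 0 0 1 x) (mob (-1) 0 0 1 y)) x y) =
        QT er p R e kk s u z₀ k := by
      funext x y
      rw [HT1.QT_eq, HT1.kkE_eq, HT1.kkE_eq]
    rw [← h12]
    exact h9
  · rw [HT1.QT_eq, HT1.kkE_eq, HT1.kkE_eq]
    exact ((key _).2.1 x y).add (sA.mul ((key _).2.1 _ _))
  · rw [HT1.QT_eq, HT1.kkE_eq, HT1.kkE_eq, mul_add]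
    refine (Valuation.map_add V.valuation _ _).trans (max_le ?_ ?_)
    · exact HT1.mono V p vp.le K _ (hK1 _) _ (hK' _ x y)
    · rw [mul_left_comm, map_mul]
      exact mul_le_one' sv (HT1.mono V p vp.le K _ (hK1 _) _ (hK' _ _ _))

end

end Pool.Agent.OT
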