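import Pool.Agent.OT.StHB

/-!
# OT, block HB, module HT2 (helper22): `ι^*` and the period in `k`
-/

set_option autoImplicit false

namespace Pool.Agent.OT

open _root_.MU3 _root_.Pool.Agent.MU3A _root_.Pool.Agent.MU3B _root_.Pool.Agent.MU3F
  _root_.Pool.Agent.MUX _root_.Pool.Agent.MuSym _root_.Pool.Agent.OB _root_.Pool.Agent.OBH OnePoint

noncomputable section

namespace HT2

/-- the involution -/
theorem mob_mob (x : OnePoint ℚ) : mob (-1) 0 0 1 (mob (-1) 0 0 1 x) = x := by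
  induction x using OnePoint.rec with
  | infty =>
    have h : mob (-1) 0 0 1 (∞ : OnePoint ℚ) = ∞ := by
      unfold mob
      rw [OnePoint.elim_infty]
      simp
    rw [h, h]
  | coe r =>
    have h : ∀ y : ℚ, mob (-1) 0 0 1 (y : OnePoint ℚ) = ((-y : ℚ) : OnePoint ℚ) := by
      intro y
      unfold mob
      rw [OnePoint.elim_some]
      simp
    rw [h, h, neg_neg]

/-- the weights depend only on `d` modulo `p` -/
theorem kkE_congr {A B : ℤ} {n : ℕ} {ι : Type} (er p : ℕ) (R : Reps A B n ι) (kk : ι → ℂ)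
    {d d' : ℤ} (h : (p : ℤ) ∣ d - d') : kkE er p R kk d = kkE er p R kk d' := by
  unfold kkE
  split_ifs with h1
  · rfl
  · funext i
    unfold kkJ
    have h2 : (d * (nI (R.b i) : ℤ)) % (p : ℤ) = (d' * (nI (R.b i) : ℤ)) % (p : ℤ) := by
      apply Int.ModEq.mul_right
      exact (Int.modEq_iff_dvd.2 (by
        obtain ⟨c, hc⟩ := h
        exact ⟨-c, by linear_combination -hc⟩))
    have h3 : jacobiSym (d * (nI (R.b i) : ℤ)) p = jacobiSym (d' * (nI (R.b i) : ℤ)) p :=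
      jacobiSym.mod_left' h2
    rw [h3]

end HT2

open HT2 in
/-- (HT2) `ι^*` and the period in `k` -/
theorem ob_HT2 (hZC : Ob_ZC) : Ob_HT2 := by
  intro p er n z₀ hp hp2 hz A B n' ι _ R e kk s u hs
  obtain ⟨-, h2, -⟩ := hZC p n z₀ hp hp2 hz
  have hpM : (p : ℤ) ∣ ((p ^ (n + 1) : ℕ) : ℤ) := by
    rw [Nat.cast_pow]
    exact dvd_pow_self _ (Nat.succ_ne_zero n)
  have h3 : (p : ℤ) ∣ z₀ ^ ((p - 1) / 2) + 1 := hpM.trans h2
  have h4 : (p : ℤ) ∣ z₀ ^ (p - 1) - 1 := hpM.trans hz.one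
  have hs2 : s * s = 1 := by rcases hs with rfl | rfl <;> norm_num
  refine ⟨fun k x y => ?_, fun k => ?_⟩
  · have e1 : kkE er p R kk (z₀ ^ (k + (p - 1) / 2)) = kkE er p R kk (-z₀ ^ k) :=
      kkE_congr er p R kk (by
        rw [pow_add]
        exact (h3.mul_left (z₀ ^ k)).trans (dvd_of_eq (by ring)))
    have e2 : kkE er p R kk (-z₀ ^ (k + (p - 1) / 2)) = kkE er p R kk (z₀ ^ k) :=
      kkE_congr er p R kk (by
        rw [pow_add]
        exact (h3.mul_left (-z₀ ^ k)).trans (dvd_of_eq (by ring)))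
    unfold QT
    rw [e1, e2, mob_mob, mob_mob]
    linear_combination (-(PhiK R e (kkE er p R kk (z₀ ^ k)) (mob (-1) 0 0 1 x)
      (mob (-1) 0 0 1 y) / (u * R.om R.i0))) * hs2
  · have e1 : kkE er p R kk (z₀ ^ (k + (p - 1))) = kkE er p R kk (z₀ ^ k) :=
      kkE_congr er p R kk (by
        rw [pow_add]
        exact (h4.mul_left (z₀ ^ k)).trans (dvd_of_eq (by ring)))
    have e2 : kkE er p R kk (-z₀ ^ (k + (p - 1))) = kkE er p R kk (-z₀ ^ k) :=
      kkE_congr er p R kk (by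
        rw [pow_add]
        exact (h4.mul_left (-z₀ ^ k)).trans (dvd_of_eq (by ring)))
    funext x y
    unfold QT
    rw [e1, e2]

end

end Pool.Agent.OT
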