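import Pool.Agent.OT.StHB
import Pool.Agent.TWB.DPL

/-!
# OT, block HB, module HT3 (helper22): depletion at `l`
-/

set_option autoImplicit false

namespace Pool.Agent.OT

open _root_.MU3 _root_.Pool.Agent.MU3A _root_.Pool.Agent.MU3B _root_.Pool.Agent.MU3F
  _root_.Pool.Agent.MUX _root_.Pool.Agent.MuSym _root_.Pool.Agent.OB _root_.Pool.Agent.OBH OnePoint

noncomputable section

namespace HT3

theorem mob_neg (y : ℚ) : mob (-1) 0 0 1 (y : OnePoint ℚ) = ((-y : ℚ) : OnePoint ℚ) := by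
  unfold mob
  rw [OnePoint.elim_some]
  simp

theorem mob_inf : mob (-1) 0 0 1 (∞ : OnePoint ℚ) = ∞ := by
  unfold mob
  rw [OnePoint.elim_infty]
  simp

/-- depletion for `PhiK` -/
theorem dep {A B : ℤ} (hc : CQ A B) {n : ℕ} (hn : n ≠ 0) {ι : Type} [Fintype ι]
    (R : Reps A B n ι) (e : OO A B → ℂ) (he : IsEI (idl (A := A) (B := B) n) e) (wt : ι → ℂ)
    (l : ℕ) (hl : l.Prime) (hln : l ∣ n) (x : ℚ) :
    ∑ j ∈ Finset.range l, PhiK R e wt ∞ ((x + (j : ℚ) / l : ℚ) : OnePoint ℚ) = 0 := by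
  have hb : idl (A := A) (B := B) n ≠ ⊥ := by
    rw [Ne, Ideal.span_singleton_eq_bot]
    intro h
    have h1 := congrArg QuadraticAlgebra.re h
    rw [QuadraticAlgebra.re_natCast] at h1
    exact hn (by exact_mod_cast h1)
  have hgl : idl n ≤ Ideal.span {((l : ℕ) : OO A B)} := by
    rw [Ideal.span_singleton_le_span_singleton]
    obtain ⟨k, hk⟩ := hln
    refine ⟨(k : OO A B), ?_⟩
    rw [hk]
    push_cast
    rfl
  unfold PhiK
  rw [Finset.sum_comm]
  refine Finset.sum_eq_zero fun i _ => ?_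
  rw [← Finset.mul_sum, Pool.Agent.TWB.t_DPL A B hc _ _ e l (R.nl i).b_ne hb he hl hgl x, mul_zero]

end HT3

open HT3 in
/-- (HT3) depletion at `l` -/
theorem ob_HT3 : Ob_HT3 := by
  intro A B hc p er f l hp hf hl hlf ι _ R e he kk s u z₀ k x
  have hn : p * f ≠ 0 := mul_ne_zero hp hf
  have hln : l ∣ p * f := hlf.mul_left p
  have hl0 : (l : ℚ) ≠ 0 := by exact_mod_cast hl.ne_zero
  have h1 := dep hc hn R e he (kkE er p R kk (z₀ ^ k)) l hl hln x
  have h2 : ∑ j ∈ Finset.range l, PhiK R e (kkE er p R kk (-z₀ ^ k)) (mob (-1) 0 0 1 ∞)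
      (mob (-1) 0 0 1 ((x + (j : ℚ) / l : ℚ) : OnePoint ℚ)) = 0 := by
    have h3 := dep hc hn R e he (kkE er p R kk (-z₀ ^ k)) l hl hln (-x - (l - 1) / l)
    rw [← Finset.sum_range_reflect] at h3
    rw [← h3]
    refine Finset.sum_congr rfl fun j hj => ?_
    have hj' : j < l := Finset.mem_range.1 hj
    have hc : ((l - 1 - j : ℕ) : ℚ) = (l : ℚ) - 1 - j := by
      rw [Nat.sub_sub, Nat.cast_sub (by omega)]
      push_cast
      ring
    rw [mob_inf, mob_neg, hc]
    congr 2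
    field_simp
    ring
  unfold QT
  rw [← Finset.sum_div, Finset.sum_add_distrib, ← Finset.mul_sum, h1, h2, mul_zero, add_zero,
    zero_div]

end

end Pool.Agent.OT
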