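import Pool.Agent.OT.StI
import Pool.Agent.OB.I_EPS

/-!
# OT, block I: module EIX, the character `e ψ(N x)` (helper85)
-/

set_option autoImplicit false

namespace Pool.Agent.OTI

open _root_.MU3 Pool.Agent.MU3 Pool.Agent.MU3A Pool.Agent.MU3B Pool.Agent.RI Pool.Agent.RID
  Pool.Agent.MUX Pool.Agent.MUXK Pool.Agent.MUXI Pool.Agent.NS Pool.Agent.NSI Pool.Agent.OB
  Pool.Agent.OBI Pool.Agent.OT
open Pool.Agent.MU3I (zt)

noncomputable section

namespace EIXx

variable {A B : ℤ}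

/-- coprimality with a natural number passes to the norm -/
lemma nm_cop (hc : CQ A B) {x : OO A B} {m : ℕ} (h : IsCoprime x ((m : ℕ) : OO A B)) :
    IsCoprime (nm x) ((m : ℕ) : ℤ) := by
  obtain ⟨u, v, huv⟩ := h
  have h1 : u * x - 1 ∈ idl (A := A) (B := B) m := by
    rw [EPSx.mem_idl]
    refine ⟨-v, ?_⟩
    linear_combination huv
  obtain ⟨k, hk⟩ := EPSx.nm_congr h1
  rw [MUX.nm_mul hc, EPSx.nm_one] at hk
  refine ⟨nm u, -k, ?_⟩
  linear_combination hk

lemma ex_iff {x : OO A B} {m : ℕ} :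
    IsCoprime (sp x) (idl (A := A) (B := B) m) ↔ IsCoprime x ((m : ℕ) : OO A B) :=
  Ideal.isCoprime_span_singleton_iff _ _

end EIXx

/-- EIX -/
theorem ti_EIX : Ti_EIX := by
  intro p A B f hS l r hl hlf e he ψ
  have hc : CQ A B := hS.cq
  have hle : ∀ x : OO A B, x ∈ idl (A := A) (B := B) (p * (f * l ^ r)) →
      x ∈ idl (A := A) (B := B) (p * f) := by
    intro x hx
    rw [EPSx.mem_idl] at hx ⊢
    refine dvd_trans ⟨((l ^ r : ℕ) : OO A B), ?_⟩ hx
    push_cast
    ring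
  have hle2 : ∀ x : OO A B, x ∈ idl (A := A) (B := B) (p * (f * l ^ r)) →
      x ∈ idl (A := A) (B := B) (l ^ r) := by
    intro x hx
    rw [EPSx.mem_idl] at hx ⊢
    refine dvd_trans ⟨((p * f : ℕ) : OO A B), ?_⟩ hx
    push_cast
    ring
  refine ⟨?_, ?_, ?_, ?_, ?_⟩
  · show e 1 * ψ ((nm (1 : OO A B) : ℤ) : ZMod (l ^ r)) = 1
    rw [he.one, EPSx.nm_one, Int.cast_one, map_one, one_mul]
  · intro x y
    show e (x * y) * ψ ((nm (x * y) : ℤ) : ZMod (l ^ r)) =
      e x * ψ ((nm x : ℤ) : ZMod (l ^ r)) * (e y * ψ ((nm y : ℤ) : ZMod (l ^ r)))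
    rw [he.mul, MUX.nm_mul hc, Int.cast_mul, map_mul]
    ring
  · intro x y hxy
    show e x * ψ ((nm x : ℤ) : ZMod (l ^ r)) = e y * ψ ((nm y : ℤ) : ZMod (l ^ r))
    have h1 : ((nm x : ℤ) : ZMod (l ^ r)) = ((nm y : ℤ) : ZMod (l ^ r)) := by
      have h2 := EPSx.nm_congr (hle2 _ hxy)
      rw [← sub_eq_zero, ← Int.cast_sub]
      exact (ZMod.intCast_zmod_eq_zero_iff_dvd _ _).2 h2
    rw [he.per x y (hle _ hxy), h1]
  · intro x
    show e x * ψ ((nm x : ℤ) : ZMod (l ^ r)) ≠ 0 ↔ _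
    rw [EIXx.ex_iff]
    constructor
    · intro h
      have h1 := EIXx.ex_iff.1 ((he.supp x).1 (left_ne_zero_of_mul h))
      have h2 : IsCoprime x ((l : ℕ) : OO A B) := by
        refine IsCoprime.of_isCoprime_of_dvd_right h1 ?_
        obtain ⟨c, rfl⟩ := hlf
        refine ⟨((p * c : ℕ) : OO A B), ?_⟩
        push_cast
        ring
      have h3 := h1.mul_right (h2.pow_right (n := r))
      refine IsCoprime.of_isCoprime_of_dvd_right h3 ?_
      refine ⟨1, ?_⟩
      push_cast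
      ring
    · intro h
      have h1 : IsCoprime x ((p * f : ℕ) : OO A B) := by
        refine IsCoprime.of_isCoprime_of_dvd_right h ?_
        refine ⟨((l ^ r : ℕ) : OO A B), ?_⟩
        push_cast
        ring
      have h2 : IsCoprime x ((l ^ r : ℕ) : OO A B) := by
        refine IsCoprime.of_isCoprime_of_dvd_right h ?_
        refine ⟨((p * f : ℕ) : OO A B), ?_⟩
        push_cast
        ring
      have h3 := EIXx.nm_cop hc h2
      refine mul_ne_zero ((he.supp x).2 (EIXx.ex_iff.2 h1)) ?_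
      have h4 : IsUnit ((nm x : ℤ) : ZMod (l ^ r)) := by
        obtain ⟨a, b, hab⟩ := h3
        refine IsUnit.of_mul_eq_one ((a : ℤ) : ZMod (l ^ r)) ?_
        have h5 := congrArg (Int.cast : ℤ → ZMod (l ^ r)) hab
        have h6 : ((l : ℕ) : ZMod (l ^ r)) ^ r = 0 := by
          rw [← Nat.cast_pow]
          exact ZMod.natCast_self _
        push_cast at h5
        rw [h6, mul_zero, add_zero] at h5
        rw [mul_comm]
        exact h5
      exact (h4.map ψ).ne_zero
  · show e (-1) * ψ ((nm (-1 : OO A B) : ℤ) : ZMod (l ^ r)) = -1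
    rw [he.neg, EPSx.nm_neg_one, Int.cast_one, map_one, mul_one]

end

end Pool.Agent.OTI
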