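import Pool.Agent.OT.StI
import Pool.Agent.OB.I_I31
import Pool.Agent.OB.J_LAYO

/-!
# OT (Theorem T), block I, the final theorem (helper79); model: `OB/I_I31.lean`
-/

set_option autoImplicit false

namespace Pool.Agent.OTI

open _root_.MU3 Pool.Agent.MU3 Pool.Agent.MU3A Pool.Agent.MU3B Pool.Agent.RI Pool.Agent.RID
  Pool.Agent.MUX Pool.Agent.MUXK Pool.Agent.MUXI Pool.Agent.NS Pool.Agent.NSI Pool.Agent.OB
  Pool.Agent.OBI Pool.Agent.OT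
open Pool.Agent.MU3I (zt)
open Pool.Agent.TWR (Gen)

noncomputable section

namespace I31T

lemma lprime {l g h : ℕ} (hg : Gen l g h) : l.Prime ∧ l ≤ 3 := by
  rcases hg with ⟨h1, -, -⟩ | ⟨h1, -, -⟩
  · subst h1
    exact ⟨Nat.prime_three, le_rfl⟩
  · subst h1
    exact ⟨Nat.prime_two, by norm_num⟩

/-- one member of the family -/
theorem member (hEPS : Oi_EPS) (hH : O_HETA) (hBAS : Pool.Agent.OBT.So_BAS) {p er : ℕ}
    (hpp : p.Prime)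
    {A B : ℤ} {P : Ideal (OO A B)} {V : ValuationSubring ℂ} {f : ℕ} (hS : SetO p er A B P V f)
    (hTor : TorX A B) {ι : Type} [Fintype ι] (R : Reps A B (p * f) ι) (u el lam : ℂ)
    (hG : GoodL V (R.L R.i0) u el lam) (w : OO A B → ℂ) (hw : IsTeiP p er P V w)
    {l g h : ℕ} (hgen : Gen l g h) (hl : l ∣ f) (z₀ : ℤ) (hz₀ : IsZ0 p 5 z₀)
    (e0 : OO A B → ℂ) (kp : ι → ℂ) (r : ℕ) (hr : ¬ p ∣ r)
    (h01 : e0 1 = 1) (h0m : e0 (-1) = 1) (h0mul : ∀ x y, e0 (x * y) = e0 x * e0 y)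
    (h0per : ∀ x y, x - y ∈ idl (A := A) (B := B) (lvX p f 0) → e0 x = e0 y)
    (h0supp : ∀ x, e0 x ≠ 0 ↔ IsCoprime x ((lvX p f 0 : ℕ) : OO A B))
    (h0pow : ∀ x, e0 x ≠ 0 → e0 x ^ r = 1) (hkp : ∀ i, kp i ^ r = 1) :
    ∃ (r₀ : ℕ) (e : OO A B → ℂ) (t : ℤ → ℂ), IsEI (idl (A := A) (B := B) (p * f)) e ∧
      IsTw p (nI P - 1) t ∧
      (∀ x, IsCoprime x ((lvX p f 0 : ℕ) : OO A B) → e0 x * w x = e x * t (nm x)) ∧
      ∀ rr, r₀ ≤ rr → ∀ ψ : DirichletCharacter ℂ (l ^ rr), ψ (-1) = 1 →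
      ψ (1 + (l : ZMod (l ^ rr)) ^ (rr - 1)) ≠ 1 → ∃ k' : ℕ,
        V.valuation (p : ℂ) < V.valuation ((∑ j ∈ Finset.range 2, (-1) ^ (1 - j) *
          SG p (RL R l rr hl) (lvX p (f * l ^ rr) 5) (p ^ (5 + 1)) (aX p (f * l ^ rr))
            (fun x => e x * ψ (nm x))
            (fun i => kkT R kp (fun i => muX R i) t i * ψ ((nI (R.b i) : ℕ))) t z₀
            ((1 + (p : ℤ)) ^ (k' + j))) / u) := by
  obtain ⟨e, s, i, t, hei, hs, hi4, hi7, hty, hepow, ht1, ht2, ht3, ht4, ht5, hes⟩ :=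
    hEPS p er A B P V f hS w hw e0 r hr h01 h0m h0mul h0per h0supp h0pow
  have hkk := I31.kkT_pow hpp R kp r (nI P - 1) hkp t ht5
  obtain ⟨-, -, -, -, -, -, -, hq1, -⟩ := hBAS p er A B P V hS.toCaseO
  have h8 : ¬ p ∣ (nI P - 1) * r := by
    intro h
    rcases (Nat.Prime.dvd_mul hpp).1 h with h | h
    · exact hq1 h
    · exact hr h
  have htw : IsTw p (nI P - 1) t := ⟨ht3, ht1, ht2, ht5⟩
  obtain ⟨r₀, hr₀⟩ := hH p er A B P V f hS hTor ι R u el lam hG w hw e hei ((nI P - 1) * r)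
    h8 hepow i hi4 hi7 hty t htw (kkT R kp (fun i => muX R i) t) hkk l g h hgen hl 5 le_rfl z₀ hz₀
  exact ⟨r₀, e, t, hei, htw, hes, hr₀⟩

/-- one level `n`, one character `χ` with its lift `X` -/
theorem level (hARF : Si_ARF) (hXXF : Si_XXF) (hSUB : Oi_SUB) (hGAM : Oi_GAM) (hNCR : Oi_NCR)
    (hXMF : Ti_XMF) (hTHF : Ti_THF) (hPOW : Ti_POW) (hGEN : Si_GEN) (hGAL : S_GALX)
    (hRSX : S_RSX) {p er : ℕ} [Fact p.Prime] {A B : ℤ} {P : Ideal (OO A B)}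
    {V : ValuationSubring ℂ} {f : ℕ} (hS : SetO p er A B P V f) (hTor : TorX A B)
    {ι : Type} [Fintype ι] (R : Reps A B (p * f) ι) (u : ℂ)
    (K : IntermediateField ℚ ℂ) (Bn : ℕ → IntermediateField ℚ ℂ)
    [FiniteDimensional ℚ K] [∀ n, FiniteDimensional ℚ ↥(K ⊔ Bn n)]
    (hB : BasX p (kk A B) K Bn)
    (hcop : ¬ p ∣ Module.finrank (kk A B) (IntermediateField.extendScalars hB.hk))
    (hmu : ∃ ω ∈ K, IsPrimitiveRoot ω p)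
    (hKT : ∀ y ∈ K, y ∈ RF (idl (A := A) (B := B) (lvX p f 0))) (n : ℕ) (hn : 1 ≤ n)
    (hk : kk A B ≤ K ⊔ Bn n) (hkK : kk A B ≤ K)
    (C : (letI := algC hk; ↥(K ⊔ Bn n) ≃ₐ[kk A B] ↥(K ⊔ Bn n)) → ℂ)
    (hE : EInpO p er P V f R u n hk C) (c₀ : ℂ) (mem : c₀ ∈ K ⊔ Bn n)
    (hc₀ : c₀ = C (letI := algC hk; 1))
    (χ : (letI := algC hkK; (↥K ≃ₐ[kk A B] ↥K) →* (IsLocalRing.ResidueField V)ˣ))
    (X : (letI := algC hkK; (↥K ≃ₐ[kk A B] ↥K) →* ℂˣ))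
    (hXθ : letI := algC hkK; ∀ (Δ' : Type) [Group Δ'] [Fintype Δ'] (j : Δ' →* (↥K ≃ₐ[kk A B] ↥K)),
      Function.Injective j → ∃ θ : IsLocalRing.ResidueField V →+ ZMod p,
        (∑ δ : Δ', ((θ ((χ (j δ))⁻¹ : (IsLocalRing.ResidueField V)ˣ)).val : ℂ) *
          (X (j δ) : ℂ)) ∉ V.nonunits)
    (w : OO A B → ℂ) (hw : IsTeiP p er P V w) (e0 e : OO A B → ℂ) (kp : ι → ℂ) (t : ℤ → ℂ)
    (q : ℕ) (hq : q ≠ 0) (htw : IsTw p q t) (hei : IsEI (idl (A := A) (B := B) (p * f)) e)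
    (hes : ∀ x, IsCoprime x ((lvX p f 0 : ℕ) : OO A B) → e0 x * w x = e x * t (nm x))
    (hval : letI := algC hkK; ∀ (τ : ↥K ≃ₐ[kk A B] ↥K) (i : ι) (x : OO A B),
      IsCoprime x ((lvX p f 0 : ℕ) : OO A B) →
      AR hkK (idl (lvX p f 0)) τ (sp x * cjI (R.b i)) → (((X τ)⁻¹ : ℂˣ) : ℂ) = kp i * e0 x)
    (z₀ : ℤ) (hz₀ : IsZ0 p n z₀) (k' : ℕ)
    (hbig : V.valuation (p : ℂ) < V.valuation ((∑ j ∈ Finset.range 2, (-1) ^ (1 - j) *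
      SG p R (lvX p f n) (p ^ (n + 1)) (aX p f) e (kkT R kp (fun i => muX R i) t) t z₀
        ((1 + (p : ℤ)) ^ (k' + j))) / u)) :
    I3At (IsLocalRing.ResidueField V) p (kk A B) K Bn hkK χ 1 n hk c₀ mem := by
  classical
  let aK : Algebra (kk A B) K := algC hkK
  have hpp : p.Prime := Fact.out
  have p5 := hS.p5
  have p2 : p ≠ 2 := by omega
  have hCQ : CQ A B := hS.cq
  have hL : SetQ p A B f := setQ_O hS
  let akL : Algebra (kk A B) ↥(K ⊔ Bn n) := algC hk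
  obtain ⟨ρ, hρ⟩ := Pool.Agent.MUXK.I3X19.restr hRSX p (kk A B) K Bn hB hcop hkK n hk
  obtain ⟨gal, comm⟩ := hGAL p (kk A B) K Bn hB n hk
  have hNL : ∃ (b : Ideal (OO A B)) (L : PeriodPair) (om : ℂ), IsNL b L om :=
    ⟨_, _, _, R.nl R.i0⟩
  have hsub := (hSUB p er A B P V f hS hTor hNL K hKT n (Bn n) hn (hB.lay n)).1
  obtain ⟨γ₀, hγ₀, hγ₀z⟩ := hGAM p p2 (kk A B) K Bn hB hmu n hk
  obtain ⟨hBR, hRD, -⟩ := hNCR p p2 (kk A B) K n (Bn n) (hB.lay n) hmu hk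
  have hXX := hXMF p A B f hL hTor ι R (K ⊔ Bn n) n hk (Bn n) (hB.lay n) hBR hRD hsub gal γ₀
    hγ₀z z₀ hz₀
  have fdk : FiniteDimensional (kk A B) ↥(K ⊔ Bn n) :=
    Module.Finite.of_restrictScalars_finite ℚ (kk A B) ↥(K ⊔ Bn n)
  have iG : Finite (↥(K ⊔ Bn n) ≃ₐ[kk A B] ↥(K ⊔ Bn n)) := inferInstance
  have iN : Fintype (NC hk (Bn n)) := Fintype.ofFinite _
  obtain ⟨θ, hXθ1⟩ := hXθ (NC hk (Bn n)) ρ.toMonoidHom ρ.injective
  let X' : NC hk (Bn n) →* ℂˣ := X.comp ρ.toMonoidHom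
  have hX'θ : (∑ δ : NC hk (Bn n),
      (((θ ((χ (ρ δ))⁻¹ : (IsLocalRing.ResidueField V)ˣ)).val : ℕ) : ℂ) * (X' δ : ℂ)) ∉
        V.nonunits := hXθ1
  have hKD : K ≤ K ⊔ Bn n := le_sup_left
  have hCc : ∀ i, (nI (R.b i)).Coprime (lvX p f n) := by
    intro i
    have h1 := R.cop i
    have h2 : lvX p f n ∣ (p * f) ^ (n + 1) := by
      have h4 : f ∣ f ^ (n + 1) := dvd_pow_self f (by omega)
      have h5 : lvX p f n = p ^ (n + 1) * f := by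
        rw [lvX_odd p2]
        ring
      rw [h5, mul_pow]
      exact mul_dvd_mul (dvd_refl _) h4
    exact Nat.Coprime.coprime_dvd_right h2 (Nat.Coprime.pow_right _ h1)
  have hm2 : 2 ≤ lvX p f n := by
    have h2 : 1 ≤ p ^ n := Nat.one_le_pow _ _ hpp.pos
    have h3 : 1 ≤ f := Nat.one_le_iff_ne_zero.2 hS.f0
    rw [lvX_odd p2, pow_succ]
    nlinarith [Nat.mul_le_mul h3 h2]
  have hm0 : (idl (A := A) (B := B) (lvX p f n)) ≠ ⊥ := by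
    intro h
    have h1 : ((lvX p f n : ℕ) : OO A B) = 0 := Ideal.span_singleton_eq_bot.1 h
    have h2 := congrArg emb h1
    rw [I31.emb_nat] at h2
    have h3 : emb (0 : OO A B) = 0 := by
      unfold emb
      simp
    rw [h3] at h2
    have h4 : lvX p f n = 0 := by exact_mod_cast h2
    omega
  have hlv : lvX p f 0 ∣ lvX p f n := by
    unfold lvX
    rw [pow_zero, mul_one]
    exact dvd_mul_right _ _
  have hle : idl (A := A) (B := B) (lvX p f n) ≤ idl (lvX p f 0) := by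
    refine Ideal.span_singleton_le_span_singleton.2 ?_
    exact_mod_cast Nat.cast_dvd_cast hlv
  have hchi : ∀ (δ : NC hk (Bn n)) (j : ℕ),
      ∀ q ∈ XX R (lvX p f n) hk (γ₀ ^ j * (δ : ↥(K ⊔ Bn n) ≃ₐ[kk A B] ↥(K ⊔ Bn n))),
      (((X' δ)⁻¹ : ℂˣ) : ℂ) = kp q.1 * e0 (Quotient.out q.2) := by
    intro δ j q hq
    have hqc : IsCoprime (Quotient.out q.2 : OO A B) ((lvX p f n : ℕ) : OO A B) := hq.1
    have h1 := hXXF A B hCQ hTor (p * f) ι R (lvX p f n) hm2 hCc (K ⊔ Bn n) hk hsub gal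
    have hq2 : (q.1, Ideal.Quotient.mk (idl (A := A) (B := B) (lvX p f n))
        (Quotient.out q.2)) = q := Prod.ext rfl (Quotient.out_eq' q.2)
    have h2 := (h1.1 (γ₀ ^ j * (δ : ↥(K ⊔ Bn n) ≃ₐ[kk A B] ↥(K ⊔ Bn n))) q.1
      (Quotient.out q.2) hqc).1 (by rw [hq2]; exact hq)
    obtain ⟨-, -, -, -, -, h3, -⟩ := hARF A B hCQ hTor hNL (idl (lvX p f n)) hm0 (K ⊔ Bn n)
      hk hsub gal
    have hγj : ∀ (i : ℕ) (z : ↥(K ⊔ Bn n)), (z : ℂ) ∈ K → (γ₀ ^ i) z = z := by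
      intro i z hz
      induction i with
      | zero => rfl
      | succ i ih =>
        rw [pow_succ, AlgEquiv.mul_apply, (hγ₀ z).2 hz, ih]
    have h4 := h3 K hkK (idl (lvX p f 0)) hle hKD
      (γ₀ ^ j * (δ : ↥(K ⊔ Bn n) ≃ₐ[kk A B] ↥(K ⊔ Bn n))) (ρ δ)
      (sp (Quotient.out q.2) * cjI (R.b q.1)) (by
        intro x x' hx
        rw [AlgEquiv.mul_apply]
        have h5 := hρ δ x x' hx
        have h6 : (((δ : ↥(K ⊔ Bn n) ≃ₐ[kk A B] ↥(K ⊔ Bn n)) x' : ↥(K ⊔ Bn n)) : ℂ) ∈ K := by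
          have h7 : (((δ : ↥(K ⊔ Bn n) ≃ₐ[kk A B] ↥(K ⊔ Bn n)) x' : ↥(K ⊔ Bn n)) : ℂ) =
            (ρ δ x : ↥K) := h5
          rw [h7]
          exact (ρ δ x).2
        rw [hγj j _ h6]
        exact h5) h2
    have hco : IsCoprime (Quotient.out q.2 : OO A B) ((lvX p f 0 : ℕ) : OO A B) := by
      have h7 : ((lvX p f 0 : ℕ) : OO A B) ∣ ((lvX p f n : ℕ) : OO A B) := by
        exact_mod_cast Nat.cast_dvd_cast hlv
      exact hqc.of_isCoprime_of_dvd_right h7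
    exact hval (ρ δ) q.1 (Quotient.out q.2) hco h4
  -- the ideal `(p f)`
  have hg1 : idl (A := A) (B := B) (lvX p f 0) ≤ idl (p * f) := by
    refine Ideal.span_singleton_le_span_singleton.2 ?_
    have h1 : p * f ∣ lvX p f 0 := by
      rw [lvX_odd p2, zero_add, pow_one, mul_comm]
    exact_mod_cast Nat.cast_dvd_cast h1
  have hg2 : idl (A := A) (B := B) (p * f) ≤ idl f := by
    refine Ideal.span_singleton_le_span_singleton.2 ?_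
    have h1 : f ∣ p * f := dvd_mul_left f p
    exact_mod_cast Nat.cast_dvd_cast h1
  have hTHi := hTHF p A B f hL (idl (p * f)) hg1 hg2 ι R n z₀ hz₀ _ γ₀ (NC hk (Bn n))
    (fun τ => XX R (lvX p f n) hk τ) hXX X' e0 kp (fun i => muX R i) w e t q hq htw hei hes hchi
  have hcne : c₀ ≠ 0 := by
    rw [hc₀]
    exact hE.ne
  have key : ∀ y : ↥(K ⊔ Bn n), y ^ p ≠ ∏ δ : NC hk (Bn n),
      ((δ : ↥(K ⊔ Bn n) ≃ₐ[kk A B] ↥(K ⊔ Bn n)) ((Tg γ₀)^[1] ⟨c₀, mem⟩)) ^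
        (θ ((χ (ρ δ))⁻¹ : (IsLocalRing.ResidueField V)ˣ)).val := by
    intro y hy
    have hHf := hPOW p er A B P V f ι R u n (K ⊔ Bn n) hk C hE w
      hw comm c₀ mem hc₀ γ₀ (NC hk (Bn n)) 1 k'
      (fun δ => (θ ((χ (ρ δ))⁻¹ : (IsLocalRing.ResidueField V)ˣ)).val) X' hX'θ y hy
    refine absurd hHf (not_le_of_gt ?_)
    have hS1 : ∑ j ∈ Finset.range (1 + 1),
        (((-1 : ℤ) ^ (1 - j) * (Nat.choose 1 j : ℤ) : ℤ) : ℂ) *
        ∑ δ : NC hk (Bn n), (((X' δ)⁻¹ : ℂˣ) : ℂ) * TTN R w (lvX p f n)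
          (aX p f) hk (γ₀ ^ (k' + j) * (δ : ↥(K ⊔ Bn n) ≃ₐ[kk A B] ↥(K ⊔ Bn n))) =
        ∑ j ∈ Finset.range 2, (-1) ^ (1 - j) *
          SG p R (lvX p f n) (p ^ (n + 1)) (aX p f) e (kkT R kp (fun i => muX R i) t) t z₀
            ((1 + (p : ℤ)) ^ (k' + j)) := by
      refine Finset.sum_congr rfl fun j hj => ?_
      have hj1 : j ≤ 1 := by
        have := Finset.mem_range.1 hj
        omega
      have hch : Nat.choose 1 j = 1 := by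
        interval_cases j <;> rfl
      have h9 := hTHi (k' + j)
      have h10 : ∑ δ : NC hk (Bn n), (((X' δ)⁻¹ : ℂˣ) : ℂ) * TTN R w (lvX p f n)
          (aX p f) hk (γ₀ ^ (k' + j) * (δ : ↥(K ⊔ Bn n) ≃ₐ[kk A B] ↥(K ⊔ Bn n))) = _ := h9
      rw [h10, hch]
      push_cast
      ring
    rw [hS1]
    exact hbig
  intro γ hγ iN' r hr
  obtain rfl : iN' = iN := Subsingleton.elim _ _
  have hrρ : ∀ δ, r δ = ρ δ := by
    intro δ
    refine AlgEquiv.ext fun x => Subtype.ext ?_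
    have hx1 : (x : ℂ) ∈ K ⊔ Bn n := hKD x.2
    rw [← hr δ x ⟨x, hx1⟩ rfl, ← hρ δ x ⟨x, hx1⟩ rfl]
  have key2 := hGEN p (kk A B) K Bn hB n hk c₀ mem hcne 1 γ₀ hγ₀
    (fun δ => (θ ((χ (ρ δ))⁻¹ : (IsLocalRing.ResidueField V)ˣ)).val) key γ hγ
  refine ⟨θ, fun y hy => key2 y (hy.trans ?_)⟩
  refine Finset.prod_congr rfl fun δ _ => ?_
  rw [hrρ δ]

end I31T

/-- THE RESULT of block I -/
theorem ti_IT (hRES : Pool.Agent.MUXJ.Sj_RES) (hCHI : Oi_CHI) (hCHK : Ti_CHK) (hE0L : S_E0L)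
    (hEPS : Oi_EPS) (hTEI : Oi_TEI) (hLVT : S_LVT) (hARF : Si_ARF) (hXXF : Si_XXF) (hSUB : Oi_SUB)
    (hGAM : Oi_GAM) (hNCR : Oi_NCR) (hZ0 : Ti_Z0) (hXMF : Ti_XMF) (hTHF : Ti_THF) (hPOW : Ti_POW)
    (hEIX : Ti_EIX) (hGEN : Si_GEN) (hH : O_HETA) (hGAL : S_GALX) (hRSX : S_RSX)
    (hBAS : Pool.Agent.OBT.So_BAS) : O_IT := by
  classical
  intro l g h hgen p er iP A B P V f hS hlf hl hTor ι iι R u el lam hG K₀ iK₀ hkK₀ hmu₀ hK₀T Bl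
    hlay hmono
  have hpp : p.Prime := iP.out
  have p5 := hS.p5
  have p2 : p ≠ 2 := by omega
  have hCQ : CQ A B := hS.cq
  obtain ⟨hlp, hl3⟩ := I31T.lprime hgen
  obtain ⟨J, iJ, r, e0, kp, hpr, hfam, hnew⟩ := hE0L l g h hgen p er A B P V f hS hlf hTor ι R K₀
    hkK₀ hK₀T Bl hlay hmono
  obtain ⟨w, hw⟩ := hTEI p er A B P V hS.toCaseO
  obtain ⟨z₀, hz₀⟩ := hZ0 p hpp p2 5
  have hmem := fun j : J => I31T.member hEPS hH hBAS hpp hS hTor R u el lam hG w hw hgen hl z₀ hz₀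
    (e0 j) (kp j) r hpr (hfam j).1 (hfam j).2.1 (hfam j).2.2.1 (hfam j).2.2.2.1 (hfam j).2.2.2.2.1
    (hfam j).2.2.2.2.2.1 (hfam j).2.2.2.2.2.2
  choose rj e t hei htw hes hbig using hmem
  obtain ⟨M, hM⟩ := (Set.finite_range rj).bddAbove
  refine ⟨M, ?_⟩
  intro m hm Bn iK iKB hB hcop hk hkK C hE c₀ mem hc₀ χ hχ
  have hNL : ∃ (b : Ideal (OO A B)) (L : PeriodPair) (om : ℂ), IsNL b L om :=
    ⟨_, _, _, R.nl R.i0⟩
  -- the level `f'`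
  obtain ⟨rr, hrr⟩ : ∃ rr, rr = m + 1 + h := ⟨_, rfl⟩
  have hKT' := hLVT l g h hgen p er A B P V f hS hTor hNL K₀ hK₀T (m + 1) (Bl (m + 1))
    (hlay (m + 1))
  have hnewm := hnew m hkK
  rw [← hrr] at hE hKT' hnewm
  have hlr : l ^ rr ≠ 0 := pow_ne_zero _ hlp.ne_zero
  have hplr : ¬ p ∣ l ^ rr := by
    intro h1
    have h2 := hpp.dvd_of_dvd_pow h1
    have h3 := Nat.le_of_dvd hlp.pos h2
    omega
  have hS' : SetO p er A B P V (f * l ^ rr) := setO_up hS (l ^ rr) hlr hplr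
  have hL : SetQ p A B f := setQ_O hS
  have hmu : ∃ ω ∈ K₀ ⊔ Bl (m + 1), IsPrimitiveRoot ω p := by
    obtain ⟨ω, h1, h2⟩ := hmu₀
    exact ⟨ω, (le_sup_left : K₀ ≤ K₀ ⊔ Bl (m + 1)) h1, h2⟩
  -- the lift of `χ`
  let aK : Algebra (kk A B) ↥(K₀ ⊔ Bl (m + 1)) := algC hkK
  have hpV : ((p : ℕ) : ℂ) ∈ V.nonunits := by
    have h1 := (hS.hV ((p : ℕ) : OO A B)).2 hS.mem
    rwa [I31.emb_nat] at h1
  obtain ⟨iF1, iF2⟩ := hRES p V hpV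
  have galK : IsGalois (kk A B) ↥(K₀ ⊔ Bl (m + 1)) := (isGalois_algC hkK).2 hB.gal
  have fdkK : FiniteDimensional (kk A B) ↥(K₀ ⊔ Bl (m + 1)) :=
    Module.Finite.of_restrictScalars_finite ℚ (kk A B) ↥(K₀ ⊔ Bl (m + 1))
  have commK : ∀ a b : ↥(K₀ ⊔ Bl (m + 1)) ≃ₐ[kk A B] ↥(K₀ ⊔ Bl (m + 1)), a * b = b * a := by
    intro a b
    have h1 := hB.ab ((extEquiv hkK).symm.autCongr a) ((extEquiv hkK).symm.autCongr b)
    rw [← map_mul, ← map_mul] at h1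
    exact (extEquiv hkK).symm.autCongr.injective h1
  have hcard : Nat.card (↥(K₀ ⊔ Bl (m + 1)) ≃ₐ[kk A B] ↥(K₀ ⊔ Bl (m + 1))) =
      Module.finrank (kk A B) (IntermediateField.extendScalars hB.hk) := by
    rw [IsGalois.card_aut_eq_finrank]
    exact (extEquiv hkK).toLinearEquiv.finrank_eq
  have hc3 : ¬ p ∣ Nat.card (↥(K₀ ⊔ Bl (m + 1)) ≃ₐ[kk A B] ↥(K₀ ⊔ Bl (m + 1))) := by
    rw [hcard]
    exact hcop
  obtain ⟨X, hXr, hXθ⟩ := hCHI p V hpV iF1 iF2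
    (↥(K₀ ⊔ Bl (m + 1)) ≃ₐ[kk A B] ↥(K₀ ⊔ Bl (m + 1))) commK hc3 χ
  let H : Subgroup (↥(K₀ ⊔ Bl (m + 1)) ≃ₐ[kk A B] ↥(K₀ ⊔ Bl (m + 1))) :=
    { carrier := {s | ∀ x : ↥(K₀ ⊔ Bl (m + 1)), (x : ℂ) ∈ K₀ ⊔ Bl m → s x = x}
      one_mem' := fun x _ => rfl
      mul_mem' := by
        intro a b ha hb x hx
        rw [AlgEquiv.mul_apply, hb x hx, ha x hx]
      inv_mem' := by
        intro a ha x hx
        have h1 := ha x hx
        calc a⁻¹ x = a⁻¹ (a x) := by rw [h1]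
          _ = x := by rw [← AlgEquiv.mul_apply, inv_mul_cancel]; rfl }
  obtain ⟨s, hsH, hsX⟩ := hCHK p V hpV _ χ X hXθ H (by
    obtain ⟨s, h1, h2⟩ := hχ
    exact ⟨s, h1, h2⟩)
  obtain ⟨j, ψ, hψ1, hψ2, hval⟩ := hnewm X _ hc3 hXr ⟨s, hsH, hsX⟩
  obtain ⟨k', hk'⟩ := hbig j rr (by
    have h1 : rj j ≤ M := hM ⟨j, rfl⟩
    omega) ψ hψ1 hψ2
  obtain ⟨-, -, -, -, -, -, -, hq1, -⟩ := hBAS p er A B P V hS.toCaseO
  have hq0 : nI P - 1 ≠ 0 := by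
    intro h1
    rw [h1] at hq1
    exact hq1 (dvd_zero p)
  have hlv : lvX p f 0 ∣ lvX p (f * l ^ rr) 0 := by
    rw [lvX_odd p2, lvX_odd p2]
    exact mul_dvd_mul (dvd_mul_right _ _) (dvd_refl _)
  refine I31T.level hARF hXXF hSUB hGAM hNCR hXMF hTHF hPOW hGEN hGAL hRSX hS' hTor
    (RL R l rr hl) u (K₀ ⊔ Bl (m + 1)) Bn hB hcop hmu hKT' 5 (by norm_num) hk hkK C hE c₀ mem hc₀
    χ X hXθ w hw (fun x => e0 j x * ψ (nm x)) (fun x => e j x * ψ (nm x))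
    (fun i => kp j i * ψ ((nI (R.b i) : ℕ))) (t j) (nI P - 1) hq0 (htw j)
    (hEIX p A B f hL l rr hlp hl (e j) (hei j) ψ) ?_ ?_ z₀ hz₀ k' ?_
  · intro x hx
    have h1 : IsCoprime x ((lvX p f 0 : ℕ) : OO A B) := by
      refine hx.of_isCoprime_of_dvd_right ?_
      exact_mod_cast Nat.cast_dvd_cast hlv
    have h2 := hes j x h1
    linear_combination ψ (nm x) * h2
  · intro τ i x hx hAR
    exact hval τ i x hx hAR
  · have h1 : (kkT (RL R l rr hl) (fun i => kp j i * ψ ((nI (R.b i) : ℕ)))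
        (fun i => muX (RL R l rr hl) i) (t j)) =
        fun i => kkT R (kp j) (fun i => muX R i) (t j) i * ψ ((nI (R.b i) : ℕ)) := by
      funext i
      show kp j i * ψ ((nI (R.b i) : ℕ)) * muX R i / muX R i * (t j (nI (R.b i)))⁻¹ =
        kp j i * muX R i / muX R i * (t j (nI (R.b i)))⁻¹ * ψ ((nI (R.b i) : ℕ))
      ring
    rw [h1]
    exact hk'

end

end Pool.Agent.OTI
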