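import Pool.Agent.OT.StL
import Pool.Agent.OB.I_E0
import Pool.Agent.TWF.CHR
import Pool.Agent.TWF.CYC
import Pool.Agent.TWF.LVL
import Pool.Agent.MUX.StJX

/-!
# OT, modules LVT and E0L (helper84); model: `TWF/FACT.lean`, `TWQ/FACQ.lean` (helper51)
-/

set_option autoImplicit false

open NumberField IsDedekindDomain Finset
open scoped nonZeroDivisors Pointwise

namespace Pool.Agent.OT

open _root_.MU3 Pool.Agent.MU3 Pool.Agent.MU3A Pool.Agent.MU3B Pool.Agent.RI Pool.Agent.RID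
  Pool.Agent.MUX Pool.Agent.MUXK Pool.Agent.MUXI Pool.Agent.NS Pool.Agent.NSI Pool.Agent.OB
  Pool.Agent.OBI
open Pool.Agent.MU3I (zt)
open Pool.Agent.TWF (Twr lvl cyc chr_split gal_ab)

theorem gen_ls {l g h : ℕ} (hGen : Pool.Agent.TWR.Gen l g h) :
    (l = 3 ∧ h = 1) ∨ (l = 2 ∧ h = 2) := by
  rcases hGen with ⟨h1, -, h2⟩ | ⟨h1, -, h2⟩
  · exact Or.inl ⟨h1, h2⟩
  · exact Or.inr ⟨h1, h2⟩

/-- LVT -/
theorem t_LVT (hLAY : Si_LAY) (hIAF : Si_IAF) : S_LVT := by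
  intro l g h hGen p er A B P V f hS T hNL K hK m Bm hB
  have hp2 : p ≠ 2 := by have := hS.p5; omega
  have h1 := lvl hLAY hIAF l h (gen_ls hGen) A B hS.cq T hNL (lvX p f 0)
    (by
      rw [lvX_odd hp2]
      exact Nat.mul_ne_zero hS.f0 (pow_ne_zero _ hS.pp.ne_zero)) K hK m Bm hB
  have h2 : lvX p f 0 * l ^ (m + h) = lvX p (f * l ^ (m + h)) 0 := by
    rw [lvX_odd hp2, lvX_odd hp2]
    ring
  rw [h2] at h1
  exact h1

namespace E0Lx

theorem natCast_ne {A B : ℤ} (hc : CQ A B) {n : ℕ} (h : n ≠ 0) : ((n : ℕ) : OO A B) ≠ 0 :=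
  natCast_ne_zero' hc h

/-- the characters of a finite group with values in the `r`-th roots of unity -/
theorem fin_chr {G : Type} [Group G] [Finite G] (r : ℕ) (hr : r ≠ 0) :
    Finite {X : G →* ℂˣ // ∀ g, X g ^ r = 1} := by
  have : NeZero r := ⟨hr⟩
  have h1 : Finite (G → rootsOfUnity r ℂ) := inferInstance
  refine Finite.of_injective
    (fun (X : {X : G →* ℂˣ // ∀ g, X g ^ r = 1}) (g : G) => (⟨X.1 g, X.2 g⟩ : rootsOfUnity r ℂ)) ?_
  intro X Y hXY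
  apply Subtype.ext
  ext g
  have h2 := congrArg Subtype.val (congrFun hXY g)
  exact congrArg Units.val h2

/-- correction of the first factor to order prime to `p` -/
theorem fix_ord {G G₁ G₂ : Type} [Group G] [Group G₁] [Group G₂] [Finite G₁] (p a r t s : ℕ)
    (hp : p.Prime) (hc : Nat.card G₁ = p ^ a * r) (r₁ : G →* G₁) (r₂ : G →* G₂)
    (X : G →* ℂˣ) (X₁ : G₁ →* ℂˣ) (X₂ : G₂ →* ℂˣ) (hX : ∀ g, X g = X₁ (r₁ g) * X₂ (r₂ g))
    (ht : ¬ p ∣ t) (hXt : ∀ g, X g ^ t = 1) (hs : ¬ p ∣ s) (hXs : ∀ g, X₂ g ^ s = 1) :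
    ∃ Y : G₁ →* ℂˣ, (∀ g, Y g ^ r = 1) ∧ ∀ g, X g = Y (r₁ g) * X₂ (r₂ g) := by
  have hcop : Nat.Coprime (p ^ a) (t * s) := by
    refine Nat.Coprime.pow_left _ ?_
    rw [Nat.Prime.coprime_iff_not_dvd hp]
    intro h
    rcases (Nat.Prime.dvd_mul hp).1 h with h | h
    · exact ht h
    · exact hs h
  obtain ⟨e, he1, he2⟩ := Nat.chineseRemainder hcop 0 1
  have he1' : p ^ a ∣ e := (Nat.modEq_zero_iff_dvd).1 he1
  obtain ⟨e', rfl⟩ := he1'
  refine ⟨(powMonoidHom (p ^ a * e')).comp X₁, ?_, ?_⟩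
  · intro g
    show (X₁ g ^ (p ^ a * e')) ^ r = 1
    have h1 : X₁ g ^ (p ^ a * r) = 1 := by
      rw [← hc, ← map_pow, pow_card_eq_one', map_one]
    calc (X₁ g ^ (p ^ a * e')) ^ r = (X₁ g ^ (p ^ a * r)) ^ e' := by
          rw [← pow_mul, ← pow_mul]
          congr 1
          ring
      _ = 1 := by rw [h1, one_pow]
  · intro g
    show X g = X₁ (r₁ g) ^ (p ^ a * e') * X₂ (r₂ g)
    have h1 : X₁ (r₁ g) = X g * (X₂ (r₂ g))⁻¹ := by
      rw [hX g, mul_inv_cancel_right]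
    have h2 : (X g * (X₂ (r₂ g))⁻¹) ^ (t * s) = 1 := by
      rw [mul_pow, pow_mul, hXt, one_pow, one_mul, inv_pow, mul_comm t s, pow_mul, hXs, one_pow,
        inv_one]
    have h3 : (X g * (X₂ (r₂ g))⁻¹) ^ (p ^ a * e') = X g * (X₂ (r₂ g))⁻¹ := by
      have h4 : (X g * (X₂ (r₂ g))⁻¹) ^ (p ^ a * e') = (X g * (X₂ (r₂ g))⁻¹) ^ 1 := by
        rw [pow_eq_pow_iff_modEq]
        exact he2.of_dvd (orderOf_dvd_of_pow_eq_one h2)
      rw [h4, pow_one]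
    rw [h1, h3, inv_mul_cancel_right]

end E0Lx

open E0Lx in
/-- E0L -/
theorem t_E0L (hARF : Si_ARF) (hIAF : Si_IAF) (hLAY : Si_LAY)
    (hNIM : Pool.Agent.MUXF.Sx_NIM) (hGAL : Pool.Agent.MUXJ.Sj_GAL) : S_E0L := by
  classical
  intro l g s hGen p er A B P V f hS hlf T ι _ R K _ hK hSub Bl hlay hmono
  have hc : CQ A B := hS.cq
  have hpp : p.Prime := hS.pp
  have hp2 : p ≠ 2 := by have := hS.p5; omega
  have hls := gen_ls hGen
  have hlp : l.Prime := by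
    rcases hls with ⟨rfl, -⟩ | ⟨rfl, -⟩
    · exact Nat.prime_three
    · exact Nat.prime_two
  have : Fact l.Prime := ⟨hlp⟩
  have hs1 : 1 ≤ s := by rcases hls with ⟨-, h⟩ | ⟨-, h⟩ <;> omega
  have hlf1 : l ∣ f := (dvd_pow_self l (by omega)).trans hlf
  have hpl : ¬ p ∣ l := by
    intro h
    exact hS.fp (h.trans hlf1)
  have hlv : ∀ f' : ℕ, lvX p f' 0 = f' * p := fun f' => by
    rw [lvX_odd hp2, zero_add, pow_one]
  have hfm : (idl (lvX p f 0) : Ideal (OO A B)) ≠ ⊥ := by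
    rw [Ne, Ideal.span_singleton_eq_bot, hlv]
    exact natCast_ne_zero' hc (mul_ne_zero hS.f0 hpp.ne_zero)
  have fdk : FiniteDimensional ℚ (kk A B) := FiniteDimensional.of_injective
    (IntermediateField.inclusion hK).toLinearMap
    (IntermediateField.inclusion hK).toRingHom.injective
  obtain ⟨gK, -, cK⟩ := hGAL A B T (idl (lvX p f 0)) hfm K hK hSub
  have hB : Twr l (kk A B) K Bl := ⟨hK, gK, cK, hlay, hmono⟩
  let aK : Algebra (kk A B) K := algC hK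
  have galK : IsGalois (kk A B) K := (isGalois_algC hK).2 gK
  have tK : IsScalarTower ℚ (kk A B) K := IsScalarTower.of_algebraMap_eq (fun _ => rfl)
  have fdK : FiniteDimensional (kk A B) K := Module.Finite.of_restrictScalars_finite ℚ (kk A B) K
  have hfB : ∀ n, FiniteDimensional ℚ (Bl n) := fun n => (LAY_thm l n (Bl n) (hlay n)).1
  have hfL : ∀ n, FiniteDimensional ℚ ↥(K ⊔ Bl n) := fun n =>
    IntermediateField.finiteDimensional_sup K (Bl n)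
  have hc0 : Nat.card (K ≃ₐ[kk A B] K) ≠ 0 := Nat.card_pos.ne'
  obtain ⟨a, r, hr, hcr⟩ := Nat.exists_eq_pow_mul_and_not_dvd hc0 p hpp.ne_one
  have hr0 : r ≠ 0 := by
    rintro rfl
    exact hr (dvd_zero p)
  have hcopf : ∀ i, (nI (R.b i)).Coprime f := fun i => (R.cop i).coprime_mul_left_right
  have hcopp : ∀ i, (nI (R.b i)).Coprime p := fun i => (R.cop i).coprime_mul_right_right
  -- the characters of `Gal(K/k)`
  have hE := fun (j : {X : (K ≃ₐ[kk A B] K) →* ℂˣ // ∀ g, X g ^ r = 1}) =>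
    oi_E0 hARF hNIM p A B f (setQ_O hS) T ι R K hK hSub galK j.1 r j.2
  choose e0 kp e1 e2 e3 e4 e5 e6 e7 e8 using hE
  refine ⟨{X : (K ≃ₐ[kk A B] K) →* ℂˣ // ∀ g, X g ^ r = 1}, fin_chr r hr0, r, e0, kp, hr,
    fun j => ⟨e1 j, e2 j, e3 j, e4 j, e5 j, e6 j, e7 j⟩, ?_⟩
  intro n hn
  let aL : Algebra (kk A B) ↥(K ⊔ Bl (n + 1)) := algC hn
  intro X t ht hXt hg₀
  obtain ⟨g₀, hg1, hg2⟩ := hg₀
  obtain ⟨galL, comL⟩ := gal_ab l (kk A B) K Bl hB (n + 1) hn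
  have tL : IsScalarTower ℚ (kk A B) ↥(K ⊔ Bl (n + 1)) :=
    IsScalarTower.of_algebraMap_eq (fun _ => rfl)
  have fdL : FiniteDimensional (kk A B) ↥(K ⊔ Bl (n + 1)) :=
    Module.Finite.of_restrictScalars_finite ℚ (kk A B) _
  obtain ⟨r₁, r₂, hr1, hr2, hsplit⟩ := chr_split l (kk A B) K Bl hB (n + 1) hn
  obtain ⟨X₁, X₂, hX12⟩ := hsplit X
  have hX2 : ∀ g : Bl (n + 1) ≃ₐ[ℚ] Bl (n + 1), X₂ g ^ (l ^ (n + 1)) = 1 := by
    intro g
    have hGB : IsGalois ℚ (Bl (n + 1)) := (LAY_thm l (n + 1) (Bl (n + 1)) (hlay (n + 1))).2.1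
    have h1 : Nat.card (Bl (n + 1) ≃ₐ[ℚ] Bl (n + 1)) = l ^ (n + 1) := by
      rw [IsGalois.card_aut_eq_finrank, (hlay (n + 1)).1]
    rw [← h1, ← map_pow, pow_card_eq_one', map_one]
  have hpl' : ¬ p ∣ l ^ (n + 1) := fun h => hpl (hpp.dvd_of_dvd_pow h)
  obtain ⟨Y, hYr, hXY⟩ := fix_ord p a r t (l ^ (n + 1)) hpp hcr r₁ r₂ X X₁ X₂ hX12 ht hXt
    hpl' hX2
  obtain ⟨ψ, hψ1, hψ2, hψ3⟩ := cyc hLAY l s n hls (Bl n) (Bl (n + 1)) (hlay n) (hlay (n + 1))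
    (hmono (Nat.le_succ n)) X₂
  refine ⟨⟨Y, hYr⟩, ψ, hψ1, hψ2 ?_, ?_⟩
  · -- the ramified part
    refine ⟨r₂ g₀, ?_, ?_⟩
    · intro x hx
      have h1 := hr2 g₀ x ⟨(x : ℂ), (le_sup_right : Bl (n + 1) ≤ K ⊔ Bl (n + 1)) x.2⟩ rfl
      have h2 := hg1 ⟨(x : ℂ), (le_sup_right : Bl (n + 1) ≤ K ⊔ Bl (n + 1)) x.2⟩
        ((le_sup_right : Bl n ≤ K ⊔ Bl n) hx)
      rw [h2] at h1
      exact Subtype.ext h1.symm
    · intro h1
      have h2 : r₁ g₀ = 1 := by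
        ext x
        have h3 := hr1 g₀ x ⟨(x : ℂ), (le_sup_left : K ≤ K ⊔ Bl (n + 1)) x.2⟩ rfl
        have h4 := hg1 ⟨(x : ℂ), (le_sup_left : K ≤ K ⊔ Bl (n + 1)) x.2⟩
          ((le_sup_left : K ≤ K ⊔ Bl n) x.2)
        rw [h4] at h3
        exact h3.symm
      have h3 : X g₀ = 1 := by rw [hXY g₀, h1, h2, map_one, mul_one]
      exact hg2 h3
  · intro τ i x hxc hAR
    have hM0 : (l ^ (n + 1 + s)) ≠ 0 := pow_ne_zero _ hlp.ne_zero
    have hm2 : 2 ≤ lvX p (f * l ^ (n + 1 + s)) 0 := by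
      rw [hlv]
      calc 2 ≤ p := hpp.two_le
        _ = 1 * p := (one_mul p).symm
        _ ≤ f * l ^ (n + 1 + s) * p := Nat.mul_le_mul_right _
          (Nat.pos_of_ne_zero (mul_ne_zero hS.f0 hM0))
    have hm0 : idl (A := A) (B := B) (lvX p (f * l ^ (n + 1 + s)) 0) ≠ ⊥ := by
      rw [Ne, Ideal.span_singleton_eq_bot]
      exact natCast_ne_zero' hc (by omega)
    have hNL : ∃ (b : Ideal (OO A B)) (L : PeriodPair) (om : ℂ), IsNL b L om :=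
      ⟨_, _, _, R.nl R.i0⟩
    have hmf : idl (A := A) (B := B) (lvX p (f * l ^ (n + 1 + s)) 0) ≤ idl (lvX p f 0) := by
      rw [hlv, hlv, Ideal.span_singleton_le_span_singleton]
      push_cast
      exact mul_dvd_mul_right (dvd_mul_right _ _) _
    have hmM : idl (A := A) (B := B) (lvX p (f * l ^ (n + 1 + s)) 0) ≤
        idl (l ^ (n + 1 + s)) := by
      rw [hlv, Ideal.span_singleton_le_span_singleton]
      push_cast
      exact (dvd_mul_left _ _).mul_right _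
    -- the field is contained in the ray class field
    obtain ⟨i1, -, -, -, -, -, -, i8⟩ := hIAF A B hc T hNL _ hm0
    have hD := t_LVT hLAY hIAF l g s hGen p er A B P V f hS T hNL K hSub (n + 1) (Bl (n + 1))
      (hlay (n + 1))
    obtain ⟨a1, -, a3, a4, a5, a6, a7⟩ := hARF A B hc T hNL
      (idl (lvX p (f * l ^ (n + 1 + s)) 0)) hm0 (K ⊔ Bl (n + 1)) hn hD galL
    have hx0 : x ≠ 0 := by
      intro h0
      rw [h0, isCoprime_zero_left] at hxc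
      obtain ⟨z, hz⟩ := hxc.exists_right_inv
      have h := congrArg QuadraticAlgebra.re hz
      rw [QuadraticAlgebra.re_mul] at h
      simp only [QuadraticAlgebra.re_natCast, QuadraticAlgebra.im_natCast,
        QuadraticAlgebra.re_one, mul_zero, zero_mul, add_zero] at h
      have h' : ((lvX p (f * l ^ (n + 1 + s)) 0 : ℕ) : ℤ) ∣ 1 := ⟨_, h.symm⟩
      have h'' := Int.le_of_dvd one_pos h'
      omega
    have hb0 : R.b i ≠ ⊥ := (R.nl i).b_ne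
    have hspx : sp x ≠ ⊥ := by
      rwa [Ne, Ideal.span_singleton_eq_bot]
    obtain ⟨N, hNdef⟩ : ∃ N : ℕ, N = nI (sp x * cjI (R.b i)) := ⟨_, rfl⟩
    have hN : ((N : ℕ) : ℤ) = nm x * nI (R.b i) := by
      rw [hNdef, nI_mul hc hspx (cjI_ne_bot hc hb0), nI_sp hc hx0, nI_cjI hc hb0]
      push_cast
      rw [abs_of_nonneg (nm_nonneg hc x)]
    -- the automorphism of `ℂ`
    obtain ⟨σ, hσ, hσe⟩ := hAR
    have hσz : ∀ z : ℂ, z ^ (l ^ (n + 1 + s)) = 1 → σ z = z ^ N := fun z hz => by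
      rw [hNdef]
      exact (i8 (l ^ (n + 1 + s)) σ _ z hM0 hmM hσ hz).2
    have hNl : N.Coprime l := by
      have hζ : IsPrimitiveRoot (zt (l ^ (n + 1 + s))) (l ^ (n + 1 + s)) :=
        Complex.isPrimitiveRoot_exp (l ^ (n + 1 + s)) hM0
      have h1 : IsPrimitiveRoot (σ (zt (l ^ (n + 1 + s)))) (l ^ (n + 1 + s)) :=
        hζ.map_of_injective (f := σ) σ.injective
      rw [hσz _ hζ.pow_eq_one] at h1
      have h2 := (hζ.pow_iff_coprime (Nat.pos_of_ne_zero hM0) N).1 h1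
      exact h2.coprime_dvd_right (dvd_pow_self l (by omega))
    have hσB : ∀ y : Bl (n + 1), (σ : ℂ →+* ℂ) (y : ℂ) = (r₂ τ y : Bl (n + 1)) := by
      intro y
      have h1 := hσe ⟨(y : ℂ), (le_sup_right : Bl (n + 1) ≤ K ⊔ Bl (n + 1)) y.2⟩
      have h2 := hr2 τ y ⟨(y : ℂ), (le_sup_right : Bl (n + 1) ≤ K ⊔ Bl (n + 1)) y.2⟩ rfl
      rw [h2] at h1
      exact h1
    have hψN := hψ3 (σ : ℂ →+* ℂ) N (r₂ τ) hNl hσz hσB
    have hARK : AR hK (idl (lvX p f 0)) (r₁ τ) (sp x * cjI (R.b i)) :=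
      a6 K hK (idl (lvX p f 0)) hmf le_sup_left τ (r₁ τ) _ (fun y y' h => hr1 τ y y' h)
        ⟨σ, hσ, hσe⟩
    have hxfp : IsCoprime x ((lvX p f 0 : ℕ) : OO A B) := by
      refine IsCoprime.of_isCoprime_of_dvd_right hxc ?_
      rw [hlv, hlv]
      push_cast
      exact mul_dvd_mul_right (dvd_mul_right _ _) _
    have hΨ := e8 ⟨Y, hYr⟩ (r₁ τ) i x hxfp hARK
    have hcast : ((nI (R.b i) : ℕ) : ZMod (l ^ (n + 1 + s))) *
        ((nm x : ℤ) : ZMod (l ^ (n + 1 + s))) = ((N : ℕ) : ZMod (l ^ (n + 1 + s))) := by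
      have h1 := congrArg (Int.cast : ℤ → ZMod (l ^ (n + 1 + s))) hN
      push_cast at h1
      rw [h1, mul_comm]
    have h2 : kp ⟨Y, hYr⟩ i * ψ ((nI (R.b i) : ℕ) : ZMod (l ^ (n + 1 + s))) *
        (e0 ⟨Y, hYr⟩ x * ψ ((nm x : ℤ) : ZMod (l ^ (n + 1 + s)))) =
        (kp ⟨Y, hYr⟩ i * e0 ⟨Y, hYr⟩ x) * (ψ ((nI (R.b i) : ℕ) : ZMod (l ^ (n + 1 + s))) *
          ψ ((nm x : ℤ) : ZMod (l ^ (n + 1 + s)))) := by ring
    rw [h2, ← map_mul, hcast, hψN, ← hΨ, ← Units.val_mul, ← mul_inv, ← hXY τ]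

end Pool.Agent.OT
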