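import Pool.Agent.OT.StI

/-!
# OT, block I, module CHK (problem MP_b78433_nt)

If a character with values in the residue field is not trivial on `H` then its lift is not trivial
on `H`.
-/

set_option autoImplicit false

namespace Pool.Agent.OTI

namespace CHKx

/-- the core of (CHK) -/
theorem core (p : ℕ) [Fact p.Prime] (V : ValuationSubring ℂ) (hp : (p : ℂ) ∈ V.nonunits)
    (Δ : Type) [Group Δ] [Finite Δ] (χ : Δ →* (IsLocalRing.ResidueField V)ˣ) (X : Δ →* ℂˣ)
    (hX : ∀ (Δ' : Type) [Group Δ'] [Fintype Δ'] (j : Δ' →* Δ), Function.Injective j →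
      ∃ θ : IsLocalRing.ResidueField V →+ ZMod p,
        (∑ δ : Δ', ((θ ((χ (j δ))⁻¹ : (IsLocalRing.ResidueField V)ˣ)).val : ℂ) *
          (X (j δ) : ℂ)) ∉ V.nonunits)
    (H : Subgroup Δ) (hH : ∃ g ∈ H, χ g ≠ 1) : ∃ g ∈ H, X g ≠ 1 := by
  classical
  by_contra hc
  push Not at hc
  have : Fintype H := Fintype.ofFinite H
  obtain ⟨θ, hθ⟩ := hX H H.subtype H.subtype_injective
  apply hθ
  have e1 : (∑ δ : H, ((θ ((χ (H.subtype δ))⁻¹ : (IsLocalRing.ResidueField V)ˣ)).val : ℂ) *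
      (X (H.subtype δ) : ℂ)) =
      ((∑ δ : H, (θ ((χ (H.subtype δ))⁻¹ : (IsLocalRing.ResidueField V)ˣ)).val : ℕ) : ℂ) := by
    rw [Nat.cast_sum]
    refine Finset.sum_congr rfl fun δ _ => ?_
    have : X (H.subtype δ) = 1 := hc _ δ.2
    rw [this, Units.val_one, mul_one]
  rw [e1]
  have e2 : (∑ δ : H, (((χ (H.subtype δ))⁻¹ : (IsLocalRing.ResidueField V)ˣ) :
      IsLocalRing.ResidueField V)) = 0 := by
    obtain ⟨g, hg, hg1⟩ := hH
    have := sum_hom_units_eq_zero ((Units.coeHom (IsLocalRing.ResidueField V)).comp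
      (χ.comp H.subtype)⁻¹) (by
        intro h
        apply hg1
        have h2 := DFunLike.congr_fun h (⟨g, hg⟩ : H)
        simp only [MonoidHom.comp_apply, MonoidHom.inv_apply, Units.coeHom_apply,
          MonoidHom.one_apply, Subgroup.subtype_apply] at h2
        have h3 : (χ g)⁻¹ = 1 := Units.ext h2
        exact inv_eq_one.1 h3)
    simpa using this
  have e3 : ((∑ δ : H, (θ ((χ (H.subtype δ))⁻¹ :
      (IsLocalRing.ResidueField V)ˣ)).val : ℕ) : ZMod p) = 0 := by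
    rw [Nat.cast_sum]
    simp only [ZMod.natCast_val, ZMod.cast_id', id]
    rw [← map_sum, e2, map_zero]
  obtain ⟨m, hm⟩ := (ZMod.natCast_eq_zero_iff _ _).1 e3
  rw [hm, Nat.cast_mul]
  rw [ValuationSubring.mem_nonunits_iff] at hp ⊢
  rw [map_mul]
  have h2 : V.valuation (m : ℂ) ≤ 1 := V.valuation_le_one ⟨(m : ℂ), natCast_mem V m⟩
  calc V.valuation (p : ℂ) * V.valuation (m : ℂ) ≤ V.valuation (p : ℂ) * 1 :=
        mul_le_mul_right h2 _
    _ = V.valuation (p : ℂ) := mul_one _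
    _ < 1 := hp

end CHKx

open CHKx

/-- (CHK) -/
theorem ti_CHK : Ti_CHK := by
  intro p _ V hp Δ _ _ χ X hX H hH
  exact CHKx.core p V hp Δ χ X hX H hH

end Pool.Agent.OTI
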