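import Pool.Agent.OT.StI
import Pool.Agent.OB.I_NCR
import Pool.Agent.OB.I_XMX

/-!
# OT, block I, module NCB (helper7): two embeddings agree on the layer iff `a^(p-1) = b^(p-1)` modulo `p^(n+1)`
-/

set_option autoImplicit false

open NumberField Polynomial

namespace Pool.Agent.OTI

namespace NCBx

open _root_.MU3 Pool.Agent.MU3 Pool.Agent.RI Pool.Agent.RID Pool.Agent.OB Pool.Agent.OB.Lay
  Pool.Agent.MU3I Pool.Agent.MU3I.Ilay Pool.Agent.OBI Pool.Agent.OBI.NCRx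

/-- in a finite cyclic group a subgroup of order `d` is the set of the elements with `x^d = 1` -/
lemma mem_iff {G : Type*} [Group G] [Finite G] [IsCyclic G] (H : Subgroup G) (d : ℕ) (hd : 0 < d)
    (hH : Nat.card H = d) (x : G) : x ∈ H ↔ x ^ d = 1 := by
  classical
  have : Fintype G := Fintype.ofFinite G
  constructor
  · intro hx
    have h1 : (⟨x, hx⟩ : H) ^ Nat.card H = 1 := pow_card_eq_one'
    rw [hH] at h1
    exact congrArg Subtype.val h1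
  · intro hx
    have h1 : (Finset.univ.filter (fun a : G => a ∈ H)) ⊆
        Finset.univ.filter (fun a : G => a ^ d = 1) := by
      intro a ha
      rw [Finset.mem_filter] at ha ⊢
      refine ⟨ha.1, ?_⟩
      have h2 : (⟨a, ha.2⟩ : H) ^ Nat.card H = 1 := pow_card_eq_one'
      rw [hH] at h2
      exact congrArg Subtype.val h2
    have h3 : (Finset.univ.filter (fun a : G => a ∈ H)).card = d := by
      rw [← hH, Nat.card_eq_fintype_card, Fintype.card_subtype]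
    have h4 := IsCyclic.card_pow_eq_one_le (α := G) hd
    have h5 := Finset.eq_of_subset_of_card_le h1 (by rw [h3]; exact h4)
    have h6 : x ∈ Finset.univ.filter (fun a : G => a ^ d = 1) := by
      rw [Finset.mem_filter]
      exact ⟨Finset.mem_univ _, hx⟩
    rw [← h5, Finset.mem_filter] at h6
    exact h6.2

/-- the automorphisms of the cyclotomic field -/
lemma auts (p m : ℕ) [hp : Fact p.Prime] :
    ∃ e : ((CCf p m) ≃ₐ[ℚ] (CCf p m)) ≃* (ZMod (p ^ m))ˣ,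
      ∀ (σ : (CCf p m) ≃ₐ[ℚ] (CCf p m)) (z : CCf p m), z ^ (p ^ m) = 1 →
        σ z = z ^ ((e σ : ZMod (p ^ m)).val) := by
  have hN : p ^ m ≠ 0 := pow_ne_zero m hp.out.ne_zero
  have : NeZero (p ^ m) := ⟨hN⟩
  have hirr : Irreducible (cyclotomic (p ^ m) ℚ) :=
    cyclotomic.irreducible_rat (Nat.pos_of_ne_zero hN)
  have hcyc : IsCyclotomicExtension {p ^ m} ℚ (CCf p m) := by
    have h := IntermediateField.isCyclotomicExtension_adjoin_of_exists_isPrimitiveRoot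
      ({p ^ m} : Set ℕ) ℚ ℂ (fun n hn _ => by
        rw [Set.mem_singleton_iff] at hn
        rw [hn]
        exact ⟨_, Complex.isPrimitiveRoot_exp _ hN⟩)
    have hset : {x : ℂ | ∃ n ∈ ({p ^ m} : Set ℕ), n ≠ 0 ∧ x ^ n = 1} =
        {z : ℂ | z ^ (p ^ m) = 1} := by
      ext x
      simp [hp.out.ne_zero]
    rw [hset] at h
    exact h
  refine ⟨IsCyclotomicExtension.autEquivPow (CCf p m) hirr, ?_⟩
  intro σ z hz
  have hζ := IsCyclotomicExtension.zeta_spec (p ^ m) ℚ (CCf p m)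
  obtain ⟨i, -, hi⟩ := hζ.eq_pow_of_pow_eq_one hz
  have h1 : σ (IsCyclotomicExtension.zeta (p ^ m) ℚ (CCf p m)) =
      (IsCyclotomicExtension.zeta (p ^ m) ℚ (CCf p m)) ^
        (((IsCyclotomicExtension.autEquivPow (CCf p m) hirr) σ : ZMod (p ^ m)).val) :=
    (hζ.autToPow_spec ℚ σ).symm
  rw [← hi, map_pow, h1, ← pow_mul, ← pow_mul, mul_comm]

/-- the automorphisms of a cyclic extension which fix a subfield -/
lemma fixG {F E : Type} [Field F] [Field E] [Algebra F E] (B C : IntermediateField F E)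
    (hBC : B ≤ C) [FiniteDimensional F C] [IsGalois F C] [IsCyclic (C ≃ₐ[F] C)] (m d : ℕ)
    (hm : 0 < m) (hd : 0 < d) (hB : Module.finrank F B = m) (hC : Module.finrank F C = m * d)
    (σ : C ≃ₐ[F] C) : (∀ z : C, (z : E) ∈ B → σ z = z) ↔ σ ^ d = 1 := by
  set B' := IntermediateField.restrict hBC with hB'
  have hb : Module.finrank F B' = m := by
    rw [← hB]
    exact (IntermediateField.restrictAlgEquiv hBC).toLinearEquiv.finrank_eq.symm
  have h7 := Module.finrank_mul_finrank F B' C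
  rw [hb, hC] at h7
  have h8 : Module.finrank B' C = d := Nat.eq_of_mul_eq_mul_left hm h7
  rw [← IsGalois.card_fixingSubgroup_eq_finrank] at h8
  rw [← mem_iff _ d hd h8 σ, IntermediateField.mem_fixingSubgroup_iff]
  constructor
  · intro h x hx
    exact h x ((IntermediateField.mem_restrict hBC x).1 hx)
  · intro h z hz
    exact h z ((IntermediateField.mem_restrict hBC z).2 hz)

/-- the automorphisms which fix the layer -/
lemma fixB (p : ℕ) [hp : Fact p.Prime] (h2 : p ≠ 2) (n : ℕ) (B : IntermediateField ℚ ℂ)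
    (hB : IsLayer p n B) (hBC : B ≤ CCf p (n + 1))
    (σ : (CCf p (n + 1)) ≃ₐ[ℚ] (CCf p (n + 1))) :
    (∀ z : CCf p (n + 1), (z : ℂ) ∈ B → σ z = z) ↔ σ ^ (p - 1) = 1 := by
  have hN : p ^ (n + 1) ≠ 0 := pow_ne_zero _ hp.out.ne_zero
  have hirr : Irreducible (cyclotomic (p ^ (n + 1)) ℚ) :=
    cyclotomic.irreducible_rat (Nat.pos_of_ne_zero hN)
  obtain ⟨h3, h4, h5, h6⟩ :=
    cycC (F := ℚ) (E := ℂ) p (n + 1) h2 hirr (Complex.isPrimitiveRoot_exp _ hN)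
  have hpos : 0 < p - 1 := by
    have := hp.out.two_le
    omega
  rw [Nat.totient_prime_pow_succ hp.out] at h6
  exact fixG (F := ℚ) (E := ℂ) B (IntermediateField.adjoin ℚ {z : ℂ | z ^ (p ^ (n + 1)) = 1}) hBC
    (p ^ n) (p - 1) (pow_pos hp.out.pos n) hpos hB.1 h6 σ

/-- an embedding of `D ⊇ RB p n` agrees with an automorphism of the cyclotomic field -/
lemma agree (p : ℕ) [hp : Fact p.Prime] (n : ℕ) (D : IntermediateField ℚ ℂ) (hD : RB p n ≤ D)
    (φ : ↥D →+* ℂ) (a : ℕ) (y : ↥D)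
    (hy : (y : ℂ) = zt (p ^ (n + 1)) + (zt (p ^ (n + 1)))⁻¹)
    (hφ : φ y = zt (p ^ (n + 1)) ^ a + (zt (p ^ (n + 1)) ^ a)⁻¹)
    (s : (CCf p (n + 1)) ≃ₐ[ℚ] (CCf p (n + 1)))
    (hs : ∀ z : CCf p (n + 1), z ^ (p ^ (n + 1)) = 1 → s z = z ^ a)
    (x : ℂ) (hx : x ∈ RB p n) (hxD : x ∈ D) (hxC : x ∈ CCf p (n + 1)) :
    φ ⟨x, hxD⟩ = (s ⟨x, hxC⟩ : ℂ) := by
  have hM : p ^ (n + 1) ≠ 0 := pow_ne_zero _ hp.out.ne_zero
  have hC : RB p n ≤ CCf p (n + 1) := rb_cc p n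
  let φ' : ↥(RB p n) →+* ℂ := φ.comp (IntermediateField.inclusion hD : ↥(RB p n) →+* ↥D)
  let ψ' : ↥(RB p n) →+* ℂ := ((CCf p (n + 1)).val : ↥(CCf p (n + 1)) →+* ℂ).comp
    ((s : ↥(CCf p (n + 1)) →+* ↥(CCf p (n + 1))).comp
      (IntermediateField.inclusion hC : ↥(RB p n) →+* ↥(CCf p (n + 1))))
  have hyR : zt (p ^ (n + 1)) + (zt (p ^ (n + 1)))⁻¹ ∈ RB p n := by
    unfold RB
    exact IntermediateField.mem_adjoin_simple_self ℚ _
  have hzC : zt (p ^ (n + 1)) ∈ CCf p (n + 1) :=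
    IntermediateField.subset_adjoin _ _ (zt_prim _ hM).pow_eq_one
  have h1 : φ' ⟨_, hyR⟩ = ψ' ⟨_, hyR⟩ := by
    have e1 : φ' ⟨_, hyR⟩ = φ y := congrArg φ (Subtype.ext hy.symm)
    have e2 : ψ' ⟨_, hyR⟩ = (s (⟨_, hzC⟩ + ⟨_, hzC⟩⁻¹) : ℂ) := rfl
    rw [e1, e2, hφ, map_add, map_inv₀, hs ⟨_, hzC⟩ (Subtype.ext (by
      rw [SubmonoidClass.coe_pow]
      exact (zt_prim _ hM).pow_eq_one))]
    rfl
  have h2 := Pool.Agent.OBI.XMXx.eqB (B := RB p n) (D := RB p n) (by unfold RB; rfl) φ' ψ' hyR h1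
    ⟨x, hx⟩ hx
  exact h2

end NCBx

open _root_.MU3 Pool.Agent.MU3 Pool.Agent.RI Pool.Agent.RID Pool.Agent.OB Pool.Agent.OB.Lay
  Pool.Agent.MU3I Pool.Agent.MU3I.Ilay Pool.Agent.OBI Pool.Agent.OBI.NCRx NCBx in
theorem ti_NCB : Ti_NCB := by
  intro p hp h2 n Bn hB hBR D hD φ ψ a b ha hb y hy hφ hψ
  have hM : p ^ (n + 1) ≠ 0 := pow_ne_zero _ hp.out.ne_zero
  have hNZ : NeZero (p ^ (n + 1)) := ⟨hM⟩
  have hBC : Bn ≤ CCf p (n + 1) := hBR.trans (rb_cc p n)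
  obtain ⟨e, he⟩ := auts p (n + 1)
  have cop : ∀ c : ℕ, ¬ p ∣ c → Nat.Coprime c (p ^ (n + 1)) := fun c hc =>
    Nat.Coprime.pow_right _ ((Nat.Prime.coprime_iff_not_dvd hp.out).2 hc).symm
  -- the automorphism of a unit
  have ex : ∀ (c : ℕ) (hc : ¬ p ∣ c), ∀ z : CCf p (n + 1), z ^ (p ^ (n + 1)) = 1 →
      (e.symm (ZMod.unitOfCoprime c (cop c hc))) z = z ^ c := by
    intro c hc z hz
    rw [he _ z hz, MulEquiv.apply_symm_apply, ZMod.coe_unitOfCoprime, ZMod.val_natCast]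
    conv_rhs => rw [← Nat.mod_add_div c (p ^ (n + 1)), pow_add, pow_mul, hz, one_pow, mul_one]
  set s := e.symm (ZMod.unitOfCoprime a (cop a ha)) with hs
  set t := e.symm (ZMod.unitOfCoprime b (cop b hb)) with ht
  have hsφ := agree p n D hD φ a y hy hφ s (ex a ha)
  have htψ := agree p n D hD ψ b y hy hψ t (ex b hb)
  have h1 : (∀ z : ↥D, (z : ℂ) ∈ Bn → φ z = ψ z) ↔
      (∀ z : CCf p (n + 1), (z : ℂ) ∈ Bn → (t⁻¹ * s) z = z) := by
    constructor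
    · intro h z hz
      have hzR : (z : ℂ) ∈ RB p n := hBR hz
      have h3 := h ⟨z, hD hzR⟩ hz
      rw [hsφ z hzR (hD hzR) z.2, htψ z hzR (hD hzR) z.2] at h3
      have h4 : s z = t z := Subtype.ext h3
      rw [AlgEquiv.mul_apply, h4, ← AlgEquiv.mul_apply, inv_mul_cancel]
      rfl
    · intro h z hz
      have hzR : (z : ℂ) ∈ RB p n := hBR hz
      have hzC : (z : ℂ) ∈ CCf p (n + 1) := hBC hz
      have h3 := h ⟨z, hzC⟩ hz
      have h4 : s ⟨z, hzC⟩ = t ⟨z, hzC⟩ := by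
        conv_rhs => rw [← h3]
        rw [← AlgEquiv.mul_apply, mul_inv_cancel_left]
      have e1 : φ z = (s ⟨z, hzC⟩ : ℂ) := hsφ z hzR z.2 hzC
      have e2 : ψ z = (t ⟨z, hzC⟩ : ℂ) := htψ z hzR z.2 hzC
      rw [e1, e2, h4]
  rw [h1, fixB p h2 n Bn hB hBC (t⁻¹ * s)]
  have h5 : (t⁻¹ * s) ^ (p - 1) = 1 ↔
      (ZMod.unitOfCoprime a (cop a ha)) ^ (p - 1) = (ZMod.unitOfCoprime b (cop b hb)) ^ (p - 1) := by
    rw [hs, ht, ← map_inv, ← map_mul, ← map_pow, EmbeddingLike.map_eq_one_iff, mul_pow, inv_pow,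
      inv_mul_eq_one, eq_comm]
  rw [h5, Units.ext_iff, Units.val_pow_eq_pow_val, Units.val_pow_eq_pow_val,
    ZMod.coe_unitOfCoprime, ZMod.coe_unitOfCoprime]
  have h6 : ((a : ZMod (p ^ (n + 1))) ^ (p - 1) = (b : ZMod (p ^ (n + 1))) ^ (p - 1)) ↔
      (((b : ℤ) ^ (p - 1) : ℤ) : ZMod (p ^ (n + 1))) = (((a : ℤ) ^ (p - 1) : ℤ) : ZMod (p ^ (n + 1))) := by
    push_cast
    exact eq_comm
  rw [h6, ZMod.intCast_eq_intCast_iff_dvd_sub]

end Pool.Agent.OTI
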