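import Pool.Agent.OT.StI

/-!
# OT, block I: module Z0, existence of `z₀`

`z₀ = g^(p^n)` for a generator `g` of `(ZMod p)ˣ`.
-/

set_option autoImplicit false

namespace Pool.Agent.OTI

open Pool.Agent.OT

theorem ti_Z0 : Ti_Z0 := by
  intro p hp _ n
  have : Fact p.Prime := ⟨hp⟩
  obtain ⟨g, hg⟩ := IsCyclic.exists_generator (α := (ZMod p)ˣ)
  set z : ℤ := (((g : ZMod p)).val : ℤ) with hz
  have hzc : ((z : ℤ) : ZMod p) = (g : ZMod p) := by
    rw [hz]; simp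
  have hpow : ∀ m : ℕ, (((z ^ (p ^ m) : ℤ)) : ZMod p) = (g : ZMod p) := by
    intro m
    rw [Int.cast_pow, hzc]
    exact ZMod.pow_card_pow _
  have hcard : Fintype.card (ZMod p)ˣ = p - 1 := ZMod.card_units p
  have h1 : (p : ℤ) ∣ z ^ (p - 1) - 1 := by
    rw [← ZMod.intCast_zmod_eq_zero_iff_dvd, Int.cast_sub, Int.cast_pow, hzc, Int.cast_one,
      ZMod.pow_card_sub_one_eq_one (Units.ne_zero g), sub_self]
  refine ⟨z ^ (p ^ n), ⟨?_, ?_⟩⟩
  · have h2 := dvd_sub_pow_of_dvd_sub (R := ℤ) (p := p) h1 n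
    rw [← pow_mul, mul_comm, pow_mul]
    simpa using h2
  · intro a ha
    have ha0 : ((a : ℤ) : ZMod p) ≠ 0 := by
      rw [Ne, ZMod.intCast_zmod_eq_zero_iff_dvd]; exact ha
    obtain ⟨u, hu⟩ : ∃ u : (ZMod p)ˣ, (u : ZMod p) = (a : ZMod p) := ⟨Units.mk0 _ ha0, rfl⟩
    have hmem := hg u
    rw [mem_zpowers_iff_mem_range_orderOf] at hmem
    simp only [Finset.mem_image, Finset.mem_range] at hmem
    obtain ⟨k, hk, hku⟩ := hmem
    rw [orderOf_eq_card_of_forall_mem_zpowers hg, Nat.card_eq_fintype_card, hcard] at hk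
    refine ⟨k, hk, ?_⟩
    rw [← ZMod.intCast_zmod_eq_zero_iff_dvd, Int.cast_sub, Int.cast_pow, hpow n, ← hu, ← hku,
      Units.val_pow_eq_pow_val, sub_self]

end Pool.Agent.OTI
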