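import Pool.Agent.OT.StI
import Mathlib.NumberTheory.Multiplicity

/-!
# OT, block I: the module ZAR (arithmetic of `z₀`)
-/

set_option autoImplicit false

namespace Pool.Agent.OTI

open Pool.Agent.OT

namespace ZARx

theorem not_dvd {p n : ℕ} (hp : p.Prime) {z₀ : ℤ} (h : IsZ0 p n z₀) : ¬ (p : ℤ) ∣ z₀ := by
  intro hd
  have h1 : (p : ℤ) ∣ z₀ ^ (p - 1) := dvd_pow hd (by have := hp.two_le; omega)
  have h2 : (p : ℤ) ∣ z₀ ^ (p - 1) - 1 :=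
    (by exact_mod_cast dvd_pow_self (p : ℤ) (Nat.succ_ne_zero n) :
      (p : ℤ) ∣ ((p ^ (n + 1) : ℕ) : ℤ)).trans h.one
  have h3 : (p : ℤ) ∣ 1 := by
    have := dvd_sub h1 h2
    simpa using this
  exact (Nat.prime_iff_prime_int.1 hp).not_dvd_one h3

theorem inj {p n : ℕ} (hp : p.Prime) {z₀ : ℤ} (h : IsZ0 p n z₀) (k k' : ℕ) (hk : k < p - 1)
    (hk' : k' < p - 1) (hd : (p : ℤ) ∣ z₀ ^ k - z₀ ^ k') : k = k' := by
  haveI : Fact p.Prime := ⟨hp⟩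
  have hz : ((z₀ : ℤ) : ZMod p) ≠ 0 := by
    rw [Ne, ZMod.intCast_zmod_eq_zero_iff_dvd]
    exact not_dvd hp h
  obtain ⟨u, hu⟩ : ∃ u : (ZMod p)ˣ, (u : ZMod p) = ((z₀ : ℤ) : ZMod p) := ⟨Units.mk0 _ hz, rfl⟩
  have hsur : Function.Surjective (fun i : Fin (p - 1) => u ^ (i : ℕ)) := by
    intro v
    have hv : ¬ (p : ℤ) ∣ (((v : ZMod p).val : ℕ) : ℤ) := by
      rw [← ZMod.intCast_zmod_eq_zero_iff_dvd]
      have h1 : ((((v : ZMod p).val : ℕ) : ℤ) : ZMod p) = v := by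
        rw [Int.cast_natCast, ZMod.natCast_zmod_val]
      rw [h1]
      exact v.ne_zero
    obtain ⟨i, hi, hdi⟩ := h.gen _ hv
    refine ⟨⟨i, hi⟩, ?_⟩
    apply Units.ext
    show ((u ^ i : (ZMod p)ˣ) : ZMod p) = v
    rw [Units.val_pow_eq_pow_val, hu]
    have h2 := (ZMod.intCast_zmod_eq_zero_iff_dvd _ p).2 hdi
    rw [Int.cast_sub, Int.cast_natCast, ZMod.natCast_zmod_val, Int.cast_pow] at h2
    exact (sub_eq_zero.1 h2).symm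
  have hbij : Function.Bijective (fun i : Fin (p - 1) => u ^ (i : ℕ)) := by
    rw [Fintype.bijective_iff_surjective_and_card]
    exact ⟨hsur, by rw [Fintype.card_fin, ZMod.card_units]⟩
  have h3 : (fun i : Fin (p - 1) => u ^ (i : ℕ)) ⟨k, hk⟩ =
      (fun i : Fin (p - 1) => u ^ (i : ℕ)) ⟨k', hk'⟩ := by
    apply Units.ext
    show ((u ^ k : (ZMod p)ˣ) : ZMod p) = ((u ^ k' : (ZMod p)ˣ) : ZMod p)
    rw [Units.val_pow_eq_pow_val, Units.val_pow_eq_pow_val, hu]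
    have h4 := (ZMod.intCast_zmod_eq_zero_iff_dvd _ p).2 hd
    rw [Int.cast_sub, Int.cast_pow, Int.cast_pow] at h4
    exact sub_eq_zero.1 h4
  exact congrArg Fin.val (hbij.1 h3)

theorem main {p n : ℕ} (hp : p.Prime) {z₀ : ℤ} (h : IsZ0 p n z₀) (N : ℤ) (j : ℕ)
    (hN : ¬ (p : ℤ) ∣ N) :
    (((p ^ (n + 1) : ℕ) : ℤ) ∣ N ^ (p - 1) - ((1 + (p : ℤ)) ^ j) ^ (p - 1) ↔
      ∃ k < p - 1, ((p ^ (n + 1) : ℕ) : ℤ) ∣ N - z₀ ^ k * (1 + (p : ℤ)) ^ j) := by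
  have hp' : Prime (p : ℤ) := Nat.prime_iff_prime_int.1 hp
  have hone : z₀ ^ (p - 1) ≡ 1 [ZMOD ((p ^ (n + 1) : ℕ) : ℤ)] :=
    (Int.modEq_iff_dvd.2 h.one).symm
  have hy : ∀ k : ℕ, (z₀ ^ k * (1 + (p : ℤ)) ^ j) ^ (p - 1) ≡ ((1 + (p : ℤ)) ^ j) ^ (p - 1)
      [ZMOD ((p ^ (n + 1) : ℕ) : ℤ)] := by
    intro k
    have h1 : (z₀ ^ k * (1 + (p : ℤ)) ^ j) ^ (p - 1) =
        (z₀ ^ (p - 1)) ^ k * ((1 + (p : ℤ)) ^ j) ^ (p - 1) := by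
      rw [mul_pow, ← pow_mul z₀, mul_comm k, pow_mul z₀]
    rw [h1]
    have h2 := (hone.pow k).mul_right (((1 + (p : ℤ)) ^ j) ^ (p - 1))
    rwa [one_pow, one_mul] at h2
  constructor
  · intro hd
    obtain ⟨k, hk, hdk⟩ := h.gen N hN
    refine ⟨k, hk, ?_⟩
    have hT : (p : ℤ) ∣ (1 + (p : ℤ)) ^ j - 1 := by
      have h1 : (1 + (p : ℤ)) - 1 ∣ (1 + (p : ℤ)) ^ j - 1 ^ j := sub_dvd_pow_sub_pow _ _ j
      rw [one_pow] at h1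
      have h2 : (1 + (p : ℤ)) - 1 = p := by ring
      rwa [h2] at h1
    have hxy : (p : ℤ) ∣ N - z₀ ^ k * (1 + (p : ℤ)) ^ j := by
      have h1 := dvd_sub hdk (hT.mul_left (z₀ ^ k))
      have h2 : N - z₀ ^ k - z₀ ^ k * ((1 + (p : ℤ)) ^ j - 1) =
          N - z₀ ^ k * (1 + (p : ℤ)) ^ j := by ring
      rwa [h2] at h1
    have hpn : ¬ (p : ℤ) ∣ ((p - 1 : ℕ) : ℤ) := by
      intro h1
      have h2 := Int.natCast_dvd_natCast.1 h1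
      have h3 := hp.two_le
      exact absurd (Nat.le_of_dvd (by omega) h2) (by omega)
    have hmul := emultiplicity_pow_sub_pow_of_prime hp' hxy hN hpn
    have hd2 : ((p ^ (n + 1) : ℕ) : ℤ) ∣ N ^ (p - 1) - (z₀ ^ k * (1 + (p : ℤ)) ^ j) ^ (p - 1) := by
      have h1 := (hy k)
      have h2 := dvd_add hd h1.dvd
      have h3 : N ^ (p - 1) - ((1 + (p : ℤ)) ^ j) ^ (p - 1) +
          (((1 + (p : ℤ)) ^ j) ^ (p - 1) - (z₀ ^ k * (1 + (p : ℤ)) ^ j) ^ (p - 1)) =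
          N ^ (p - 1) - (z₀ ^ k * (1 + (p : ℤ)) ^ j) ^ (p - 1) := by ring
      rwa [h3] at h2
    rw [Nat.cast_pow] at hd2 ⊢
    rw [pow_dvd_iff_le_emultiplicity] at hd2 ⊢
    rwa [hmul] at hd2
  · rintro ⟨k, -, hd⟩
    have h1 : z₀ ^ k * (1 + (p : ℤ)) ^ j ≡ N [ZMOD ((p ^ (n + 1) : ℕ) : ℤ)] :=
      Int.modEq_iff_dvd.2 hd
    have h2 := (h1.pow (p - 1)).symm.trans (hy k)
    exact (Int.modEq_iff_dvd.1 h2.symm)

end ZARx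

theorem ti_ZAR : Ti_ZAR := fun _ _ hp _ _ h =>
  ⟨ZARx.not_dvd hp h, fun k k' hk hk' hd => ZARx.inj hp h k k' hk hk' hd,
    fun N j hN => ZARx.main hp h N j hN⟩

end Pool.Agent.OTI
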