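import Pool.Agent.OT.StI
import Pool.Agent.OB.I_TH

/-!
# OT, block I, module THF: the sums over `Δ` are the sums `SG` (after `Pool/Agent/OB/I_TH.lean`)
-/

set_option autoImplicit false

open NumberField

namespace Pool.Agent.OTI

open _root_.MU3 Pool.Agent.MU3 Pool.Agent.MU3A Pool.Agent.MU3B Pool.Agent.RI Pool.Agent.RID
  Pool.Agent.MUX Pool.Agent.MUXK Pool.Agent.MUXI Pool.Agent.NS Pool.Agent.NSI Pool.Agent.OB
  Pool.Agent.OBI Pool.Agent.OT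

noncomputable section

namespace THFx

/-! ### The sets -/

section

variable {A B : ℤ} {p f n : ℕ} {ι : Type} {R : Reps A B (p * f) ι} {z₀ : ℤ} {G : Type} [Group G]
  {γ : G} {Δ : Subgroup G} {X : G → Set (ι × (OO A B ⧸ idl (A := A) (B := B) (lvX p f n)))}

lemma mem_iff (hM : XMF R p f n z₀ γ Δ X)
    (q : ι × (OO A B ⧸ idl (A := A) (B := B) (lvX p f n))) (j : ℕ) :
    (∃ δ : Δ, q ∈ X (γ ^ j * (δ : G))) ↔
      IsCoprime (Quotient.out q.2 : OO A B) ((lvX p f n : ℕ) : OO A B) ∧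
      ∃ k < p - 1, ((p ^ (n + 1) : ℕ) : ℤ) ∣
        nm (Quotient.out q.2) * nI (R.b q.1) - z₀ ^ k * (1 + (p : ℤ)) ^ j := by
  constructor
  · rintro ⟨δ, hδ⟩
    refine ⟨hM.cop _ _ hδ, (hM.nrm q _ hδ j).1 ?_⟩
    rw [hM.comm (γ ^ j) δ, mul_inv_cancel_right]
    exact δ.2
  · rintro ⟨hc, hC⟩
    obtain ⟨τ, hτ⟩ := hM.ex q hc
    have h1 := (hM.nrm q τ hτ j).2 hC
    refine ⟨⟨_, h1⟩, ?_⟩
    have h2 : γ ^ j * (τ * (γ ^ j)⁻¹) = τ := by
      rw [hM.comm (γ ^ j), inv_mul_cancel_right]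
    rw [h2]
    exact hτ

end

/-- a linear combination of sums -/
lemma comb_sumk {Q : Type} [Finite Q] (m : ℕ) (k : ℂ) (u : ℕ → ℂ) (F : ℕ → Q → ℂ) (G : Q → ℂ)
    (h : ∀ x, G x = k * ∑ i ∈ Finset.range m, u i * F i x) :
    ∑ᶠ x : Q, G x = k * ∑ i ∈ Finset.range m, u i * ∑ᶠ x : Q, F i x := by
  have : Fintype Q := Fintype.ofFinite Q
  rw [finsum_eq_sum_of_fintype, Finset.sum_congr rfl fun x _ => h x, ← Finset.mul_sum,
    Finset.sum_comm]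
  congr 1
  refine Finset.sum_congr rfl fun i _ => ?_
  rw [finsum_eq_sum_of_fintype, Finset.mul_sum]

/-! ### One summand -/

open Classical in
lemma term {p : ℕ} {A B : ℤ} {f : ℕ}
    (hS : SetQ p A B f) (n : ℕ) {z₀ : ℤ} (h2 : Ti_ZAR) (hz : IsZ0 p n z₀)
    {e0 e w : OO A B → ℂ} {t : ℤ → ℂ} {q₁ : ℕ}
    {g : Ideal (OO A B)} (hg : g ≤ idl f)
    (hE : IsEI g e) (hq₁ : q₁ ≠ 0) (ht : IsTw p q₁ t)
    (hes : ∀ x, IsCoprime x ((lvX p f 0 : ℕ) : OO A B) → e0 x * w x = e x * t (nm x))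
    (N : ℕ) (j : ℕ) (kp d c : ℂ) (x : OO A B) :
    (if IsCoprime x ((lvX p f n : ℕ) : OO A B) ∧
      (∃ k < p - 1, ((p ^ (n + 1) : ℕ) : ℤ) ∣ nm x * N - z₀ ^ k * (1 + (p : ℤ)) ^ j) then
      (kp * e0 x) * (w x * c * d) else 0) =
    (kp * c * (t N)⁻¹) * ∑ k ∈ Finset.range (p - 1), t (z₀ ^ k) *
      (if ((p ^ (n + 1) : ℕ) : ℤ) ∣ nm x * N - z₀ ^ k * (1 + (p : ℤ)) ^ j then
        e x * d else 0) := by
  obtain ⟨hz1, hz2, -⟩ := h2 p n hS.pp hS.p2 z₀ hz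
  set T : ℤ := (1 + (p : ℤ)) ^ j with hT
  have hT1 : (p : ℤ) ∣ T - 1 := MUXI.TH.pow_mod _ _
  have hpp : Prime (p : ℤ) := Nat.prime_iff_prime_int.1 hS.pp
  have hM : (p : ℤ) ∣ ((p ^ (n + 1) : ℕ) : ℤ) := ⟨(p : ℤ) ^ n, by push_cast; ring⟩
  have hzk : ∀ k : ℕ, ¬ (p : ℤ) ∣ z₀ ^ k := fun k h1 => hz1 (hpp.dvd_of_dvd_pow h1)
  have hzT : ∀ k : ℕ, (p : ℤ) ∣ z₀ ^ k * T - z₀ ^ k := by
    intro k
    rw [show z₀ ^ k * T - z₀ ^ k = z₀ ^ k * (T - 1) by ring]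
    exact hT1.mul_left _
  have hnt : ∀ k : ℕ, ¬ (p : ℤ) ∣ z₀ ^ k * T := by
    intro k h1
    apply hzk k
    have h3 := dvd_sub h1 (hzT k)
    rwa [sub_sub_cancel] at h3
  -- not prime to the level, then `e x = 0`
  have hzero : ∀ u : ℤ, (p : ℤ) ∣ nm x * N - u → ¬ (p : ℤ) ∣ u →
      ¬ IsCoprime x ((lvX p f n : ℕ) : OO A B) → e x = 0 := by
    intro u hu hnu hnc
    by_contra h0
    apply hnc
    refine OBI.THx.cop_lv hS.pp hS.p2 n x ?_ (OBI.THx.cop_f hg ((hE.supp x).1 h0))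
    intro h1
    apply hnu
    have h2 : (p : ℤ) ∣ nm x * N := h1.mul_right _
    have h4 := dvd_sub h2 hu
    rwa [sub_sub_cancel] at h4
  have hlv : IsCoprime x ((lvX p f n : ℕ) : OO A B) →
      IsCoprime x ((lvX p f 0 : ℕ) : OO A B) := by
    intro h1
    refine h1.of_isCoprime_of_dvd_right ⟨((p ^ n : ℕ) : OO A B), ?_⟩
    unfold lvX
    push_cast
    ring
  by_cases hex : ∃ k < p - 1, ((p ^ (n + 1) : ℕ) : ℤ) ∣ nm x * N - z₀ ^ k * T
  · obtain ⟨k, hk, hkd⟩ := hex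
    have huniq : ∀ i ∈ Finset.range (p - 1), i ≠ k →
        t (z₀ ^ i) * (if ((p ^ (n + 1) : ℕ) : ℤ) ∣ nm x * N - z₀ ^ i * T then
          e x * d else 0) = 0 := by
      intro i hi hik
      rw [if_neg, mul_zero]
      intro hid
      apply hik
      refine hz2 i k (Finset.mem_range.1 hi) hk ?_
      have h3 := hM.trans (dvd_sub hkd hid)
      have h4 := dvd_sub h3 (dvd_sub (hzT i) (hzT k))
      rwa [show nm x * N - z₀ ^ k * T - (nm x * N - z₀ ^ i * T) -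
        (z₀ ^ i * T - z₀ ^ i - (z₀ ^ k * T - z₀ ^ k)) = z₀ ^ i - z₀ ^ k by ring] at h4
    rw [Finset.sum_eq_single_of_mem k (Finset.mem_range.2 hk) huniq, if_pos hkd]
    by_cases hc : IsCoprime x ((lvX p f n : ℕ) : OO A B)
    · rw [if_pos ⟨hc, k, hk, hkd⟩]
      have h3 := hes x (hlv hc)
      have h4 : t (nm x) * t N = t (z₀ ^ k) := by
        rw [← ht.mul]
        apply ht.per
        have h7 := dvd_add (hM.trans hkd) (hzT k)
        rwa [sub_add_sub_cancel] at h7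
      have hN0 : t N ≠ 0 := by
        intro h0
        rw [h0, mul_zero] at h4
        have h5 := ht.pow _ (hzk k)
        rw [← h4, zero_pow hq₁] at h5
        exact zero_ne_one h5
      have h5 : t (nm x) = t (z₀ ^ k) * (t N)⁻¹ := by
        rw [← h4, mul_assoc, mul_inv_cancel₀ hN0, mul_one]
      rw [h5] at h3
      linear_combination (kp * c * d) * h3
    · rw [if_neg (fun h3 => hc h3.1), hzero _ (hM.trans hkd) (hnt k) hc, zero_mul, mul_zero,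
        mul_zero]
  · rw [if_neg (fun h3 => hex h3.2), Finset.sum_eq_zero, mul_zero]
    intro i hi
    rw [if_neg, mul_zero]
    intro hid
    exact hex ⟨i, Finset.mem_range.1 hi, hid⟩

end THFx

/-- (THF) the sums over `Δ` are the sums `SG` -/
theorem ti_THF (h1 : Oi_TSH) (h2 : Ti_ZAR) : Ti_THF := by
  classical
  intro p A B f hS g hlv hg ι _ R n z₀ hz G _ _ γ Δ _ X hM χ e0 kp c w e t q₁ hq₁ ht hE
    hes hχ j
  have hfin : Finite (OO A B ⧸ idl (A := A) (B := B) (lvX p f n)) :=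
    MUXI.TH.finR _ (OBI.THx.lvX_ne hS n)
  rw [MUXI.TH.sum_disj (fun δ : Δ => X (γ ^ j * (δ : G)))
    (fun q δ δ' h2 h4 => Subtype.ext (mul_left_cancel (hM.uniq q _ _ h2 h4)))
    (fun δ => (((χ δ)⁻¹ : ℂˣ) : ℂ)) _ (fun q => kp q.1 * e0 (Quotient.out q.2))
    (fun δ q hq => hχ δ j q hq)]
  have hind : ∀ q : ι × (OO A B ⧸ idl (A := A) (B := B) (lvX p f n)),
      (if ∃ δ : Δ, q ∈ X (γ ^ j * (δ : G)) then
        kp q.1 * e0 (Quotient.out q.2) * (w (Quotient.out q.2) *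
        c q.1 * dlX (R.L q.1) (aX p f) (pt R (lvX p f n) q.1 (Quotient.out q.2))) else 0) =
      kp q.1 * c q.1 * (t (nI (R.b q.1)))⁻¹ * ∑ k ∈ Finset.range (p - 1), t (z₀ ^ k) *
      (if ((p ^ (n + 1) : ℕ) : ℤ) ∣ nm (Quotient.out q.2) * nI (R.b q.1) -
          z₀ ^ k * (1 + (p : ℤ)) ^ j then
        e (Quotient.out q.2) * dlX (R.L q.1) (aX p f)
          (pt R (lvX p f n) q.1 (Quotient.out q.2)) else 0) := by
    intro q
    rw [if_congr (THFx.mem_iff hM q j) rfl rfl]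
    exact THFx.term hS n h2 hz hg hE hq₁ ht hes _ j _ _ _ _
  rw [finsum_congr hind, MUXI.TH.sum_pairs]
  have hsum : ∀ i : ι, ∑ᶠ x : OO A B ⧸ idl (A := A) (B := B) (lvX p f n),
      kp i * c i * (t (nI (R.b i)))⁻¹ * ∑ k ∈ Finset.range (p - 1), t (z₀ ^ k) *
      (if ((p ^ (n + 1) : ℕ) : ℤ) ∣ nm (Quotient.out x) * nI (R.b i) -
          z₀ ^ k * (1 + (p : ℤ)) ^ j then
        e (Quotient.out x) * dlX (R.L i) (aX p f)
          (pt R (lvX p f n) i (Quotient.out x)) else 0) =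
      ∑ k ∈ Finset.range (p - 1), t (z₀ ^ k) * (kkT R kp c t i *
        ((aX p f : ℂ) * SnX R (lvX p f n) (p ^ (n + 1)) e i
          ((aX p f : ℤ) ^ 2 * (z₀ ^ k * (1 + (p : ℤ)) ^ j)) -
        (aX p f : ℂ) ^ 2 * SnX R (lvX p f n) (p ^ (n + 1)) e i
          (z₀ ^ k * (1 + (p : ℤ)) ^ j))) := by
    intro i
    rw [THFx.comb_sumk (Q := OO A B ⧸ idl (A := A) (B := B) (lvX p f n)) (p - 1) _ _ _ _
      (fun x => rfl), Finset.mul_sum]
    refine Finset.sum_congr rfl fun k _ => ?_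
    have hT := h1 p A B f hS g hlv ι R n e hE i (z₀ ^ k * (1 + (p : ℤ)) ^ j)
    rw [← hT]
    have hmu := OBI.THx.muX_ne hS R i
    unfold kkT sumMod
    field_simp
  rw [Finset.sum_congr rfl fun i _ => hsum i]
  unfold SG STX
  simp_rw [Finset.mul_sum]
  rw [Finset.sum_comm]

end

end Pool.Agent.OTI
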