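import Pool.Agent.OT.StJ
import Pool.Agent.NS.I_LEM1

/-!
# OT, block J, module LEM1S: one level is enough

The proof of `tn_LEM1` (`NS/I_LEM1.lean`, helper36).
-/

set_option autoImplicit false

open NumberField IsDedekindDomain Finset
open scoped nonZeroDivisors Pointwise

namespace Pool.Agent.OTJ

open Pool.Agent.MU3 Pool.Agent.RI Pool.Agent.RID Pool.Agent.MUXK Pool.Agent.NSI

/-- LEM1S -/
theorem t_LEM1S (h1 : S_GALX) (h2 : S_RSX) : S_LEM1S := by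
  intro F _ p hp k K B _ _ hB hcop hom hk hkK c₀ mem hne n₁ hN χ m hm1 hm2 N n₀
  have hpos : 0 < p := hp.out.pos
  obtain ⟨n, hn⟩ : ∃ n, n = m + (N + n₀) := ⟨_, rfl⟩
  refine ⟨n, by omega, ?_⟩
  have hmn : m ≤ n := by omega
  have hQ : N ≤ p ^ n - p ^ m := by
    have e1 : p ^ n - p ^ m = p ^ m * (p ^ (N + n₀) - 1) := by
      rw [hn, pow_add, Nat.mul_sub, mul_one]
    have e2 : 1 ≤ p ^ m := Nat.one_le_pow _ _ hpos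
    have e3 : N + n₀ < p ^ (N + n₀) := Nat.lt_pow_self hp.out.one_lt
    rw [e1]
    calc N ≤ 1 * (p ^ (N + n₀) - 1) := by omega
      _ ≤ p ^ m * (p ^ (N + n₀) - 1) := Nat.mul_le_mul_right _ e2
  let _ := algC (hk n)
  let _ := algC (hk m)
  let _ := algC hkK
  intro γ hγ _ r hr
  have hsub : K ⊔ B m ≤ K ⊔ B n := sup_le_sup_left (hB.mono hmn) K
  obtain ⟨r', hr', hrγ, e, he⟩ := h2 p k K B hB hcop m n hmn (hk n) (hk m) hsub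
  obtain ⟨ρm, hρm⟩ := I3X19.restr h2 p k K B hB hcop hkK m (hk m)
  obtain ⟨hr1, hr2⟩ := hrγ γ hγ
  let _ : Fintype (NC (hk m) (B m)) := Fintype.ofEquiv _ e.toEquiv
  obtain ⟨θ, hθ⟩ := hm2 (r' γ) hr1 (fun δ => ρm δ) hρm
  have hρ : ∀ δ, ρm (e δ) = r δ := by
    intro δ
    refine AlgEquiv.ext fun x => Subtype.ext ?_
    have hx1 : (x : ℂ) ∈ K ⊔ B m := le_sup_left (a := K) x.2
    rw [← hρm (e δ) x ⟨x, hx1⟩ rfl, ← hr δ x ⟨x, hsub hx1⟩ rfl, he]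
    exact hr' _ ⟨x, hx1⟩
  refine ⟨θ, fun y hy => ?_⟩
  obtain ⟨ω, hωK, hω1⟩ := hom
  obtain ⟨C, hCk, hC0, hC⟩ := hN m n hm1 hmn γ hγ
  have hKn : K ≤ K ⊔ B n := le_sup_left
  obtain ⟨j, hj⟩ := LEM1.incl hsub
  have hj' : ∀ z : ↥(K ⊔ B m), j z = ⟨z, hsub z.2⟩ := fun z => Subtype.ext (hj z)
  have b1 : ∀ (σ : ↥(K ⊔ B n) ≃ₐ[k] ↥(K ⊔ B n)) (x : ↥(K ⊔ B m)), j (r' σ x) = σ (j x) := by
    intro σ x
    apply Subtype.ext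
    rw [hj, hr', hj']
  have b2 : ∀ x : ↥(K ⊔ B n), (γ ^ (p ^ m)) x = x ↔ ∃ z : ↥(K ⊔ B m), j z = x := by
    intro x
    rw [hr2 x]
    constructor
    · intro hx
      exact ⟨⟨x, hx⟩, Subtype.ext (hj _)⟩
    · rintro ⟨z, rfl⟩
      rw [hj]
      exact z.2
  have b3 : (⟨C, hKn hCk⟩ : ↥(K ⊔ B n)) ≠ 0 := by
    intro h; exact hC0 (congrArg Subtype.val h)
  have b4 : γ (⟨C, hKn hCk⟩ : ↥(K ⊔ B n)) = ⟨C, hKn hCk⟩ := (hγ _).2 hCk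
  have b5 : ∏ i ∈ range (p ^ (n - m)), (γ ^ (p ^ m * i)) ⟨c₀ n, mem n⟩ =
      ⟨C, hKn hCk⟩ * j ⟨c₀ m, mem m⟩ := by
    apply Subtype.ext
    rw [hC, hj']
    rfl
  have b6 : ∀ w : ↥(K ⊔ B n), w ^ p = 1 → γ w = w := by
    intro w hw
    rw [hγ w]
    have hw' : (w : ℂ) ^ p = 1 := congrArg Subtype.val hw
    have : NeZero p := ⟨hpos.ne'⟩
    obtain ⟨i, _, hi⟩ := hω1.eq_pow_of_pow_eq_one hw'
    rw [← hi]
    exact K.pow_mem hωK i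
  have b7 : (⟨c₀ n, mem n⟩ : ↥(K ⊔ B n)) ≠ 0 := by
    intro h; exact hne n (congrArg Subtype.val h)
  have b8 : (⟨c₀ m, mem m⟩ : ↥(K ⊔ B m)) ≠ 0 := by
    intro h; exact hne m (congrArg Subtype.val h)
  obtain ⟨t, ht⟩ := LEM1.core (M := ↥(K ⊔ B m)) p
    j r' b1
    (h1 p k K B hB n (hk n)).2 γ m n N hmn hQ b2 (NC (hk n) (B n)) (NC (hk m) (B m)) e he
    ⟨c₀ n, mem n⟩ b7 ⟨c₀ m, mem m⟩ b8 ⟨C, hKn hCk⟩ b3 b4 b5 b6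
    (fun δ => (θ ((χ (r δ))⁻¹ : Fˣ)).val) (fun δ => (θ ((χ (ρm δ))⁻¹ : Fˣ)).val)
    (fun δ => by rw [hρ]) y hy
  refine hθ t (ht.trans ?_)
  refine prod_congr rfl fun δ _ => ?_
  rw [Function.iterate_one]

end Pool.Agent.OTJ
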