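import Pool.Agent.OT.StJ
import Pool.Agent.OB.StK
import Pool.Agent.NS.I_INP

/-!
# OT, block J: from one level and one character to `I3C` (helper14)

After `Pool/Agent/OB/K_PIG.lean`.
-/

set_option autoImplicit false

open NumberField IsDedekindDomain
open scoped nonZeroDivisors Pointwise

namespace Pool.Agent.OTJ

open _root_.Pool.Agent.MU3 _root_.Pool.Agent.RI _root_.Pool.Agent.RID _root_.Pool.Agent.MUXK
  _root_.Pool.Agent.MUXZ _root_.Pool.Agent.NSI

/-- **PIGS.** -/
theorem t_PIGS (h1 : S_LEM1S) (h2 : Sn_NRX) : S_PIGS := by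
  intro F _ p _ k K₀ K B _ _ _ _ hX hk hk₀ hkK S c c₀ n₁ hI χ m hm h
  have hfd₀ : FiniteDimensional ℚ K₀ :=
    FiniteDimensional.of_injective (IntermediateField.inclusion hX.le).toLinearMap
      (IntermediateField.inclusion hX.le).injective
  have hNr := h2 p k K₀ K B hX hk hk₀ S c c₀ n₁ hI
  exact fun N n₀ => h1 F p k K₀ B hX.b0 hX.cop hX.om hk₀ hkK c₀ hI.mem₀
    (_root_.Pool.Agent.NSI.INP.c_ne hI) n₁ hNr χ m hm h N n₀

end Pool.Agent.OTJ
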