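import Pool.Agent.OT.StJ

/-!
# OT, block J, module INPT (helper19): the inputs of block K for the fields `K₀ ⊔ Ln (r + 1)`

After `OB/Z_INPO.lean`.
-/

set_option autoImplicit false

open NumberField IsDedekindDomain

namespace Pool.Agent.OTJ

open _root_.MU3 Pool.Agent.MU3 Pool.Agent.MU3A Pool.Agent.MU3B Pool.Agent.RI Pool.Agent.RID
  Pool.Agent.MUX Pool.Agent.MUXK Pool.Agent.MUXE Pool.Agent.MUXJ Pool.Agent.MUXZ Pool.Agent.NSI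
  Pool.Agent.OB Pool.Agent.MUXW
open Pool.Agent.OT (RL)
open _root_.Pool.Agent.TWR (Gen)
open Pool.Agent.NSZ (cX_sq idl_ne_bot)
open Pool.Agent.OBI (Oi_SUB)
open Pool.Agent.OBZ (Zl_LVX Zl_INW eInpO setQ_O)

noncomputable section

theorem gen_dvd {l g h : ℕ} (H : Gen l g h) : l ∣ 12 := by
  rcases H with ⟨rfl, -, -⟩ | ⟨rfl, -, -⟩ <;> norm_num

theorem gen_ne {l g h : ℕ} (H : Gen l g h) : l ≠ 0 := by
  rcases H with ⟨rfl, -, -⟩ | ⟨rfl, -, -⟩ <;> norm_num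

theorem gen_p {l g h p : ℕ} (H : Gen l g h) (h5 : 5 ≤ p) : ¬ p ∣ l := by
  intro hd
  have := Nat.le_of_dvd (Nat.pos_of_ne_zero (gen_ne H)) hd
  rcases H with ⟨rfl, -, -⟩ | ⟨rfl, -, -⟩ <;> omega

/-- the level `f l^m` -/
theorem setO_up {p er : ℕ} {A B : ℤ} {P : Ideal (OO A B)} {V : ValuationSubring ℂ} {f : ℕ}
    (hS : SetO p er A B P V f) {l g h : ℕ} (H : Gen l g h) (m : ℕ) :
    SetO p er A B P V (f * l ^ m) :=
  { hS.toCaseO with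
    f0 := Nat.mul_ne_zero hS.f0 (pow_ne_zero _ (gen_ne H))
    fp := fun hd => (hS.pp.dvd_mul.1 hd).elim hS.fp fun h1 =>
      gen_p H hS.p5 (hS.pp.dvd_of_dvd_pow h1)
    f12 := hS.f12.mul_right _
    fD := by
      refine hS.fD.trans ?_
      push_cast
      rw [← mul_assoc]
      exact dvd_mul_right _ _ }

/-- (INPT) -/
theorem t_INPT (hIT : O_IT) (hABL : S_ABL) (hRF : O_RFIN) (hEF : O_EFIN) (hSUB : Oi_SUB)
    (hLV : Zl_LVX) (hIW : Zl_INW) (hTH : Sz_THN) (hME : Sy_MEM) (hCX : Sy_CXS)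
    (hRX : MUXY.Sy_REX) : S_INPT := by
  intro p er A B P V hC hT l g h hG f hf0 hfp hf12 hfD K₀ _ hk hA hK₀ Ln hL
  have hCQ : CQ A B := hC.cq
  have hS : SetO p er A B P V f := { hC with f0 := hf0, fp := hfp, f12 := hf12, fD := hfD }
  have : Fact (Nat.Prime p) := ⟨hC.pp⟩
  have hl : l ∣ f := (gen_dvd hG).trans hf12
  obtain ⟨ι, hι, ⟨R⟩⟩ := hRX A B hCQ hC.ex3 hC.ex4 (p * f) (Nat.mul_ne_zero hC.pp.ne_zero hf0)
  obtain ⟨u, e, lam, hGL, -, -, -⟩ := (hRF p er A B P V hC hT).1 _ _ _ (R.nl R.i0)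
  obtain ⟨r₀, hr₀⟩ := hIT p er A B P V f hS hT ι R u e lam hGL l g h hG hl K₀ hk hA hK₀ Ln hL
  refine ⟨r₀, fun r hr K' K Bn _ _ _ _ _ hKeq hX hK hH hkn hk₀ hkK => ?_⟩
  have hS' := setO_up hS hG (r + 1 + h)
  have hQ' := setQ_O hS'
  have hodd := (hLV p A B _ hQ' 0).2.2.2.2.2.1
  obtain ⟨H, hHalf, hθ⟩ := hTH A B hCQ hT (p * (f * l ^ (r + 1 + h))) ι
    (RL R l (r + 1 + h) hl) (aX p (f * l ^ (r + 1 + h))) hodd
  have hθ' : ∀ n : ℕ, ∃ θ : (RF (idl (A := A) (B := B) (lvX p (f * l ^ (r + 1 + h)) n)) :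
      IntermediateField (kk A B) ℂ),
      (θ : ℂ) = ThetaH ((RL R l (r + 1 + h) hl).L (RL R l (r + 1 + h) hl).i0)
        (H (RL R l (r + 1 + h) hl).i0)
        (pt (RL R l (r + 1 + h) hl) (lvX p (f * l ^ (r + 1 + h)) n)
          (RL R l (r + 1 + h) hl).i0 1) ∧
      (θ : ℂ) = ThetaH ((RL R l (r + 1 + h) hl).L (RL R l (r + 1 + h) hl).i0)
        (H (RL R l (r + 1 + h) hl).i0)
        ((RL R l (r + 1 + h) hl).om (RL R l (r + 1 + h) hl).i0 /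
          emb ((lvX p (f * l ^ (r + 1 + h)) n : ℕ) : OO A B)) ∧
      θ ≠ 0 := fun n =>
    hθ (lvX p (f * l ^ (r + 1 + h)) n) (hLV p A B _ hQ' n).1 (hLV p A B _ hQ' n).2.2.2.2.1
      (hLV p A B _ hQ' n).2.2.2.2.2.2.1
  choose θ hθ1 hθ2 hθ3 using hθ'
  have hth : ThN p (f * l ^ (r + 1 + h)) (RL R l (r + 1 + h) hl) H θ :=
    ⟨hHalf, hθ1, hθ2, hθ3⟩
  obtain ⟨S, hW⟩ := hIW p A B (f * l ^ (r + 1 + h)) hQ' hT ι (RL R l (r + 1 + h) hl) H θ hth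
    K' K Bn hX hK hH hkn hk₀
  have hNL : ∃ (b : Ideal (OO A B)) (L : PeriodPair) (om : ℂ), IsNL b L om :=
    ⟨_, _, _, R.nl R.i0⟩
  have hK'f : ∀ y ∈ K', y ∈ RF (idl (A := A) (B := B) (lvX p (f * l ^ (r + 1 + h)) 0)) :=
    fun y hy => hK y (hX.le hy)
  have hInR : InRF er P p (f * l ^ (r + 1 + h)) 5 (K' ⊔ Bn 5) :=
    hSUB p er A B P V _ hS' hT hNL K' hK'f 5 (Bn 5) (by norm_num) (hX.b0.lay 5)
  have hAK : AbK p hkK := by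
    subst hKeq
    exact hABL p l g h hC.pp hC.p5 hG A B hT hNL f hf0 K₀ hk hK₀ hA Ln hL (r + 1) hkK
  refine ⟨S, fun n => cW (hkn n) (θ n), fun n => cW (hk₀ n) (θ n), 0, hW, fun χ hχ =>
    ⟨5, by norm_num, ?_⟩⟩
  refine hr₀ r hr K' hKeq Bn hX.b0 (hk₀ 5) hkK hAK hK'f
    (fun τ => cWt (hk₀ 5) (θ 5) τ) ?_ _ _ ?_ χ hχ
  · exact eInpO hME hCX hEF hS' hT hLV (RL R l (r + 1 + h) hl) hGL hth 5 (by norm_num)
      (K' ⊔ Bn 5) (hk₀ 5) hInR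
  · have hb : (idl (A := A) (B := B) (lvX p (f * l ^ (r + 1 + h)) 5)) ≠ ⊥ :=
      idl_ne_bot (hLV p A B _ hQ' 5).1
    exact (hME A B _ (hT.fin _ hb) (hT.gal _ hb) (hT.comm _ hb) _ (hk₀ 5) hInR.1 (θ 5)
      (hth.ne 5)).1

end

end Pool.Agent.OTJ
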