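import Pool.Agent.OT.StJ
import Pool.Agent.OB.KAll

/-!
# OT, block J, module MAINT (helper19): nilpotency for the new characters, for the fields `kk A B`

After `OB/J_MAIN.lean`.
-/

set_option autoImplicit false

open NumberField IsDedekindDomain

namespace Pool.Agent.OTJ

open _root_.MU3 Pool.Agent.MU3 Pool.Agent.MU3A Pool.Agent.MU3B Pool.Agent.RI Pool.Agent.RID
  Pool.Agent.MUX Pool.Agent.MUXK Pool.Agent.MUXE Pool.Agent.MUXJ Pool.Agent.MUXZ Pool.Agent.NSI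
  Pool.Agent.OB
open _root_.Pool.Agent.TWR (Gen)

noncomputable section

/-- a new character stays new if the field of values is enlarged -/
theorem newC_mp {F F' : Type} [Field F] [Field F'] (io : F' →+* F)
    {k K : IntermediateField ℚ ℂ} (h : k ≤ K) (E : IntermediateField ℚ ℂ)
    (χ : (letI := algC h; (↥K ≃ₐ[k] ↥K) →* F'ˣ)) (hχ : NewC h E χ) :
    NewC h E (mpO io h χ) := by
  let _ := algC h
  obtain ⟨s, hs, h1⟩ := hχ
  refine ⟨s, hs, fun h2 => h1 ?_⟩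
  have h3 : Units.map (io : F' →* F) (χ s) = 1 := h2
  have h4 : io ((χ s : F'ˣ) : F') = 1 := congrArg Units.val h3
  apply Units.ext
  apply io.injective
  rw [h4, Units.val_one, map_one]

/-- (MAINT) -/
theorem t_MAINT (hRF : O_RFIN) (hIN : S_INPT) (hLLV : S_LLV) (hABL : S_ABL) (hSETF : S_SETF)
    (hPIG : S_PIGS) : S_MAINT := by
  intro p hpf h5 A B hCQ hd3 hd4 l g h hG K₀ _ hk hA Ln hL
  have hp : p.Prime := hpf.out
  have hp2 : p ≠ 2 := by omega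
  obtain ⟨er, P, V, hC⟩ := t_VEXO p A B hCQ hd3 hd4 hp h5
  obtain ⟨d, hd0, hpd, hd⟩ := t_DO hC
  have hTor := MUXC.c_TOR A B hCQ
  have hNL : NLex A B := by
    obtain ⟨L, w, hL⟩ := MUXY.z_NLE A B hCQ hd3 hd4 ⊤ (by
      have := (MUXE.xe_RNG A B hCQ).ded
      exact bot_ne_top.symm)
    exact ⟨⊤, L, w, hL⟩
  have hU : UnrH A B V := t_UNHO hRF hC hTor
  have hTU : TorU A B K₀ := JT.j_JTR A B hCQ hTor hNL K₀ hk hA.gal hA.ab
  obtain ⟨M, hM, hKM⟩ := t_DIR A B hCQ hTor K₀ hTU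
  obtain ⟨f, hf0, hfp, hfd, hKf⟩ := t_LEVO p d A B hCQ hp hd0 hpd hTor hNL K₀ hk hA.cop M hM hKM
  have hS := hd f hf0 hfp hfd
  obtain ⟨r₀, hr₀⟩ := hIN p er A B P V hC hTor l g h hG f hS.f0 hS.fp hS.f12 hS.fD K₀ hk hA hKf
    Ln hL
  refine ⟨r₀, fun r hr K' Bn _ hKeq hlay hmono hk₀ hkK χ hχ => ?_⟩
  have hK'A : FiniteDimensional ℚ K' ∧ AbK p hkK := by
    subst hKeq
    exact ⟨fd_LL hG hL K₀ (r + 1), hABL p l g h hp h5 hG A B hTor hNL f hf0 K₀ hk hKf hA Ln hL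
      (r + 1) hkK⟩
  obtain ⟨hK'fd, hAK⟩ := hK'A
  have hK'f : ∀ y ∈ K', y ∈ RF (idl (A := A) (B := B) (lvX p (f * l ^ (r + 1 + h)) 0)) := by
    rw [hKeq]
    exact hLLV p l g h A B hCQ hTor hNL hp hp2 hG f hf0 K₀ hKf (r + 1) (Ln (r + 1))
      (hL.lay (r + 1))
  have hl0 : l ≠ 0 := by
    rcases hG with ⟨rfl, -, -⟩ | ⟨rfl, -, -⟩ <;> norm_num
  have hf'0 : f * l ^ (r + 1 + h) ≠ 0 := Nat.mul_ne_zero hf0 (pow_ne_zero _ hl0)
  obtain ⟨K, hKfd, hSX, hKR, hHK⟩ := hSETF p er A B P V hC hU hTor K' hkK hAK.cop hAK.om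
    (f * l ^ (r + 1 + h)) hf'0 hK'f Bn hlay hmono
  have hfk : FiniteDimensional ℚ (kk A B) :=
    Module.Finite.of_injective (IntermediateField.inclusion hk).toLinearMap
      (IntermediateField.inclusion hk).injective
  have hfB : ∀ n, FiniteDimensional ℚ ↥(K ⊔ Bn n) := fun n => by
    obtain ⟨h1, -, -⟩ := LAY_thm p n (Bn n) (hlay n)
    exact IntermediateField.finiteDimensional_sup K (Bn n)
  have hkn : ∀ n, kk A B ≤ K ⊔ Bn n := fun n => (hkK.trans hSX.le).trans le_sup_left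
  obtain ⟨S, c, c₀, n₁, hW, hI⟩ := hr₀ r hr K' K Bn hKeq hSX hKR hHK hkn hk₀ hkK
  obtain ⟨hchar, halg⟩ := t_RES p V (caseO_hp hC)
  obtain ⟨io⟩ := ex_io p (IsLocalRing.ResidueField V)
  obtain ⟨m, hm, hI3⟩ := hI (mpO io hkK χ) (newC_mp io hkK _ χ hχ)
  have hI3A := I3At_mp io p (kk A B) K' Bn hkK χ 1 m (hk₀ m) (c₀ m) (hW.mem₀ m) hI3
  have hI3C := hPIG (AlgebraicClosure (ZMod p)) p (kk A B) K' K Bn hSX hkn hk₀ hkK S c c₀ n₁ hW χ
    m hm hI3A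
  exact ⟨hSX.b0, o_MAINO (AlgebraicClosure (ZMod p)) p (kk A B) K' K Bn hSX hkn hk₀ hkK S c c₀ n₁
    hW χ hI3C⟩

end

end Pool.Agent.OTJ
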