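import Pool.Agent.OB.StHB
import Pool.Agent.TWV.St

/-!
# OT: Theorem T (all branches, every prime `p ≥ 5`, in the direction of `l = 2, 3`): common definitions and the final statements of the block H

`M = p^(n+1)` is FIXED. `ξ` a primitive `M`-th root of unity, `z₀` an integer with `z₀^(p-1) ≡ 1` modulo `M`, a generator modulo `p`. `Q k`, `k ∈ ℕ` (only `k` modulo `p - 1` matters), is the part of the symbol which is used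
for the class `z₀^k` (`er = 1`: `Q k = sgnPart s Φ` for all `k`; `er = 2`: `Q k = Φ_(z₀^k) + s ι^* Φ_(-z₀^k)`, `Φ_d` = the sum over the `i` with `J(d N b_i | p) = 1`; `Q 0 = QR`).

* `tM M b x = x + b/M`.
* `Yh M ξ Q x y = Σ_(b < M) ξ^b Q(x + b/M, y + b/M)`.
* `PV` : the vector symbol, `c ∈ ℤ` (modulo `M`): `Σ_k t(z₀^k) Σ_(j,r) coT a j r Yh(ξ^(c a^(2r) (1+p)^j z₀^k)) (Q k)`.
* `HypT` : the hypotheses of the abstract theorem `Ot_H` (block H, helper60).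
* `RL` : representatives, for the level `f l^r`. `SG` : `Σ_k t(z₀^k) STX (z₀^k c)`.
* `O_HETA` : the result of the blocks H, HB, used by block I.
-/

set_option autoImplicit false

namespace Pool.Agent.OT

open _root_.MU3 _root_.Pool.Agent.MU3A _root_.Pool.Agent.MU3B _root_.Pool.Agent.MUX
  _root_.Pool.Agent.MuSym _root_.Pool.Agent.OB _root_.Pool.Agent.OBH OnePoint
open _root_.Pool.Agent.TWR (Gen)

noncomputable section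

/-! ## The abstract part -/

/-- `x + b/M` -/
def tM (M : ℕ) (b : ℤ) (x : OnePoint ℚ) : OnePoint ℚ := mob (M : ℤ) b 0 (M : ℤ) x

/-- `Σ_(b < M) ζ^b Q(x + b/M, y + b/M)` -/
def Yh (M : ℕ) (ζ : ℂ) (Q : OnePoint ℚ → OnePoint ℚ → ℂ) (x y : OnePoint ℚ) : ℂ :=
  ∑ b ∈ Finset.range M, ζ ^ b * Q (tM M b x) (tM M b y)

/-- the coefficient of the node `a^(2r) (1+p)^j`, `j, r ∈ {0, 1}` -/
def coT (a : ℤ) (j r : ℕ) : ℂ :=
  if r = 0 then -((-1) ^ (1 - j) * (a : ℂ) ^ 2) else (-1) ^ (1 - j) * (a : ℂ)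

/-- the vector symbol; `c` is its index -/
def PV (p n : ℕ) (ξ : ℂ) (a z₀ : ℤ) (t : ℤ → ℂ) (Q : ℕ → OnePoint ℚ → OnePoint ℚ → ℂ) (c : ℤ)
    (x y : OnePoint ℚ) : ℂ :=
  ∑ k ∈ Finset.range (p - 1), t (z₀ ^ k) * ∑ j ∈ Finset.range 2, ∑ r ∈ Finset.range 2,
    coT a j r * Yh (p ^ (n + 1)) (ξ ^ (c * a ^ (2 * r) * (1 + (p : ℤ)) ^ j * z₀ ^ k)) (Q k) x y

/-- `z₀` is of order `p - 1` modulo `p^(n+1)` and a generator modulo `p` -/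
structure IsZ0 (p n : ℕ) (z₀ : ℤ) : Prop where
  one : ((p ^ (n + 1) : ℕ) : ℤ) ∣ z₀ ^ (p - 1) - 1
  gen : ∀ a : ℤ, ¬ (p : ℤ) ∣ a → ∃ k < p - 1, (p : ℤ) ∣ a - z₀ ^ k

/-- `t` is a character modulo `p` with values of order dividing `q` -/
structure IsTw (p q : ℕ) (t : ℤ → ℂ) : Prop where
  one : t 1 = 1
  mul : ∀ a b : ℤ, t (a * b) = t a * t b
  per : ∀ a b : ℤ, (p : ℤ) ∣ a - b → t a = t b
  pow : ∀ a : ℤ, ¬ (p : ℤ) ∣ a → t a ^ q = 1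

/-- the hypotheses of the abstract theorem -/
structure HypT (p n : ℕ) (V : ValuationSubring ℂ) (N : ℕ) (nu : ℤ → ℂ) (s : ℂ) (z₀ : ℤ)
    (t : ℤ → ℂ) (Q : ℕ → OnePoint ℚ → OnePoint ℚ → ℂ) (ξ : ℂ) (l : ℕ) : Prop where
  pp : p.Prime
  p5 : 5 ≤ p
  vp : V.valuation (p : ℂ) < 1
  n5 : 5 ≤ n
  N0 : N ≠ 0
  nu1 : nu 1 = 1
  nuv : ∀ d, V.valuation (nu d) ≤ 1
  nua : ∀ d, IsAlgebraic ℚ (nu d)
  nuper : ∀ d d', (N : ℤ) ∣ d - d' → nu d = nu d'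
  s1 : s = 1 ∨ s = -1
  z0 : IsZ0 p n z₀
  tw : ∃ q : ℕ, ¬ p ∣ q ∧ IsTw p q t
  ts : t (-1) = s
  xi : IsPrimitiveRoot ξ (p ^ (n + 1))
  sym : ∀ k, IsSym N nu (Q k)
  alg : ∀ k x y, IsAlgebraic ℚ (Q k x y)
  bdd : ∃ K : ℕ, ∀ k x y, V.valuation ((p : ℂ) ^ K * Q k x y) ≤ 1
  neg : ∀ k x y, Q k (mob (-1) 0 0 1 x) (mob (-1) 0 0 1 y) = s * Q (k + (p - 1) / 2) x y
  perk : ∀ k, Q (k + (p - 1)) = Q k
  dep : ∀ k (x : ℚ), ∑ j ∈ Finset.range l, Q k ∞ ((x + (j : ℚ) / l : ℚ) : OnePoint ℚ) = 0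
  /-- Theorem G together with the divisibility theorems DVN, DVR -/
  nd : ∀ N' : ℕ, N' ≠ 0 → N ∣ N' → ∃ α β γ δ c : ℤ, α * δ - β * γ = 1 ∧ (N' : ℤ) ∣ γ ∧
    (N' : ℤ) ∣ δ - 1 ∧ ¬ (p : ℤ) ∣ c ∧
    V.valuation (p : ℂ) < V.valuation (Yh (p ^ (n + 1)) (ξ ^ c) (Q 0) ∞ (mob α β γ δ ∞)) *
      V.valuation (1 - ξ) ^ p ^ (n - 2)

/-- THE ABSTRACT THEOREM (block H, helper60). The number `r₀` does not depend on `a`. -/
def Ot_H : Prop :=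
  ∀ (l g h : ℕ) (_ : Gen l g h) (p n : ℕ) (V : ValuationSubring ℂ) (N : ℕ) (nu : ℤ → ℂ) (s : ℂ)
    (z₀ : ℤ) (t : ℤ → ℂ) (Q : ℕ → OnePoint ℚ → OnePoint ℚ → ℂ) (ξ : ℂ),
    HypT p n V N nu s z₀ t Q ξ l →
    ∃ r₀ : ℕ, ∀ r, r₀ ≤ r → ∀ ψ : DirichletCharacter ℂ (l ^ r), ψ (-1) = 1 →
      ψ (1 + (l : ZMod (l ^ r)) ^ (r - 1)) ≠ 1 →
      ∀ a : ℤ, (p : ℤ) ∣ a - 1 → ¬ (p : ℤ) ^ 2 ∣ a - 1 → ∃ c : ℤ, ¬ (p : ℤ) ∣ c ∧
        V.valuation (p : ℂ) < V.valuation (∑ e ∈ Finset.range (l ^ r), ψ e *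
          PV p n ξ a z₀ t Q c ∞ (((e : ℚ) / (l : ℚ) ^ r : ℚ) : OnePoint ℚ))

/-! ## Theta series -/

/-- the representatives for the level `f l^r`, `l ∣ f` -/
def RL {A B : ℤ} {p f : ℕ} {ι : Type} (R : Reps A B (p * f) ι) (l r : ℕ) (hl : l ∣ f) :
    Reps A B (p * (f * l ^ r)) ι :=
  { R with
    cop := fun i => by
      have h := R.cop i
      have h1 : (nI (R.b i)).Coprime f := Nat.Coprime.coprime_mul_left_right h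
      have h2 : (nI (R.b i)).Coprime p := Nat.Coprime.coprime_mul_right_right h
      have h3 : (nI (R.b i)).Coprime l := Nat.Coprime.coprime_dvd_right hl h1
      exact h2.mul_right (h1.mul_right (h3.pow_right r)) }

/-- the weights for the class `d`: all of them if `p` is unramified, the `i` with `J(d N b_i | p) = 1` otherwise -/
def kkE {A B : ℤ} {n : ℕ} {ι : Type} (er p : ℕ) (R : Reps A B n ι) (kk : ι → ℂ) (d : ℤ) : ι → ℂ :=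
  if er = 1 then kk else kkJ p R kk d

/-- the symbols `Q k`, divided by the period `u om_0` -/
def QT {A B : ℤ} {n : ℕ} {ι : Type} [Fintype ι] (er p : ℕ) (R : Reps A B n ι) (e : OO A B → ℂ)
    (kk : ι → ℂ) (s u : ℂ) (z₀ : ℤ) (k : ℕ) (x y : OnePoint ℚ) : ℂ :=
  (PhiK R e (kkE er p R kk (z₀ ^ k)) x y +
    s * PhiK R e (kkE er p R kk (-z₀ ^ k)) (mob (-1) 0 0 1 x) (mob (-1) 0 0 1 y)) /
      (u * R.om R.i0)

/-- `Σ_k t(z₀^k) STX (z₀^k c)` -/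
def SG {A B : ℤ} {n : ℕ} {ι : Type} [Fintype ι] (p : ℕ) (R : Reps A B n ι) (m M a : ℕ)
    (e : OO A B → ℂ) (kk : ι → ℂ) (t : ℤ → ℂ) (z₀ c : ℤ) : ℂ :=
  ∑ k ∈ Finset.range (p - 1), t (z₀ ^ k) * STX R m M a e kk (z₀ ^ k * c)

/-- THE RESULT of the blocks H, HB: for all large `r`, all even primitive `ψ` modulo `l^r`, with `f' = f l^r`, the sums over the group
`μ_(p-1)` are not small at one of the translates `(1+p)^k'`. -/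
def O_HETA : Prop :=
  ∀ (p er : ℕ) (A B : ℤ) (P : Ideal (OO A B)) (V : ValuationSubring ℂ) (f : ℕ),
    SetO p er A B P V f → TorX A B →
    ∀ (ι : Type) [Fintype ι] (R : Reps A B (p * f) ι) (u el lam : ℂ),
    GoodL V (R.L R.i0) u el lam → ∀ w : OO A B → ℂ, IsTeiP p er P V w →
    ∀ e : OO A B → ℂ, IsEI (idl (A := A) (B := B) (p * f)) e → ∀ r₁ : ℕ, ¬ p ∣ r₁ →
    (∀ x, e x ≠ 0 → e x ^ r₁ = 1) → ∀ i : ℕ, er * (nI P - 1) ≤ i * (p - 1) → i ≤ nI P - 2 →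
    (∀ x, x - 1 ∈ gO P f → x ∉ P → e x = w x ^ i) →
    ∀ t : ℤ → ℂ, IsTw p (nI P - 1) t → ∀ kk : ι → ℂ, (∀ i, kk i ^ r₁ = 1) →
    ∀ (l g h : ℕ), Gen l g h → ∀ (hl : l ∣ f) (n : ℕ), 5 ≤ n → ∀ z₀ : ℤ, IsZ0 p n z₀ →
    ∃ r₀ : ℕ, ∀ r, r₀ ≤ r → ∀ ψ : DirichletCharacter ℂ (l ^ r), ψ (-1) = 1 →
      ψ (1 + (l : ZMod (l ^ r)) ^ (r - 1)) ≠ 1 → ∃ k' : ℕ,
        V.valuation (p : ℂ) < V.valuation ((∑ j ∈ Finset.range 2, (-1) ^ (1 - j) *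
          SG p (RL R l r hl) (lvX p (f * l ^ r) n) (p ^ (n + 1)) (aX p (f * l ^ r))
            (fun x => e x * ψ (nm x)) (fun i => kk i * ψ ((nI (R.b i) : ℕ))) t z₀
            ((1 + (p : ℤ)) ^ (k' + j))) / u)

end

end Pool.Agent.OT
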