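import Pool.Agent.OB.J_NIL
import Pool.Agent.OB.FDefs
import Pool.Agent.OT.Defs

/-!
# OT, block J (helper19): Theorem T, from the input (I3) of block I to `μ = 0` for all new characters of `K B_r`

`p ≥ 5` is a prime number, `l = 2` or `3` (`Gen l g h`), `Ln r` the layers of the cyclotomic `ℤ_l`-extension of `ℚ`, `Bn n` the layers of the cyclotomic
`ℤ_p`-extension, `K₀/k` finite abelian of degree prime to `p` with the `p`-th roots of unity. `K' = K₀ ⊔ Ln (r + 1)`. A character of `Gal(K'/k)` is NEW if it is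
not trivial on the automorphisms over `K₀ ⊔ Ln r`. `h` is the number with `l^h = 3` or `4`: the conductor of `K'` is `f' = f l^(r+1+h)` (times powers of `p`).

Every `def S_X : Prop` is the statement of a module, which proves `theorem t_X (hypotheses named under USES) : S_X`, in the file `Pool/Agent/OT/J_X.lean`,
namespace `Pool.Agent.OTJ`. `O_IT` is the result of the block I (helper79), `O_TJ` is the result of this block.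
-/

set_option autoImplicit false

open NumberField IsDedekindDomain

namespace Pool.Agent.OTJ

open _root_.MU3 Pool.Agent.MU3 Pool.Agent.MU3A Pool.Agent.MU3B Pool.Agent.RI Pool.Agent.RID
  Pool.Agent.MUX Pool.Agent.MUXK Pool.Agent.MUXE Pool.Agent.MUXJ Pool.Agent.MUXZ Pool.Agent.NSI
  Pool.Agent.OB
open Pool.Agent.OT (RL)
open _root_.Pool.Agent.TWR (Gen)

noncomputable section

/-- `K₀/k` is abelian, of degree prime to `p`, and `K₀` contains the `p`-th roots of unity -/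
structure AbK (p : ℕ) {k K₀ : IntermediateField ℚ ℂ} (hk : k ≤ K₀) : Prop where
  gal : IsGalois k (IntermediateField.extendScalars hk)
  ab : ∀ σ τ : (IntermediateField.extendScalars hk) ≃ₐ[k] (IntermediateField.extendScalars hk),
    σ * τ = τ * σ
  cop : ¬ p ∣ Module.finrank k (IntermediateField.extendScalars hk)
  om : ∃ ω ∈ K₀, IsPrimitiveRoot ω p

/-- the layers of the cyclotomic `ℤ_l`-extension -/
structure LyL (l : ℕ) (Ln : ℕ → IntermediateField ℚ ℂ) : Prop where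
  lay : ∀ r, IsLayer l r (Ln r)
  mono : Monotone Ln

theorem fd_LL {l g h : ℕ} (hG : Gen l g h) {Ln : ℕ → IntermediateField ℚ ℂ} (hL : LyL l Ln)
    (K₀ : IntermediateField ℚ ℂ) [FiniteDimensional ℚ K₀] (r : ℕ) :
    FiniteDimensional ℚ ↥(K₀ ⊔ Ln r) := by
  have hlp : Fact l.Prime := ⟨by rcases hG with ⟨rfl, -, -⟩ | ⟨rfl, -, -⟩ <;> norm_num⟩
  obtain ⟨h1, -, -⟩ := LAY_thm l r (Ln r) (hL.lay r)
  exact IntermediateField.finiteDimensional_sup K₀ (Ln r)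

/-- the character `χ` of `Gal(K/k)` is not trivial on the automorphisms over `E` -/
def NewC {F : Type} [Field F] {k K : IntermediateField ℚ ℂ} (h : k ≤ K)
    (E : IntermediateField ℚ ℂ) (χ : (letI := algC h; (↥K ≃ₐ[k] ↥K) →* Fˣ)) : Prop :=
  letI := algC h
  ∃ s : ↥K ≃ₐ[k] ↥K, (∀ x : ↥K, (x : ℂ) ∈ E → s x = x) ∧ χ s ≠ 1

/-- THE RESULT of block I (helper79): for all large `r`, for every new character `χ` of `Gal(K'/k)`, `K' = K₀ ⊔ Ln (r + 1)`, the element `C 1` of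
`K' ⊔ Bn 5` is not a `p`-th power in the sense of (I3): `I3At .. χ 1 5`. The number `r₀` depends on everything which is fixed before it. -/
def O_IT : Prop :=
  ∀ (p er : ℕ) [Fact p.Prime] (A B : ℤ) (P : Ideal (OO A B)) (V : ValuationSubring ℂ) (f : ℕ),
    SetO p er A B P V f → TorX A B →
    ∀ (ι : Type) [Fintype ι] (R : Reps A B (p * f) ι) (u el lam : ℂ),
    GoodL V (R.L R.i0) u el lam →
    ∀ (l g h : ℕ), Gen l g h → ∀ (hl : l ∣ f) (K₀ : IntermediateField ℚ ℂ)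
    [FiniteDimensional ℚ K₀] (hk : kk A B ≤ K₀), AbK p hk →
    (∀ y ∈ K₀, y ∈ RF (idl (A := A) (B := B) (lvX p f 0))) →
    ∀ Ln : ℕ → IntermediateField ℚ ℂ, LyL l Ln →
    ∃ r₀ : ℕ, ∀ r, r₀ ≤ r → ∀ (K' : IntermediateField ℚ ℂ), K' = K₀ ⊔ Ln (r + 1) →
    ∀ (Bn : ℕ → IntermediateField ℚ ℂ) [FiniteDimensional ℚ K']
    [∀ n, FiniteDimensional ℚ ↥(K' ⊔ Bn n)] (_ : BasX p (kk A B) K' Bn)
    (hkn : kk A B ≤ K' ⊔ Bn 5) (hkK : kk A B ≤ K') (_ : AbK p hkK)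
    (_ : ∀ y ∈ K', y ∈ RF (idl (A := A) (B := B) (lvX p (f * l ^ (r + 1 + h)) 0)))
    (C : (letI := algC hkn; ↥(K' ⊔ Bn 5) ≃ₐ[kk A B] ↥(K' ⊔ Bn 5)) → ℂ),
    EInpO p er P V (f * l ^ (r + 1 + h)) (RL R l (r + 1 + h) hl) u 5 hkn C →
    ∀ (c₀ : ℂ) (mem : c₀ ∈ K' ⊔ Bn 5), c₀ = C (letI := algC hkn; 1) →
    ∀ χ : (letI := algC hkK; (↥K' ≃ₐ[kk A B] ↥K') →* (IsLocalRing.ResidueField V)ˣ),
      NewC hkK (K₀ ⊔ Ln r) χ →
      I3At (IsLocalRing.ResidueField V) p (kk A B) K' Bn hkK χ 1 5 hkn c₀ mem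

/-! ## Modules -/

/-- (LLV) the level of `K₀ ⊔ Ln r`.

PROOF. `TWF.lvl` (`TWF/LVL.lean`) with `f := lvX p f 0`, `s := h`, `n := r`; its hypotheses `Si_LAY`, `Si_IAF` are proved (`Pool.Agent.MUXI.i_LAY`, `i_IAF`, or the names in `MUX/IAll.lean`; `OB/O_Fin.lean` or `OBI` shows how they are supplied).
`lvX p f 0 * l^(r+h) = lvX p (f * l^(r+h)) 0` (`OBI.lvX_odd`, `ring`; `p ≠ 2`). -/
def S_LLV : Prop :=
  ∀ (p l g h : ℕ) (A B : ℤ), CQ A B → TorX A B → NLex A B → p.Prime → p ≠ 2 → Gen l g h →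
    ∀ f : ℕ, f ≠ 0 → ∀ K₀ : IntermediateField ℚ ℂ,
    (∀ y ∈ K₀, y ∈ RF (idl (A := A) (B := B) (lvX p f 0))) →
    ∀ (r : ℕ) (Lr : IntermediateField ℚ ℂ), IsLayer l r Lr →
    ∀ y ∈ K₀ ⊔ Lr, y ∈ RF (idl (A := A) (B := B) (lvX p (f * l ^ (r + h)) 0))

/-- (ABL) `K₀ ⊔ Ln r` is abelian over `k`, of degree prime to `p` (helper88, `OT/J_ABL.lean`). -/
def S_ABL : Prop :=
  ∀ (p l g h : ℕ), p.Prime → 5 ≤ p → Gen l g h → ∀ A B : ℤ, TorX A B → NLex A B →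
    ∀ f : ℕ, f ≠ 0 → ∀ (K₀ : IntermediateField ℚ ℂ) [FiniteDimensional ℚ K₀]
    (hk : kk A B ≤ K₀), (∀ y ∈ K₀, y ∈ RF (idl (A := A) (B := B) (lvX p f 0))) → AbK p hk →
    ∀ Ln : ℕ → IntermediateField ℚ ℂ, LyL l Ln → ∀ (r : ℕ) (h' : kk A B ≤ K₀ ⊔ Ln r),
    AbK p h'

/-- (SETF) the large field `K = K₀ RF(1)`, for a given level `f`.

PROOF. The proof of `t_SETO` (`OB/J_SETO.lean`), line by line, without `t_DIR`, `t_LEVO`: `f` is given and `hKf` is the hypothesis. (`d` does not occur.) -/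
def S_SETF : Prop :=
  ∀ (p er : ℕ) (A B : ℤ) (P : Ideal (OO A B)) (V : ValuationSubring ℂ),
    CaseO p er A B P V → UnrH A B V → TorX A B →
    ∀ (K₀ : IntermediateField ℚ ℂ) [FiniteDimensional ℚ K₀] (hk : kk A B ≤ K₀),
    ¬ p ∣ Module.finrank (kk A B) (IntermediateField.extendScalars hk) →
    (∃ ω ∈ K₀, IsPrimitiveRoot ω p) → ∀ f : ℕ, f ≠ 0 →
    (∀ y ∈ K₀, y ∈ RF (idl (A := A) (B := B) (lvX p f 0))) →
    ∀ Bn : ℕ → IntermediateField ℚ ℂ, (∀ n, IsLayer p n (Bn n)) → Monotone Bn →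
    ∃ (K : IntermediateField ℚ ℂ) (_ : FiniteDimensional ℚ K),
      SetX p (kk A B) K₀ K Bn ∧
      (∀ y ∈ K, y ∈ RF (idl (A := A) (B := B) (lvX p f 0))) ∧
      ∀ y ∈ RF (⊤ : Ideal (OO A B)), y ∈ K

/-- (LEM1S) `Sn_LEM1` (`NS/StIN.lean`) with one level `m ≥ n₁`.

PROOF. The proof of `tn_LEM1` (`NS/I_LEM1.lean`, theorem at line 232) uses the hypothesis `h3` only once, `obtain ⟨m, hm1, hm2⟩ := h3 n₁`: copy it with `m`, `hm1`, `hm2` given (the lemmas of `NS/I_LEM1.lean` can be cited). USES S_GALX, S_RSX. -/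
def S_LEM1S : Prop := ∀ (F : Type) [Field F] (p : ℕ) [Fact p.Prime]
    (k K : IntermediateField ℚ ℂ) (B : ℕ → IntermediateField ℚ ℂ)
    [FiniteDimensional ℚ K] [∀ n, FiniteDimensional ℚ ↥(K ⊔ B n)] (hB : BasX p k K B)
    (_ : ¬ p ∣ Module.finrank k (IntermediateField.extendScalars hB.hk))
    (_ : ∃ ω ∈ K, IsPrimitiveRoot ω p)
    (hk : ∀ n, k ≤ K ⊔ B n) (hkK : k ≤ K) (c₀ : ℕ → ℂ) (mem : ∀ n, c₀ n ∈ K ⊔ B n)
    (_ : ∀ n, c₀ n ≠ 0) (n₁ : ℕ) (_ : NrRel p k K B hk c₀ mem n₁)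
    (χ : (letI := algC hkK; (↥K ≃ₐ[k] ↥K) →* Fˣ)) (m : ℕ), n₁ ≤ m →
    I3At F p k K B hkK χ 1 m (hk m) (c₀ m) (mem m) →
    ∀ N n₀ : ℕ, ∃ n, n₀ ≤ n ∧ I3At F p k K B hkK χ N n (hk n) (c₀ n) (mem n)

/-- (PIGS) from one level and one character to `I3C`.

PROOF. As `t_PIG` (`OB/K_PIG.lean`), for one character. USES LEM1S, Sn_NRX. -/
def S_PIGS : Prop := ∀ (F : Type) [Field F] (p : ℕ) [Fact p.Prime]
    (k K₀ K : IntermediateField ℚ ℂ) (B : ℕ → IntermediateField ℚ ℂ)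
    [FiniteDimensional ℚ k] [FiniteDimensional ℚ K] [∀ n, FiniteDimensional ℚ ↥(K ⊔ B n)]
    [∀ n, FiniteDimensional ℚ ↥(K₀ ⊔ B n)], SetX p k K₀ K B →
    ∀ (hk : ∀ n, k ≤ K ⊔ B n) (hk₀ : ∀ n, k ≤ K₀ ⊔ B n)
    (hkK : k ≤ K₀) (S : Finset ℕ) (c c₀ : ℕ → ℂ) (n₁ : ℕ)
    (hI : InpW p k K₀ K B hk hk₀ S c c₀ n₁)
    (χ : letI := algC hkK; (↥K₀ ≃ₐ[k] ↥K₀) →* Fˣ) (m : ℕ), n₁ ≤ m →
    I3At F p k K₀ B hkK χ 1 m (hk₀ m) (c₀ m) (hI.mem₀ m) →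
    I3C F p k K₀ B hk₀ hkK c₀ hI.mem₀ χ

/-! ## The inputs of block K -/

/-- the inputs of block K for the fields `K₀ ⊔ Ln (r + 1)`, for one prime `P` -/
def InpGT (p : ℕ) (A B : ℤ) (V : ValuationSubring ℂ) : Prop :=
  ∀ (l g h : ℕ), Gen l g h → ∀ f : ℕ, f ≠ 0 → ¬ p ∣ f → 12 ∣ f →
  2 * absD A B ∣ ((p * f : ℕ) : ℤ) →
  ∀ (K₀ : IntermediateField ℚ ℂ) [FiniteDimensional ℚ K₀] (hk : kk A B ≤ K₀), AbK p hk →
  (∀ y ∈ K₀, y ∈ RF (idl (A := A) (B := B) (lvX p f 0))) →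
  ∀ Ln : ℕ → IntermediateField ℚ ℂ, LyL l Ln →
  ∃ r₀ : ℕ, ∀ r, r₀ ≤ r → ∀ (K' K : IntermediateField ℚ ℂ) (Bn : ℕ → IntermediateField ℚ ℂ)
    [FiniteDimensional ℚ (kk A B)] [FiniteDimensional ℚ K'] [FiniteDimensional ℚ K]
    [∀ n, FiniteDimensional ℚ ↥(K ⊔ Bn n)] [∀ n, FiniteDimensional ℚ ↥(K' ⊔ Bn n)],
    K' = K₀ ⊔ Ln (r + 1) → SetX p (kk A B) K' K Bn →
    (∀ y ∈ K, y ∈ RF (idl (A := A) (B := B) (lvX p (f * l ^ (r + 1 + h)) 0))) →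
    (∀ y ∈ RF (⊤ : Ideal (OO A B)), y ∈ K) →
    ∀ (hk : ∀ n, kk A B ≤ K ⊔ Bn n) (hk₀ : ∀ n, kk A B ≤ K' ⊔ Bn n) (hkK : kk A B ≤ K'),
    ∃ (S : Finset ℕ) (c c₀ : ℕ → ℂ) (n₁ : ℕ)
      (hW : InpW p (kk A B) K' K Bn hk hk₀ S c c₀ n₁),
      ∀ χ : (letI := algC hkK; (↥K' ≃ₐ[kk A B] ↥K') →* (IsLocalRing.ResidueField V)ˣ),
        NewC hkK (K₀ ⊔ Ln r) χ → ∃ m, n₁ ≤ m ∧
          I3At (IsLocalRing.ResidueField V) p (kk A B) K' Bn hkK χ 1 m (hk₀ m) (c₀ m) (hW.mem₀ m)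

/-- (INPT, helper19) the inputs, from `O_IT` and the results of `OB`.

PROOF. As `OB/Z_INPO.lean`, `o_INPO`. -/
def S_INPT : Prop := ∀ (p er : ℕ) (A B : ℤ) (P : Ideal (OO A B)) (V : ValuationSubring ℂ),
  CaseO p er A B P V → TorX A B → InpGT p A B V

/-- (MAINT, helper19) the theorem for the fields `kk A B`.

PROOF. As `OB/J_MAIN.lean`, `o_main`. -/
def S_MAINT : Prop :=
  ∀ (p : ℕ) [Fact p.Prime], 5 ≤ p → ∀ (A B : ℤ), CQ A B → absD A B ≠ 3 → absD A B ≠ 4 →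
    ∀ (l g h : ℕ), Gen l g h → ∀ (K₀ : IntermediateField ℚ ℂ) [FiniteDimensional ℚ K₀]
    (hk : kk A B ≤ K₀), AbK p hk → ∀ Ln : ℕ → IntermediateField ℚ ℂ, LyL l Ln →
    ∃ r₀ : ℕ, ∀ r, r₀ ≤ r → ∀ (K' : IntermediateField ℚ ℂ) (Bn : ℕ → IntermediateField ℚ ℂ)
      [∀ n, FiniteDimensional ℚ ↥(K' ⊔ Bn n)], K' = K₀ ⊔ Ln (r + 1) →
      (∀ n, IsLayer p n (Bn n)) → Monotone Bn →
      ∀ (hk₀ : ∀ n, kk A B ≤ K' ⊔ Bn n) (hkK : kk A B ≤ K')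
      (χ : (letI := algC hkK; (↥K' ≃ₐ[kk A B] ↥K') →* (AlgebraicClosure (ZMod p))ˣ)),
      NewC hkK (K₀ ⊔ Ln r) χ →
      BasX p (kk A B) K' Bn ∧
      ∃ m : ℕ, NilC (AlgebraicClosure (ZMod p)) (kk A B) K' Bn hk₀ hkK χ m

/-! ## The result -/

/-- THE RESULT of this block: for all large `r`, `μ = 0` for all new characters of `Gal(K₀ Ln (r+1) / k)`. -/
def O_TJ : Prop :=
  ∀ (p : ℕ) [Fact p.Prime], 5 ≤ p → ∀ (l g h : ℕ), Gen l g h →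
    ∀ (k K₀ : IntermediateField ℚ ℂ) [FiniteDimensional ℚ K₀] (hk : k ≤ K₀),
    Module.finrank ℚ k = 2 → (∃ z ∈ k, (starRingEnd ℂ) z ≠ z) → (∀ z ∈ k, z ^ 2 ≠ -1) →
    (∀ z ∈ k, z ^ 2 ≠ -3) → AbK p hk → ∀ Ln : ℕ → IntermediateField ℚ ℂ, LyL l Ln →
    ∃ r₀ : ℕ, ∀ r, r₀ ≤ r → ∀ (h' : k ≤ K₀ ⊔ Ln (r + 1)) (χ : MuCyc.Chr p h'),
      (∃ s : MuCyc.Gal h', (∀ x : IntermediateField.extendScalars h',
        (x : ℂ) ∈ K₀ ⊔ Ln r → s x = x) ∧ χ s ≠ 1) →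
      MuCyc.MuZeroC p h' χ

end

end Pool.Agent.OTJ
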