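import Pool.Agent.OT.StE
import Pool.Agent.RID.P_ABS2

/-!
# OT, block E (helper3): part (3) of `ABR`, the capitulation kernel
-/

set_option autoImplicit false

open NumberField Finset IsDedekindDomain
open scoped nonZeroDivisors Pointwise

namespace Pool.Agent.OTE.ABR3

open _root_.Pool.Agent.RI _root_.Pool.Agent.RID _root_.Pool.Agent.RID.ABS2

theorem abr3 (p q : ℕ) [Fact p.Prime] {A I A' I' G κ : Type} [CommGroup A]
    [CommGroup I] [CommGroup A'] [CommGroup I'] [Group G] [MulDistribMulAction G A]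
    [MulDistribMulAction G I] (l : List κ) (k : κ → ℕ) (νA : κ → A →* A) (νI : κ → I →* I)
    (νA' : κ → A' →* A') (νI' : κ → I' →* I') (dv : A →* I) (dv' : A' →* I') (ι : A' →* A)
    (ε : I' →* I) (g : G) (had : AD0 p q l k νA νI νA' νI' dv dv' ι ε g)
    (h0 : ((dv.ker ⊓ part l νA).map (dg g)).relIndex (dv.ker ⊓ part l νA ⊓ (ng g q).ker) ≠ 0)
    (hne : ((part l νI' ⊓ dv'.range).map ε).relIndex
      (part l νI ⊓ (dg g : I →* I).ker ⊓ dv.range) ≠ 0) :
    padicValNat p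
        (((dv.ker ⊓ part l νA).map (dg g)).relIndex (dv.ker ⊓ part l νA ⊓ (ng g q).ker)) ≤
      padicValNat p (((part l νI' ⊓ dv'.range).map ε).relIndex
        (part l νI ⊓ (dg g : I →* I).ker ⊓ dv.range)) := by
  obtain ⟨cop, qA, qI, gq, dvg, gA, gI, dvν, sq, εν, ιν, εinj, gε, gι, h90, fixA, fin, fin'⟩ :=
    had
  set E := dv.ker ⊓ part l νA with hE
  set Z₁ := E ⊓ (ng g q : A →* A).ker with hZ₁
  set B₁ := E.map (dg g : A →* A) with hB₁
  set P := dv.range with hP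
  set P' := dv'.range with hP'
  set V := part l νI ⊓ (dg g : I →* I).ker with hV
  set W := (part l νI' ⊓ P').map ε with hW
  set w := wt l k with hw
  have hwp : w.Coprime p := wt_coprime l k cop
  have hWV : W ≤ V ⊓ P := by
    rintro _ ⟨c, ⟨hc1, a, rfl⟩, rfl⟩
    refine ⟨⟨?_, ?_⟩, ?_⟩
    · refine mem_part.2 fun i hi => ?_
      rw [← εν i hi, mem_part.1 hc1 i hi, map_one]
    · exact (mem_dg_ker g _).2 (gε _)
    · rw [sq]
      exact ⟨_, rfl⟩
  -- commutation with `dg g`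
  have hdgν : ∀ i ∈ l, ∀ x, (dg g : A →* A) (νA i x) = νA i (dg g x) := by
    intro i hi x
    rw [dg_apply, dg_apply, map_div, gA i hi]
  have hdv_dg : ∀ x, dv (dg g x) = dg g (dv x) := by
    intro x
    rw [dg_apply, dg_apply, map_div, dvg]
  have hBZ : B₁ ≤ Z₁ := by
    rintro _ ⟨u, hu, rfl⟩
    have hu1 : dv u = 1 := hu.1
    have hu2 := mem_part.1 hu.2
    refine ⟨⟨?_, ?_⟩, ?_⟩
    · change dv (dg g u) = 1
      rw [hdv_dg, hu1, map_one]
    · refine mem_part.2 fun i hi => ?_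
      rw [← hdgν i hi, hu2 i hi, map_one]
    · exact ng_dg g q gq u
  -- the correspondence
  let Λ : Subgroup (A × I) :=
    { carrier := {z | z.1 ∈ Z₁ ∧ z.2 ∈ V ⊓ P ∧ ∃ y ∈ part l νA, z.1 ^ w = dg g y ∧ dv y = z.2}
      mul_mem' := by
        rintro ⟨a, b⟩ ⟨c, d⟩ ⟨h1, h2, y, hy, h3, h4⟩ ⟨h1', h2', y', hy', h3', h4'⟩
        refine ⟨mul_mem h1 h1', mul_mem h2 h2', y * y', mul_mem hy hy', ?_, ?_⟩
        · change (a * c) ^ w = _
          rw [mul_pow, map_mul]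
          exact congrArg₂ (· * ·) h3 h3'
        · change _ = b * d
          rw [map_mul]
          exact congrArg₂ (· * ·) h4 h4'
      one_mem' := ⟨one_mem _, one_mem _, 1, one_mem _, by simp, by simp⟩
      inv_mem' := by
        rintro ⟨a, b⟩ ⟨h1, h2, y, hy, h3, h4⟩
        refine ⟨inv_mem h1, inv_mem h2, y⁻¹, inv_mem hy, ?_, ?_⟩
        · change (a⁻¹) ^ w = _
          rw [inv_pow, map_inv]
          exact congrArg _ h3
        · change _ = b⁻¹
          rw [map_inv]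
          exact congrArg _ h4 }
  have hΛ1 : Λ.map (MonoidHom.fst A I) = Z₁ := by
    apply le_antisymm
    · rintro _ ⟨⟨a, b⟩, h, rfl⟩
      exact h.1
    · intro u hu
      obtain ⟨⟨hu1, hu2⟩, hu3⟩ := hu
      obtain ⟨y₀, hy₀⟩ := h90 u hu3
      have hy₀' : u = dg g y₀ := hy₀
      have huw : u ^ w = dg g (pr l k νA y₀) := by
        rw [hw, ← pr_part l k νA hu2, comm_pr l k νA (dg g) hdgν, ← hy₀']
      have hy := pr_mem l k νA qA y₀
      have hfix : dv (pr l k νA y₀) ∈ (dg g : I →* I).ker := by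
        rw [MonoidHom.mem_ker, ← hdv_dg, ← huw, map_pow]
        have : dv u = 1 := hu1
        rw [this, one_pow]
      have hpart : dv (pr l k νA y₀) ∈ part l νI := by
        refine mem_part.2 fun i hi => ?_
        rw [← dvν i hi, mem_part.1 hy i hi, map_one]
      exact ⟨(u, dv (pr l k νA y₀)), ⟨⟨⟨hu1, hu2⟩, hu3⟩, ⟨⟨hpart, hfix⟩, ⟨_, rfl⟩⟩,
        pr l k νA y₀, hy, huw, rfl⟩, rfl⟩
  have hΛ2 : Λ.map (MonoidHom.snd A I) ≤ V ⊓ P := by
    rintro _ ⟨⟨a, b⟩, h, rfl⟩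
    exact h.2.1
  set Λ₀ := W.comap (MonoidHom.snd A I) ⊓ Λ with hΛ₀
  have hr : Λ₀.relIndex Λ = W.relIndex (Λ.map (MonoidHom.snd A I)) := by
    rw [hΛ₀, Subgroup.inf_relIndex_right, Subgroup.relIndex_comap]
  set Z₀ := Λ₀.map (MonoidHom.fst A I) with hZ₀
  have hZ₀1 : Z₀ ≤ Z₁ := by
    rw [← hΛ1]
    exact Subgroup.map_mono inf_le_right
  have hd1 : Z₀.relIndex Z₁ ∣ W.relIndex (V ⊓ P) := by
    have h1 : Z₀.relIndex Z₁ ∣ Λ₀.relIndex Λ := by
      rw [← hΛ1]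
      exact map_dvd _ _ _
    rw [hr] at h1
    exact h1.trans (rel_dvd_right hWV hΛ2)
  have hkill : ∀ u ∈ Z₀, u ^ (w * w) ∈ B₁ := by
    rintro _ ⟨⟨u, c⟩, ⟨h1, h2⟩, rfl⟩
    obtain ⟨⟨⟨hu1, hu2⟩, hu3⟩, -, y, hy, huy, hyc⟩ := h2
    obtain ⟨_, ⟨-, a, rfl⟩, ha⟩ := h1
    have ha' : ε (dv' a) = c := ha
    change u ^ (w * w) ∈ B₁
    have hv1 : dv (y / ι a) = 1 := by
      rw [map_div, ← sq, ha', div_eq_one]
      exact hyc
    have hv2 : (dg g : A →* A) (y / ι a) = u ^ w := by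
      have h3 : (dg g : A →* A) (ι a) = 1 := by
        rw [dg_apply, gι, div_self']
      rw [map_div, h3, div_one]
      exact huy.symm
    refine ⟨pr l k νA (y / ι a), ⟨?_, pr_mem l k νA qA _⟩, ?_⟩
    · change dv (pr l k νA (y / ι a)) = 1
      rw [pr_map l k νA νI dv dvν, hv1, map_one]
    · rw [comm_pr l k νA (dg g) hdgν, hv2, pr_part l k νA (pow_mem hu2 w), ← hw, ← pow_mul]
  set S := Z₀ ⊔ B₁ with hS
  have hS0 : padicValNat p (B₁.relIndex S) = 0 := by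
    refine padic_zero p (n := w * w) (Nat.Coprime.mul_left hwp hwp) fun x hx => ?_
    rw [hS, Subgroup.mem_sup] at hx
    obtain ⟨a, ha, b, hb, rfl⟩ := hx
    rw [mul_pow]
    exact mul_mem (hkill a ha) (pow_mem hb _)
  have hSZ := Subgroup.relIndex_mul_relIndex B₁ S Z₁ le_sup_right (sup_le hZ₀1 hBZ)
  have hS1 : B₁.relIndex S ≠ 0 := fun h => h0 (by rw [← hSZ, h, zero_mul])
  have hS2 : S.relIndex Z₁ ≠ 0 := fun h => h0 (by rw [← hSZ, h, mul_zero])
  rw [← hSZ, padicValNat.mul hS1 hS2, hS0, zero_add]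
  refine padic_mono p hne (dvd_trans ?_ hd1)
  exact Subgroup.relIndex_dvd_of_le_left Z₁ le_sup_left

end Pool.Agent.OTE.ABR3
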