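import Pool.Agent.OT.StE
import Pool.Agent.RID.P_ABS1
import Pool.Agent.OT.E_ABR3

/-!
# OT, block E (helper3): `ABR`, the ambiguous classes, abstract form, with ramification
-/

set_option autoImplicit false

open NumberField Finset IsDedekindDomain
open scoped nonZeroDivisors Pointwise

namespace Pool.Agent.OTE

open _root_.Pool.Agent.RI _root_.Pool.Agent.RID

namespace ABR

open _root_.Pool.Agent.RID.ABS1

/-- part (1) -/
theorem abr1 (p q : ℕ) [Fact p.Prime] {A I A' I' G κ : Type} [CommGroup A]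
    [CommGroup I] [CommGroup A'] [CommGroup I'] [Group G] [MulDistribMulAction G A]
    [MulDistribMulAction G I] (l : List κ) (k : κ → ℕ) (νA : κ → A →* A) (νI : κ → I →* I)
    (νA' : κ → A' →* A') (νI' : κ → I' →* I') (dv : A →* I) (dv' : A' →* I') (ι : A' →* A)
    (ε : I' →* I) (g : G) (had : AD0 p q l k νA νI νA' νI' dv dv' ι ε g)
    (h0 : ((dv.ker ⊓ part l νA).map (ng g q)).relIndex (dv.ker ⊓ part l νA ⊓ (dg g).ker) ≠ 0) :
    padicValNat p (dv.range.relIndex (partM l νI dv.range ⊓ dv.range.comap (dg g))) ≤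
      padicValNat p
        (((dv.ker ⊓ part l νA).map (ng g q)).relIndex (dv.ker ⊓ part l νA ⊓ (dg g).ker)) +
      padicValNat p (dv.range.relIndex (part l νI ⊓ (dg g : I →* I).ker ⊔ dv.range)) := by
  obtain ⟨cop, qA, qI, gq, dvg, gA, gI, dvν, sq, εν, ιν, εinj, gε, gι, h90, fixA, fin, fin'⟩ :=
    had
  set E := dv.ker ⊓ part l νA with hE
  set N₀ := E.map (ng g q : A →* A) with hN₀
  set B₀ := E ⊓ (dg g : A →* A).ker with hB₀
  set P := dv.range with hP
  set V := part l νI ⊓ (dg g : I →* I).ker with hV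
  set Up := partM l νI P ⊓ P.comap (dg g : I →* I) with hUp
  set U := V ⊔ P with hU
  set w := wt l k with hw
  have hwp : w.Coprime p := wt_coprime l k cop
  have hdgA : ∀ i ∈ l, ∀ x, (dg g : A →* A) (νA i x) = νA i (dg g x) := by
    intro i hi x
    rw [dg_apply, dg_apply, map_div, gA i hi]
  have hdgI : ∀ i ∈ l, ∀ x, (dg g : I →* I) (νI i x) = νI i (dg g x) := by
    intro i hi x
    rw [dg_apply, dg_apply, map_div, gI i hi]
  have hdv_dg : ∀ x, dv (dg g x) = dg g (dv x) := by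
    intro x
    rw [dg_apply, dg_apply, map_div, dvg]
  have hngA : ∀ i ∈ l, ∀ x, νA i (ng g q x) = ng g q (νA i x) := fun i hi x =>
    ng_comm (νA i) g q (fun y => (gA i hi y).symm) x
  have hngd : ∀ x, dv (ng g q x) = ng g q (dv x) := fun x => ng_comm dv g q dvg x
  have hstP : ∀ i ∈ l, ∀ x ∈ P, νI i x ∈ P := by
    rintro i hi _ ⟨a, rfl⟩
    rw [← dvν i hi]
    exact ⟨_, rfl⟩
  -- elements of `B₀`
  have hB : ∀ z ∈ part l νA, dv (ng g q z) = 1 → (ng g q : A →* A) z ∈ B₀ := by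
    intro z hz hz1
    refine ⟨⟨hz1, mem_part.2 fun i hi => ?_⟩, ?_⟩
    · rw [hngA i hi, mem_part.1 hz i hi, map_one]
    · exact (mem_dg_ker g _).2 (smul_ng g q gq z)
  have hNB : N₀ ≤ B₀ := by
    rintro _ ⟨u, hu, rfl⟩
    refine hB u hu.2 ?_
    have h1 : dv u = 1 := hu.1
    rw [hngd, h1, map_one]
  -- the correspondence
  let Γ : Subgroup (I × A) :=
    { carrier := {z | z.1 ∈ Up ∧ (dg g : I →* I) z.1 = dv z.2}
      mul_mem' := by
        rintro ⟨a, b⟩ ⟨c, d⟩ ⟨h1, h2⟩ ⟨h1', h2'⟩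
        refine ⟨mul_mem h1 h1', ?_⟩
        change (dg g : I →* I) (a * c) = dv (b * d)
        rw [map_mul, map_mul]
        exact congrArg₂ (· * ·) h2 h2'
      one_mem' := ⟨one_mem _, by simp⟩
      inv_mem' := by
        rintro ⟨a, b⟩ ⟨h1, h2⟩
        refine ⟨inv_mem h1, ?_⟩
        change (dg g : I →* I) (a⁻¹) = dv (b⁻¹)
        rw [map_inv, map_inv]
        exact congrArg _ h2 }
  have hΓ : ∀ a b, (a, b) ∈ Γ ↔ a ∈ Up ∧ (dg g : I →* I) a = dv b := fun a b => Iff.rfl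
  let φ : A →* A := (ng g q : A →* A).comp (pr l k νA)
  have hφ : ∀ x, φ x = ng g q (pr l k νA x) := fun x => rfl
  have hyz : ∀ b x, (b, x) ∈ Γ → (dg g : I →* I) (pr l k νI b) = dv (pr l k νA x) := by
    intro b x h
    rw [comm_pr l k νI (dg g) hdgI, ((hΓ b x).1 h).2, pr_map l k νA νI dv dvν]
  have hφB : ∀ b x, (b, x) ∈ Γ → φ x ∈ B₀ := by
    intro b x h
    rw [hφ]
    refine hB _ (pr_mem l k νA qA x) ?_
    rw [hngd, ← hyz b x h]
    exact ng_dg g q gq _
  have hΓ1 : Γ.map (MonoidHom.fst I A) = Up := by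
    apply le_antisymm
    · rintro _ ⟨⟨a, b⟩, h, rfl⟩
      exact h.1
    · intro b hb
      obtain ⟨x, hx⟩ := hb.2
      exact ⟨(b, x), (hΓ b x).2 ⟨hb, hx.symm⟩, rfl⟩
  let ψ : I × A →* A := φ.comp (MonoidHom.snd I A)
  have hΓ2 : Γ.map ψ ≤ B₀ := by
    rintro _ ⟨⟨a, b⟩, h, rfl⟩
    exact hφB a b h
  set Γ₀ := N₀.comap ψ ⊓ Γ with hΓ₀
  have hr : Γ₀.relIndex Γ = N₀.relIndex (Γ.map ψ) := by
    rw [hΓ₀, Subgroup.inf_relIndex_right, Subgroup.relIndex_comap]
  set U₀ := Γ₀.map (MonoidHom.fst I A) with hU₀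
  have hU₀p : U₀ ≤ Up := by
    rw [← hΓ1]
    exact Subgroup.map_mono inf_le_right
  have hd1 : U₀.relIndex Up ∣ N₀.relIndex B₀ := by
    have h1 : U₀.relIndex Up ∣ Γ₀.relIndex Γ := by
      rw [← hΓ1]
      exact map_dvd _ _ _
    rw [hr] at h1
    exact h1.trans (rel_dvd_right hNB hΓ2)
  have hPU₀ : P ≤ U₀ := by
    rintro _ ⟨a, rfl⟩
    refine ⟨(dv a, dg g a), ⟨?_, (hΓ _ _).2 ⟨⟨?_, ?_⟩, (hdv_dg a).symm⟩⟩, rfl⟩
    · change φ (dg g a) ∈ N₀
      rw [hφ, ← comm_pr l k νA (dg g) hdgA, ng_dg g q gq]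
      exact one_mem _
    · exact mem_partM.2 fun i hi => hstP i hi _ ⟨a, rfl⟩
    · exact ⟨dg g a, hdv_dg a⟩
  have hVU₀ : V ≤ U₀ := by
    intro c hc
    have h1 : (dg g : I →* I) c = 1 := hc.2
    refine ⟨(c, 1), ⟨?_, (hΓ _ _).2 ⟨⟨?_, ?_⟩, ?_⟩⟩, rfl⟩
    · change φ 1 ∈ N₀
      rw [map_one]
      exact one_mem _
    · refine mem_partM.2 fun i hi => ?_
      rw [mem_part.1 hc.1 i hi]
      exact one_mem _
    · change (dg g : I →* I) c ∈ P
      rw [h1]
      exact one_mem _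
    · rw [h1, map_one]
  have hUU₀ : U ≤ U₀ := sup_le hVU₀ hPU₀
  have hkill : ∀ b ∈ U₀, b ^ (w * w) ∈ U := by
    rintro _ ⟨⟨b, x⟩, ⟨h1, h2⟩, rfl⟩
    change b ^ (w * w) ∈ U
    have hb := ((hΓ b x).1 h2).1
    obtain ⟨u, hu, huz⟩ := h1
    have huz' : ng g q u = ng g q (pr l k νA x) := huz
    have hz := pr_mem l k νA qA x
    have hu1 : dv u = 1 := hu.1
    have h3 : ng g q (pr l k νA x / u) = 1 := by
      rw [map_div, huz', div_self']
    obtain ⟨v, hv⟩ := h90 _ h3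
    have hv' : pr l k νA x / u = dg g v := hv
    have h4 : (pr l k νA x / u) ^ w = dg g (pr l k νA v) := by
      rw [hw, ← pr_part l k νA (div_mem hz hu.2), comm_pr l k νA (dg g) hdgA, ← hv']
    have hy₁ := pr_mem l k νA qA v
    have hy := pr_mem l k νI qI b
    have h5 : (dg g : I →* I) (pr l k νI b ^ w / dv (pr l k νA v)) = 1 := by
      rw [map_div, ← hdv_dg, ← h4, map_pow, hyz b x h2, map_pow, map_div, hu1, div_one, div_self']
    have hpart : pr l k νI b ^ w / dv (pr l k νA v) ∈ part l νI := by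
      refine div_mem (pow_mem hy w) (mem_part.2 fun i hi => ?_)
      rw [← dvν i hi, mem_part.1 hy₁ i hi, map_one]
    have h7 : pr l k νI b ^ w ∈ U := by
      have e : pr l k νI b ^ w =
          pr l k νI b ^ w / dv (pr l k νA v) * dv (pr l k νA v) := by
        rw [div_mul_cancel]
      rw [e]
      exact mul_mem (le_sup_left (a := V) (b := P) ⟨hpart, h5⟩)
        (le_sup_right (a := V) (b := P) ⟨_, rfl⟩)
    have h8 : (pr l k νI b / b ^ w) ^ w ∈ U :=
      (le_sup_right : P ≤ V ⊔ P) (pow_mem (pr_partM l k νI P hstP hb.1) w)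
    have e : b ^ (w * w) = pr l k νI b ^ w / (pr l k νI b / b ^ w) ^ w := by
      rw [div_pow, div_div_cancel, pow_mul]
    rw [e]
    exact div_mem h7 h8
  have hv0 : padicValNat p (U.relIndex U₀) = 0 :=
    padic_zero p (n := w * w) (Nat.Coprime.mul_left hwp hwp) hkill
  -- indices
  have hn1 : P.relIndex Up ≠ 0 := by
    have h1 : P.index ≠ 0 := by
      have : Finite (I ⧸ P) := fin
      exact Subgroup.index_ne_zero_of_finite
    exact fun h => h1 (by
      have := Subgroup.relIndex_dvd_index_of_normal P Up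
      rw [h] at this
      exact Nat.eq_zero_of_zero_dvd this)
  have hPU : P ≤ U := le_sup_right
  have hm1 := Subgroup.relIndex_mul_relIndex P U Up hPU (hUU₀.trans hU₀p)
  have hm2 := Subgroup.relIndex_mul_relIndex U U₀ Up hUU₀ hU₀p
  have hn2 : P.relIndex U ≠ 0 := fun h => hn1 (by rw [← hm1, h, zero_mul])
  have hn3 : U.relIndex Up ≠ 0 := fun h => hn1 (by rw [← hm1, h, mul_zero])
  have hn4 : U.relIndex U₀ ≠ 0 := fun h => hn3 (by rw [← hm2, h, zero_mul])
  have hn5 : U₀.relIndex Up ≠ 0 := fun h => hn3 (by rw [← hm2, h, mul_zero])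
  rw [← hm1, padicValNat.mul hn2 hn3, ← hm2, padicValNat.mul hn4 hn5, hv0, zero_add, add_comm]
  exact Nat.add_le_add_right (padic_mono p h0 hd1) _

/-- part (2): indices -/
theorem abr2 (p q : ℕ) [Fact p.Prime] {A I A' I' G κ : Type} [CommGroup A]
    [CommGroup I] [CommGroup A'] [CommGroup I'] [Group G] [MulDistribMulAction G A]
    [MulDistribMulAction G I] (l : List κ) (k : κ → ℕ) (νA : κ → A →* A) (νI : κ → I →* I)
    (νA' : κ → A' →* A') (νI' : κ → I' →* I') (dv : A →* I) (dv' : A' →* I') (ι : A' →* A)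
    (ε : I' →* I) (g : G) (had : AD0 p q l k νA νI νA' νI' dv dv' ι ε g)
    (hX : ((part l νI').map ε).relIndex (part l νI ⊓ (dg g : I →* I).ker) ≠ 0) :
    ((part l νI' ⊓ dv'.range).map ε).relIndex
      (part l νI ⊓ (dg g : I →* I).ker ⊓ dv.range) ≠ 0 ∧
    padicValNat p (dv.range.relIndex (part l νI ⊓ (dg g : I →* I).ker ⊔ dv.range)) +
      padicValNat p (((part l νI' ⊓ dv'.range).map ε).relIndex
        (part l νI ⊓ (dg g : I →* I).ker ⊓ dv.range)) ≤
      padicValNat p (dv'.range.relIndex (partM l νI' dv'.range)) +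
      padicValNat p (((part l νI').map ε).relIndex (part l νI ⊓ (dg g : I →* I).ker)) := by
  obtain ⟨cop, qA, qI, gq, dvg, gA, gI, dvν, sq, εν, ιν, εinj, gε, gι, h90, fixA, fin, fin'⟩ :=
    had
  set P := dv.range with hP
  set P' := dv'.range with hP'
  set V := part l νI ⊓ (dg g : I →* I).ker with hV
  set W := (part l νI' ⊓ P').map ε with hW
  set X := (part l νI').map ε with hXd
  set X' := partM l νI' P' with hX'
  have hst : ∀ i ∈ l, ∀ a, νI' i (dv' a) = dv' (νA' i a) := by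
    intro i hi a
    apply εinj
    rw [εν i hi, sq, ← dvν i hi, sq, ιν i hi]
  have hPX : P' ≤ X' := by
    rintro _ ⟨a, rfl⟩
    rw [hX', mem_partM]
    intro i hi
    rw [hst i hi]
    exact ⟨_, rfl⟩
  have hQX : part l νI' ≤ X' := by
    intro c hc
    refine mem_partM.2 fun i hi => ?_
    rw [mem_part.1 hc i hi]
    exact one_mem _
  have hXV : X ≤ V := by
    rintro _ ⟨c, hc, rfl⟩
    refine ⟨mem_part.2 fun i hi => ?_, (mem_dg_ker g _).2 (gε _)⟩
    rw [← εν i hi, mem_part.1 hc i hi, map_one]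
  have hWX : W ≤ X := Subgroup.map_mono inf_le_left
  have hWP : W ≤ P := by
    rintro _ ⟨c, ⟨-, a, rfl⟩, rfl⟩
    rw [sq]
    exact ⟨_, rfl⟩
  have hWVP : W ≤ V ⊓ P := le_inf (hWX.trans hXV) hWP
  have hn1 : P'.relIndex X' ≠ 0 := by
    have h1 : P'.index ≠ 0 := by
      have : Finite (I' ⧸ P') := fin'
      exact Subgroup.index_ne_zero_of_finite
    exact fun h => h1 (by
      have := Subgroup.relIndex_dvd_index_of_normal P' X'
      rw [h] at this
      exact Nat.eq_zero_of_zero_dvd this)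
  have hWX' : W.relIndex X ∣ P'.relIndex X' := by
    have h1 : W.relIndex X ∣ (part l νI' ⊓ P').relIndex (part l νI') := map_dvd ε _ _
    rw [Subgroup.inf_relIndex_left] at h1
    exact h1.trans (rel_dvd_right hPX hQX)
  have hn2 : W.relIndex X ≠ 0 := fun h => hn1 (by
    rw [h] at hWX'
    exact Nat.eq_zero_of_zero_dvd hWX')
  have hm1 := Subgroup.relIndex_mul_relIndex W X V hWX hXV
  have hm2 := Subgroup.relIndex_mul_relIndex W (V ⊓ P) V hWVP inf_le_left
  have hn3 : W.relIndex V ≠ 0 := by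
    rw [← hm1]
    exact mul_ne_zero hn2 hX
  have hn4 : W.relIndex (V ⊓ P) ≠ 0 := fun h => hn3 (by rw [← hm2, h, zero_mul])
  have hn5 : (V ⊓ P).relIndex V ≠ 0 := fun h => hn3 (by rw [← hm2, h, mul_zero])
  have hVP : P.relIndex (V ⊔ P) = (V ⊓ P).relIndex V := by
    rw [Subgroup.relIndex_sup_right, Subgroup.inf_relIndex_left]
  refine ⟨hn4, ?_⟩
  rw [hVP, ← padicValNat.mul hn5 hn4, mul_comm, hm2, ← hm1, padicValNat.mul hn2 hX]
  exact Nat.add_le_add_right (padic_mono p hn1 hWX') _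

end ABR

open ABR

theorem te_ABR : Se_ABR := by
  intro p q hp A I A' I' G κ _ _ _ _ _ _ _ l k νA νI νA' νI' dv dv' ι ε g had h0 h1 h2
  obtain ⟨hne, h3⟩ := abr2 p q l k νA νI νA' νI' dv dv' ι ε g had h2
  have h4 := abr1 p q l k νA νI νA' νI' dv dv' ι ε g had h0
  have h5 := ABR3.abr3 p q l k νA νI νA' νI' dv dv' ι ε g had h1 hne
  omega

end Pool.Agent.OTE
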