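import Pool.Agent.OT.StE
import Pool.Agent.RI.BCH
import Pool.Agent.RI.CHIEF

/-!
# OT (Theorem T+), block E: `CPD`, relatively prime degrees
-/

set_option autoImplicit false

open NumberField IsDedekindDomain Finset
open scoped nonZeroDivisors Pointwise

namespace Pool.Agent.OTE

open _root_.Pool.Agent.RI _root_.Pool.Agent.RID _root_.Pool.Agent.MU3 _root_.MU3

theorem te_CPD : Se_CPD := by
  intro k A D N fdN hkA hA hD hDN hgal hcop
  have fdD : FiniteDimensional ℚ D :=
    Submodule.finiteDimensional_of_le (S₁ := D.toSubmodule) (S₂ := N.toSubmodule) hDN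
  have fdA : FiniteDimensional ℚ A :=
    Submodule.finiteDimensional_of_le (S₁ := A.toSubmodule) (S₂ := N.toSubmodule) hA
  have hAC : A ≤ D ⊔ A := le_sup_right
  obtain ⟨_, hdvd⟩ := BCH_thm.1 k D A A (D ⊔ A) hD hAC (sup_eq_right.2 hkA).symm rfl hgal
  have hN : D ⊔ A ≤ N := sup_le hDN hA
  have hmul := CHIEF.finrank_mul hAC hN
  have hdvd2 : Module.finrank A (IntermediateField.extendScalars hAC) ∣
      Module.finrank A (IntermediateField.extendScalars hA) :=
    ⟨_, hmul.symm⟩
  have h1 : Module.finrank A (IntermediateField.extendScalars hAC) = 1 :=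
    Nat.eq_one_of_dvd_coprimes hcop hdvd hdvd2
  have h2 : IntermediateField.extendScalars hAC = ⊥ :=
    IntermediateField.finrank_eq_one_iff.1 h1
  intro x hx
  have h3 : x ∈ IntermediateField.extendScalars hAC :=
    (le_sup_left : D ≤ D ⊔ A) hx
  rw [h2, IntermediateField.mem_bot] at h3
  obtain ⟨y, hy⟩ := h3
  rw [← hy]
  exact y.2

end Pool.Agent.OTE
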