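import Pool.Agent.OT.StE
import Pool.Agent.RID.P_GENA
import Pool.Agent.RID.P_GENC
import Pool.Agent.RID.P_NUS
import Pool.Agent.RID.P_SCN
import Pool.Agent.RID.P_SGL
import Pool.Agent.RI.BCH

/-!
# OT, block E, module IDX: the class numbers of `M` and `K M`
-/

set_option autoImplicit false

open NumberField IsDedekindDomain Finset
open scoped nonZeroDivisors Pointwise

namespace Pool.Agent.OTE

open _root_.Pool.Agent.RI _root_.Pool.Agent.RID _root_.Pool.Agent.MU3 _root_.MU3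

namespace IDX

/-- The situation `C0` is a case of `CD` for the list `[F, K]`. -/
theorem cd {p : ℕ} {F K M : IntermediateField ℚ ℂ} (h : C0 p F K M) : CD p F K M [F, K] where
  hK := h.hK
  hM := h.hM
  gK := h.gK
  copK := h.copK
  gM := h.gM
  degM := h.degM
  ne := by simp
  mem := by
    intro E hE
    simp only [List.mem_cons, List.not_mem_nil, or_false] at hE
    rcases hE with rfl | rfl
    · refine ⟨le_rfl, h.hK, ?_⟩
      rw [IntermediateField.extendScalars_self]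
      infer_instance
    · exact ⟨h.hK, le_rfl, h.gK⟩
  inf := by
    intro φ hφ
    exfalso
    obtain ⟨x, hx⟩ := h.tc (φ.comp (IntermediateField.inclusion h.hM).toRingHom)
    exact hx (hφ (IntermediateField.inclusion h.hM x) x.2)
  ram := by
    intro P _ _
    refine ⟨K, by simp, le_rfl, ?_⟩
    intro Q _ hQ
    exact hQ

open Pool.Agent.RID.GENC in
/-- `t_GENC` for the list `[F]`. -/
theorem genc (p : ℕ) [Fact p.Prime] (F K M : IntermediateField ℚ ℂ) [fF : FiniteDimensional ℚ F]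
    [fK : FiniteDimensional ℚ K] [fM : FiniteDimensional ℚ M] (h0 : C0 p F K M)
    (h : F ≤ K ⊔ M) : letI := algC h
    padicValNat p ((prin : (↥(K ⊔ M))ˣ →* J ↥(K ⊔ M)).range.relIndex
      (XsJ [F] (fun E => NC h (E ⊔ M)))) = eOf p K M {F} := by
  have hCD := cd h0
  let _ := algC h
  have hL : FiniteDimensional ℚ ↥(K ⊔ M) := inferInstance
  have hg : IsGalois F (IntermediateField.extendScalars h) :=
    BCH_thm.2 F K M hCD.hK hCD.hM h hCD.gK hCD.gM
  obtain ⟨-, -, -, -, hN5, hN6⟩ := t_NUS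
  have hmem : ∀ E ∈ [F], E ∈ [F, K] := by
    intro E hE
    simp only [List.mem_cons, List.not_mem_nil, or_false] at hE ⊢
    exact Or.inl hE
  have hsc := fun E (hE : E ∈ [F]) => t_SCN p F K M [F, K] hCD h E (hmem E hE)
  have hnrm : ∀ E ∈ [F], (NC h (E ⊔ M)).Normal := fun E hE => (hsc E hE).1
  obtain ⟨-, hQ, -, -⟩ := hN6 F ↥(K ⊔ M) (IntermediateField ℚ ℂ) [F]
    (fun E => NC h (E ⊔ M)) hnrm
  have hle : ∀ E ∈ [F], E ⊔ M ≤ K ⊔ M := by
    intro E hE
    obtain ⟨_, h2, _⟩ := hCD.mem E (hmem E hE)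
    exact sup_le_sup_right h2 M
  have key := t_GENA p (J ↥(K ⊔ M)) (IntermediateField ℚ ℂ) [F]
    (fun E => Nat.card (NC h (E ⊔ M))) (fun E => nuS (NC h (E ⊔ M)))
    (prin : (↥(K ⊔ M))ˣ →* J ↥(K ⊔ M)).range
    ((prin : (↥(K ⊔ M))ˣ →* J ↥(K ⊔ M)).range ⊔
      Subgroup.closure (gens (K ⊔ M) {D | ∃ E ∈ ({F} : Set (IntermediateField ℚ ℂ)), D = E ⊔ M}))
    (gens (K ⊔ M) {D | ∃ E ∈ ({F} : Set (IntermediateField ℚ ℂ)), D = E ⊔ M})
    (fun E hE => (hsc E hE).2.1) hQ ?_ inferInstance ?_ rfl ?_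
  · unfold eOf
    rw [index_fromSub, key]
    rfl
  · rintro E hE _ ⟨x, rfl⟩
    exact ⟨nuS (NC h (E ⊔ M)) x, hN5 F ↥(K ⊔ M) _ x⟩
  · intro E hE x
    have hFD : F ≤ E ⊔ M := hCD.hM.trans le_sup_right
    obtain ⟨c, hc⟩ := (nuS_NC (K ⊔ M) h hFD (hle E hE) hg).1 x
    rw [hc]
    have _ := fd_of_le (hle E hE)
    exact ext_mem (K ⊔ M) {D | ∃ E ∈ ({F} : Set (IntermediateField ℚ ℂ)), D = E ⊔ M}
      (show E ⊔ M ∈ {D | ∃ E ∈ ({F} : Set (IntermediateField ℚ ℂ)), D = E ⊔ M} from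
        ⟨E, by simpa using hE, rfl⟩) (hle E hE) c
  · intro b hb
    obtain ⟨D, ⟨E, hE, rfl⟩, h1, h2⟩ := gens_eq _ _ _ hb
    have hE' : E ∈ [F] := by simpa using hE
    have hFD : F ≤ E ⊔ M := hCD.hM.trans le_sup_right
    obtain ⟨c, hc⟩ := h2 (fd_of_le (hle E hE'))
    exact ⟨E, hE', by rw [hc]; exact (nuS_NC (K ⊔ M) h hFD (hle E hE') hg).2 c⟩

end IDX

/-- Module IDX. -/
theorem te_IDX : Se_IDX := by
  intro p _ F K M _ _ _ h0 h
  have h1 := IDX.genc p F K M h0 h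
  have h2 := t_SGL p F K M h0.hK h0.hM h0.gK h0.copK
  rw [← h1] at h2
  exact h2

end Pool.Agent.OTE
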