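import Pool.Agent.OT.StE
import Pool.Agent.MU3.PX_REC

/-!
# OT (Theorem T+), block E, module ONE (helper11): an extension of degree `p`
-/

set_option autoImplicit false

open NumberField IsDedekindDomain Finset
open scoped nonZeroDivisors Pointwise

namespace Pool.Agent.OTE

open _root_.Pool.Agent.RI _root_.Pool.Agent.RID _root_.Pool.Agent.MU3 _root_.MU3

theorem te_ONE (hR : Se_RKL) (hT : Se_TWR) : Se_ONE := by
  intro p hp F K M' M _ _ _ _ B _ hC h₁ h₂ hG hd hB hm hF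
  obtain ⟨C, k, hCk⟩ := hF
  obtain ⟨t, ht⟩ := hR p F K M' M B hC h₁ h₂ hG hd hB
  have hle : ∀ n, F ≤ K ⊔ (M ⊔ B n) := fun n => hC.hK.trans le_sup_left
  obtain ⟨C', hC'⟩ := _root_.MU3.p_REC p (Module.finrank ℚ K * Module.finrank ℚ M)
    (p * (C + t)) k
    (fun n => padicValNat p (classNo (K ⊔ (M ⊔ B n))) - padicValNat p (classNo (M ⊔ B n)))
    (fun n => rX p ↥(K ⊔ (M ⊔ B n)) (XF F K (M ⊔ B n) (hle n)))
    (by
      intro n
      have h4 : rX p ↥(K ⊔ (M ⊔ B n)) (XF F K (M ⊔ B n) (hle n)) +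
          p * padicValNat p (classNo (M' ⊔ B n)) ≤
          p * (padicValNat p (classNo (K ⊔ (M' ⊔ B n))) + t) := ht n (hle n)
      have h5 : 1 ≤ (n + 1) ^ k := Nat.one_le_pow _ _ (Nat.succ_pos n)
      have h6 := hCk n
      have h7 : t ≤ t * (n + 1) ^ k := Nat.le_mul_of_pos_right _ h5
      have h8 : p * (padicValNat p (classNo (K ⊔ (M' ⊔ B n))) + t) ≤
          p * padicValNat p (classNo (M' ⊔ B n)) + p * ((C + t) * (n + 1) ^ k) := by
        rw [← mul_add]
        apply Nat.mul_le_mul_left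
        rw [add_mul]
        omega
      have h9 : p * ((C + t) * (n + 1) ^ k) = p * (C + t) * (n + 1) ^ k := (mul_assoc _ _ _).symm
      show rX p ↥(K ⊔ (M ⊔ B n)) (XF F K (M ⊔ B n) (hle n)) ≤ _
      omega)
    (by
      intro n hn
      have h1 := hT p F K M B hC hB hm n (hle (n + 1)) hn
      show padicValNat p (classNo (K ⊔ (M ⊔ B (n + 1)))) - padicValNat p (classNo (M ⊔ B (n + 1))) ≤
        padicValNat p (classNo (K ⊔ (M ⊔ B n))) - padicValNat p (classNo (M ⊔ B n)) +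
          rX p ↥(K ⊔ (M ⊔ B (n + 1))) (XF F K (M ⊔ B (n + 1)) (hle (n + 1)))
      omega)
  refine ⟨C', k + 1, fun n => ?_⟩
  have h1 : padicValNat p (classNo (K ⊔ (M ⊔ B n))) - padicValNat p (classNo (M ⊔ B n)) ≤
    C' * (n + 1) ^ (k + 1) := hC' n
  omega

end Pool.Agent.OTE
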