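import Pool.Agent.OT.StE
import Pool.Agent.RI.CHIEF

/-!
# OT (Theorem T+), block E, module PEX (helper11): extensions of `p`-power degree
-/

set_option autoImplicit false

open NumberField IsDedekindDomain Finset
open scoped nonZeroDivisors Pointwise

namespace Pool.Agent.OTE

open _root_.Pool.Agent.RI _root_.Pool.Agent.RID _root_.Pool.Agent.MU3 _root_.MU3

namespace PEX

/-- An extension of degree one is trivial. -/
lemma eq_of_one {F M : IntermediateField ℚ ℂ} (hM : F ≤ M)
    (hdeg : Module.finrank F (IntermediateField.extendScalars hM) = 1) : M = F := by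
  rw [IntermediateField.finrank_eq_one_iff] at hdeg
  apply le_antisymm _ hM
  intro x hx
  have hx' : x ∈ IntermediateField.extendScalars hM := hx
  rw [hdeg, IntermediateField.mem_bot] at hx'
  obtain ⟨y, rfl⟩ := hx'
  exact y.2

lemma key (hO : Se_ONE) : ∀ (a p : ℕ) [Fact p.Prime] (F K M : IntermediateField ℚ ℂ)
    [FiniteDimensional ℚ F] [FiniteDimensional ℚ K] [FiniteDimensional ℚ M]
    (B : ℕ → IntermediateField ℚ ℂ) [∀ n, FiniteDimensional ℚ (B n)] (hM : F ≤ M),
    Module.finrank F (IntermediateField.extendScalars hM) = p ^ a →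
    C0 p F K M → (∀ n, IsLayer p n (B n)) → Monotone B →
    (∃ C k : ℕ, ∀ n, padicValNat p (classNo (K ⊔ B n)) ≤
      padicValNat p (classNo (F ⊔ B n)) + C * (n + 1) ^ k) →
    ∃ C k : ℕ, ∀ n, padicValNat p (classNo (K ⊔ (M ⊔ B n))) ≤
      padicValNat p (classNo (M ⊔ B n)) + C * (n + 1) ^ k := by
  intro a
  induction a with
  | zero =>
    intro p _ F K M _ _ _ B _ hM hdeg hC _ _ h0
    have hMF : M = F := eq_of_one hM (by rw [hdeg, pow_zero])
    subst hMF
    have h1 : ∀ n, K ⊔ (M ⊔ B n) = K ⊔ B n := fun n => by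
      rw [← sup_assoc, sup_eq_left.2 hC.hK]
    simpa only [h1] using h0
  | succ a ih =>
    intro p hp F K M _ _ _ B _ hM hdeg hC hB hm h0
    obtain ⟨M', h₁, h₂, hG', hd', hdM⟩ := CHIEF_thm p a F M hM hC.gM hdeg
    have hfd : FiniteDimensional ℚ M' := by
      exact FiniteDimensional.of_injective (IntermediateField.inclusion h₂).toLinearMap
        (IntermediateField.inclusion h₂).toRingHom.injective
    have hC' : C0 p F K M' := ⟨hC.hK, h₁, hC.gK, hC.copK, hG', ⟨a, hd'⟩, hC.tc⟩
    exact hO p F K M' M B hC h₁ h₂ hG' hdM hB hm (ih p F K M' B h₁ hd' hC' hB hm h0)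

end PEX

theorem te_PEX (hO : Se_ONE) : Se_PEX := by
  intro p _ F K M _ _ _ B _ hC hB hm h0
  obtain ⟨a, ha⟩ := hC.degM
  exact PEX.key hO a p F K M B hC.hM ha hC hB hm h0

end Pool.Agent.OTE
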