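import Pool.Agent.OT.StE
import Pool.Agent.RI.CHIEF
import Mathlib.GroupTheory.SchurZassenhaus

/-!
# OT (Theorem T+), block E: `PPP`, the parts of an abelian extension
-/

set_option autoImplicit false

open NumberField IsDedekindDomain Finset
open scoped nonZeroDivisors Pointwise

namespace Pool.Agent.OTE

open _root_.Pool.Agent.RI _root_.Pool.Agent.RID _root_.Pool.Agent.MU3 _root_.MU3

namespace PPP

/-- the fixed field of a normal subgroup, as a subfield of `ℂ` -/
theorem fix (k K : IntermediateField ℚ ℂ) [FiniteDimensional ℚ K] (h : k ≤ K)
    [IsGalois k (IntermediateField.extendScalars h)]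
    [FiniteDimensional k (IntermediateField.extendScalars h)]
    (H : Subgroup (Gal((IntermediateField.extendScalars h)/k))) [H.Normal] :
    ∃ (M : IntermediateField ℚ ℂ) (h₁ : k ≤ M), M ≤ K ∧
      IsGalois k (IntermediateField.extendScalars h₁) ∧
      Module.finrank k (IntermediateField.extendScalars h₁) = H.index ∧
      ∀ y : IntermediateField.extendScalars h, y ∈ IntermediateField.fixedField H →
        (y : ℂ) ∈ M := by
  set L₀ : IntermediateField k (IntermediateField.extendScalars h) :=
    IntermediateField.fixedField H with hL₀
  have hg₀ : IsGalois k L₀ := IsGalois.of_fixedField_normal_subgroup _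
  have hfree : Module.Free k L₀ := Module.Free.of_divisionRing k L₀
  have hfree' : Module.Free L₀ (IntermediateField.extendScalars h) :=
    Module.Free.of_divisionRing L₀ _
  have hf₁ : Module.finrank L₀ (IntermediateField.extendScalars h) = Nat.card H := by
    rw [hL₀, IntermediateField.finrank_fixedField_eq_card]
  have hidx : H.index = Module.finrank k L₀ := by
    have e1 := Module.finrank_mul_finrank k L₀ (IntermediateField.extendScalars h)
    have e2 := H.card_mul_index
    rw [IsGalois.card_aut_eq_finrank, ← e1, hf₁, mul_comm] at e2
    exact Nat.eq_of_mul_eq_mul_right (Nat.card_pos (α := H)) e2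
  set M' : IntermediateField ℚ ℂ :=
    (IntermediateField.lift L₀).restrictScalars ℚ with hM'
  have h₁ : k ≤ M' := by
    intro x hx
    have : ((algebraMap k ℂ) ⟨x, hx⟩) ∈ IntermediateField.lift L₀ :=
      (IntermediateField.lift L₀).algebraMap_mem _
    exact this
  have h₂ : M' ≤ K := by
    intro x hx
    have : x ∈ IntermediateField.lift L₀ := hx
    exact IntermediateField.lift_le L₀ this
  have he : IntermediateField.extendScalars h₁ = IntermediateField.lift L₀ := by
    ext x; rfl
  have hfM' : Module.finrank k (IntermediateField.extendScalars h₁) = Module.finrank k L₀ := by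
    rw [he]
    exact (IntermediateField.liftAlgEquiv L₀).symm.toLinearEquiv.finrank_eq
  refine ⟨M', h₁, h₂, ?_, by rw [hfM', hidx], ?_⟩
  · rw [he]
    exact IsGalois.of_algEquiv (IntermediateField.liftAlgEquiv L₀)
  · intro y hy
    have : (y : ℂ) ∈ IntermediateField.lift L₀ := (IntermediateField.mem_lift y).2 hy
    exact this

end PPP

theorem te_PPP : Se_PPP := by
  intro p hp k K _ h hgal hab
  have fdk : FiniteDimensional k (IntermediateField.extendScalars h) := by
    have h1 : FiniteDimensional ℚ (IntermediateField.extendScalars h) :=
      inferInstanceAs (FiniteDimensional ℚ K)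
    exact Module.Finite.of_restrictScalars_finite ℚ k _
  have hnorm : ∀ H : Subgroup (Gal((IntermediateField.extendScalars h)/k)), H.Normal := by
    intro H
    constructor
    intro n hn g
    rw [hab g n, mul_inv_cancel_right]
    exact hn
  obtain ⟨P⟩ : Nonempty (Sylow p (Gal((IntermediateField.extendScalars h)/k))) := inferInstance
  obtain ⟨a, ha⟩ := IsPGroup.iff_card.mp P.isPGroup'
  have hnd : ¬ p ∣ (P : Subgroup (Gal((IntermediateField.extendScalars h)/k))).index :=
    P.not_dvd_index
  have hN := hnorm (P : Subgroup (Gal((IntermediateField.extendScalars h)/k)))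
  have hcop : Nat.Coprime (Nat.card (P : Subgroup (Gal((IntermediateField.extendScalars h)/k))))
      (P : Subgroup (Gal((IntermediateField.extendScalars h)/k))).index := by
    have : Nat.card (P : Subgroup (Gal((IntermediateField.extendScalars h)/k))) = p ^ a := ha
    rw [this]
    exact Nat.Coprime.pow_left a ((Nat.Prime.coprime_iff_not_dvd hp.out).2 hnd)
  obtain ⟨H, hH⟩ := Subgroup.exists_right_complement'_of_coprime hcop
  have hN' := hnorm H
  obtain ⟨L₁, h₁, hL₁, hg₁, hf₁, hm₁⟩ := PPP.fix k K h
    (P : Subgroup (Gal((IntermediateField.extendScalars h)/k)))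
  obtain ⟨Lp, h₂, hL₂, hg₂, hf₂, hm₂⟩ := PPP.fix k K h H
  refine ⟨L₁, Lp, h₁, h₂, le_antisymm (sup_le hL₁ hL₂) ?_, hg₁, by rw [hf₁]; exact hnd, hg₂,
    a, ?_⟩
  · -- the composite is everything
    have hkM : k ≤ L₁ ⊔ Lp := h₁.trans le_sup_left
    have key : IntermediateField.fixedField
        (P : Subgroup (Gal((IntermediateField.extendScalars h)/k))) ⊔
        IntermediateField.fixedField H = ⊤ := by
      have e1 := IntermediateField.fixingSubgroup_sup
        (K := IntermediateField.fixedField
          (P : Subgroup (Gal((IntermediateField.extendScalars h)/k))))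
        (L := IntermediateField.fixedField H)
      rw [IntermediateField.fixingSubgroup_fixedField,
        IntermediateField.fixingSubgroup_fixedField, hH.disjoint.eq_bot] at e1
      rw [← IsGalois.fixedField_fixingSubgroup (IntermediateField.fixedField
        (P : Subgroup (Gal((IntermediateField.extendScalars h)/k))) ⊔
        IntermediateField.fixedField H), e1]
      exact IntermediateField.fixedField_bot
    have hle : IntermediateField.fixedField
        (P : Subgroup (Gal((IntermediateField.extendScalars h)/k))) ⊔
        IntermediateField.fixedField H ≤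
        (IntermediateField.extendScalars hkM).comap (IntermediateField.extendScalars h).val := by
      rw [sup_le_iff]
      constructor
      · intro y hy
        exact (le_sup_left : L₁ ≤ L₁ ⊔ Lp) (hm₁ y hy)
      · intro y hy
        exact (le_sup_right : Lp ≤ L₁ ⊔ Lp) (hm₂ y hy)
    rw [key] at hle
    intro x hx
    exact hle (IntermediateField.mem_top : (⟨x, hx⟩ : IntermediateField.extendScalars h) ∈ _)
  · rw [hf₂, hH.index_eq_card, ← ha]

end Pool.Agent.OTE
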