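import Pool.Agent.OT.StE
import Pool.Agent.MU3.PX_RKE
import Pool.Agent.RI.LAY
import Pool.Agent.RID.P_NUS
import Pool.Agent.RID.P_CYC

/-!
# OT (Theorem T+), block E, module RKL (helper79): the ranks at the layers; model: `MU3/PX_RKE.lean`
-/

set_option autoImplicit false

open NumberField IsDedekindDomain Finset
open scoped nonZeroDivisors Pointwise

namespace Pool.Agent.OTE

open _root_.Pool.Agent.RI _root_.Pool.Agent.RID _root_.Pool.Agent.MU3 _root_.MU3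

namespace RKL

theorem gal_layer (p n : ℕ) [Fact p.Prime] (E B : IntermediateField ℚ ℂ) [FiniteDimensional ℚ E]
    (hB : IsLayer p n B) :
    IsGalois E (IntermediateField.extendScalars (le_sup_left : E ≤ E ⊔ B)) ∧
      ∃ a : ℕ, Module.finrank E (IntermediateField.extendScalars (le_sup_left : E ≤ E ⊔ B)) =
        p ^ a := by
  obtain ⟨hfB, hGB, hreal⟩ := LAY_thm p n B hB
  obtain ⟨hdeg, -, m, hBm⟩ := hB
  have hbot : IsGalois ↥(⊥ : IntermediateField ℚ ℂ)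
      (IntermediateField.extendScalars (bot_le : (⊥ : IntermediateField ℚ ℂ) ≤ B)) := by
    let e : B ≃ₐ[ℚ] (IntermediateField.extendScalars
        (bot_le : (⊥ : IntermediateField ℚ ℂ) ≤ B)) :=
      { toFun := fun x => ⟨x.1, x.2⟩
        invFun := fun x => ⟨x.1, x.2⟩
        left_inv := fun _ => rfl
        right_inv := fun _ => rfl
        map_mul' := fun _ _ => rfl
        map_add' := fun _ _ => rfl
        commutes' := fun _ => rfl }
    have : IsGalois ℚ (IntermediateField.extendScalars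
        (bot_le : (⊥ : IntermediateField ℚ ℂ) ≤ B)) := IsGalois.of_algEquiv e
    exact IsGalois.tower_top_of_isGalois ℚ _ _
  have hbd : Module.finrank ↥(⊥ : IntermediateField ℚ ℂ)
      (IntermediateField.extendScalars (bot_le : (⊥ : IntermediateField ℚ ℂ) ≤ B)) = p ^ n := by
    rw [← hdeg]
    let e : B ≃ₗ[ℚ] (IntermediateField.extendScalars
        (bot_le : (⊥ : IntermediateField ℚ ℂ) ≤ B)) :=
      { toFun := fun x => ⟨x.1, x.2⟩
        invFun := fun x => ⟨x.1, x.2⟩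
        left_inv := fun _ => rfl
        right_inv := fun _ => rfl
        map_add' := fun _ _ => rfl
        map_smul' := fun _ _ => rfl }
    rw [e.finrank_eq, ← Module.finrank_mul_finrank ℚ ↥(⊥ : IntermediateField ℚ ℂ)
      (IntermediateField.extendScalars (bot_le : (⊥ : IntermediateField ℚ ℂ) ≤ B)),
      IntermediateField.finrank_bot, one_mul]
  have h1 := BCH_thm.1 ⊥ B E E (E ⊔ B) bot_le le_sup_left (bot_sup_eq E).symm (sup_comm E B) hbot
  rw [hbd] at h1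
  obtain ⟨a, -, ha⟩ := (Nat.dvd_prime_pow (Fact.out : p.Prime)).1 h1.2
  exact ⟨h1.1, a, ha⟩

theorem gal_congr {F X Y : IntermediateField ℚ ℂ} (e : X = Y) (h : F ≤ X) (h' : F ≤ Y)
    (hG : IsGalois F (IntermediateField.extendScalars h)) :
    IsGalois F (IntermediateField.extendScalars h') := by
  subst e
  exact hG

theorem tower {A B C : IntermediateField ℚ ℂ} (h : A ≤ B) (h' : B ≤ C) [FiniteDimensional ℚ C] :
    Module.finrank A (IntermediateField.extendScalars h) *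
      Module.finrank B (IntermediateField.extendScalars h') =
      Module.finrank A (IntermediateField.extendScalars (h.trans h')) := by
  have : FiniteDimensional ℚ B := TSTEP.fd_of_le h'
  have : FiniteDimensional ℚ A := TSTEP.fd_of_le (h.trans h')
  let _ := algC h
  let _ := algC h'
  let _ := algC (h.trans h')
  have : IsScalarTower A B C := towerC h h'
  rw [← finrank_algC h, ← finrank_algC h', ← finrank_algC (h.trans h')]
  exact Module.finrank_mul_finrank A B C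

theorem c0_layer {p n : ℕ} [Fact p.Prime] {F K M B : IntermediateField ℚ ℂ}
    [FiniteDimensional ℚ F] [FiniteDimensional ℚ M] [FiniteDimensional ℚ B] (hC : C0 p F K M)
    (hB : IsLayer p n B) : C0 p F K (M ⊔ B) := by
  have hM : F ≤ M ⊔ B := hC.hM.trans le_sup_left
  obtain ⟨g1, -⟩ := gal_layer p n F B hB
  obtain ⟨-, b, hb⟩ := gal_layer p n M B hB
  obtain ⟨a, ha⟩ := hC.degM
  have fdFB : FiniteDimensional ℚ ↥(F ⊔ B) := IntermediateField.finiteDimensional_sup F B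
  have fdMB : FiniteDimensional ℚ ↥(M ⊔ B) := IntermediateField.finiteDimensional_sup M B
  have e1 : M ⊔ (F ⊔ B) = M ⊔ B := by
    rw [← sup_assoc, sup_eq_left.2 hC.hM]
  refine ⟨hC.hK, hM, hC.gK, hC.copK, ?_, ⟨a + b, ?_⟩, hC.tc⟩
  · exact gal_congr e1 (hC.hM.trans le_sup_left) hM
      (BCH_thm.2 F M (F ⊔ B) hC.hM le_sup_left (hC.hM.trans le_sup_left) hC.gM g1)
  · rw [← tower hC.hM (le_sup_left : M ≤ M ⊔ B), ha, hb, pow_add]

theorem c0_sub {p : ℕ} [Fact p.Prime] {F K M' M : IntermediateField ℚ ℂ} [FiniteDimensional ℚ M]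
    (hC : C0 p F K M) (h₁ : F ≤ M') (h₂ : M' ≤ M)
    (hG : IsGalois F (IntermediateField.extendScalars h₁)) : C0 p F K M' := by
  obtain ⟨a, ha⟩ := hC.degM
  refine ⟨hC.hK, h₁, hC.gK, hC.copK, hG, ?_, hC.tc⟩
  have h3 : Module.finrank F (IntermediateField.extendScalars h₁) ∣ p ^ a := by
    rw [← ha]
    exact Dvd.intro _ (tower h₁ h₂)
  obtain ⟨b, -, hb⟩ := (Nat.dvd_prime_pow (Fact.out : p.Prime)).1 h3
  exact ⟨b, hb⟩

theorem gal_top {A B C : IntermediateField ℚ ℂ} (h : A ≤ B) (h' : B ≤ C)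
    (hG : IsGalois A (IntermediateField.extendScalars (h.trans h'))) :
    IsGalois B (IntermediateField.extendScalars h') := by
  let _ := algC h
  let _ := algC h'
  let _ := algC (h.trans h')
  have : IsScalarTower A B C := towerC h h'
  have : IsGalois A C := (isGalois_algC (h.trans h')).2 hG
  exact (isGalois_algC h').1 (IsGalois.tower_top_of_isGalois A B C)

theorem rX_le_vX (p : ℕ) [Fact p.Prime] (L : Type) [Field L] [NumberField L]
    (X : Subgroup (J L)) : rX p L X ≤ vX p L X := by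
  have hfin : Finite (J L ⧸ (prin (K := L)).range) := CL.finite_quot L
  have hfin' : Finite (J L ⧸ _root_.MU3.PI L) := hfin
  have hcomm : ∀ a b : J L ⧸ _root_.MU3.PI L, a * b = b * a := by
    intro a b
    obtain ⟨x, rfl⟩ := QuotientGroup.mk_surjective a
    obtain ⟨y, rfl⟩ := QuotientGroup.mk_surjective b
    rw [← QuotientGroup.mk_mul, ← QuotientGroup.mk_mul, mul_comm]
  let S : Subgroup (J L ⧸ _root_.MU3.PI L) :=
    { carrier := {c | (∃ b ∈ X, (b : J L ⧸ _root_.MU3.PI L) = c) ∧ c ^ p = 1}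
      one_mem' := ⟨⟨1, X.one_mem, rfl⟩, one_pow p⟩
      mul_mem' := by
        rintro a b ⟨⟨x, hx, rfl⟩, ha⟩ ⟨⟨y, hy, rfl⟩, hb⟩
        refine ⟨⟨x * y, X.mul_mem hx hy, rfl⟩, ?_⟩
        rw [(show Commute (x : J L ⧸ _root_.MU3.PI L) y from hcomm _ _).mul_pow, ha, hb, mul_one]
      inv_mem' := by
        rintro a ⟨⟨x, hx, rfl⟩, ha⟩
        refine ⟨⟨x⁻¹, X.inv_mem hx, rfl⟩, ?_⟩
        rw [inv_pow, ha, inv_one] }
  have hS : S ≤ X.map (QuotientGroup.mk' (_root_.MU3.PI L)) := by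
    rintro c ⟨⟨b, hb, rfl⟩, -⟩
    exact ⟨b, hb, rfl⟩
  have e1 : (_root_.MU3.PI L).relIndex X =
      Nat.card (X.map (QuotientGroup.mk' (_root_.MU3.PI L))) := by
    rw [← Subgroup.relIndex_ker, QuotientGroup.ker_mk']
  unfold rX vX
  rw [e1]
  exact RKE.val_le Nat.card_pos.ne' (Subgroup.card_dvd_of_le hS)

/-- a generator over the smaller field -/
theorem gen {p : ℕ} [Fact p.Prime] {F K L : Type} [Field F] [Field K] [NumberField K] [Field L]
    [NumberField L] [Algebra F K] [Algebra F L] [Algebra K L] [IsScalarTower F K L]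
    [IsGalois K L] (hd : Module.finrank K L = p) :
    ∃ g : L ≃ₐ[F] L, g ^ p = 1 ∧ CycExt F K L g (p ^ 1) := by
  have hcard : Nat.card (L ≃ₐ[K] L) = p := by
    rw [IsGalois.card_aut_eq_finrank, hd]
  have hcyc : IsCyclic (L ≃ₐ[K] L) := isCyclic_of_prime_card hcard
  obtain ⟨g, hg⟩ := hcyc.exists_generator
  have hord : orderOf g = p := by
    rw [orderOf_eq_card_of_forall_mem_zpowers hg, hcard]
  have hinj : Function.Injective (AlgEquiv.restrictScalarsHom F : (L ≃ₐ[K] L) →* (L ≃ₐ[F] L)) :=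
    AlgEquiv.restrictScalars_injective F
  have hord' : orderOf (AlgEquiv.restrictScalarsHom F g : L ≃ₐ[F] L) = p := by
    rw [orderOf_injective _ hinj, hord]
  refine ⟨AlgEquiv.restrictScalarsHom F g, ?_, ?_⟩
  · have := pow_orderOf_eq_one (AlgEquiv.restrictScalarsHom F g : L ≃ₐ[F] L)
    rwa [hord'] at this
  · refine ⟨by rw [hord', pow_one], fun x => ⟨fun hx => ?_, ?_⟩⟩
    · have h3 : ∀ σ : L ≃ₐ[K] L, σ x = x := by
        intro σ
        have h4 : Subgroup.zpowers g ≤ MulAction.stabilizer (L ≃ₐ[K] L) x := by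
          rw [Subgroup.zpowers_le]
          exact hx
        exact h4 (hg σ)
      exact (IsGalois.mem_range_algebraMap_iff_fixed x).2 h3
    · rintro ⟨y, rfl⟩
      exact g.commutes y

/-- the bad primes of a layer -/
theorem bad (h5 : P_NPL) (h6 : P_BAD) (p : ℕ) [Fact p.Prime] (E N : IntermediateField ℚ ℂ)
    [FiniteDimensional ℚ E] [FiniteDimensional ℚ N] (hEN : E ≤ N)
    (B : ℕ → IntermediateField ℚ ℂ) [∀ n, FiniteDimensional ℚ (B n)]
    (hG : IsGalois E (IntermediateField.extendScalars hEN)) (hlay : ∀ n, IsLayer p n (B n)) :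
    ∃ t : ℕ, ∀ (n : ℕ) (En Nn : IntermediateField ℚ ℂ) [FiniteDimensional ℚ En]
      [FiniteDimensional ℚ Nn] (h : En ≤ Nn), En = E ⊔ B n → Nn = N ⊔ B n →
      letI := algC h
      ∃ S : Finset (HeightOneSpectrum (𝓞 En)), S.card ≤ t ∧
        ∀ w : HeightOneSpectrum (𝓞 Nn), w.asIdeal.ramificationIdx (𝓞 En) ≠ 1 →
          ∃ v ∈ S, w.asIdeal.under (𝓞 En) = v.asIdeal := by
  classical
  let aEN : Algebra E N := algC hEN
  obtain ⟨T, hT, hTram⟩ := h6 E N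
  have hex : ∀ ℓ : ℕ, ∃ t : ℕ, ℓ ∈ T → ∀ n, ∀ _ : FiniteDimensional ℚ ↥(E ⊔ B n),
      Nat.card {v : HeightOneSpectrum (𝓞 ↥(E ⊔ B n)) // (ℓ : 𝓞 ↥(E ⊔ B n)) ∈ v.asIdeal} ≤ t ∧
      Finite {v : HeightOneSpectrum (𝓞 ↥(E ⊔ B n)) // (ℓ : 𝓞 ↥(E ⊔ B n)) ∈ v.asIdeal} := by
    intro ℓ
    by_cases hℓ : ℓ ∈ T
    · obtain ⟨t, ht⟩ := h5 p ℓ E B (hT ℓ hℓ) hlay
      exact ⟨t, fun _ => ht⟩
    · exact ⟨0, fun h => absurd h hℓ⟩
  choose tt htt using hex
  refine ⟨∑ ℓ ∈ T, tt ℓ, fun n En Nn fdEn fdNn h hE hN => ?_⟩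
  subst hE
  subst hN
  have hEE : E ≤ E ⊔ B n := le_sup_left
  have hNN : N ≤ N ⊔ B n := le_sup_left
  have gal' : IsGalois ↥(E ⊔ B n) (IntermediateField.extendScalars h) :=
    (BCH_thm.1 E N (B n) (E ⊔ B n) (N ⊔ B n) hEN h rfl rfl hG).1
  let a1 : Algebra E ↥(E ⊔ B n) := algC hEE
  let a2 : Algebra N ↥(N ⊔ B n) := algC hNN
  let a3 : Algebra ↥(E ⊔ B n) ↥(N ⊔ B n) := algC h
  let a4 : Algebra E ↥(N ⊔ B n) := algC (hEN.trans hNN)
  have t1 : IsScalarTower E ↥(E ⊔ B n) ↥(N ⊔ B n) := towerC hEE h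
  have t2 : IsScalarTower E N ↥(N ⊔ B n) := towerC hEN hNN
  have g1 : IsGalois E N := (isGalois_algC hEN).2 hG
  have g2 : IsGalois ↥(E ⊔ B n) ↥(N ⊔ B n) := (isGalois_algC h).2 gal'
  have hadj : IntermediateField.adjoin ↥(E ⊔ B n) (Set.range (algebraMap N ↥(N ⊔ B n))) = ⊤ :=
    TSTEP.adjoin_top (A := N) (B := E ⊔ B n) (C := N ⊔ B n)
      (le_antisymm (sup_le le_sup_left (le_sup_right.trans le_sup_right))
        (sup_le hNN h)) h hNN
  have hfin : ∀ ℓ ∈ T, {v : HeightOneSpectrum (𝓞 ↥(E ⊔ B n)) |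
      (ℓ : 𝓞 ↥(E ⊔ B n)) ∈ v.asIdeal}.Finite := fun ℓ hℓ => (htt ℓ hℓ n fdEn).2
  set S : Finset (HeightOneSpectrum (𝓞 ↥(E ⊔ B n))) :=
    T.attach.biUnion (fun ℓ => (hfin ℓ.1 ℓ.2).toFinset) with hS
  refine ⟨S, ?_, ?_⟩
  · refine Finset.card_biUnion_le.trans ?_
    rw [← Finset.sum_attach T tt]
    refine Finset.sum_le_sum fun ℓ _ => ?_
    have e1 := (htt ℓ.1 ℓ.2 n fdEn).1
    have e2 : (hfin ℓ.1 ℓ.2).toFinset.card = Nat.card {v : HeightOneSpectrum (𝓞 ↥(E ⊔ B n)) //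
        (ℓ.1 : 𝓞 ↥(E ⊔ B n)) ∈ v.asIdeal} := by
      rw [← Nat.card_eq_card_finite_toFinset]
      rfl
    rw [e2]
    exact e1
  · intro w hw
    have e1 := RAMB_thm E ↥(E ⊔ B n) N ↥(N ⊔ B n) hadj w hw
    obtain ⟨ℓ, hℓ, hmem⟩ := hTram (RKE.und N ↥(N ⊔ B n) w) e1
    have hmem' : (ℓ : 𝓞 ↥(N ⊔ B n)) ∈ w.asIdeal := by
      have e2 : algebraMap (𝓞 N) (𝓞 ↥(N ⊔ B n)) (ℓ : 𝓞 N) ∈ w.asIdeal := hmem
      rwa [map_natCast] at e2
    refine ⟨RKE.und ↥(E ⊔ B n) ↥(N ⊔ B n) w, ?_, rfl⟩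
    rw [hS, Finset.mem_biUnion]
    refine ⟨⟨ℓ, hℓ⟩, Finset.mem_attach _ _, ?_⟩
    rw [Set.Finite.mem_toFinset]
    change algebraMap (𝓞 ↥(E ⊔ B n)) (𝓞 ↥(N ⊔ B n)) (ℓ : 𝓞 ↥(E ⊔ B n)) ∈ w.asIdeal
    rwa [map_natCast]

theorem eq_of_one {A C : IntermediateField ℚ ℂ} (h : A ≤ C)
    (hd : Module.finrank A (IntermediateField.extendScalars h) = 1) : C = A := by
  have hbot := IntermediateField.finrank_eq_one_iff.1 hd
  refine le_antisymm ?_ h
  intro x hx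
  have hx' : x ∈ IntermediateField.extendScalars h := hx
  rw [hbot, IntermediateField.mem_bot] at hx'
  obtain ⟨y, rfl⟩ := hx'
  exact y.2

end RKL

open RKL in
/-- Module RKL. -/
theorem te_RKL (h1 : Se_STC) (h2 : Se_RNK) (h3 : Se_SY0) (h4 : Se_IDX) (h5 : P_NPL)
    (h6 : P_BAD) : Se_RKL := by
  intro p _ F K M' M fdF fdK fdM' fdM B fdB hC h₁ h₂ hG hd hlay
  have hpr : p.Prime := Fact.out
  have hC' : C0 p F K M' := c0_sub hC h₁ h₂ hG
  have galM : IsGalois M' (IntermediateField.extendScalars h₂) := gal_top h₁ h₂ hC.gM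
  have hEN : K ⊔ M' ≤ K ⊔ M := sup_le_sup_left h₂ K
  have galN := (BCH_thm.1 M' M K (K ⊔ M') (K ⊔ M) h₂ hEN (sup_comm _ _) (sup_comm _ _) galM).1
  obtain ⟨t, ht⟩ := bad h5 h6 p (K ⊔ M') (K ⊔ M) hEN B galN hlay
  refine ⟨t, fun n h => ?_⟩
  have fMn : FiniteDimensional ℚ ↥(M ⊔ B n) := IntermediateField.finiteDimensional_sup _ _
  have fMn' : FiniteDimensional ℚ ↥(M' ⊔ B n) := IntermediateField.finiteDimensional_sup _ _
  have fNn : FiniteDimensional ℚ ↥(K ⊔ (M ⊔ B n)) := IntermediateField.finiteDimensional_sup _ _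
  have fEn : FiniteDimensional ℚ ↥(K ⊔ (M' ⊔ B n)) := IntermediateField.finiteDimensional_sup _ _
  have hMM : M' ⊔ B n ≤ M ⊔ B n := sup_le_sup_right h₂ _
  have h' : K ⊔ (M' ⊔ B n) ≤ K ⊔ (M ⊔ B n) := sup_le_sup_left hMM K
  have hFE : F ≤ K ⊔ (M' ⊔ B n) := hC.hK.trans le_sup_left
  have hCn : C0 p F K (M ⊔ B n) := c0_layer hC (hlay n)
  have hCn' : C0 p F K (M' ⊔ B n) := c0_layer hC' (hlay n)
  have hFM' : F ≤ M' ⊔ B n := hCn'.hM
  -- the degrees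
  have d1 := (BCH_thm.1 M' M (B n) (M' ⊔ B n) (M ⊔ B n) h₂ hMM rfl rfl galM)
  have d2 := (BCH_thm.1 M' M (K ⊔ B n) (K ⊔ (M' ⊔ B n)) (K ⊔ (M ⊔ B n)) h₂ h'
    (by rw [← sup_assoc, ← sup_assoc, sup_comm M' K])
    (by rw [← sup_assoc, ← sup_assoc, sup_comm M K]) galM)
  rw [hd] at d1 d2
  have i1 := h4 p F K (M' ⊔ B n) hCn' hFE
  have i2 := h4 p F K (M ⊔ B n) hCn h
  rcases (Nat.dvd_prime hpr).1 d2.2 with hd2 | hd2
  · -- the fields are equal
    have heq : K ⊔ (M ⊔ B n) = K ⊔ (M' ⊔ B n) := eq_of_one h' hd2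
    have hMK : M ⊔ B n ≤ K ⊔ (M' ⊔ B n) := by
      rw [← heq]
      exact le_sup_right
    have d3 := tower hMM hMK
    have d4 := (BCH_thm.1 F K (M' ⊔ B n) (M' ⊔ B n) (K ⊔ (M' ⊔ B n)) hC.hK
      (hMM.trans hMK) (sup_eq_right.2 hFM').symm rfl hC.gK).2
    have hdM : Module.finrank ↥(M' ⊔ B n) (IntermediateField.extendScalars hMM) = 1 := by
      rcases (Nat.dvd_prime hpr).1 d1.2 with e | e
      · exact e
      · exfalso
        apply hC.copK
        refine dvd_trans ?_ d4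
        rw [← e]
        exact Dvd.intro _ d3
    have heqM : M ⊔ B n = M' ⊔ B n := eq_of_one hMM hdM
    have e1 := rX_le_vX p ↥(K ⊔ (M ⊔ B n)) (XF F K (M ⊔ B n) h)
    have e2 : padicValNat p (classNo (M' ⊔ B n)) = padicValNat p (classNo (M ⊔ B n)) := by
      rw [heqM]
    have e3 : padicValNat p (classNo (K ⊔ (M' ⊔ B n))) =
        padicValNat p (classNo (K ⊔ (M ⊔ B n))) := by
      rw [heqM]
    rw [e2, e3, ← i2]
    calc rX p ↥(K ⊔ (M ⊔ B n)) (XF F K (M ⊔ B n) h) + p * padicValNat p (classNo (M ⊔ B n))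
        ≤ p * vX p ↥(K ⊔ (M ⊔ B n)) (XF F K (M ⊔ B n) h) +
          p * padicValNat p (classNo (M ⊔ B n)) :=
          Nat.add_le_add_right (e1.trans (Nat.le_mul_of_pos_left _ hpr.pos)) _
      _ = p * (vX p ↥(K ⊔ (M ⊔ B n)) (XF F K (M ⊔ B n) h) +
          padicValNat p (classNo (M ⊔ B n))) := by ring
      _ ≤ _ := Nat.mul_le_mul_left p (Nat.le_add_right _ _)
  · obtain ⟨S, hS1, hS2⟩ := ht n (K ⊔ (M' ⊔ B n)) (K ⊔ (M ⊔ B n)) h'
      (sup_assoc _ _ _).symm (sup_assoc _ _ _).symm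
    let aK : Algebra F ↥(K ⊔ (M' ⊔ B n)) := algC hFE
    let aKL : Algebra ↥(K ⊔ (M' ⊔ B n)) ↥(K ⊔ (M ⊔ B n)) := algC h'
    let aL : Algebra F ↥(K ⊔ (M ⊔ B n)) := algC (hFE.trans h')
    have tow : IsScalarTower F ↥(K ⊔ (M' ⊔ B n)) ↥(K ⊔ (M ⊔ B n)) := towerC hFE h'
    have galL : IsGalois ↥(K ⊔ (M' ⊔ B n)) ↥(K ⊔ (M ⊔ B n)) := (isGalois_algC h').2 d2.1
    have dL : Module.finrank ↥(K ⊔ (M' ⊔ B n)) ↥(K ⊔ (M ⊔ B n)) = p :=
      (finrank_algC h').trans hd2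
    obtain ⟨g, hgp, hgc⟩ := gen (F := F) dL
    have hsy := h3 p 1 F K (M' ⊔ B n) (M ⊔ B n) hCn hFM' hMM hCn'.gM hFE h' g hgc
    have hst := h1 p 1 F ↥(K ⊔ (M' ⊔ B n)) ↥(K ⊔ (M ⊔ B n)) (IntermediateField ℚ ℂ) [F] _ _ g
      hsy S hS2
    obtain ⟨-, -, -, -, -, n6⟩ := t_NUS
    obtain ⟨-, -, q3, q4⟩ := n6 F ↥(K ⊔ (M ⊔ B n)) (IntermediateField ℚ ℂ) [F] _ hsy.nrm
    have hrk := h2 p F ↥(K ⊔ (M ⊔ B n)) g (XF F K (M ⊔ B n) h) hgp q3 (q4 g)
    rw [one_mul] at hst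
    have e1 : padicValNat p ((_root_.MU3.PI ↥(K ⊔ (M ⊔ B n))).relIndex
        (XF F K (M ⊔ B n) h ⊓ (_root_.MU3.PI ↥(K ⊔ (M ⊔ B n))).comap (dg g))) ≤
        vX p ↥(K ⊔ (M' ⊔ B n)) (XF F K (M' ⊔ B n) hFE) + S.card := hst
    calc rX p ↥(K ⊔ (M ⊔ B n)) (XF F K (M ⊔ B n) h) + p * padicValNat p (classNo (M' ⊔ B n))
        ≤ p * (vX p ↥(K ⊔ (M' ⊔ B n)) (XF F K (M' ⊔ B n) hFE) + t) +
          p * padicValNat p (classNo (M' ⊔ B n)) :=
          Nat.add_le_add_right (hrk.trans (Nat.mul_le_mul_left p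
            (e1.trans (Nat.add_le_add_left hS1 _)))) _
      _ = p * ((vX p ↥(K ⊔ (M' ⊔ B n)) (XF F K (M' ⊔ B n) hFE) +
          padicValNat p (classNo (M' ⊔ B n))) + t) := by ring
      _ = _ := by rw [i1]

end Pool.Agent.OTE
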