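import Pool.Agent.OT.StE
import Pool.Agent.MU3.N_NIL
import Pool.Agent.RID.P_ALGR
import Pool.Agent.RI.CL

/-!
# OT (Theorem T+), block E: module RNK

The rank of `X / P` and the ambiguous classes, for an automorphism `g` with `g ^ p = 1`.
-/

set_option autoImplicit false

open NumberField IsDedekindDomain Finset
open scoped nonZeroDivisors Pointwise

namespace Pool.Agent.OTE

open _root_.Pool.Agent.RI _root_.Pool.Agent.RID _root_.Pool.Agent.MU3 _root_.MU3

namespace RNK

/-- `(γ - 1) ^ p` is `p` times an endomorphism if `γ ^ p = 1`. -/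
lemma sub_one_pow {A : Type} [AddCommGroup A] (p : ℕ) (hp : p.Prime) (γ : AddMonoid.End A)
    (h1 : γ ^ p = 1) : ∃ r : AddMonoid.End A, (γ - 1) ^ p = (p : AddMonoid.End A) * r := by
  obtain ⟨r, hr⟩ := exists_add_pow_prime_eq hp (Polynomial.X : Polynomial ℤ) (-1)
  obtain ⟨s, hs⟩ : ∃ s : Polynomial ℤ, (Polynomial.X - 1) ^ p =
      Polynomial.X ^ p - 1 + (p : Polynomial ℤ) * s := by
    rcases hp.eq_two_or_odd' with h | h
    · subst h
      refine ⟨1 - Polynomial.X, ?_⟩
      push_cast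
      ring
    · refine ⟨Polynomial.X * -1 * r, ?_⟩
      rw [sub_eq_add_neg, hr, h.neg_pow, one_pow]
      ring
  have h2 := congrArg (Polynomial.aeval (γ : AddMonoid.End A)) hs
  simp only [map_pow, map_add, map_mul, map_one, map_sub, Polynomial.aeval_X, map_natCast] at h2
  refine ⟨Polynomial.aeval (γ : AddMonoid.End A) s, ?_⟩
  rw [h2, h1, sub_self, zero_add]

lemma sub_one_mem {A : Type} [AddCommGroup A] (p : ℕ) (hp : p.Prime) (γ : AddMonoid.End A)
    (h1 : γ ^ p = 1) (x : A) : ∃ y : A, ((γ - 1) ^ p) x = p • y := by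
  obtain ⟨r, hr⟩ := sub_one_pow p hp γ h1
  refine ⟨r x, ?_⟩
  rw [hr, AddMonoid.End.coe_mul, Function.comp_apply, AddMonoid.End.natCast_apply]

variable {I : Type} [CommGroup I]

/-- The classes of `X` in `I / P`: the two descriptions of the `p`-torsion. -/
lemma card_tors (p : ℕ) (P X : Subgroup I) :
    Nat.card {x : Additive (X ⧸ P.subgroupOf X) // p • x = 0} =
      Nat.card {c : I ⧸ P // (∃ b ∈ X, (b : I ⧸ P) = c) ∧ c ^ p = 1} := by
  let φ : X ⧸ P.subgroupOf X →* I ⧸ P := QuotientGroup.map (P.subgroupOf X) P X.subtype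
    (by intro x hx; exact hx)
  have hφ : ∀ x : X, φ (x : X ⧸ P.subgroupOf X) = ((x : I) : I ⧸ P) := fun x => rfl
  have hinj : Function.Injective φ := by
    rw [injective_iff_map_eq_one]
    intro a ha
    obtain ⟨x, rfl⟩ := QuotientGroup.mk_surjective a
    rw [hφ, QuotientGroup.eq_one_iff] at ha
    rw [QuotientGroup.eq_one_iff]
    exact ha
  have hmem : ∀ x : {x : Additive (X ⧸ P.subgroupOf X) // p • x = 0},
      (∃ b ∈ X, (b : I ⧸ P) = φ (Additive.toMul x.1)) ∧ (φ (Additive.toMul x.1)) ^ p = 1 := by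
    rintro ⟨x, hx⟩
    constructor
    · obtain ⟨y, hy⟩ := QuotientGroup.mk_surjective (Additive.toMul x)
      refine ⟨(y : I), y.2, ?_⟩
      rw [← hφ, hy]
    · rw [← map_pow]
      have h1 : (Additive.toMul x) ^ p = 1 := hx
      rw [h1, map_one]
  refine Nat.card_congr (Equiv.ofBijective (fun x => ⟨φ (Additive.toMul x.1), hmem x⟩) ⟨?_, ?_⟩)
  · intro x y hxy
    have h1 : φ (Additive.toMul x.1) = φ (Additive.toMul y.1) := congrArg Subtype.val hxy
    exact Subtype.ext (Additive.toMul.injective (hinj h1))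
  · rintro ⟨c, ⟨b, hb, rfl⟩, hc⟩
    refine ⟨⟨Additive.ofMul ((⟨b, hb⟩ : X) : X ⧸ P.subgroupOf X), ?_⟩, ?_⟩
    · have h2 : (((⟨b, hb⟩ : X) : X ⧸ P.subgroupOf X)) ^ p = 1 := by
        apply hinj
        rw [map_pow, map_one, hφ]
        exact hc
      exact h2
    · rfl

open ALGR in
/-- The general form: a group `I` with an automorphism `g`, `g ^ p = 1`. -/
theorem rk_gen {G : Type} [Group G] [MulDistribMulAction G I] (p : ℕ) [hp : Fact p.Prime] (g : G)
    (P X : Subgroup I) (hg : g ^ p = 1) (hPX : P ≤ X) (hfin : P.relIndex X ≠ 0)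
    (hP : ∀ x ∈ P, g • x ∈ P) (hX : ∀ x ∈ X, g • x ∈ X) :
    padicValNat p (Nat.card {c : I ⧸ P // (∃ b ∈ X, (b : I ⧸ P) = c) ∧ c ^ p = 1}) ≤
      p * padicValNat p (P.relIndex (X ⊓ P.comap (dg g))) := by
  set γ : AddMonoid.End (Additive (X ⧸ P.subgroupOf X)) := ga g P X hP hX with hγ
  have hind : (P.subgroupOf X).FiniteIndex := ⟨hfin⟩
  have hfinC : Finite (X ⧸ P.subgroupOf X) := Subgroup.finite_quotient_of_finiteIndex
  have hfinA : Finite (Additive (X ⧸ P.subgroupOf X)) := hfinC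
  have hγ1 : γ ^ p = 1 := by
    ext a
    obtain ⟨x, hx⟩ := QuotientGroup.mk_surjective (Additive.toMul a)
    have ha : a = Additive.ofMul (x : X ⧸ P.subgroupOf X) := by rw [hx]; rfl
    subst ha
    rw [hγ, ga_pow]
    have : (⟨g ^ p • (x : I), pow_smul_mem hX _ x x.2⟩ : X) = x := by
      ext
      simp [hg]
    rw [this]
    rfl
  have h1 := n_NIL p p (Additive (X ⧸ P.subgroupOf X)) γ (sub_one_mem p hp.out γ hγ1)
  rw [card_tors] at h1
  have hU1 : P ≤ X ⊓ P.comap (dg g) := by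
    intro x hx
    refine Subgroup.mem_inf.2 ⟨hPX hx, ?_⟩
    rw [Subgroup.mem_comap, dg_apply]
    exact div_mem hx (hP x hx)
  have hker : Nat.card (AddMonoidHom.ker (γ - 1 : AddMonoid.End _)) =
      P.relIndex (X ⊓ P.comap (dg g)) := by
    apply card_add hU1 inf_le_left
    intro x
    have h0 : Additive.ofMul (x : X ⧸ P.subgroupOf X) ∈
        AddMonoidHom.ker (γ - 1 : AddMonoid.End _) ↔ (γ - 1 : AddMonoid.End _)
        (Additive.ofMul (x : X ⧸ P.subgroupOf X)) = 0 := Iff.rfl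
    rw [h0]
    have h2 : (γ - 1 : AddMonoid.End _)
        (Additive.ofMul (x : X ⧸ P.subgroupOf X)) =
        (γ ^ 1) (Additive.ofMul (x : X ⧸ P.subgroupOf X)) -
          Additive.ofMul (x : X ⧸ P.subgroupOf X) := by
      rw [pow_one]
      rfl
    rw [h2, sub_eq_zero, hγ, ga_pow, Additive.ofMul.injective.eq_iff, QuotientGroup.eq,
      Subgroup.mem_subgroupOf, Subgroup.mem_inf, Subgroup.mem_comap, dg_apply]
    have h3 : (((⟨g ^ 1 • (x : I), pow_smul_mem hX _ x x.2⟩ : X)⁻¹ * x : X) : I) =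
        (x : I) / g • (x : I) := by
      simp [div_eq_mul_inv, mul_comm]
    rw [h3]
    simp
  rw [hker] at h1
  exact h1

end RNK

theorem te_RNK : Se_RNK := by
  intro p hp F L _ _ _ _ g X hg hPX hX
  have hP : ∀ x ∈ _root_.MU3.PI L, g • x ∈ _root_.MU3.PI L := by
    rintro _ ⟨x, rfl⟩
    exact ⟨g • x, (smul_prin g x).symm⟩
  have hfin0 : Finite (J L ⧸ _root_.MU3.PI L) := CL.finite_quot L
  have hfi : (_root_.MU3.PI L).FiniteIndex := Subgroup.finiteIndex_of_finite_quotient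
  have hfin : (_root_.MU3.PI L).relIndex X ≠ 0 := by
    intro h0
    exact hfi.index_ne_zero (Nat.eq_zero_of_zero_dvd (h0 ▸ Subgroup.relIndex_dvd_index_of_normal _ _))
  exact RNK.rk_gen p g (_root_.MU3.PI L) X hg hPX hfin hP hX

end Pool.Agent.OTE
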