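import Pool.Agent.OT.StE
import Pool.Agent.OT.E_RK4
import Pool.Agent.RID.P_RK3
import Pool.Agent.RID.P_CYC
import Pool.Agent.RID.P_RES
import Pool.Agent.RID.P_NUS
import Pool.Agent.RID.P_HERBQ
import Pool.Agent.RID.P_HQ1
import Pool.Agent.RID.P_HQ2
import Pool.Agent.RID.P_HQ3
import Pool.Agent.MU3.N_AMBI
import Pool.Agent.RI.CL

/-!
# OT, block E, module STC (helper84): the relative Chevalley inequality
-/

set_option autoImplicit false

open NumberField IsDedekindDomain Finset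
open scoped nonZeroDivisors Pointwise

namespace Pool.Agent.OTE

open _root_.Pool.Agent.RI _root_.Pool.Agent.RID _root_.Pool.Agent.MU3 _root_.MU3

namespace STC

section

variable {F K L κ : Type} [Field F] [NumberField F] [Field K] [NumberField K] [Field L]
  [NumberField L] [Algebra F K] [Algebra F L] [Algebra K L] [IsScalarTower F K L]

/-- The abstract situation for one step. -/
theorem mkAD {p a : ℕ} (l : List κ) (N' : κ → Subgroup (K ≃ₐ[F] K))
    (N : κ → Subgroup (L ≃ₐ[F] L)) (g : L ≃ₐ[F] L) (hS : Sy0 p F K L l N' N g a) :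
    AD0 p (p ^ a) l (fun i => Nat.card (N i)) (fun i => (nuS (N i) : Lˣ →* Lˣ))
      (fun i => (nuS (N i) : J L →* J L)) (fun i => (nuS (N' i) : Kˣ →* Kˣ))
      (fun i => (nuS (N' i) : J K →* J K)) (prin : Lˣ →* J L) (prin : Kˣ →* J K)
      (Units.map (algebraMap K L : K →* L)) (ext K L) g := by
  obtain ⟨_, _, _, c4, c5, _, _, _, c9, c10, _⟩ := t_CYC F K L g (p ^ a) hS.cyc
  obtain ⟨_, _, n3, _, n5, n6⟩ := t_NUS
  obtain ⟨q1, q2, _, _⟩ := n6 F L κ l N hS.nrm
  exact
    { cop := hS.cop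
      qA := q1
      qI := q2
      gq := by rw [← hS.cyc.ord]; exact pow_orderOf_eq_one g
      dvg := fun x => (smul_prin g x).symm
      gA := fun i hi x => n3 _ _ (N i) x g (hS.nrm i hi)
      gI := fun i hi x => n3 _ _ (N i) x g (hS.nrm i hi)
      dvν := fun i _ x => n5 F L (N i) x
      sq := fun x => ext_prin K L x
      εν := fun i hi x => (t_RES F K L (N' i) (N i) (hS.mat i hi)).1 x
      ιν := fun i hi x => (t_RES F K L (N' i) (N i) (hS.mat i hi)).2 x
      εinj := ext_injective K L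
      gε := c9
      gι := c10
      h90 := c4
      fixA := c5
      fin := CL.finite_quot L
      fin' := CL.finite_quot K }

/-- The relative units. -/
theorem ker_part (l : List κ) (N : κ → Subgroup (L ≃ₐ[F] L)) :
    (prin : Lˣ →* J L).ker ⊓ part l (fun i => (nuS (N i) : Lˣ →* Lˣ)) = WU l N ⊥ := by
  ext u
  constructor
  · rintro ⟨h1, h2⟩
    refine ⟨h1, ?_, h2⟩
    intro σ hσ
    rw [Subgroup.mem_bot] at hσ
    rw [hσ, one_smul]
  · rintro ⟨h1, _, h2⟩
    exact ⟨h1, h2⟩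

/-- The relative units fixed by an automorphism. -/
theorem ker_fix (l : List κ) (N : κ → Subgroup (L ≃ₐ[F] L)) (h : L ≃ₐ[F] L) :
    (prin : Lˣ →* J L).ker ⊓ part l (fun i => (nuS (N i) : Lˣ →* Lˣ)) ⊓ (dg h : Lˣ →* Lˣ).ker =
      WU l N (Subgroup.zpowers h) := by
  ext u
  constructor
  · rintro ⟨⟨h1, h2⟩, h3⟩
    have h3' : h • u = u := (mem_dg_ker h u).1 h3
    refine ⟨h1, ?_, h2⟩
    intro σ hσ
    have h4 : Subgroup.zpowers h ≤ MulAction.stabilizer (L ≃ₐ[F] L) u := by
      rw [Subgroup.zpowers_le]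
      exact h3'
    exact h4 hσ
  · rintro ⟨h1, h3, h2⟩
    exact ⟨⟨h1, h2⟩, (mem_dg_ker h u).2 (h3 h (Subgroup.mem_zpowers h))⟩

/-- The relative ideals which come from `K`. -/
theorem map_part (l : List κ) (N' : κ → Subgroup (K ≃ₐ[F] K)) (N : κ → Subgroup (L ≃ₐ[F] L))
    (hm : ∀ i ∈ l, Match (N' i) (N i)) :
    (part l (fun i => (nuS (N' i) : J K →* J K))).map (ext K L) =
      part l (fun i => (nuS (N i) : J L →* J L)) ⊓ (ext K L).range := by
  ext b
  constructor
  · rintro ⟨c, hc, rfl⟩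
    refine ⟨?_, c, rfl⟩
    show ext K L c ∈ part l (fun i => (nuS (N i) : J L →* J L))
    rw [mem_part]
    intro i hi
    have h1 := mem_part.1 (show c ∈ part l (fun i => (nuS (N' i) : J K →* J K)) from hc) i hi
    rw [← (t_RES F K L (N' i) (N i) (hm i hi)).1 c, h1, map_one]
  · rintro ⟨h1, c, rfl⟩
    refine ⟨c, ?_, rfl⟩
    show c ∈ part l (fun i => (nuS (N' i) : J K →* J K))
    rw [mem_part]
    intro i hi
    have h2 := mem_part.1
      (show ext K L c ∈ part l (fun i => (nuS (N i) : J L →* J L)) from h1) i hi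
    apply ext_injective K L
    rw [(t_RES F K L (N' i) (N i) (hm i hi)).1 c, h2, map_one]

theorem padic_le (p : ℕ) [hp : Fact p.Prime] {m s : ℕ} (h0 : m ≠ 0) (h : m ≤ p ^ s) :
    padicValNat p m ≤ s := by
  have h1 : p ^ padicValNat p m ≤ m := Nat.le_of_dvd (Nat.pos_of_ne_zero h0) pow_padicValNat_dvd
  exact (Nat.pow_le_pow_iff_right hp.out.one_lt).1 (h1.trans h)

end

end STC

open STC in
theorem te_STC (hABR : Se_ABR) : Se_STC := by
  intro p a hp F K L κ _ _ _ _ _ _ _ _ _ _ l N' N g hS S hSr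
  have hAD := mkAD l N' N g hS
  have hgal := hS.galL
  obtain ⟨i₀, hi₀⟩ := List.exists_mem_of_ne_nil l hS.ne
  have hFG : ((prin : Lˣ →* J L).ker ⊓ part l (fun i => (nuS (N i) : Lˣ →* Lˣ))).FG := by
    rw [ker_part]
    refine (t_RK3 F L κ l i₀ N ⊥ ?_).1
    intro j hj
    rcases List.mem_cons.1 hj with rfl | hj
    · exact hS.nrm _ hi₀
    · exact hS.nrm j hj
  have hst : ∀ u ∈ (prin : Lˣ →* J L).ker ⊓ part l (fun i => (nuS (N i) : Lˣ →* Lˣ)),
      g • u ∈ (prin : Lˣ →* J L).ker ⊓ part l (fun i => (nuS (N i) : Lˣ →* Lˣ)) := by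
    rintro u ⟨h1, h2⟩
    have h1' : prin u = 1 := h1
    have h2' := mem_part.1 (show u ∈ part l (fun i => (nuS (N i) : Lˣ →* Lˣ)) from h2)
    refine ⟨?_, ?_⟩
    · show prin (g • u) = 1
      rw [hAD.dvg, h1', smul_one]
    · show g • u ∈ part l (fun i => (nuS (N i) : Lˣ →* Lˣ))
      rw [mem_part]
      intro i hi
      have h3 := hAD.gA i hi u
      rw [h2' i hi, smul_one] at h3
      exact h3.symm
  have hrk : ∀ i ≤ a, Module.finrank ℤ (Additive ↥((prin : Lˣ →* J L).ker ⊓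
      part l (fun i => (nuS (N i) : Lˣ →* Lˣ)) ⊓ (dg (g ^ (p ^ i)) : Lˣ →* Lˣ).ker)) =
      p ^ i * Module.finrank ℤ (Additive ↥((prin : Lˣ →* J L).ker ⊓
      part l (fun i => (nuS (N i) : Lˣ →* Lˣ)) ⊓ (dg g : Lˣ →* Lˣ).ker)) := by
    intro i hi
    rw [ker_fix, ker_fix]
    exact te_RK4 p a F K L κ l N' N g hS i hi
  obtain ⟨hne, heq⟩ := t_HERBQ t_HQ1 (t_HQ3 t_HQ1 t_HQ2) p a Lˣ (L ≃ₐ[F] L) g _ hAD.gq hFG hst hrk
  -- the ideals
  obtain ⟨k4, k5⟩ := n_AMBI F K L g (p ^ a) hS.cyc S hSr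
  have hle : part l (fun i => (nuS (N i) : J L →* J L)) ⊓ (dg g : J L →* J L).ker ≤
      (dg g : J L →* J L).ker := inf_le_right
  have hXV : (ext K L).range ≤ (dg g : J L →* J L).ker := by
    rintro _ ⟨c, rfl⟩
    rw [mem_dg_ker]
    exact hAD.gε c
  have e1 : ((part l (fun i => (nuS (N' i) : J K →* J K))).map (ext K L)).relIndex
      (part l (fun i => (nuS (N i) : J L →* J L)) ⊓ (dg g : J L →* J L).ker) =
      (ext K L).range.relIndex
        (part l (fun i => (nuS (N i) : J L →* J L)) ⊓ (dg g : J L →* J L).ker) := by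
    rw [map_part l N' N hS.mat, ← Subgroup.inf_relIndex_right (ext K L).range]
    congr 1
    apply le_antisymm
    · exact le_inf inf_le_right (le_inf inf_le_left (inf_le_right.trans hXV))
    · exact le_inf (inf_le_right.trans inf_le_left) inf_le_left
  have k6 : (ext K L).range.relIndex
      (part l (fun i => (nuS (N i) : J L →* J L)) ⊓ (dg g : J L →* J L).ker) ≠ 0 := fun h =>
    k4 (Subgroup.relIndex_eq_zero_of_le_right hle h)
  have k7 := Subgroup.relIndex_le_of_le_right hle k4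
  have b3 : padicValNat p (((part l (fun i => (nuS (N' i) : J K →* J K))).map (ext K L)).relIndex
      (part l (fun i => (nuS (N i) : J L →* J L)) ⊓ (dg g : J L →* J L).ker)) ≤ a * S.card := by
    rw [e1]
    apply padic_le p k6
    rw [pow_mul]
    exact k7.trans k5
  have h1 := hABR p (p ^ a) _ _ _ _ _ _ _ _ _ _ _ _ _ _ _ _ _ hAD hne (heq ▸ hne) (by
    rw [e1]
    exact k6)
  rw [← heq] at h1
  have h3 : padicValNat p ((prin : Lˣ →* J L).range.relIndex
      (partM l (fun i => (nuS (N i) : J L →* J L)) (prin : Lˣ →* J L).range ⊓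
        (prin : Lˣ →* J L).range.comap (dg g))) ≤
      padicValNat p ((prin : Kˣ →* J K).range.relIndex
        (partM l (fun i => (nuS (N' i) : J K →* J K)) (prin : Kˣ →* J K).range)) + a * S.card := by
    omega
  exact h3

end Pool.Agent.OTE
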