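import Pool.Agent.OT.StE
import Pool.Agent.RID.P_ALGR
import Pool.Agent.RID.P_ALG2
import Pool.Agent.RI.CL

/-!
# OT, block E, module STP: one step of a tower for `X / P`
-/

set_option autoImplicit false

open NumberField IsDedekindDomain Finset
open scoped nonZeroDivisors Pointwise

namespace Pool.Agent.OTE

open _root_.Pool.Agent.RI _root_.Pool.Agent.RID _root_.Pool.Agent.MU3 _root_.MU3

namespace STP

section

variable {I : Type} [CommGroup I]

/-- the map `X / (P ⊓ X) → I / P` -/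
def emb (P X : Subgroup I) : X ⧸ P.subgroupOf X →* I ⧸ P :=
  QuotientGroup.map (P.subgroupOf X) P X.subtype le_rfl

lemma emb_mk (P X : Subgroup I) (x : X) :
    emb P X (x : X ⧸ P.subgroupOf X) = ((x : I) : I ⧸ P) := rfl

lemma emb_inj (P X : Subgroup I) : Function.Injective (emb P X) := by
  rw [injective_iff_map_eq_one]
  intro a ha
  obtain ⟨x, rfl⟩ := QuotientGroup.mk_surjective a
  rw [emb_mk, QuotientGroup.eq_one_iff] at ha
  rw [QuotientGroup.eq_one_iff]
  exact ha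

lemma card_rk (P X : Subgroup I) (p : ℕ) :
    Nat.card {x : Additive (X ⧸ P.subgroupOf X) // p • x = 0} =
      Nat.card {c : I ⧸ P // (∃ b ∈ X, (b : I ⧸ P) = c) ∧ c ^ p = 1} := by
  have h0 : ∀ a : X ⧸ P.subgroupOf X, ∃ b ∈ X, (b : I ⧸ P) = emb P X a := by
    intro a
    obtain ⟨x, rfl⟩ := QuotientGroup.mk_surjective a
    exact ⟨x, x.2, (emb_mk P X x).symm⟩
  have h1 : ∀ x : {x : Additive (X ⧸ P.subgroupOf X) // p • x = 0},
      emb P X (Additive.toMul x.1) ^ p = 1 := by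
    intro x
    have h2 : (Additive.toMul x.1 : X ⧸ P.subgroupOf X) ^ p = 1 := x.2
    rw [← map_pow, h2, map_one]
  refine Nat.card_eq_of_bijective
    (fun x : {x : Additive (X ⧸ P.subgroupOf X) // p • x = 0} =>
      (⟨emb P X (Additive.toMul x.1), h0 _, h1 x⟩ :
        {c : I ⧸ P // (∃ b ∈ X, (b : I ⧸ P) = c) ∧ c ^ p = 1})) ⟨?_, ?_⟩
  · intro x y hxy
    have h3 : emb P X (Additive.toMul x.1) = emb P X (Additive.toMul y.1) :=
      congrArg Subtype.val hxy
    exact Subtype.ext (emb_inj P X h3)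
  · rintro ⟨c, ⟨b, hb, rfl⟩, hc⟩
    refine ⟨⟨Additive.ofMul (((⟨b, hb⟩ : X)) : X ⧸ P.subgroupOf X), ?_⟩, ?_⟩
    · have h4 : ((((⟨b, hb⟩ : X)) : X ⧸ P.subgroupOf X)) ^ p = 1 := by
        apply emb_inj P X
        rw [map_pow, map_one]
        exact hc
      exact h4
    · rfl

end

section

variable {I G : Type} [CommGroup I] [Group G] [MulDistribMulAction G I]

open ALGR in
/-- `RID.t_ALGR` without ALG1 -/
lemma step (hALG2 : S_ALG2) (p m : ℕ) [Fact p.Prime] (g : G) (P X : Subgroup I)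
    (hg : g ^ (p ^ (m + 1)) = 1) (hPX : P ≤ X) (hfin : P.relIndex X ≠ 0)
    (hP : ∀ x ∈ P, g • x ∈ P) (hX : ∀ x ∈ X, g • x ∈ X)
    (hlt : padicValNat p (Nat.card {c : I ⧸ P // (∃ b ∈ X, (b : I ⧸ P) = c) ∧ c ^ p = 1}) <
      p ^ m * (p - 1)) :
    padicValNat p (P.relIndex X) ≤
      padicValNat p (P.relIndex (X.map (ng (g ^ (p ^ m)) p) ⊔ P)) +
      padicValNat p (Nat.card {c : I ⧸ P // (∃ b ∈ X, (b : I ⧸ P) = c) ∧ c ^ p = 1}) := by
  set γ : AddMonoid.End (Additive (X ⧸ P.subgroupOf X)) := ga g P X hP hX with hγ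
  have hind : (P.subgroupOf X).FiniteIndex := ⟨hfin⟩
  have hfinC : Finite (X ⧸ P.subgroupOf X) := Subgroup.finite_quotient_of_finiteIndex
  have hfinA : Finite (Additive (X ⧸ P.subgroupOf X)) := hfinC
  have hcard : Nat.card (Additive (X ⧸ P.subgroupOf X)) = P.relIndex X := rfl
  have hγ1 : γ ^ (p ^ (m + 1)) = 1 := by
    ext a
    obtain ⟨x, hx⟩ := QuotientGroup.mk_surjective (Additive.toMul a)
    have ha : a = Additive.ofMul (x : X ⧸ P.subgroupOf X) := by rw [hx]; rfl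
    subst ha
    rw [hγ, ga_pow]
    have : (⟨g ^ (p ^ (m + 1)) • (x : I), pow_smul_mem hX _ x x.2⟩ : X) = x := by
      ext
      simp [hg]
    rw [this]
    rfl
  have hran : Nat.card
      (AddMonoidHom.range (∑ j ∈ range p, γ ^ (p ^ m * j) : AddMonoid.End _)) =
      P.relIndex (X.map (ng (g ^ (p ^ m)) p) ⊔ P) := by
    have hng : ∀ x ∈ X, ng (g ^ (p ^ m)) p x ∈ X := by
      intro x hx
      rw [ng_apply]
      refine Subgroup.prod_mem _ fun i _ => ?_
      rw [← pow_mul]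
      exact pow_smul_mem hX _ x hx
    have hval : ∀ x : X, (∑ j ∈ range p, γ ^ (p ^ m * j) : AddMonoid.End _)
        (Additive.ofMul (x : X ⧸ P.subgroupOf X)) =
        Additive.ofMul ((⟨ng (g ^ (p ^ m)) p (x : I), hng x x.2⟩ : X) :
          X ⧸ P.subgroupOf X) := by
      intro x
      have h1 : (∑ j ∈ range p, γ ^ (p ^ m * j) : AddMonoid.End _)
          (Additive.ofMul (x : X ⧸ P.subgroupOf X)) =
          ∑ j ∈ range p, (γ ^ (p ^ m * j)) (Additive.ofMul (x : X ⧸ P.subgroupOf X)) := by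
        exact AddMonoidHom.finsetSum_apply _ _ _
      rw [h1]
      have h2 : (⟨ng (g ^ (p ^ m)) p (x : I), hng x x.2⟩ : X) =
          ∏ j ∈ range p, (⟨g ^ (p ^ m * j) • (x : I), pow_smul_mem hX _ x x.2⟩ : X) := by
        ext
        rw [Subgroup.val_finsetProd]
        simp [ng_apply, pow_mul]
      rw [h2]
      have h3 : (((∏ j ∈ range p,
          (⟨g ^ (p ^ m * j) • (x : I), pow_smul_mem hX _ x x.2⟩ : X)) : X) :
          X ⧸ P.subgroupOf X) = ∏ j ∈ range p,
          (((⟨g ^ (p ^ m * j) • (x : I), pow_smul_mem hX _ x x.2⟩ : X)) :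
            X ⧸ P.subgroupOf X) := map_prod (QuotientGroup.mk' (P.subgroupOf X)) _ _
      rw [h3, ofMul_prod]
      refine Finset.sum_congr rfl fun j _ => ?_
      rw [hγ, ga_pow]
    refine card_add le_sup_right (sup_le ?_ hPX) _ ?_
    · rintro _ ⟨x, hx, rfl⟩
      exact hng x hx
    intro x
    have h0 : Additive.ofMul (x : X ⧸ P.subgroupOf X) ∈
        AddMonoidHom.range (∑ j ∈ range p, γ ^ (p ^ m * j) : AddMonoid.End _) ↔
        ∃ b, (∑ j ∈ range p, γ ^ (p ^ m * j) : AddMonoid.End _) b =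
          Additive.ofMul (x : X ⧸ P.subgroupOf X) := Iff.rfl
    rw [h0]
    constructor
    · rintro ⟨b, hb⟩
      obtain ⟨y, hy⟩ := QuotientGroup.mk_surjective (Additive.toMul b)
      have ha : b = Additive.ofMul (y : X ⧸ P.subgroupOf X) := by rw [hy]; rfl
      subst ha
      rw [hval, Additive.ofMul.injective.eq_iff, QuotientGroup.eq,
        Subgroup.mem_subgroupOf] at hb
      have h4 : (x : I) = ng (g ^ (p ^ m)) p (y : I) *
          (((⟨ng (g ^ (p ^ m)) p (y : I), hng y y.2⟩ : X)⁻¹ * x : X) : I) := by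
        simp
      rw [h4]
      exact Subgroup.mul_mem_sup (Subgroup.mem_map_of_mem _ y.2) hb
    · intro hx
      obtain ⟨a, ha, b, hb, hab⟩ := Subgroup.mem_sup.1 hx
      obtain ⟨y, hy, rfl⟩ := ha
      refine ⟨Additive.ofMul ((⟨y, hy⟩ : X) : X ⧸ P.subgroupOf X), ?_⟩
      rw [hval, Additive.ofMul.injective.eq_iff, QuotientGroup.eq,
        Subgroup.mem_subgroupOf]
      have h4 : (((⟨ng (g ^ (p ^ m)) p y, hng y hy⟩ : X)⁻¹ * x : X) : I) = b := by
        rw [Subgroup.coe_mul, Subgroup.coe_inv, ← hab]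
        simp
      rw [h4]
      exact hb
  have h5 := hALG2 p m (Additive (X ⧸ P.subgroupOf X)) γ hγ1 (by rw [card_rk]; exact hlt)
  rw [hran, hcard, card_rk] at h5
  exact h5

end

end STP

theorem te_STP : Se_STP := by
  intro p m _ F L _ _ _ _ g X hg hPX hX hlt
  have hfinQ : Finite (J L ⧸ (prin (K := L)).range) := CL.finite_quot L
  have hidx : (_root_.MU3.PI L).index ≠ 0 := by
    have : (_root_.MU3.PI L).FiniteIndex := Subgroup.finiteIndex_of_finite_quotient
    exact this.index_ne_zero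
  have hfin : (_root_.MU3.PI L).relIndex X ≠ 0 := by
    intro h
    exact hidx (Nat.eq_zero_of_zero_dvd (h ▸ Subgroup.relIndex_dvd_index_of_normal _ _))
  have hP : ∀ x ∈ _root_.MU3.PI L, g • x ∈ _root_.MU3.PI L := by
    rintro _ ⟨x, rfl⟩
    exact ⟨g • x, (smul_prin g x).symm⟩
  exact STP.step t_ALG2 p m g (_root_.MU3.PI L) X hg hPX hfin hP hX hlt

end Pool.Agent.OTE
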