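import Pool.Agent.OT.StE
import Pool.Agent.RID.P_SCN
import Pool.Agent.RID.P_SCM
import Pool.Agent.RID.P_SCI
import Pool.Agent.RID.P_CDR
import Pool.Agent.RID.P_CYC

/-!
# OT, block E, module SY0: the situation of one step (helper19)
-/

set_option autoImplicit false

open NumberField IsDedekindDomain Finset
open scoped nonZeroDivisors Pointwise

namespace Pool.Agent.OTE

open _root_.Pool.Agent.RI _root_.Pool.Agent.RID _root_.Pool.Agent.MU3 _root_.MU3

namespace SY0

theorem isGalois_self (F : IntermediateField ℚ ℂ) :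
    IsGalois F (IntermediateField.extendScalars (le_refl F)) := by
  rw [IntermediateField.extendScalars_self]
  infer_instance

theorem onlyAbove_self (K : IntermediateField ℚ ℂ) (P : Ideal (𝓞 K)) :
    OnlyAbove (le_refl K) P := by
  intro Q _ h
  ext x
  have e : RingOfIntegers.mapRingHom (IntermediateField.inclusion (le_refl K) : K →+* K) x = x :=
    RingOfIntegers.ext rfl
  have h1 : x ∈ Q.comap
      (RingOfIntegers.mapRingHom (IntermediateField.inclusion (le_refl K) : K →+* K)) ↔
      x ∈ P.comap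
      (RingOfIntegers.mapRingHom (IntermediateField.inclusion (le_refl K) : K →+* K)) := by
    rw [h]
  rw [Ideal.mem_comap, Ideal.mem_comap, e] at h1
  exact h1

theorem unramInf_of_totCx {F M : IntermediateField ℚ ℂ} (h : F ≤ M) (hF : TotCx F) :
    UnramInf h := by
  intro φ hφ x
  obtain ⟨y, hy⟩ := hF (φ.comp (IntermediateField.inclusion h : F →+* M))
  exact absurd (hφ (IntermediateField.inclusion h y) y.2) hy

/-- the hypotheses of the theorems on decomposition fields, for `l = [F, K]` -/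
theorem cd_of_c0 {p : ℕ} {F K M : IntermediateField ℚ ℂ} (hC : C0 p F K M) :
    CD p F K M [F, K] where
  hK := hC.hK
  hM := hC.hM
  gK := hC.gK
  copK := hC.copK
  gM := hC.gM
  degM := hC.degM
  ne := by simp
  mem := by
    intro E hE
    rcases List.mem_cons.1 hE with rfl | hE
    · exact ⟨le_rfl, hC.hK, isGalois_self E⟩
    · rcases List.mem_singleton.1 hE with rfl
      exact ⟨hC.hK, le_rfl, hC.gK⟩
  inf := unramInf_of_totCx hC.hM hC.tc
  ram := by
    intro P _ _
    exact ⟨K, by simp, le_rfl, onlyAbove_self K P⟩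

end SY0

theorem te_SY0 : Se_SY0 := by
  intro p a _ F K M' M _ _ _ _ hC h₁ h₂ hG₁ h h'
  let aK := algC h
  letI aKL := algC h'
  letI aL := algC (h.trans h')
  letI tow := towerC h h'
  intro g hg
  have hCD : CD p F K M [F, K] := SY0.cd_of_c0 hC
  have hCD' : CD p F K M' [F, K] := t_CDR p F K M' M [F, K] hCD h₁ h₂ hG₁
  have hBCH := BCH_thm
  have gK : IsGalois F ↥(K ⊔ M') :=
    (isGalois_algC h).2 (hBCH.2 F K M' hCD.hK h₁ h hCD.gK hG₁)
  have gL : IsGalois F ↥(K ⊔ M) :=
    (isGalois_algC (h.trans h')).2 (hBCH.2 F K M hCD.hK hCD.hM (h.trans h') hCD.gK hCD.gM)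
  have hfix : ∀ x : ↥(K ⊔ M), (x : ℂ) ∈ K → g x = x := by
    intro x hx
    rw [hg.fix]
    exact ⟨⟨x, (le_sup_left : K ≤ K ⊔ M') hx⟩, rfl⟩
  have hcyc := t_CYC F ↥(K ⊔ M') ↥(K ⊔ M) g (p ^ a) hg
  have hN := t_SCN p F K M [F, K] hCD (h.trans h')
  have hN' := t_SCN p F K M' [F, K] hCD' h
  have hl : ∀ E ∈ [F], E ∈ [F, K] := by
    intro E hE
    rcases List.mem_singleton.1 hE with rfl
    simp
  exact
    { galK := gK
      galL := gL
      ne := by simp
      cyc := hg
      nrm := fun E hE => (hN E (hl E hE)).1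
      nrm' := fun E hE => (hN' E (hl E hE)).1
      cop := fun E hE => (hN E (hl E hE)).2.1
      com := fun E hE σ hσ => (hN E (hl E hE)).2.2 g hfix σ hσ
      mat := fun E hE => t_SCM t_SCN p F K M' M [F, K] hCD h₁ h₂ hG₁ h h' E (hl E hE)
      inf := by
        rw [← hcyc.2.1]
        exact t_SCI p F K M' M [F, K] hCD h₁ h₂ hG₁ h' }

end Pool.Agent.OTE
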