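import Pool.Agent.OT.StE
import Pool.Agent.OT.E_SY0
import Pool.Agent.RID.P_CYC
import Pool.Agent.RID.P_RES
import Pool.Agent.RID.P_NUS
import Pool.Agent.RID.P_NRM
import Pool.Agent.RI.CL

/-!
# OT (Theorem T+), block E, for TWR: the norm to the previous layer (helper22)
-/

set_option autoImplicit false

open NumberField IsDedekindDomain Finset
open scoped nonZeroDivisors Pointwise

namespace Pool.Agent.OTE

open _root_.Pool.Agent.RI _root_.Pool.Agent.RID _root_.Pool.Agent.MU3 _root_.MU3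

namespace TWN

lemma vle {p : ℕ} [hp : Fact p.Prime] {a b : ℕ} (h : a ∣ b) (hb : b ≠ 0) :
    padicValNat p a ≤ padicValNat p b :=
  (padicValNat_dvd_iff_le hb).1 (pow_padicValNat_dvd.trans h)

lemma idx_ne (K : Type) [Field K] [NumberField K] : (prin (K := K)).range.index ≠ 0 := by
  have := CL.finite_quot K
  exact Subgroup.index_ne_zero_iff_finite.2 inferInstance

lemma rel_ne (K : Type) [Field K] [NumberField K] (Y : Subgroup (J K)) :
    (prin (K := K)).range.relIndex Y ≠ 0 :=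
  fun h => idx_ne K (Nat.eq_zero_of_zero_dvd (h ▸ Subgroup.relIndex_dvd_index_of_normal _ _))

/-- the norm of the ideals with principal norms, abstract form -/
theorem gen (p : ℕ) [Fact p.Prime] (F K L κ : Type) [Field F] [NumberField F] [Field K]
    [NumberField K] [Field L] [NumberField L] [Algebra F K] [Algebra F L] [Algebra K L]
    [IsScalarTower F K L] (l : List κ) (N' : κ → Subgroup (K ≃ₐ[F] K))
    (N : κ → Subgroup (L ≃ₐ[F] L)) (g : L ≃ₐ[F] L) (q : ℕ) (hcyc : CycExt F K L g q)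
    (hmat : ∀ i ∈ l, Match (N' i) (N i)) (hcom : ∀ i ∈ l, ∀ σ ∈ N i, σ * g = g * σ) :
    padicValNat p ((prin : Lˣ →* J L).range.relIndex
      ((XsJ l N).map (ng g q) ⊔ (prin : Lˣ →* J L).range)) ≤
    padicValNat p ((prin : Kˣ →* J K).range.relIndex (XsJ l N')) := by
  have hNRM : _root_.Pool.Agent.RID.S_NRM := t_NRM t_CYC t_RES t_NUS
  have hmap : (XsJ l N).map (ng g q) ≤ (XsJ l N').map (ext K L) := by
    rintro _ ⟨b, hb, rfl⟩
    obtain ⟨c, hc, hc'⟩ := hNRM F K L κ l N' N g q hcyc hmat hcom b hb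
    exact ⟨c, hc, hc'⟩
  have hle : (prin : Kˣ →* J K).range ≤ (prin : Lˣ →* J L).range.comap (ext K L) := by
    rintro _ ⟨y, rfl⟩
    rw [Subgroup.mem_comap, ext_prin]
    exact ⟨_, rfl⟩
  apply vle _ (rel_ne K _)
  have e1 : (prin : Lˣ →* J L).range.relIndex ((XsJ l N).map (ng g q) ⊔
      (prin : Lˣ →* J L).range) ∣ (prin : Lˣ →* J L).range.relIndex ((XsJ l N').map (ext K L) ⊔
      (prin : Lˣ →* J L).range) := by
    rw [← Subgroup.relIndex_mul_relIndex (prin : Lˣ →* J L).range _ _ le_sup_right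
      (sup_le_sup_right hmap (prin : Lˣ →* J L).range)]
    exact dvd_mul_right _ _
  refine e1.trans ?_
  rw [Subgroup.relIndex_sup_right]
  have e2 : (prin : Lˣ →* J L).range.relIndex ((XsJ l N').map (ext K L)) =
      ((prin : Lˣ →* J L).range.comap (ext K L)).relIndex (XsJ l N') := by
    rw [Subgroup.relIndex_comap]
  rw [e2]
  exact Subgroup.relIndex_dvd_of_le_left _ hle

end TWN

/-- (TWN) the norm of `XF` to the field `K M'` -/
theorem te_TWNa (p a : ℕ) [Fact p.Prime] (F K M' M : IntermediateField ℚ ℂ)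
    [FiniteDimensional ℚ F] [FiniteDimensional ℚ K] [FiniteDimensional ℚ M']
    [FiniteDimensional ℚ M] (hC : C0 p F K M) (h₁ : F ≤ M') (h₂ : M' ≤ M)
    (hG : IsGalois F (IntermediateField.extendScalars h₁)) (h : F ≤ K ⊔ M')
    (h' : K ⊔ M' ≤ K ⊔ M) :
    letI := algC h
    letI := algC h'
    letI := algC (h.trans h')
    letI := towerC h h'
    ∀ g : ↥(K ⊔ M) ≃ₐ[F] ↥(K ⊔ M), CycExt F ↥(K ⊔ M') ↥(K ⊔ M) g (p ^ a) →
      padicValNat p ((_root_.MU3.PI ↥(K ⊔ M)).relIndex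
        ((XF F K M (h.trans h')).map (ng g (p ^ a)) ⊔ _root_.MU3.PI ↥(K ⊔ M))) ≤
      vX p ↥(K ⊔ M') (XF F K M' h) := by
  letI aK := algC h
  letI aKL := algC h'
  letI aL := algC (h.trans h')
  letI tow := towerC h h'
  intro g hg
  have S := te_SY0 p a F K M' M hC h₁ h₂ hG h h' g hg
  exact TWN.gen p F ↥(K ⊔ M') ↥(K ⊔ M) _ [F] (fun E => NC h (E ⊔ M'))
    (fun E => NC (h.trans h') (E ⊔ M)) g (p ^ a) S.cyc S.mat S.com

/-- (TWN) the norm of `XF` to the field `K M'`, degree `p` -/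
theorem te_TWN (p : ℕ) [Fact p.Prime] (F K M' M : IntermediateField ℚ ℂ)
    [FiniteDimensional ℚ F] [FiniteDimensional ℚ K] [FiniteDimensional ℚ M']
    [FiniteDimensional ℚ M] (hC : C0 p F K M) (h₁ : F ≤ M') (hM : M' ≤ M)
    (hG : IsGalois F (IntermediateField.extendScalars h₁)) (h : F ≤ K ⊔ M')
    (h' : K ⊔ M' ≤ K ⊔ M) :
    letI := algC h
    letI := algC h'
    letI := algC (h.trans h')
    letI := towerC h h'
    ∀ g : ↥(K ⊔ M) ≃ₐ[F] ↥(K ⊔ M), CycExt F ↥(K ⊔ M') ↥(K ⊔ M) g p →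
      padicValNat p ((_root_.MU3.PI ↥(K ⊔ M)).relIndex
        ((XF F K M (h.trans h')).map (ng g p) ⊔ _root_.MU3.PI ↥(K ⊔ M))) ≤
      vX p ↥(K ⊔ M') (XF F K M' h) := by
  have h2 := te_TWNa p 1 F K M' M hC h₁ hM hG h h'
  rw [pow_one] at h2
  exact h2

end Pool.Agent.OTE
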