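import Pool.Agent.OT.StE
import Pool.Agent.OT.E_SY0
import Pool.Agent.MU3.PX_TOW
import Pool.Agent.RID.P_NRM
import Pool.Agent.RID.P_RES
import Pool.Agent.RID.P_NUS

/-!
# OT, block E, module TWR: one step of the tower over `K M` (helper51)
-/

set_option autoImplicit false

open NumberField IsDedekindDomain Finset
open scoped nonZeroDivisors Pointwise

namespace Pool.Agent.OTE

open _root_.Pool.Agent.RI _root_.Pool.Agent.RID _root_.Pool.Agent.MU3 _root_.MU3

namespace TWR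

/-! ### Degrees -/

/-- The situation for `M ⊔ B m`. -/
theorem c0_layer {p m : ℕ} [Fact p.Prime] {F K M B : IntermediateField ℚ ℂ}
    [FiniteDimensional ℚ F] [FiniteDimensional ℚ K] [FiniteDimensional ℚ M]
    (hC : C0 p F K M) (hB : IsLayer p m B) : C0 p F K (M ⊔ B) := by
  have hpr : p.Prime := Fact.out
  obtain ⟨hfB, -, -⟩ := LAY_thm p m B hB
  have hFM : F ≤ M := hC.hM
  have hM' : F ≤ M ⊔ B := hFM.trans le_sup_left
  have hG : IsGalois F (IntermediateField.extendScalars hM') := by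
    have hb := (Gal.base F B hB).1
    have e : M ⊔ (F ⊔ B) = M ⊔ B := by
      rw [← sup_assoc, sup_eq_left.2 hFM]
    have fd : FiniteDimensional ℚ ↥(F ⊔ B) := IntermediateField.finiteDimensional_sup F B
    have h1 : ∀ (D : IntermediateField ℚ ℂ) (_ : M ⊔ (F ⊔ B) = D) (hD : F ≤ D),
        IsGalois F (IntermediateField.extendScalars hD) := by
      intro D hD hD'
      subst hD
      exact BCH_thm.2 F M (F ⊔ B) hFM le_sup_left hD' hC.gM hb
    exact h1 _ e hM'
  have hdeg : ∃ a : ℕ, Module.finrank F (IntermediateField.extendScalars hM') = p ^ a := by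
    obtain ⟨a, ha⟩ := hC.degM
    have h2 := GCC.degM hM' hFM (le_sup_left : M ≤ M ⊔ B)
    have h3 : Module.finrank F (IntermediateField.extendScalars hM') ∣ p ^ (a + m) := by
      rw [← h2, ha, pow_add]
      exact mul_dvd_mul_left _ (Gal.base M B hB).2
    obtain ⟨j, -, hj⟩ := (Nat.dvd_prime_pow hpr).1 h3
    exact ⟨j, hj⟩
  exact
    { hK := hC.hK
      hM := hM'
      gK := hC.gK
      copK := hC.copK
      gM := hG
      degM := hdeg
      tc := hC.tc }

/-- Equal fields. -/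
theorem eq_of_eq {p : ℕ} [Fact p.Prime] {F K N' N : IntermediateField ℚ ℂ}
    [FiniteDimensional ℚ K] [FiniteDimensional ℚ N'] [FiniteDimensional ℚ N]
    (hC : C0 p F K N) (h₁ : F ≤ N') (h₂ : N' ≤ N) (he : K ⊔ N = K ⊔ N') : N = N' := by
  have hpr : p.Prime := Fact.out
  obtain ⟨a, ha⟩ := hC.degM
  have hN : N ≤ K ⊔ N' := by
    rw [← he]
    exact le_sup_right
  have e0 : N' = F ⊔ N' := (sup_eq_right.2 h₁).symm
  have d1 := (BCH_thm.1 F K N' N' (K ⊔ N') hC.hK le_sup_right e0 rfl hC.gK).2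
  have d2 := GCC.degM (le_sup_right : N' ≤ K ⊔ N') h₂ hN
  have d3 := GCC.degM hC.hM h₁ h₂
  rw [ha] at d3
  have d4 : Module.finrank N' (IntermediateField.extendScalars h₂) ∣
      Module.finrank F (IntermediateField.extendScalars hC.hK) :=
    (Dvd.intro _ d2).trans d1
  have d5 : Module.finrank N' (IntermediateField.extendScalars h₂) ∣ p ^ a :=
    Dvd.intro_left _ d3
  obtain ⟨j, -, hj⟩ := (Nat.dvd_prime_pow hpr).1 d5
  apply PTow.eq_of_one h₂
  rcases Nat.eq_zero_or_pos j with h0 | h0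
  · rw [hj, h0, pow_zero]
  · exfalso
    apply hC.copK
    refine (dvd_pow_self p h0.ne').trans ?_
    rw [← hj]
    exact d4

/-! ### The tower -/

/-- An automorphism over a larger field. -/
theorem transport {p m : ℕ} {F L A A' D D' : IntermediateField ℚ ℂ} (hF : F ≤ L) (e : A = D)
    (e' : A' = D') (h : L ≤ A') (h' : A ≤ A') (k : F ≤ D') (k' : D ≤ D') :
    (letI := algC h
    letI := algC h'
    ∃ g : A' ≃ₐ[L] A', g ^ (p ^ (m + 1)) = 1 ∧ (A' = A ∨ CycExt L A A' (g ^ (p ^ m)) p)) →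
    letI := algC k
    letI := algC k'
    D' = D ∨ ∃ g : D' ≃ₐ[F] D', g ^ (p ^ (m + 1)) = 1 ∧ CycExt F D D' (g ^ (p ^ m)) p := by
  subst e
  subst e'
  rintro ⟨g, hg, hor⟩
  rcases hor with h1 | h1
  · exact Or.inl h1
  · right
    let a1 : Algebra F L := algC hF
    let a2 : Algebra L A' := algC h
    let a3 : Algebra A A' := algC h'
    let a4 : Algebra F A' := algC k
    have t : IsScalarTower F L A' := towerC hF h
    let R : (A' ≃ₐ[L] A') →* (A' ≃ₐ[F] A') := AlgEquiv.restrictScalarsHom F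
    have hR : Function.Injective R := AlgEquiv.restrictScalarsHom_injective F
    refine ⟨R g, ?_, ?_, ?_⟩
    · rw [← map_pow, hg, map_one]
    · rw [← map_pow, orderOf_injective R hR]
      exact h1.ord
    · intro x
      rw [← map_pow]
      exact h1.fix x

/-! ### The norm -/

/-- The norm of `X` to the previous layer. -/
theorem norm_le {p q : ℕ} [Fact p.Prime] {F A L : Type} [Field F] [Field A] [NumberField A]
    [Field L] [NumberField L] [Algebra F L] [Algebra A L] (g : L ≃ₐ[F] L) (X : Subgroup (J L))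
    (XA : Subgroup (J A)) (h : ∀ b ∈ X, ∃ c ∈ XA, ext A L c = ng g q b) :
    padicValNat p ((_root_.MU3.PI L).relIndex (X.map (ng g q) ⊔ _root_.MU3.PI L)) ≤
      padicValNat p ((_root_.MU3.PI A).relIndex XA) := by
  classical
  let π : J L →* J L ⧸ _root_.MU3.PI L := QuotientGroup.mk' (_root_.MU3.PI L)
  let φ : J A →* J L ⧸ _root_.MU3.PI L := π.comp (ext A L)
  have hπ : π.ker = _root_.MU3.PI L := QuotientGroup.ker_mk' _
  have h1 : (_root_.MU3.PI L).relIndex (X.map (ng g q) ⊔ _root_.MU3.PI L) =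
      Nat.card ↥((X.map (ng g q)).map π) := by
    rw [← Subgroup.relIndex_bot_left ((X.map (ng g q)).map π), ← Subgroup.map_bot π,
      Subgroup.relIndex_map_map, hπ, bot_sup_eq]
  have h2 : (X.map (ng g q)).map π ≤ XA.map φ := by
    rintro _ ⟨_, ⟨b, hb, rfl⟩, rfl⟩
    obtain ⟨c, hc, he⟩ := h b hb
    exact ⟨c, hc, congrArg π he⟩
  have h3 : Nat.card ↥(XA.map φ) = φ.ker.relIndex XA := by
    rw [← Subgroup.relIndex_bot_left (XA.map φ), ← Subgroup.map_bot φ,
      Subgroup.relIndex_map_map, bot_sup_eq, Subgroup.relIndex_sup_right]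
  have h4 : _root_.MU3.PI A ≤ φ.ker := by
    rintro _ ⟨x, rfl⟩
    rw [MonoidHom.mem_ker]
    show π (ext A L (prin x)) = 1
    rw [ext_prin, ← MonoidHom.mem_ker, hπ]
    exact ⟨_, rfl⟩
  have h5 : φ.ker.relIndex XA ∣ (_root_.MU3.PI A).relIndex XA :=
    Subgroup.relIndex_dvd_of_le_left XA h4
  have hfin : (_root_.MU3.PI A).relIndex XA ≠ 0 := by
    intro h0
    have h6 : (_root_.MU3.PI A).index = 0 := by
      have h7 := Subgroup.relIndex_dvd_index_of_normal (_root_.MU3.PI A) XA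
      rw [h0] at h7
      exact Nat.eq_zero_of_zero_dvd h7
    have h8 : Finite (J A ⧸ _root_.MU3.PI A) := CL.finite_quot A
    have h9 : (_root_.MU3.PI A).FiniteIndex := Subgroup.finiteIndex_of_finite_quotient
    exact h9.index_ne_zero h6
  have h9 : (_root_.MU3.PI L).relIndex (X.map (ng g q) ⊔ _root_.MU3.PI L) ∣
      (_root_.MU3.PI A).relIndex XA := by
    rw [h1]
    refine (Subgroup.card_dvd_of_le h2).trans ?_
    rw [h3]
    exact h5
  exact (padicValNat_dvd_iff_le hfin).1 (pow_padicValNat_dvd.trans h9)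

/-- The step, the layers are different. -/
theorem step (hSTP : Se_STP) (p m : ℕ) [Fact p.Prime] (F K N' N : IntermediateField ℚ ℂ)
    [FiniteDimensional ℚ F] [FiniteDimensional ℚ K] [FiniteDimensional ℚ N']
    [FiniteDimensional ℚ N] (hC : C0 p F K N) (h₁ : F ≤ N') (h₂ : N' ≤ N)
    (hG : IsGalois F (IntermediateField.extendScalars h₁)) (h : F ≤ K ⊔ N')
    (h' : K ⊔ N' ≤ K ⊔ N) (hL : F ≤ K ⊔ N) :
    letI := algC h
    letI := algC h'
    letI := algC hL
    (∃ g : ↥(K ⊔ N) ≃ₐ[F] ↥(K ⊔ N), g ^ (p ^ (m + 1)) = 1 ∧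
      CycExt F ↥(K ⊔ N') ↥(K ⊔ N) (g ^ (p ^ m)) p) →
    rX p ↥(K ⊔ N) (XF F K N hL) < p ^ m * (p - 1) →
    vX p ↥(K ⊔ N) (XF F K N hL) ≤ vX p ↥(K ⊔ N') (XF F K N' h) +
      rX p ↥(K ⊔ N) (XF F K N hL) := by
  let aK := algC h
  let aKL := algC h'
  let aL := algC hL
  let tow := towerC h h'
  rintro ⟨g, hg, hcyc⟩ hlt
  have hcyc1 : CycExt F ↥(K ⊔ N') ↥(K ⊔ N) (g ^ (p ^ m)) (p ^ 1) := by
    rw [pow_one]
    exact hcyc
  have hS := te_SY0 p 1 F K N' N hC h₁ h₂ hG h h' (g ^ (p ^ m)) hcyc1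
  obtain ⟨-, -, -, -, -, hN⟩ := t_NUS
  obtain ⟨-, -, hP, hst⟩ := hN F ↥(K ⊔ N) (IntermediateField ℚ ℂ) [F]
    (fun E => NC hL (E ⊔ N)) hS.nrm
  have h3 := hSTP p m F ↥(K ⊔ N) g (XF F K N hL) hg hP (hst g) hlt
  refine h3.trans (Nat.add_le_add_right ?_ _)
  apply norm_le
  exact t_NRM t_CYC t_RES t_NUS F ↥(K ⊔ N') ↥(K ⊔ N) (IntermediateField ℚ ℂ) [F]
    (fun E => NC h (E ⊔ N')) (fun E => NC hL (E ⊔ N)) (g ^ (p ^ m)) p hcyc hS.mat hS.com

end TWR

theorem te_TWR (hSTP : Se_STP) (hIDX : Se_IDX) : Se_TWR := by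
  intro p _ F K M _ _ _ B _ hC hB hm n h hlt
  have hBB : B n ≤ B (n + 1) := hm (Nat.le_succ n)
  have h₂ : M ⊔ B n ≤ M ⊔ B (n + 1) := sup_le_sup_left hBB M
  have h' : K ⊔ (M ⊔ B n) ≤ K ⊔ (M ⊔ B (n + 1)) := sup_le_sup_left h₂ K
  have h₁ : F ≤ M ⊔ B n := hC.hM.trans le_sup_left
  have hA : F ≤ K ⊔ (M ⊔ B n) := hC.hK.trans le_sup_left
  have fdN : FiniteDimensional ℚ ↥(M ⊔ B n) := IntermediateField.finiteDimensional_sup M (B n)
  have fdN' : FiniteDimensional ℚ ↥(M ⊔ B (n + 1)) :=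
    IntermediateField.finiteDimensional_sup M (B (n + 1))
  have hC0 : C0 p F K (M ⊔ B n) := TWR.c0_layer hC (hB n)
  have hC1 : C0 p F K (M ⊔ B (n + 1)) := TWR.c0_layer hC (hB (n + 1))
  obtain ⟨m, hpm, hg⟩ := p_TOW p (K ⊔ M) B hB hm n le_sup_left (sup_le_sup_left hBB (K ⊔ M))
  have htr := TWR.transport (hC.hK.trans (le_sup_left : K ≤ K ⊔ M)) (sup_assoc K M (B n))
    (sup_assoc K M (B (n + 1))) le_sup_left (sup_le_sup_left hBB (K ⊔ M)) h h' hg
  rcases htr with he | hcyc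
  · have heN : M ⊔ B (n + 1) = M ⊔ B n := TWR.eq_of_eq hC1 h₁ h₂ he
    have e1 : padicValNat p (classNo (K ⊔ (M ⊔ B (n + 1)))) =
        padicValNat p (classNo (K ⊔ (M ⊔ B n))) := by
      simp only [heN]
    have e2 : padicValNat p (classNo (M ⊔ B (n + 1))) = padicValNat p (classNo (M ⊔ B n)) := by
      simp only [heN]
    rw [e1, e2]
    exact Nat.le_add_right _ _
  · have hr : rX p ↥(K ⊔ (M ⊔ B (n + 1))) (XF F K (M ⊔ B (n + 1)) h) < p ^ m * (p - 1) := by
      by_contra hcon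
      rw [not_lt] at hcon
      have hd : Module.finrank ℚ ↥(K ⊔ M) ≤ Module.finrank ℚ K * Module.finrank ℚ M :=
        IntermediateField.finrank_sup_le K M
      have h5 : p ^ n * (p - 1) ≤ rX p ↥(K ⊔ (M ⊔ B (n + 1))) (XF F K (M ⊔ B (n + 1)) h) *
          (Module.finrank ℚ K * Module.finrank ℚ M) := by
        calc p ^ n * (p - 1) ≤ p ^ m * Module.finrank ℚ ↥(K ⊔ M) * (p - 1) :=
              Nat.mul_le_mul_right _ hpm
          _ = p ^ m * (p - 1) * Module.finrank ℚ ↥(K ⊔ M) := by ring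
          _ ≤ _ := Nat.mul_le_mul hcon hd
      exact absurd hlt (not_lt.2 h5)
    have h6 := TWR.step hSTP p m F K (M ⊔ B n) (M ⊔ B (n + 1)) hC1 h₁ h₂ hC0.gM hA h' h hcyc hr
    have i0 := hIDX p F K (M ⊔ B n) hC0 hA
    have i1 := hIDX p F K (M ⊔ B (n + 1)) hC1 h
    omega

end Pool.Agent.OTE
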