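import Pool.Agent.OT.StHB
import Pool.Agent.OT.H2P
import Pool.Agent.TWB.DPL

/-!
# OT, block HB, module GEN: the Fourier coefficients at the exponents of the wrong genus vanish
-/

set_option autoImplicit false

namespace Pool.Agent.OT

open _root_.MU3 _root_.Pool.Agent.MU3A _root_.Pool.Agent.MU3B _root_.Pool.Agent.MU3F OnePoint
open _root_.Pool.Agent.OB _root_.Pool.Agent.OBH
open scoped ComplexConjugate

noncomputable section

namespace GEN

open _root_.Pool.Agent.MUXF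

lemma geo {M : ℕ} (hM : M ≠ 0) (k : ℤ) (h : ¬ (M : ℤ) ∣ k) :
    ∑ j ∈ Finset.range M, ex ((k : ℚ) / M) ^ j = 0 := by
  have hM0 : (M : ℂ) ≠ 0 := Nat.cast_ne_zero.2 hM
  have h1 : ex ((k : ℚ) / M) ^ M = 1 := by
    unfold ex
    rw [← Complex.exp_nat_mul, Complex.exp_eq_one_iff]
    refine ⟨k, ?_⟩
    push_cast
    field_simp
  have h2 : ex ((k : ℚ) / M) ≠ 1 := by
    intro h3
    unfold ex at h3
    rw [Complex.exp_eq_one_iff] at h3
    obtain ⟨n, hn⟩ := h3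
    have hpi : (2 * Real.pi * Complex.I : ℂ) ≠ 0 := Complex.two_pi_I_ne_zero
    have h4 : (k : ℂ) = (M : ℂ) * n := by
      push_cast at hn
      rw [mul_comm (n : ℂ)] at hn
      have h5 := mul_left_cancel₀ hpi hn
      field_simp at h5
      rw [h5]
    exact h ⟨n, by exact_mod_cast h4⟩
  have h3 := mul_neg_geom_sum (ex ((k : ℚ) / M)) M
  rw [h1, sub_self] at h3
  rcases mul_eq_zero.1 h3 with h4 | h4
  · exact absurd (sub_eq_zero.1 h4).symm h2
  · exact h4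

lemma ex_z (M : ℕ) (m : ℤ) : ex (-1 / (M : ℚ)) ^ m = ex (((-m : ℤ) : ℚ) / M) := by
  unfold ex
  rw [← Complex.exp_int_mul]
  congr 1
  push_cast
  ring

/-- the theta series -/
lemma theta (A B : ℤ) (hc : _root_.Pool.Agent.MUXF.CQ A B) (b g : Ideal (OO A B))
    (e : OO A B → ℂ) (hb : b ≠ ⊥) (hg : g ≠ ⊥) (he : _root_.Pool.Agent.MUXF.IsEI g e) (M : ℕ)
    (hM : M ≠ 0) (m : ℤ) (hq : ∀ x ∈ b, e x ≠ 0 → ¬ (M : ℤ) ∣ qb b x - m) (z : ℂ)
    (hz : 0 < z.im) :
    ∑ j ∈ Finset.range M, (ex (-1 / (M : ℚ)) ^ m) ^ j *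
        _root_.Pool.Agent.MUXF.thetaI b e (z + (j : ℂ) / M) = 0 := by
  obtain ⟨-, -, -, hfin, -⟩ := xf_ALG A B hc
  obtain ⟨hQ1, -, -⟩ := xf_QB A B hc b hb
  obtain ⟨-, C, -, hC⟩ := xf_BDD A B hc g e hg he
  have hS := xf_TSM A B hc b hb e C hC
  have hnb : nI b ≠ 0 := by
    have := hfin b hb
    exact (Nat.card_pos (α := OO A B ⧸ b)).ne'
  have hnb0 : (nI b : ℂ) ≠ 0 := Nat.cast_ne_zero.2 hnb
  have hM0 : (M : ℂ) ≠ 0 := Nat.cast_ne_zero.2 hM
  have him : ∀ j : ℕ, 0 < (z + (j : ℂ) / M).im := by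
    intro j
    have : ((j : ℂ) / M).im = 0 := by
      rw [show ((j : ℂ) / M) = (((j : ℝ) / M : ℝ) : ℂ) by push_cast; rfl]
      exact Complex.ofReal_im _
    rw [Complex.add_im, this, add_zero]
    exact hz
  have hnm : ∀ x : b, ((nm (x : OO A B) : ℂ) / nI b) = ((qb b (x : OO A B) : ℤ) : ℂ) := by
    intro x
    rw [(hQ1 x x.2).1]
    push_cast
    field_simp
  have hterm : ∀ x : b, ∑ j ∈ Finset.range M, (ex (-1 / (M : ℚ)) ^ m) ^ j *
      (e x * conj (emb (x : OO A B)) *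
        Complex.exp (2 * Real.pi * Complex.I * ((nm (x : OO A B) : ℂ) / nI b) *
          (z + (j : ℂ) / M))) = 0 := by
    intro x
    by_cases hx : e x = 0
    · refine Finset.sum_eq_zero fun j _ => ?_
      rw [hx]
      ring
    have h2 : ∀ j ∈ Finset.range M, (ex (-1 / (M : ℚ)) ^ m) ^ j *
      (e x * conj (emb (x : OO A B)) *
        Complex.exp (2 * Real.pi * Complex.I * ((nm (x : OO A B) : ℂ) / nI b) *
          (z + (j : ℂ) / M))) =
        (e x * conj (emb (x : OO A B)) *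
        Complex.exp (2 * Real.pi * Complex.I * ((nm (x : OO A B) : ℂ) / nI b) * z)) *
        ex (((qb b (x : OO A B) - m : ℤ) : ℚ) / M) ^ j := by
      intro j _
      have h3 : Complex.exp (2 * Real.pi * Complex.I * ((nm (x : OO A B) : ℂ) / nI b) *
          (z + (j : ℂ) / M)) =
          Complex.exp (2 * Real.pi * Complex.I * ((nm (x : OO A B) : ℂ) / nI b) * z) *
          ex (((qb b (x : OO A B) : ℤ) : ℚ) / M) ^ j := by
        unfold ex
        rw [← Complex.exp_nat_mul, ← Complex.exp_add, hnm x]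
        congr 1
        push_cast
        field_simp
      have h4 : ex (((qb b (x : OO A B) - m : ℤ) : ℚ) / M) =
          ex (-1 / (M : ℚ)) ^ m * ex (((qb b (x : OO A B) : ℤ) : ℚ) / M) := by
        rw [ex_z]
        unfold ex
        rw [← Complex.exp_add]
        congr 1
        push_cast
        ring
      rw [h3, h4, mul_pow]
      ring
    rw [Finset.sum_congr rfl h2, ← Finset.mul_sum, geo hM _ (hq x x.2 hx), mul_zero]
  unfold _root_.Pool.Agent.MUXF.thetaI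
  have h4 : ∀ c ∈ Finset.range M, (ex (-1 / (M : ℚ)) ^ m) ^ c * (1 / 2 * ∑' x : b, e x *
      (starRingEnd ℂ) (emb (x : OO A B)) *
      Complex.exp (2 * Real.pi * Complex.I * ((nm (x : OO A B) : ℂ) / nI b) *
        (z + (c : ℂ) / M))) =
      1 / 2 * ∑' x : b, (ex (-1 / (M : ℚ)) ^ m) ^ c * (e x *
      (starRingEnd ℂ) (emb (x : OO A B)) *
      Complex.exp (2 * Real.pi * Complex.I * ((nm (x : OO A B) : ℂ) / nI b) *
        (z + (c : ℂ) / M))) := fun c _ => by rw [tsum_mul_left]; ring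
  rw [Finset.sum_congr rfl h4, ← Finset.mul_sum,
    ← Summable.tsum_finsetSum (fun c _ => (hS _ (him c)).mul_left _), tsum_congr hterm, tsum_zero,
    mul_zero]

/-- the integrals -/
lemma iv (A B : ℤ) (hc : _root_.Pool.Agent.MUXF.CQ A B) (b g : Ideal (OO A B))
    (e : OO A B → ℂ) (hb : b ≠ ⊥) (hg : g ≠ ⊥) (he : _root_.Pool.Agent.MUXF.IsEI g e) (M : ℕ)
    (hM : M ≠ 0) (m : ℤ) (hq : ∀ x ∈ b, e x ≠ 0 → ¬ (M : ℤ) ∣ qb b x - m) (r : ℚ) :
    ∑ j ∈ Finset.range M, (ex (-1 / (M : ℚ)) ^ m) ^ j *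
        _root_.Pool.Agent.MUXF.IvI b e (r + (j : ℚ) / M) = 0 := by
  have h1 : ∀ j ∈ Finset.range M, MeasureTheory.IntegrableOn
      (fun t : ℝ => (ex (-1 / (M : ℚ)) ^ m) ^ j *
        thetaI b e (((r + (j : ℚ) / M : ℚ) : ℂ) + t * Complex.I)) (Set.Ioi 0) :=
    fun j _ => (xf_ITG A B hc b g e hb hg he _).const_mul _
  have h2 : ∫ t in Set.Ioi (0 : ℝ), ∑ j ∈ Finset.range M,
      (ex (-1 / (M : ℚ)) ^ m) ^ j *
      thetaI b e (((r + (j : ℚ) / M : ℚ) : ℂ) + t * Complex.I) =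
      ∫ t in Set.Ioi (0 : ℝ), (0 : ℂ) := by
    refine MeasureTheory.setIntegral_congr_fun measurableSet_Ioi fun t ht => ?_
    have ht0 : (0 : ℝ) < t := ht
    have hz : 0 < ((r : ℂ) + t * Complex.I).im := by
      simpa using ht0
    have h3 := theta A B hc b g e hb hg he M hM m hq _ hz
    refine Eq.trans ?_ h3
    refine Finset.sum_congr rfl fun j _ => ?_
    congr 2
    push_cast
    ring
  rw [MeasureTheory.integral_finsetSum _ h1, MeasureTheory.integral_zero] at h2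
  unfold _root_.Pool.Agent.MUXF.IvI
  have h4 : ∀ (g t : ℂ), g * (-(2 * Real.pi) * t) = -(2 * Real.pi) * (g * t) := fun g t => by ring
  have h5 : ∀ j ∈ Finset.range M, (ex (-1 / (M : ℚ)) ^ m) ^ j * (-(2 * Real.pi) *
      ∫ t in Set.Ioi (0 : ℝ), thetaI b e (((r + (j : ℚ) / M : ℚ) : ℂ) + t * Complex.I)) =
      -(2 * Real.pi) * ∫ t in Set.Ioi (0 : ℝ), (ex (-1 / (M : ℚ)) ^ m) ^ j *
        thetaI b e (((r + (j : ℚ) / M : ℚ) : ℂ) + t * Complex.I) := by
    intro j _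
    rw [h4, MeasureTheory.integral_const_mul]
  rw [Finset.sum_congr rfl h5, ← Finset.mul_sum, h2, mul_zero]

end GEN

/-- **GEN.** -/
theorem ob_GEN (hQ : So_QBO) : Ob_GEN := by
  intro p A B P V f hS e he b hb n m hm hJ x
  have hp := hS.pp
  have hM : p ^ (n + 1) ≠ 0 := pow_ne_zero _ hp.ne_zero
  have hcq := _root_.Pool.Agent.MUXHY.toCQ hS.cq
  have hg : MUX.idl (A := A) (B := B) (p * f) ≠ ⊥ := by
    have h1 : ((p * f : ℕ) : OO A B) ∈ MUX.idl (A := A) (B := B) (p * f) :=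
      Ideal.mem_span_singleton_self _
    intro h2
    rw [h2, Ideal.mem_bot] at h1
    have h3 := congrArg QuadraticAlgebra.re h1
    rw [QuadraticAlgebra.re_natCast, QuadraticAlgebra.re_zero] at h3
    exact mul_ne_zero hp.ne_zero hS.f0 (by exact_mod_cast h3)
  have hgcd : ∀ k : ℤ, ¬ (p : ℤ) ∣ k → jacobiSym k p ≠ 0 := by
    intro k hk h0
    have h1 := (jacobiSym.eq_zero_iff.1 h0).2
    apply h1
    rw [Int.gcd_comm, Int.gcd_eq_natAbs, Int.natAbs_natCast]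
    exact (Nat.Prime.coprime_iff_not_dvd hp).2 fun h2 => hk (Int.natCast_dvd.2 h2)
  have hq : ∀ y ∈ b, e y ≠ 0 → ¬ ((p ^ (n + 1) : ℕ) : ℤ) ∣ MUXF.qb b y - m := by
    intro y hy hey hd
    obtain ⟨-, h1, h2⟩ := hQ p 2 A B P V f hS e he b hb y hy hey
    obtain ⟨-, h3⟩ := h2 rfl
    have h4 : (p : ℤ) ∣ MUXF.qb b y - m := by
      refine dvd_trans ?_ hd
      push_cast
      exact dvd_pow_self _ (Nat.succ_ne_zero n)
    have h5 : jacobiSym (MUXF.qb b y) p = jacobiSym m p := by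
      rw [jacobiSym.mod_left (MUXF.qb b y) p, jacobiSym.mod_left m p,
        Int.emod_eq_emod_iff_emod_sub_eq_zero.2 (Int.emod_eq_zero_of_dvd h4)]
    apply hJ
    rw [jacobiSym.mul_left, ← h3, h5, ← jacobiSym.mul_left, ← sq]
    rw [jacobiSym.pow_left]
    have h6 := jacobiSym.trichotomy m p
    rcases h6 with h6 | h6 | h6
    · exact absurd h6 (hgcd m hm)
    · rw [h6]; norm_num
    · rw [h6]; norm_num
  have h1 := GEN.iv A B hcq b (MUX.idl (A := A) (B := B) (p * f)) e hb hg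
    (_root_.Pool.Agent.MUXHY.toEI he) (p ^ (n + 1)) hM m hq x
  rw [H2.Yh_coe _ hM]
  have h2 : ∀ q : ℚ, _root_.Pool.Agent.MUX.PhiI b e ∞ (q : OnePoint ℚ) =
      - _root_.Pool.Agent.MUXF.IvI b e q := by
    intro q
    change _root_.Pool.Agent.MUX.IcI b e ∞ - _root_.Pool.Agent.MUX.IcI b e (q : OnePoint ℚ) = _
    change (0 : ℂ) - _root_.Pool.Agent.MUXF.IvI b e q = _
    rw [zero_sub]
  simp only [h2, mul_neg, Finset.sum_neg_distrib]
  rw [neg_eq_zero]
  exact h1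

end

end Pool.Agent.OT
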