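import Pool.Agent.OT.StHB

/-!
# OT, block HB: the field `nd` of `HypT` for `QT` (module ND, helper52)
-/

set_option autoImplicit false

namespace Pool.Agent.OT

open _root_.MU3 _root_.Pool.Agent.MU3A _root_.Pool.Agent.MU3B _root_.Pool.Agent.MU3F
  _root_.Pool.Agent.MUX _root_.Pool.Agent.MuSym _root_.Pool.Agent.OB _root_.Pool.Agent.OBH OnePoint

noncomputable section

namespace ND

lemma QT_one {A B : ℤ} {n : ℕ} {ι : Type} [Fintype ι] (p : ℕ) (R : Reps A B n ι)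
    (e : OO A B → ℂ) (kk : ι → ℂ) (s u : ℂ) (z₀ : ℤ) :
    QT 1 p R e kk s u z₀ 0 = sgnPart s (fun x y => PhiK R e kk x y / (u * R.om R.i0)) := by
  funext x y
  have h : ∀ d : ℤ, kkE 1 p R kk d = kk := fun d => if_pos rfl
  unfold QT sgnPart
  rw [h, h]
  ring

lemma QT_two {A B : ℤ} {n : ℕ} {ι : Type} [Fintype ι] (p : ℕ) (R : Reps A B n ι)
    (e : OO A B → ℂ) (kk : ι → ℂ) (s u : ℂ) (z₀ : ℤ) :
    QT 2 p R e kk s u z₀ 0 = QR p R e kk s u := by
  funext x y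
  have h : ∀ d : ℤ, kkE 2 p R kk d = kkJ p R kk d := fun d => if_neg (by norm_num)
  unfold QT QR
  rw [h, h, pow_zero]

end ND

open ND in
/-- (ND) closed cycles of all levels on which the Fourier coefficients of `QT 0` are not small -/
theorem ob_ND (h1 : OTH.S_NDN) (h2 : OTH.S_NDR) (h3 : So_HQ1) (h4 : So_HQ2) (h5 : So_REL)
    (h6 : So_RAM) : Ob_ND := by
  intro p er A B P V f hS hT ι _ R u el lam hg w hw e he r hrp her i hi1 hi2 hty s hs kk hkk z₀ n
    hn ξ hξ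
  obtain ⟨s', hs', rfl⟩ : ∃ s' : ℤ, (s' = 1 ∨ s' = -1) ∧ (s' : ℂ) = s := by
    rcases hs with rfl | rfl
    · exact ⟨1, Or.inl rfl, by norm_num⟩
    · exact ⟨-1, Or.inr rfl, by norm_num⟩
  have pp : p.Prime := hS.pp
  have p5 : 5 ≤ p := hS.p5
  obtain ⟨r1, -, r3⟩ := h6 p er A B P V hS.toCaseO
  rcases hS.ram with ⟨rfl, -⟩ | ⟨rfl, -⟩
  · rw [one_mul] at hi1
    obtain ⟨pi, KI, hyp, hdep, hKI, hpi⟩ := h3 p A B P V f hS hT ι R u el lam hg w hw e he r hrp
      her i hi1 hi2 hty s' hs' kk hkk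
    rw [QT_one]
    have hle : nI P ≤ p ^ 2 := by
      rcases r1 with h | h
      · rw [h, pow_two]
        exact Nat.le_mul_self p
      · exact h.le
    have hge : p ≤ nI P := by
      rcases r1 with h | h
      · exact h.ge
      · rw [h, pow_two]
        exact Nat.le_mul_self p
    refine h1 p V (N0O p 1 A B f) 1 (nI P - 1) i (nuX e) _ pi KI hyp hdep hKI hi1 (by omega) ?_
      hpi n hn ξ hξ
    have h7 : p ^ 2 ≤ (p - 1) * p ^ 2 := Nat.le_mul_of_pos_left _ (by omega)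
    omega
  · obtain ⟨hP, -, -⟩ := r3 rfl
    rw [hP] at hi1 hi2
    have hi3 : 2 ≤ i := Nat.le_of_mul_le_mul_right hi1 (by omega)
    have hi4 : i < p - 1 := by omega
    obtain ⟨pi, KI, hyp, hKI, hpi⟩ := h4 p A B P V f hS hT ι R u el lam hg w hw e he r hrp
      her i hi3 hi4 hty s' hs' kk hkk
    rw [QT_two]
    exact h2 p V (N0O p 2 A B f) 2 i (nuX e) _ pi KI (Complex.exp (2 * Real.pi * Complex.I / p)) hyp
      (Complex.isPrimitiveRoot_exp p pp.ne_zero)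
      (fun x => h5 p A B P V f hS ι R e he kk (s' : ℂ) u x) hKI hi3 hi4 hpi n hn ξ hξ

end

end Pool.Agent.OT
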