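import Pool.Agent.OT.StHB

/-!
# OT, block HB (helper31): `Ob_SGE`, the sums `SG` under `c ↦ z₀ c`
-/

set_option autoImplicit false

namespace Pool.Agent.OT

open _root_.MU3 _root_.Pool.Agent.MU3A _root_.Pool.Agent.MU3B _root_.Pool.Agent.MU3F
  _root_.Pool.Agent.MUX _root_.Pool.Agent.MuSym _root_.Pool.Agent.OB _root_.Pool.Agent.OBH OnePoint

namespace SGE

variable {A B : ℤ} {n' : ℕ} {ι : Type}

lemma SnX_per (R : Reps A B n' ι) (m M : ℕ) (e : OO A B → ℂ) (i : ι) (c c' : ℤ)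
    (h : (M : ℤ) ∣ c - c') : SnX R m M e i c = SnX R m M e i c' := by
  unfold SnX
  congr 2
  funext x
  have h1 : ((M : ℤ) ∣ nm x * nI (R.b i) - c) ↔ ((M : ℤ) ∣ nm x * nI (R.b i) - c') := by
    constructor
    · intro h2
      have := dvd_add h2 h
      rwa [show nm x * (nI (R.b i) : ℤ) - c + (c - c') = nm x * nI (R.b i) - c' by ring] at this
    · intro h2
      have := dvd_sub h2 h
      rwa [show nm x * (nI (R.b i) : ℤ) - c' - (c - c') = nm x * nI (R.b i) - c by ring] at this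
  simp only [h1]

lemma STX_per [Fintype ι] (R : Reps A B n' ι) (m M a : ℕ) (e : OO A B → ℂ) (kk : ι → ℂ) (c c' : ℤ)
    (h : (M : ℤ) ∣ c - c') : STX R m M a e kk c = STX R m M a e kk c' := by
  unfold STX
  refine Finset.sum_congr rfl fun i _ => ?_
  rw [SnX_per R m M e i c c' h, SnX_per R m M e i ((a : ℤ) ^ 2 * c) ((a : ℤ) ^ 2 * c') (by
    rw [← mul_sub]
    exact Dvd.dvd.mul_left h _)]

lemma SG_per [Fintype ι] (p : ℕ) (R : Reps A B n' ι) (m M a : ℕ) (e : OO A B → ℂ) (kk : ι → ℂ)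
    (t : ℤ → ℂ) (z₀ c c' : ℤ) (h : (M : ℤ) ∣ c - c') :
    SG p R m M a e kk t z₀ c = SG p R m M a e kk t z₀ c' := by
  unfold SG
  refine Finset.sum_congr rfl fun k _ => ?_
  rw [STX_per R m M a e kk (z₀ ^ k * c) (z₀ ^ k * c') (by
    rw [← mul_sub]
    exact Dvd.dvd.mul_left h _)]

end SGE

open SGE in
/-- (SGE) the sums `SG` under `c ↦ z₀ c` -/
theorem ob_SGE : Ob_SGE := by
  intro p n z₀ t q A B n' ι _ R m a e kk hp hz ht hq
  have hp1 : 1 ≤ p - 1 := by have := hp.two_le; omega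
  have hq0 : q ≠ 0 := by
    rintro rfl
    exact hq (dvd_zero p)
  have hzp : ¬ (p : ℤ) ∣ z₀ := by
    intro h1
    have h2 : (p : ℤ) ∣ ((p ^ (n + 1) : ℕ) : ℤ) := by
      push_cast
      exact dvd_pow_self _ (Nat.succ_ne_zero n)
    have h3 := h2.trans hz.one
    have h4 : (p : ℤ) ∣ z₀ ^ (p - 1) := dvd_pow h1 (by omega)
    have h5 : (p : ℤ) ∣ 1 := by
      have := dvd_sub h4 h3
      rwa [sub_sub_cancel] at this
    have h6 : p ∣ 1 := by exact_mod_cast h5
    exact hp.one_lt.ne' (Nat.dvd_one.1 h6)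
  have htpow : ∀ k : ℕ, t (z₀ ^ k) = t z₀ ^ k := by
    intro k
    induction k with
    | zero => rw [pow_zero, pow_zero, ht.one]
    | succ k ih => rw [pow_succ, ht.mul, ih, pow_succ]
  have hlast : t z₀ ^ (p - 1) = 1 := by
    rw [← htpow, ht.per (z₀ ^ (p - 1)) 1 ?_, ht.one]
    refine dvd_trans ?_ hz.one
    push_cast
    exact dvd_pow_self _ (Nat.succ_ne_zero n)
  have step : ∀ c : ℤ, t z₀ * SG p R m (p ^ (n + 1)) a e kk t z₀ (z₀ * c) =
      SG p R m (p ^ (n + 1)) a e kk t z₀ c := by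
    intro c
    unfold SG
    rw [Finset.mul_sum]
    have h1 : ∀ k ∈ Finset.range (p - 1),
        t z₀ * (t (z₀ ^ k) * STX R m (p ^ (n + 1)) a e kk (z₀ ^ k * (z₀ * c))) =
          t (z₀ ^ (k + 1)) * STX R m (p ^ (n + 1)) a e kk (z₀ ^ (k + 1) * c) := by
      intro k _
      rw [htpow, htpow, pow_succ (t z₀) k, pow_succ z₀ k, mul_assoc (z₀ ^ k) z₀ c]
      ring
    rw [Finset.sum_congr rfl h1]
    have h2 := Finset.sum_range_succ' (fun k => t (z₀ ^ k) *
      STX R m (p ^ (n + 1)) a e kk (z₀ ^ k * c)) (p - 1)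
    have h3 := Finset.sum_range_succ (fun k => t (z₀ ^ k) *
      STX R m (p ^ (n + 1)) a e kk (z₀ ^ k * c)) (p - 1)
    have h4 : STX R m (p ^ (n + 1)) a e kk (z₀ ^ (p - 1) * c) =
        STX R m (p ^ (n + 1)) a e kk (z₀ ^ 0 * c) := by
      apply STX_per
      rw [← sub_mul, pow_zero]
      exact Dvd.dvd.mul_right hz.one _
    have h5 : t (z₀ ^ (p - 1)) = t (z₀ ^ 0) := by rw [htpow, htpow, hlast, pow_zero]
    rw [h3] at h2
    rw [h4, h5] at h2
    exact (add_right_cancel h2).symm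
  refine ⟨fun c c' h => SG_per p R m _ a e kk t z₀ c c' h, ?_, ?_⟩
  · exact ht.pow z₀ hzp
  · intro c j
    induction j with
    | zero => rw [pow_zero, pow_zero, one_mul, one_mul]
    | succ j ih =>
      rw [pow_succ (t z₀), mul_assoc]
      have := step (z₀ ^ j * c)
      rw [show z₀ ^ (j + 1) * c = z₀ * (z₀ ^ j * c) by ring]
      rw [this]
      exact ih

end Pool.Agent.OT
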