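import Pool.Agent.OT.StH

/-!
# OT, block H: module NDR (helper11)
-/

set_option autoImplicit false

namespace Pool.Agent.OTH

open _root_.MU3 Pool.Agent.MuSym Pool.Agent.MUXH OnePoint Pool.Agent.OBH Pool.Agent.OT

noncomputable section

namespace NDR

lemma mob_inf (a b d : ℤ) : mob a b 0 d (∞ : OnePoint ℚ) = ∞ := by
  unfold mob
  rw [OnePoint.elim_infty]
  simp

lemma mob_coe (M b : ℤ) (hM : M ≠ 0) (x : ℚ) :
    mob M b 0 M (x : OnePoint ℚ) = ((x + (b : ℚ) / (M : ℚ) : ℚ) : OnePoint ℚ) := by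
  have hM' : (M : ℚ) ≠ 0 := by exact_mod_cast hM
  unfold mob
  rw [OnePoint.elim_some]
  have h1 : ¬ (((0 : ℤ) : ℚ) * x + (M : ℚ) = 0) := by simpa using hM'
  rw [if_neg h1]
  congr 1
  rw [show ((0 : ℤ) : ℚ) * x + (M : ℚ) = M by simp, add_div, mul_div_cancel_left₀ _ hM']

lemma mob_one (t : ℤ) (x : ℚ) : mob 1 t 0 1 (x : OnePoint ℚ) = ((x + t : ℚ) : OnePoint ℚ) := by
  rw [mob_coe 1 t one_ne_zero]
  congr 1
  push_cast
  ring

lemma sym_per {N : ℕ} {nu : ℤ → ℂ} {Q : OnePoint ℚ → OnePoint ℚ → ℂ} (h : IsSym N nu Q)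
    (h1 : nu 1 = 1) (x : ℚ) (t : ℤ) : Q ∞ ((x + t : ℚ) : OnePoint ℚ) = Q ∞ (x : OnePoint ℚ) := by
  have e := h.equiv 1 t 0 1 (by ring) (dvd_zero _) ∞ (x : OnePoint ℚ)
  rw [mob_inf, mob_one, h1, one_mul] at e
  exact e

/-- shift of a sum over a period -/
lemma shift (M : ℕ) (F : ℤ → ℂ) (h : ∀ b, F (b + M) = F b) (k : ℕ) :
    ∑ b ∈ Finset.range M, F (b + k) = ∑ b ∈ Finset.range M, F b := by
  induction k with
  | zero => simp
  | succ k ih =>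
    rw [← ih]
    have h1 := Finset.sum_range_succ (fun b : ℕ => F ((b : ℤ) + k)) M
    have h2 := Finset.sum_range_succ' (fun b : ℕ => F ((b : ℤ) + k)) M
    rw [h1] at h2
    have h3 : F ((M : ℤ) + k) = F (((0 : ℕ) : ℤ) + k) := by
      have h5 := h k
      rw [add_comm (M : ℤ), h5]
      congr 1
      push_cast
      ring
    rw [h3] at h2
    have h4 := add_right_cancel h2
    rw [h4]
    refine Finset.sum_congr rfl fun b _ => ?_
    congr 1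
    push_cast
    ring

end NDR

open NDR in
/-- (NDR) -/
theorem h_NDR (h1 : S_VX) (h2 : So_DVR) (h4 : So_FAC) (h3 : So_TYP) : S_NDR := by
  intro p V N₀ s₀ i nu Q pi KI om H hom hrel hunr hi1 hi2 hvpi n hn ξ hξ N' hN' hNN'
  have hp := H.pp
  have hp3 : 3 ≤ p := by
    have := hp.two_le
    have := H.p2
    omega
  have hp0 : p ≠ 0 := hp.ne_zero
  have hpq : (p : ℚ) ≠ 0 := by exact_mod_cast hp0
  have hpC : (p : ℂ) ≠ 0 := by exact_mod_cast hp0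
  have hvp0 : V.valuation (p : ℂ) ≠ 0 := (V.valuation.ne_zero_iff).2 hpC
  obtain ⟨α, β, γ, δ, hdet, hγ, hδ, hv⟩ := H.G N' hN' hNN'
  -- the end of the cycle is finite
  obtain ⟨x₀, hx₀⟩ : ∃ x₀ : ℚ, mob α β γ δ ∞ = (x₀ : OnePoint ℚ) := by
    have hne : mob α β γ δ ∞ ≠ ∞ := by
      intro hcon
      rw [hcon] at hv
      have e1 : PT p Q ∞ ∞ = 0 := by
        unfold PT
        rw [mob_inf, sub_self]
      have hpos : (p - 1) * p ^ 2 ≠ 0 := by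
        have := pow_pos hp.pos 2
        have : 0 < p - 1 := by omega
        positivity
      rw [e1, map_zero, zero_pow hpos] at hv
      exact hvp0 (le_zero_iff.1 hv)
    obtain ⟨x, hx⟩ := OnePoint.ne_infty_iff_exists.1 hne
    exact ⟨x, hx.symm⟩
  rw [hx₀] at hv
  have hp3Z : ((p : ℤ) ^ 3) ≠ 0 := pow_ne_zero _ (by exact_mod_cast hp0)
  have hMZ : ((p ^ (n + 1) : ℕ) : ℤ) ≠ 0 := by exact_mod_cast pow_ne_zero (n + 1) hp0
  have hMq : ((p : ℚ) ^ (n + 1)) ≠ 0 := pow_ne_zero _ hpq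
  let z : ℤ → ℂ := fun b => Q ∞ ((x₀ + (b : ℚ) / (p : ℚ) ^ (n + 1) : ℚ) : OnePoint ℚ)
  obtain ⟨k, hk⟩ : ∃ k : ℕ, k = p ^ (n - 2) := ⟨_, rfl⟩
  let y : ℤ → ℂ := fun b => z b - z (b + k)
  have hn3 : (p : ℚ) ^ (n + 1) = (p : ℚ) ^ 3 * (k : ℚ) := by
    rw [hk]
    push_cast
    rw [← pow_add]
    congr 1
    omega
  have hkq : (k : ℚ) ≠ 0 := by
    rw [hk]
    exact_mod_cast pow_ne_zero (n - 2) hp0
  have hy0 : PT p Q ∞ (x₀ : OnePoint ℚ) = y 0 := by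
    unfold PT
    rw [mob_inf, mob_coe _ _ hp3Z]
    show _ = Q ∞ ((x₀ + ((0 : ℤ) : ℚ) / (p : ℚ) ^ (n + 1) : ℚ) : OnePoint ℚ) -
      Q ∞ ((x₀ + ((0 + (k : ℤ) : ℤ) : ℚ) / (p : ℚ) ^ (n + 1) : ℚ) : OnePoint ℚ)
    have e1 : (x₀ + ((0 : ℤ) : ℚ) / (p : ℚ) ^ (n + 1) : ℚ) = x₀ := by simp
    have e2 : (x₀ + ((0 + (k : ℤ) : ℤ) : ℚ) / (p : ℚ) ^ (n + 1) : ℚ) =
        x₀ + ((1 : ℤ) : ℚ) / (((p : ℤ) ^ 3 : ℤ) : ℚ) := by
      rw [hn3]
      push_cast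
      rw [zero_add]
      congr 1
      field_simp
    rw [e1, e2]
  rw [hy0] at hv
  have hzper : ∀ b c : ℤ, (p : ℤ) ^ (n + 1) ∣ b - c → z b = z c := by
    rintro b c ⟨t, ht⟩
    have e : (x₀ + (b : ℚ) / (p : ℚ) ^ (n + 1) : ℚ) = x₀ + (c : ℚ) / (p : ℚ) ^ (n + 1) + t := by
      have : (b : ℚ) = c + (p : ℚ) ^ (n + 1) * t := by
        have : (b : ℤ) = c + (p : ℤ) ^ (n + 1) * t := by linear_combination ht
        exact_mod_cast this
      rw [this, add_div, mul_div_cancel_left₀ _ hMq]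
      ring
    change Q ∞ ((x₀ + (b : ℚ) / (p : ℚ) ^ (n + 1) : ℚ) : OnePoint ℚ) =
      Q ∞ ((x₀ + (c : ℚ) / (p : ℚ) ^ (n + 1) : ℚ) : OnePoint ℚ)
    rw [e]
    exact sym_per H.sym H.nu1 _ t
  have hyper : ∀ b c : ℤ, (p : ℤ) ^ (n + 1) ∣ b - c → y b = y c := by
    intro b c hbc
    show z b - z (b + k) = z c - z (c + k)
    rw [hzper b c hbc, hzper (b + k) (c + k) (by
      have : b + (k : ℤ) - (c + k) = b - c := by ring
      rwa [this])]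
  have hytyp : ∀ b, ∃ w ∈ KI, y b = pi * w := by
    intro b
    obtain ⟨w, hw, ew⟩ := H.typ ∞ ((x₀ + (b : ℚ) / (p : ℚ) ^ (n + 1) : ℚ) : OnePoint ℚ)
    obtain ⟨w', hw', ew'⟩ := H.typ ∞
      ((x₀ + ((b + k : ℤ) : ℚ) / (p : ℚ) ^ (n + 1) : ℚ) : OnePoint ℚ)
    refine ⟨w - w', sub_mem hw hw', ?_⟩
    show z b - z (b + k) = _
    rw [mul_sub, ← ew, ← ew']
  -- the value at `0`
  obtain ⟨w₀, hw₀, ew₀⟩ := hytyp 0
  have hv1 : 1 ≤ V.valuation (y 0) := by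
    rw [ew₀] at hv ⊢
    exact H.gap w₀ hw₀ hv
  have hy00 : y 0 ≠ 0 := by
    intro h
    rw [h, map_zero] at hv1
    exact absurd hv1 (not_le.2 zero_lt_one)
  -- the Gauss sum
  obtain ⟨G, hG⟩ : ∃ G : ℂ, G = ∑ j ∈ Finset.range p, (jacobiSym (j : ℤ) p : ℂ) * om ^ j :=
    ⟨_, rfl⟩
  rw [← hG] at hrel
  have hGK : G ∈ KI := by
    obtain ⟨x, hx⟩ : ∃ x : ℚ, Q ∞ (x : OnePoint ℚ) ≠ 0 := by
      by_contra hcon
      push Not at hcon
      apply hy00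
      show Q ∞ _ - Q ∞ _ = 0
      rw [hcon, hcon, sub_zero]
    have ht := hrel x
    obtain ⟨w, hw, ew⟩ := H.typ ∞ (x : OnePoint ℚ)
    have hw' : ∀ j : ℕ, ∃ w ∈ KI, Q ∞ ((x + (j : ℚ) / p : ℚ) : OnePoint ℚ) = pi * w :=
      fun j => H.typ _ _
    choose w' hwK ew' using hw'
    have e2 : ∑ j ∈ Finset.range p, (jacobiSym (j : ℤ) p : ℂ) *
        Q ∞ ((x + (j : ℚ) / p : ℚ) : OnePoint ℚ) =
        pi * ∑ j ∈ Finset.range p, (jacobiSym (j : ℤ) p : ℂ) * w' j := by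
      rw [Finset.mul_sum]
      refine Finset.sum_congr rfl fun j _ => ?_
      rw [ew']
      ring
    rw [e2, ew] at ht
    have hw0 : w ≠ 0 := by
      rintro rfl
      rw [ew, mul_zero] at hx
      exact hx rfl
    have e3 : G = (∑ j ∈ Finset.range p, (jacobiSym (j : ℤ) p : ℂ) * w' j) / w := by
      rw [eq_div_iff hw0]
      refine mul_left_cancel₀ H.pi0 ?_
      linear_combination -ht
    rw [e3]
    exact div_mem (sum_mem fun j _ => mul_mem (intCast_mem KI _) (hwK j)) hw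
  obtain ⟨F, Hh, hF, hH, hFK, hHK, hdeg, hFH, hFe, hFf⟩ := h4 p hp H.p2 om hom KI (hG ▸ hGK)
  have hzrel : ∀ b : ℤ, ∑ j ∈ Finset.range p, (jacobiSym (j : ℤ) p : ℂ) *
      z (b + j * (p : ℤ) ^ n) = G * z b := by
    intro b
    have e1 : z b = Q ∞ ((x₀ + (b : ℚ) / (p : ℚ) ^ (n + 1) : ℚ) : OnePoint ℚ) := rfl
    rw [e1, ← hrel]
    refine Finset.sum_congr rfl fun j _ => ?_
    congr 1
    change Q ∞ ((x₀ + ((b + j * (p : ℤ) ^ n : ℤ) : ℚ) / (p : ℚ) ^ (n + 1) : ℚ) : OnePoint ℚ) = _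
    congr 2
    have h5 : ((p : ℚ) ^ n) ≠ 0 := pow_ne_zero _ hpq
    push_cast
    rw [pow_succ, add_div, add_assoc]
    congr 2
    rw [mul_comm ((p : ℚ) ^ n) (p : ℚ), mul_div_mul_right _ _ h5]
  have hyrel : ∀ b : ℤ, ∑ j ∈ Finset.range p, (jacobiSym (j : ℤ) p : ℂ) *
      y (b + j * (p : ℤ) ^ n) = G * y b := by
    intro b
    have e1 := hzrel b
    have e2 := hzrel (b + k)
    show ∑ j ∈ Finset.range p, (jacobiSym (j : ℤ) p : ℂ) *
      (z (b + j * (p : ℤ) ^ n) - z (b + j * (p : ℤ) ^ n + k)) = G * (z b - z (b + k))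
    rw [mul_sub, ← e1, ← e2, ← Finset.sum_sub_distrib]
    refine Finset.sum_congr rfl fun j _ => ?_
    have e3 : b + (j : ℤ) * (p : ℤ) ^ n + k = b + k + j * (p : ℤ) ^ n := by ring
    rw [e3]
    ring
  -- the relation for the coefficients of `F`
  have hyF : ∀ b : ℤ, ∑ l ∈ Finset.range p, F.coeff l * y (b - l * (p : ℤ) ^ n) = 0 := by
    intro b
    have h5 := hFf (fun l => y (b + l * (p : ℤ) ^ n)) (by
      rintro l l' ⟨t, ht⟩
      apply hyper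
      refine ⟨t, ?_⟩
      have : l = l' + p * t := by linear_combination ht
      rw [this]
      ring) (by
      intro b'
      have h6 := hyrel (b + b' * (p : ℤ) ^ n)
      rw [← hG, ← h6]
      refine Finset.sum_congr rfl fun j _ => ?_
      have e : b + (b' + (j : ℤ)) * (p : ℤ) ^ n = b + b' * (p : ℤ) ^ n + j * (p : ℤ) ^ n := by ring
      rw [e]) 0
    rw [← h5]
    refine Finset.sum_congr rfl fun l _ => ?_
    have e : b + (0 - (l : ℤ)) * (p : ℤ) ^ n = b - l * (p : ℤ) ^ n := by ring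
    rw [e]
  -- the type
  have hpp : 0 < p - 1 := by omega
  have hb : 1 ≤ V.valuation (y 0) ^ (p - 1) * V.valuation (p : ℂ) := by
    have h5 := h3 p hp V H.vp KI 2 (p - 1) i (by norm_num) hi2
      (Nat.mul_le_mul_right _ hi1) (by
        rw [mul_comm]
        exact Nat.mul_lt_mul_of_pos_left (by nlinarith) hpp) hunr pi hvpi w₀ hw₀
    rw [← ew₀] at h5
    exact h5.2 hv1
  -- the exponent `c`
  have : NeZero p := ⟨hp0⟩
  have hξ' : IsPrimitiveRoot (ξ ^ p ^ n) p :=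
    hξ.pow (pow_pos hp.pos _) (by rw [pow_succ])
  obtain ⟨c, hcp, hc⟩ : ∃ c < p, (ξ ^ p ^ n) ^ c = om⁻¹ :=
    hξ'.eq_pow_of_pow_eq_one (by rw [inv_pow, hom.pow_eq_one, inv_one])
  have hcn : ¬ p ∣ c := by
    rintro ⟨t, rfl⟩
    rw [pow_mul, hξ'.pow_eq_one, one_pow] at hc
    have h6 : om = 1 := by
      have := congrArg (fun x => x⁻¹) hc
      simpa using this.symm
    exact hom.ne_one hp.one_lt h6
  have hcop : Nat.Coprime c (p ^ (n + 1)) :=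
    Nat.Coprime.pow_right _ ((Nat.Prime.coprime_iff_not_dvd hp).2 hcn).symm
  have hζ : IsPrimitiveRoot (ξ ^ c) (p ^ (n + 1)) := hξ.pow_of_coprime c hcop
  have hkey := h2 p hp H.p2 V H.vp KI hunr n y hyper F Hh hF hH hFK hHK hdeg hFH hyF (by
    intro b b' hb'
    obtain ⟨w, hw, e⟩ := hytyp b
    obtain ⟨w', hw', e'⟩ := hytyp b'
    rw [e, e', mul_div_mul_left _ _ H.pi0]
    exact div_mem hw hw') 0 hb (ξ ^ c) hζ (by
    rw [← pow_mul, mul_comm c, pow_mul, hc]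
    exact hFe)
  refine ⟨α, β, γ, δ, c, hdet, hγ, hδ, by exact_mod_cast hcn, ?_⟩
  rw [hx₀, zpow_natCast]
  have hζ0 : ξ ^ c ≠ 0 := hζ.ne_zero (pow_ne_zero _ hp0)
  -- the sum
  have hY : Yh (p ^ (n + 1)) (ξ ^ c) Q ∞ (x₀ : OnePoint ℚ) =
      ∑ b ∈ Finset.range (p ^ (n + 1)), (ξ ^ c) ^ b * z b := by
    unfold Yh tM
    refine Finset.sum_congr rfl fun b _ => ?_
    rw [mob_inf, mob_coe _ _ hMZ]
    congr 3
    push_cast
    rfl
  have hper2 : ∀ b : ℤ, (ξ ^ c) ^ (b + ((p ^ (n + 1) : ℕ) : ℤ)) * z (b + ((p ^ (n + 1) : ℕ) : ℤ)) =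
      (ξ ^ c) ^ b * z b := by
    intro b
    rw [hzper (b + ((p ^ (n + 1) : ℕ) : ℤ)) b ⟨1, by push_cast; ring⟩, zpow_add₀ hζ0,
      zpow_natCast _ (p ^ (n + 1)), hζ.pow_eq_one, mul_one]
  have hsh := shift (p ^ (n + 1)) (fun b => (ξ ^ c) ^ b * z b) hper2 k
  have hS : ∑ b ∈ Finset.range (p ^ (n + 1)), (ξ ^ c) ^ b * y b =
      (1 - ξ ^ (-((c : ℤ) * k))) * Yh (p ^ (n + 1)) (ξ ^ c) Q ∞ (x₀ : OnePoint ℚ) := by
    rw [sub_mul, one_mul, hY]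
    have e1 : ∑ b ∈ Finset.range (p ^ (n + 1)), (ξ ^ c) ^ b * y b =
        ∑ b ∈ Finset.range (p ^ (n + 1)), (ξ ^ c) ^ b * z b -
        ∑ b ∈ Finset.range (p ^ (n + 1)), (ξ ^ c) ^ b * z (b + k) := by
      rw [← Finset.sum_sub_distrib]
      refine Finset.sum_congr rfl fun b _ => ?_
      show (ξ ^ c) ^ b * (z b - z (b + k)) = _
      rw [mul_sub]
    rw [e1]
    congr 1
    have e2 : ∑ b ∈ Finset.range (p ^ (n + 1)), (ξ ^ c) ^ b * z b =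
        ∑ b ∈ Finset.range (p ^ (n + 1)), (ξ ^ c) ^ ((b : ℤ) + k) * z (b + k) := by
      rw [hsh]
      refine Finset.sum_congr rfl fun b _ => ?_
      rw [zpow_natCast]
    rw [e2, Finset.mul_sum]
    refine Finset.sum_congr rfl fun b _ => ?_
    rw [← mul_assoc]
    congr 1
    have hξ0 : ξ ≠ 0 := hξ.ne_zero (pow_ne_zero _ hp0)
    rw [zpow_neg, eq_inv_mul_iff_mul_eq₀ (zpow_ne_zero _ hξ0), ← zpow_natCast (ξ ^ c) b,
      ← zpow_natCast ξ c, ← zpow_mul, ← zpow_mul, ← zpow_add₀ hξ0]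
    congr 1
    ring
  have hvx := (h1 p hp V H.vp n ξ hξ).2.2.2 (-((c : ℤ) * k)) (n - 2) (by omega)
    (by
      rw [hk, dvd_neg]
      push_cast
      exact Dvd.intro_left _ rfl)
    (by
      intro hd
      rw [dvd_neg, hk] at hd
      have h7 : p ^ (n - 2 + 1) ∣ c * p ^ (n - 2) := by exact_mod_cast hd
      rw [pow_succ, mul_comm (p ^ (n - 2)) p] at h7
      exact hcn (Nat.dvd_of_mul_dvd_mul_right (pow_pos hp.pos _) h7))
  rw [hS, map_mul, hvx, mul_comm] at hkey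
  exact hkey

end

end Pool.Agent.OTH
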