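import Pool.Agent.OT.HB_HETA
import Pool.Agent.OT.HB_ZC
import Pool.Agent.OT.HB_SGE
import Pool.Agent.OT.HB_EPS
import Pool.Agent.OT.HB_ND
import Pool.Agent.OT.HB_HT1
import Pool.Agent.OT.HB_HT2
import Pool.Agent.OT.HB_HT3
import Pool.Agent.OT.HB_HT
import Pool.Agent.OT.HB_SGP
import Pool.Agent.OT.HB_BIR
import Pool.Agent.OT.HB_GEN
import Pool.Agent.OT.HB_SYE
import Pool.Agent.OT.H_HT
import Pool.Agent.OT.H_LAG
import Pool.Agent.OT.H_VSY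
import Pool.Agent.OT.H_CNG
import Pool.Agent.OT.H_NDN
import Pool.Agent.OT.H_NDR
import Pool.Agent.TWV.TWV
import Pool.Agent.OB.HAll

/-!
# OT, blocks H and HB put together (helper59): `O_HETA` from TYPE and Theorem G
-/

set_option autoImplicit false

namespace Pool.Agent.OT

open Pool.Agent.OB Pool.Agent.OBH

/-- the abstract theorem -/
theorem ot_H : Ot_H := OTH.h_HT OTH.h_LAG OTH.h_VSY OTH.h_CNG TWV.a_TWV

theorem ot_HETA (hT : O_TYF) (hG : O_GPT) : O_HETA :=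
  ob_HETA ot_H
    (ob_HT
      (ob_ND OTH.h_NDN OTH.b_NDR
        (to_HQ1 hT hG o_RAM o_VAL o_CHR o_DEP o_PJ1 o_SAF o_UAL o_BDN o_HKN o_TYP o_PRT)
        (to_HQ2 hT hG o_RAM o_VAL o_CHR o_PJ2 o_SAF o_UAL o_BDN o_TYP o_PRT) o_REL o_RAM)
      ob_HT1 (ob_HT2 ob_ZC) ob_HT3 o_RAM o_VAL o_CHR o_UAL)
    ob_SGP ob_BIR ob_EPS (ob_SYE MUXF.xf_PRD ob_ZC (ob_GEN o_QBO)) ob_ZC ob_SGE o_VAL o_RAM

end Pool.Agent.OT
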