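import Pool.Agent.OT.StI
import Pool.Agent.OB.I_I31

/-!
# OT (Theorem T), block I, module POW (helper79); model: `I31.pows` (`OB/I_I31.lean`)
-/

set_option autoImplicit false

namespace Pool.Agent.OTI

open _root_.MU3 Pool.Agent.MU3 Pool.Agent.MU3A Pool.Agent.MU3B Pool.Agent.RI Pool.Agent.RID
  Pool.Agent.MUX Pool.Agent.MUXK Pool.Agent.MUXI Pool.Agent.NS Pool.Agent.NSI Pool.Agent.OB
  Pool.Agent.OBI Pool.Agent.OT
open Pool.Agent.MU3I (zt St_ITG)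

noncomputable section

/-- (POW) if the product is a `p`-th power, then the sums, translated by `γ^k'`, are small -/
theorem ti_POW (hFOU : Sn_FOU) (hTG : St_ITG) : Ti_POW := by
  classical
  intro p er A B P V f ι R u n D iD h C hE w hw
  let akL : Algebra (kk A B) D := algC h
  intro comm c₁ hc hc1 γ Δ iΔ N k' b X hX y hy
  have fdk : FiniteDimensional (kk A B) D := Module.Finite.of_restrictScalars_finite ℚ (kk A B) D
  have iG : Fintype (D ≃ₐ[kk A B] D) := Fintype.ofFinite _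
  let e : ℕ → ℤ := fun j => (-1 : ℤ) ^ (N - j) * (N.choose j : ℤ)
  let g : (D ≃ₐ[kk A B] D) → ℤ := fun τ => ∑ δ : Δ, ∑ j ∈ Finset.range (N + 1),
      if (δ : D ≃ₐ[kk A B] D) * γ ^ j = τ then (b δ : ℤ) * e j else 0
  have hcτ : ∀ τ : D ≃ₐ[kk A B] D, ((τ ⟨c₁, hc⟩ : D) : ℂ) = C τ := by
    intro τ
    obtain ⟨y', hy1, hy2⟩ := hE.conj τ
    have h3 : y' = ⟨c₁, hc⟩ := Subtype.ext (hy1.trans hc1.symm)
    rw [← h3]
    exact hy2
  have hcne : (⟨c₁, hc⟩ : D) ≠ 0 := by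
    intro h0
    apply hE.ne
    have h1 : c₁ = 0 := congrArg Subtype.val h0
    rw [hc1] at h1
    exact h1
  have hu : ∀ τ : D ≃ₐ[kk A B] D, C τ ≠ 0 := by
    intro τ h0
    rw [← hcτ τ] at h0
    have h1 : τ (⟨c₁, hc⟩ : D) = 0 := Subtype.ext h0
    exact hcne ((map_eq_zero_iff τ τ.injective).1 h1)
  have e1 : (y : ℂ) ^ p = ∏ᶠ τ : D ≃ₐ[kk A B] D, C τ ^ g τ := by
    rw [MU3I.I3F.prod_exp γ Δ _ hu (fun δ => (b δ : ℤ)) N e g (fun τ => rfl)]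
    have h1 : (y : ℂ) ^ p = D.val (y ^ p) := rfl
    rw [h1, hy, map_prod]
    refine Finset.prod_congr rfl fun δ _ => ?_
    rw [MU3I.I3F.tg_pow hTG _ _ γ δ _ hcne N (b δ), map_prod]
    refine Finset.prod_congr rfl fun j _ => ?_
    rw [map_zpow₀]
    exact congrArg (fun w : ℂ => w ^ ((b δ : ℤ) * e j)) (hcτ ((δ : D ≃ₐ[kk A B] D) * γ ^ j))
  have e2 := hE.ew w hw g ⟨y, y.2, e1⟩
  obtain ⟨q1, q2, q3, q4⟩ := I31.val_prop V u (p : ℂ)
  have key := hFOU V (fun x => V.valuation (x / u) ≤ V.valuation (p : ℂ)) q1 q2 q3 q4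
    (D ≃ₐ[kk A B] D) comm γ Δ
    (fun τ => TTN R w (lvX p f n) (aX p f) h (γ ^ k' * τ)) (fun δ => (b δ : ℤ)) N e X
    (by simpa using hX) (by
      intro τ'
      have e3 := e2 (γ ^ k' * τ')
      rw [MU3I.I3F.sum_exp γ Δ (fun τ => TTN R w (lvX p f n) (aX p f) h τ)
        (fun δ => (b δ : ℤ)) N e g (fun τ => rfl) (γ ^ k' * τ')] at e3
      have e4 : ∀ (δ : Δ) (j : ℕ), γ ^ k' * ((δ : D ≃ₐ[kk A B] D) * γ ^ j * τ') =
          (δ : D ≃ₐ[kk A B] D) * γ ^ j * (γ ^ k' * τ') := by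
        intro δ j
        rw [← mul_assoc, comm (γ ^ k') ((δ : D ≃ₐ[kk A B] D) * γ ^ j), mul_assoc]
      simp only [e4]
      exact e3)
  have e5 : ∀ (δ : Δ) (j : ℕ), γ ^ k' * (γ ^ j * (δ : D ≃ₐ[kk A B] D)) =
      γ ^ (k' + j) * (δ : D ≃ₐ[kk A B] D) := by
    intro δ j
    rw [← mul_assoc, ← pow_add]
  simp only [e5] at key
  exact key

end

end Pool.Agent.OTI
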