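import Pool.Agent.OB.IAll
import Pool.Agent.OT.L_E0L
import Pool.Agent.OT.I_Z0
import Pool.Agent.OT.I_ZAR
import Pool.Agent.OT.I_NCB
import Pool.Agent.OT.I_XMF
import Pool.Agent.OT.I_THF
import Pool.Agent.OT.I_CHK
import Pool.Agent.OT.I_EIX
import Pool.Agent.OT.I_POW
import Pool.Agent.OT.I_I31T

/-!
# OT (Theorem T), block I: the result from `O_HETA` (helper79)
-/

set_option autoImplicit false

namespace Pool.Agent.OTI

open Pool.Agent.MUXF Pool.Agent.MUXU Pool.Agent.MUXY Pool.Agent.MUXK Pool.Agent.MUXI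
  Pool.Agent.NSI Pool.Agent.OB Pool.Agent.OBT Pool.Agent.RI Pool.Agent.RID Pool.Agent.OT

/-- THE RESULT of block I -/
theorem oti_IT (hH : O_HETA) : O_IT :=
  ti_IT Pool.Agent.MUXJ.j_RES Pool.Agent.OBI.o_CHI ti_CHK
    (t_E0L i_ARF i_IAF i_LAY xf_NIM Pool.Agent.MUXJ.j_GAL) Pool.Agent.OBI.o_EPS
    Pool.Agent.OBI.o_TEI (t_LVT i_LAY i_IAF) i_ARF i_XXF Pool.Agent.OBI.o_SUB
    Pool.Agent.OBI.o_GAM Pool.Agent.OBI.o_NCR ti_Z0 (ti_XMF i_XXF i_ARF ti_NCB ti_ZAR)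
    (ti_THF Pool.Agent.OBI.o_TSH ti_ZAR) (ti_POW n_FOU Pool.Agent.MU3I.t_ITG) ti_EIX i_GEN hH
    k_GALX k_RSX Pool.Agent.OBT.o_BAS

end Pool.Agent.OTI
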