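import Pool.Agent.OT.F_ROOT0
import Pool.Agent.OT.HBAll
import Pool.Agent.OT.IAll
import Pool.Agent.OB.GAll
import Pool.Agent.OB.TAll

/-!
# OT, FINAL (helper60): THE ROOT of Theorem T (hand-in TwistsEveryPrime)
-/

set_option autoImplicit false

open NumberField

namespace Pool.Agent.OTF

open _root_.Pool.Agent.MuCyc

/-- THEOREM T: the final statement, no hypotheses. -/
theorem final : FinalT :=
  r_T (OTI.oti_IT (OT.ot_HETA (OBT.x_TYF OBR.o_RFIN) OBG.x_GPT))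

/-- THEOREM T, written out. -/
theorem twists_every_prime (p : ℕ) [Fact p.Prime] (hp : 5 ≤ p) (k K : IntermediateField ℚ ℂ)
    (h : k ≤ K) (hk : ImQuad k) (hK : Abelian p h) (l : ℕ) (hl : l = 2 ∨ l = 3) :
    ∃ (r₀ : ℕ) (B₀ : IntermediateField ℚ ℂ), IsLayer l r₀ B₀ ∧
      ∀ (r : ℕ) (B : IntermediateField ℚ ℂ), IsLayer l r B →
        (∀ (hB : k ≤ K ⊔ B) (χ : Chr p hB),
          (∃ s : Gal hB,
            (∀ x : IntermediateField.extendScalars hB, (x : ℂ) ∈ K ⊔ B₀ → s x = x) ∧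
              χ s ≠ 1) → MuZeroC p hB χ) ∧
        ∀ L : IntermediateField ℚ ℂ, k ≤ L → L ≤ K ⊔ B → MuLE p L (L ⊓ (K ⊔ B₀)) :=
  final p hp k K h hk hK l hl

end Pool.Agent.OTF
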