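import Pool.Agent.OT.StF
import Pool.Agent.OT.StJ
import Pool.Agent.MUX.StJX

/-!
# OT, module NEW (helper84): the new characters, from the result of block J
-/

set_option autoImplicit false

open NumberField

namespace Pool.Agent.OTF

open _root_.Pool.Agent.MuCyc

/-- NEW -/
theorem t_NEW (hLAY : _root_.Pool.Agent.MUXJ.Sj_LAY) (hTJ : _root_.Pool.Agent.OTJ.O_TJ) :
    S_NEW := by
  intro p _ hp k K h hk hK hz l hl
  have hfK := hK.fin
  obtain ⟨Ln, hlay, hmono, huniq⟩ := hLAY l hl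
  have hGen : ∃ g e : ℕ, _root_.Pool.Agent.TWR.Gen l g e := by
    rcases hl with rfl | rfl
    · exact ⟨5, 2, Or.inr ⟨rfl, rfl, rfl⟩⟩
    · exact ⟨4, 1, Or.inl ⟨rfl, rfl, rfl⟩⟩
  obtain ⟨g, e, hG⟩ := hGen
  obtain ⟨r₀, hr₀⟩ := hTJ p hp l g e hG k K h hk.deg hk.imag hk.no_i hk.no_w
    ⟨hK.gal, hK.comm, hK.prime_to, hz⟩ Ln ⟨hlay, hmono⟩
  refine ⟨r₀, fun r hr B B' hB hB' => ?_⟩
  obtain rfl : B = Ln r := huniq r B hB
  obtain rfl : B' = Ln (r + 1) := huniq (r + 1) B' hB'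
  exact hr₀ r hr

end Pool.Agent.OTF
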