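import Pool.Agent.OT.JAll
import Pool.Agent.OT.F_T2
import Pool.Agent.OT.L_IFR
import Pool.Agent.OT.L_NEW
import Pool.Agent.OT.L_NEWK
import Pool.Agent.OB.QAll
import Pool.Agent.OB.F_LAY
import Pool.Agent.OB.F_RAG
import Pool.Agent.OB.F_RRK
import Pool.Agent.OB.F_P5
import Pool.Agent.OB.F_INF
import Pool.Agent.OB.RAll
import Pool.Agent.OB.EAll
import Pool.Agent.MUX.J_LAY

/-!
# OT, FINAL (helper60): the root, up to the result `O_IT` of block I
-/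

set_option autoImplicit false

open NumberField

namespace Pool.Agent.OTF

open _root_.Pool.Agent.MuCyc Pool.Agent.OBF

theorem r_LAY : Sf_LAY := tf_LAY
theorem r_RRK : Sf_RRK := tf_RRK tf_RAG
theorem r_REL : Sf_REL := tf_REL r_LAY _root_.Pool.Agent.OB.q_BAX r_RRK
theorem r_IFM : Sf_IFM := tf_IFM r_LAY _root_.Pool.Agent.OB.q_BAX tf_INF
theorem r_IFR : OT.S_IFR := OT.t_IFR r_LAY _root_.Pool.Agent.OB.q_BAX

theorem r_TJ (h : _root_.Pool.Agent.OTI.O_IT) : _root_.Pool.Agent.OTJ.O_TJ :=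
  OTJ.o_TJ OBR.o_RFIN (OBE.o_EFIN OBR.o_RFIN) (OTJ.t_IT h)

theorem r_NEW (h : _root_.Pool.Agent.OTI.O_IT) : S_NEW := t_NEW MUXJ.t_LAY (r_TJ h)

theorem r_NEWK (h : _root_.Pool.Agent.OTI.O_IT) : S_NEWK := t_NEWK MUXJ.t_LAY r_IFM (r_NEW h)

/-- The final statement, from the result of block I -/
theorem r_T (h : _root_.Pool.Agent.OTI.O_IT) : FinalT :=
  final_T (r_NEWK h) r_IFR r_IFM r_REL MUXJ.t_LAY

end Pool.Agent.OTF
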