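import Pool.Agent.OT.F_ROOT
import Pool.Agent.OT.F_T3
import Pool.Agent.OT.E_ABR
import Pool.Agent.OT.E_STC
import Pool.Agent.OT.E_RNK
import Pool.Agent.OT.E_STP
import Pool.Agent.OT.E_SY0
import Pool.Agent.OT.E_IDX
import Pool.Agent.OT.E_RKL
import Pool.Agent.OT.E_TWR
import Pool.Agent.OT.E_ONE
import Pool.Agent.OT.E_PEX
import Pool.Agent.OT.E_PPP
import Pool.Agent.OT.E_CPD
import Pool.Agent.MU3.PAll
import Pool.Agent.MUX.J_SUB
import Pool.Agent.MUX.J_DWN
import Pool.Agent.MUX.KAllX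
import Pool.Agent.VB.VFinal
import Pool.Agent.VB.V_TCQ

/-!
# OT, FINAL (helper60): THE ROOT of Theorem T+ (hand-in TwistsEveryPrime, all finite abelian `K/k`)
-/

set_option autoImplicit false

open NumberField

namespace Pool.Agent.OTE

theorem e_STC : Se_STC := te_STC te_ABR
theorem e_RKL : Se_RKL := te_RKL e_STC te_RNK te_SY0 te_IDX _root_.MU3.u_NPL _root_.MU3.u_BAD
theorem e_TWR : Se_TWR := te_TWR te_STP te_IDX
theorem e_ONE : Se_ONE := te_ONE e_RKL e_TWR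
theorem e_PEX : Se_PEX := te_PEX e_ONE

end Pool.Agent.OTE

namespace Pool.Agent.OTF

open _root_.Pool.Agent.MuCyc

/-- THEOREM T+: the final statement, no hypotheses. -/
theorem finalE : FinalE :=
  final_E final r_IFM OTE.e_PEX OTE.te_PPP OTE.te_CPD _root_.MU3.u_SYL
    (MUXJ.t_SUB (MUXJ.t_DWN MUXK.k_NIX)) VB.tb_TCQ r_LAY

/-- THEOREM T+, written out. -/
theorem twists_every_prime_all (p : ℕ) [Fact p.Prime] (hp : 5 ≤ p)
    (k K : IntermediateField ℚ ℂ) (h : k ≤ K) (hk : ImQuad k) (hf : FiniteDimensional ℚ K)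
    (hG : IsGalois k (IntermediateField.extendScalars h)) (hc : ∀ σ τ : Gal h, σ * τ = τ * σ)
    (l : ℕ) (hl : l = 2 ∨ l = 3) :
    ∃ (r₀ : ℕ) (B₀ : IntermediateField ℚ ℂ), IsLayer l r₀ B₀ ∧
      ∀ (r : ℕ) (B : IntermediateField ℚ ℂ), IsLayer l r B →
        (∀ (L : IntermediateField ℚ ℂ) (hL : k ≤ L), L ≤ K ⊔ B →
          ¬ p ∣ Module.finrank k (IntermediateField.extendScalars hL) → ∀ χ : Chr p hL,
          (∃ s : Gal hL,
            (∀ x : IntermediateField.extendScalars hL, (x : ℂ) ∈ K ⊔ B₀ → s x = x) ∧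
              χ s ≠ 1) → MuZeroC p hL χ) ∧
        ∀ L : IntermediateField ℚ ℂ, k ≤ L → L ≤ K ⊔ B →
          ∀ (E : IntermediateField ℚ ℂ) (hE : k ≤ E), FiniteDimensional ℚ E →
          IsGalois k (IntermediateField.extendScalars hE) →
          (∃ a : ℕ, Module.finrank k (IntermediateField.extendScalars hE) = p ^ a) →
          ∃ C : ℕ, ∀ (m : ℕ) (Q : IntermediateField ℚ ℂ), IsLayer p m Q →
            padicValNat p (classNo (L ⊔ E ⊔ Q)) ≤
              padicValNat p (classNo ((L ⊓ (K ⊔ B₀)) ⊔ E ⊔ Q)) + C * (m + 1) ^ C :=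
  finalE p hp k K h hk hf hG hc l hl

end Pool.Agent.OTF
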