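import Pool.Agent.OT.StH
import Pool.Agent.OT.H2L

/-!
# OT, block H, module VX (helper3)
-/

set_option autoImplicit false

namespace Pool.Agent.OTH

open Pool.Agent.OT

theorem h_VX : S_VX := by
  intro p hp V hV n ξ hξ
  refine ⟨?_, L.xi_lt hp hV hξ, (L.xi_pos hp hξ).ne', ?_⟩
  · rw [mul_comm]
    exact L.xi_pow hp hξ
  · rintro m j hj ⟨c, hc⟩ h2
    have hc' : ¬ (p : ℤ) ∣ c := by
      rintro ⟨d, rfl⟩
      exact h2 ⟨d, by rw [hc]; ring⟩
    rw [hc, mul_comm]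
    exact L.val_one_sub hp hξ j hj c hc'

end Pool.Agent.OTH
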