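import Pool.Agent.MUX.I_LAY
import Pool.Agent.MUX.J_GAL
import Pool.Agent.TWR.St

/-!
# OT, block J, modules LLV and ABL (helper88)

LLV: the composite of a subfield of `RF (f q0)` and of the `r`-th layer of the cyclotomic `ℤ_l`-extension, `l = 2, 3`, is contained in
the ray class field of level `f l^(r+h) q0`. ABL: it is abelian over `k`, of degree prime to `p`.
-/

set_option autoImplicit false

namespace Pool.Agent.OT

open _root_.MU3 Pool.Agent.MU3 Pool.Agent.MU3A Pool.Agent.MU3B Pool.Agent.RI Pool.Agent.RID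
  Pool.Agent.MUX Pool.Agent.MUXE Pool.Agent.MUXK Pool.Agent.MUXJ
open Pool.Agent.MU3I (zt)
open Pool.Agent.TWR (Gen)

namespace JLLV

theorem zt_pow (M : ℕ) (h : M ≠ 0) : zt M ^ M = 1 := by
  unfold Pool.Agent.MU3I.zt
  exact (Complex.isPrimitiveRoot_exp M h).pow_eq_one

theorem idl_ne {A B : ℤ} {M : ℕ} (h : M ≠ 0) : idl (A := A) (B := B) M ≠ ⊥ := by
  rw [ne_eq, Ideal.span_singleton_eq_bot]
  exact_mod_cast h

theorem idl_le {A B : ℤ} {M N : ℕ} (h : M ∣ N) : idl (A := A) (B := B) N ≤ idl M := by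
  rw [Ideal.span_singleton_le_span_singleton]
  obtain ⟨c, rfl⟩ := h
  exact ⟨c, by push_cast; ring⟩

/-- roots of unity in ray class fields -/
theorem zeta_mem {A B : ℤ} (T : TorX A B) (hN : NLex A B) {M m : ℕ} (hM : M ≠ 0) (hm : m ≠ 0)
    (h : M ∣ m) {z : ℂ} (hz : z ^ M = 1) : z ∈ RF (idl (A := A) (B := B) m) := by
  obtain ⟨b, L, om, hL⟩ := hN
  obtain ⟨a, -, ha⟩ := T.act _ (idl_ne hm) (RingEquiv.refl ℂ) rfl
  obtain ⟨b', L', om', mu, hL', hact⟩ := ha b L om hL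
  exact (T.zeta M _ a (RingEquiv.refl ℂ) b L L' om mu (idl_ne hm) rfl hM (idl_le h) hL hact z
    hz).1

theorem gen_cases {l g h : ℕ} (hG : Gen l g h) : l = 2 ∨ l = 3 := by
  rcases hG with ⟨rfl, -, -⟩ | ⟨rfl, -, -⟩
  · exact Or.inr rfl
  · exact Or.inl rfl

theorem gen_q0 {l g h : ℕ} (hG : Gen l g h) (r : ℕ) : q0 l * l ^ r = l ^ (r + h) := by
  rcases hG with ⟨rfl, -, rfl⟩ | ⟨rfl, -, rfl⟩
  · have h3 : q0 3 = 3 := by simp [q0]
    rw [h3, pow_succ, mul_comm]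
  · have h3 : q0 2 = 4 := by simp [q0]
    rw [h3, pow_add]
    ring

end JLLV

open JLLV

/-- Module LLV. -/
theorem t_LLV (l g h : ℕ) (hG : Gen l g h) (A B : ℤ) (T : TorX A B) (hN : NLex A B) (p f : ℕ)
    (hp : p ≠ 0) (hf : f ≠ 0) (K₀ : IntermediateField ℚ ℂ)
    (hK : ∀ y ∈ K₀, y ∈ RF (idl (A := A) (B := B) (lvX p f 0))) (r : ℕ)
    (L : IntermediateField ℚ ℂ) (hL : IsLayer l r L) :
    ∀ y ∈ K₀ ⊔ L, y ∈ RF (idl (A := A) (B := B) (lvX p (f * l ^ (r + h)) 0)) := by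
  have hl := gen_cases hG
  have hl0 : l ≠ 0 := by rcases hl with rfl | rfl <;> norm_num
  have hq : q0 p ≠ 0 := by
    unfold q0
    split_ifs with h2
    · norm_num
    · exact hp
  have hlv : lvX p (f * l ^ (r + h)) 0 = lvX p f 0 * l ^ (r + h) := by unfold lvX; ring
  have hM : l ^ (r + h) ≠ 0 := pow_ne_zero _ hl0
  have hlv0 : lvX p (f * l ^ (r + h)) 0 ≠ 0 := by
    unfold lvX
    exact mul_ne_zero (mul_ne_zero (mul_ne_zero hf hM) hq) (pow_ne_zero _ hp)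
  have hd1 : lvX p f 0 ∣ lvX p (f * l ^ (r + h)) 0 := ⟨_, hlv⟩
  have hd2 : l ^ (r + h) ∣ lvX p (f * l ^ (r + h)) 0 := ⟨lvX p f 0, by rw [hlv, mul_comm]⟩
  have hz : zt (l ^ (r + h)) ∈ RF (idl (A := A) (B := B) (lvX p (f * l ^ (r + h)) 0)) :=
    zeta_mem T hN hM hlv0 hd2 (zt_pow _ hM)
  have hL' : L ≤ IntermediateField.restrictScalars ℚ
      (RF (idl (A := A) (B := B) (lvX p (f * l ^ (r + h)) 0))) := by
    rw [Pool.Agent.MUXI.ti_LAY l r hl L hL, gen_q0 hG, IntermediateField.adjoin_le_iff]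
    intro x hx
    rw [Set.mem_singleton_iff] at hx
    rw [hx]
    exact add_mem hz (inv_mem hz)
  have hK' : K₀ ≤ IntermediateField.restrictScalars ℚ
      (RF (idl (A := A) (B := B) (lvX p (f * l ^ (r + h)) 0))) := by
    intro x hx
    exact T.mono _ _ (idl_le hd1) (hK x hx)
  intro y hy
  exact (sup_le hK' hL') hy

end Pool.Agent.OT
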