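import Pool.Agent.OT.StL
import Pool.Agent.OT.Defs

/-!
# OT (Theorem T, problem MP_b78433_nt), block I (helper79): from `O_HETA` (blocks H, HB) and `EInpO` (block E) to the input (I3) of block K, all branches

Every statement is a `def Ti_X : Prop`; the module X proves `theorem ti_X (h : ..) ... : Ti_X` in the file `Pool/Agent/OT/I_X.lean`, namespace `Pool.Agent.OTI`
(private lemmas in `Pool.Agent.OTI.Xx`); the hypotheses are the statements named under USES (fewer is fine). Models: `OB/I_*.lean` (statements `OB/StI.lean`).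

THE ARGUMENT. `K' = K B_(m+1)`, level `f' = f l^(m+1+h)`, `n = 5`, `D = K' B_5 ∋ ζ` of order `M = p^(n+1)`. `Δ = NC h Bn ≅ Gal(K'/k)`, all of it: `τ ∈ γ^j Δ` iff `N(τ)^(p-1) ≡ (1+p)^(j(p-1))` modulo `M` iff `N(τ) ≡ z₀^k (1+p)^j` for one `k < p - 1` (NCB, ZAR, XMF). So the sums over `Δ` are the sums `SG` of `O_HETA` (THF).
The characters `X` of `Gal(K'/k)` which are not trivial on `Gal(K'/K B_m)` come from a finite family and a primitive even `ψ` modulo `l^(m+1+h)` (`S_E0L`), so `O_HETA` gives one `r₀` for all of them. If the product were a `p`-th power, the estimate of block E at the translate `γ^k'` (POW) contradicts `O_HETA`.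
-/

set_option autoImplicit false

open NumberField

namespace Pool.Agent.OTI

open _root_.MU3 Pool.Agent.MU3 Pool.Agent.MU3A Pool.Agent.MU3B Pool.Agent.RI Pool.Agent.RID
  Pool.Agent.MUX Pool.Agent.MUXK Pool.Agent.MUXI Pool.Agent.NS Pool.Agent.NSI Pool.Agent.OB
  Pool.Agent.OBI Pool.Agent.OT
open Pool.Agent.MU3I (zt)
open Pool.Agent.TWR (Gen)

noncomputable section

/-- the sets `XX`, as `XM` (`MUX/StIX.lean`), for a group `Δ` which contains the elements of order prime to `p` -/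
structure XMF {A B : ℤ} {n₀ : ℕ} {ι : Type} (R : Reps A B n₀ ι) (p f n : ℕ) (z₀ : ℤ) {G : Type}
    [Group G] (γ : G) (Δ : Subgroup G)
    (X : G → Set (ι × (OO A B ⧸ idl (A := A) (B := B) (lvX p f n)))) : Prop where
  comm : ∀ σ τ : G, σ * τ = τ * σ
  cop : ∀ τ, ∀ q ∈ X τ, IsCoprime (Quotient.out q.2 : OO A B) ((lvX p f n : ℕ) : OO A B)
  ex : ∀ q : ι × (OO A B ⧸ idl (A := A) (B := B) (lvX p f n)),
    IsCoprime (Quotient.out q.2 : OO A B) ((lvX p f n : ℕ) : OO A B) → ∃ τ, q ∈ X τ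
  uniq : ∀ q τ τ', q ∈ X τ → q ∈ X τ' → τ = τ'
  nrm : ∀ q τ, q ∈ X τ → ∀ j : ℕ, (τ * (γ ^ j)⁻¹ ∈ Δ ↔ ∃ k < p - 1,
    ((p ^ (n + 1) : ℕ) : ℤ) ∣ nm (Quotient.out q.2) * nI (R.b q.1) - z₀ ^ k * (1 + (p : ℤ)) ^ j)

/-- (Z0) existence of `z₀`.

PROOF. `g` a generator modulo `p` (`(ZMod p)ˣ` is cyclic: Mathlib), `z₀ = g^(p^n)`. `z₀ ≡ g` modulo `p` (Fermat), so `gen`. `g^(p-1) ≡ 1` modulo `p`, so `z₀^(p-1) = (g^(p-1))^(p^n) ≡ 1` modulo `p^(n+1)` (`dvd_sub_pow_of_dvd_sub`). -/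
def Ti_Z0 : Prop := ∀ p : ℕ, p.Prime → p ≠ 2 → ∀ n : ℕ, ∃ z₀ : ℤ, IsZ0 p n z₀

/-- (ZAR) arithmetic of `z₀`.

PROOF. `p ∤ z₀`: `p ∣ z₀^(p-1) - 1`, `p - 1 ≠ 0`. Injectivity: `k ↦ z₀^k`, from `Fin (p-1)` to `(ZMod p)ˣ`, is surjective (`gen`), both have `p - 1` elements. The equivalence: (←) `z₀^(p-1) ≡ 1` modulo `p^(n+1)`. (→) `gen`: `p ∣ N - z₀^k`, `k < p - 1`. In `ZMod (p^(n+1))`: `u = N (z₀^k (1+p)^j)⁻¹` has `u^(p-1) = 1` and `u ≡ 1` modulo `p`, so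
`u^(p^n) = 1` (`dvd_sub_pow_of_dvd_sub`) and `u = 1` (`p - 1` is prime to `p^n`). Or without inverses: `x = N`, `y = z₀^k (1+p)^j`: `p^(n+1) ∣ x^(p-1) - y^(p-1) = (x - y) Σ x^i y^(p-2-i)`, and `Σ x^i y^(p-2-i) ≡ (p-1) y^(p-2)` modulo `p` is prime to `p`. -/
def Ti_ZAR : Prop := ∀ (p n : ℕ), p.Prime → p ≠ 2 → ∀ z₀ : ℤ, IsZ0 p n z₀ →
  ¬ (p : ℤ) ∣ z₀ ∧
  (∀ k k' : ℕ, k < p - 1 → k' < p - 1 → (p : ℤ) ∣ z₀ ^ k - z₀ ^ k' → k = k') ∧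
  ∀ (N : ℤ) (j : ℕ), ¬ (p : ℤ) ∣ N →
    (((p ^ (n + 1) : ℕ) : ℤ) ∣ N ^ (p - 1) - ((1 + (p : ℤ)) ^ j) ^ (p - 1) ↔
      ∃ k < p - 1, ((p ^ (n + 1) : ℕ) : ℤ) ∣ N - z₀ ^ k * (1 + (p : ℤ)) ^ j)

/-- (NCB) two embeddings of `D ⊇ RB p n = ℚ(ζ + ζ⁻¹)` agree on the layer `Bn` iff `a^(p-1) ≡ b^(p-1)` modulo `M = p^(n+1)`. MODEL: `OB/I_NCR.lean` (lemmas of `NCRx`).

PROOF. `E = ℚ(ζ)`, `Bn ≤ RB p n ≤ E`. `Gal(E/ℚ) ≅ (ZMod M)ˣ` is cyclic of order `p^n (p-1)`, and `Gal(E/Bn)` is of order `p - 1` (`[Bn : ℚ] = p^n`), so it is the group of ALL `σ` with `σ^(p-1) = 1` (these are `p - 1` elements since the group is cyclic). Let `s`, `t ∈ Gal(E/ℚ)`, `s ζ = ζ^a`, `t ζ = ζ^b`. `φ` and `s` agree on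
`ζ + ζ⁻¹`, so on `RB p n ≥ Bn` (as `XMXx.eqB` in `OB/I_XMX.lean`), the same for `ψ`, `t`. So `φ = ψ` on `Bn` iff `s = t` on `Bn` iff `s t⁻¹ ∈ Gal(E/Bn)` iff `s^(p-1) = t^(p-1)` (abelian) iff `ζ^(a^(p-1)) = ζ^(b^(p-1))`. -/
def Ti_NCB : Prop :=
  ∀ (p : ℕ) [Fact p.Prime] (_ : p ≠ 2) (n : ℕ) (Bn : IntermediateField ℚ ℂ), IsLayer p n Bn →
    Bn ≤ RB p n → ∀ D : IntermediateField ℚ ℂ, RB p n ≤ D →
    ∀ (φ ψ : ↥D →+* ℂ) (a b : ℕ), ¬ p ∣ a → ¬ p ∣ b →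
    ∀ y : ↥D, (y : ℂ) = zt (p ^ (n + 1)) + (zt (p ^ (n + 1)))⁻¹ →
    φ y = zt (p ^ (n + 1)) ^ a + (zt (p ^ (n + 1)) ^ a)⁻¹ →
    ψ y = zt (p ^ (n + 1)) ^ b + (zt (p ^ (n + 1)) ^ b)⁻¹ →
    ((∀ z : ↥D, (z : ℂ) ∈ Bn → φ z = ψ z) ↔
      ((p ^ (n + 1) : ℕ) : ℤ) ∣ (a : ℤ) ^ (p - 1) - (b : ℤ) ^ (p - 1))

/-- (XMF) the sets `XX` satisfy `XMF` for the group `NC h Bn`. MODEL: `OB/I_XMX.lean` (the same proof; at the end NCB for `a = nI (sp x * cjI b)`, `b = nI (c^j)` with `nI c ≡ ± (1 + p)` modulo `M`, and ZAR, in place of `eqB`, `pm_iff`; `p - 1` is even).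

USES Si_XXF, Si_ARF, NCB, ZAR. -/
def Ti_XMF : Prop :=
  ∀ (p : ℕ) [Fact p.Prime] (A B : ℤ) (f : ℕ),
    SetQ p A B f → TorX A B → ∀ (ι : Type) (R : Reps A B (p * f) ι)
    (D : IntermediateField ℚ ℂ) (n : ℕ) (h : kk A B ≤ D) (Bn : IntermediateField ℚ ℂ),
    IsLayer p n Bn → Bn ≤ RB p n → RB p n ≤ D →
    (∀ y ∈ D, y ∈ RF (idl (A := A) (B := B) (lvX p f n))) → letI := algC h
    ∀ (_ : IsGalois (kk A B) ↥D) (γ : ↥D ≃ₐ[kk A B] ↥D),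
    (∀ x : ↥D, (x : ℂ) = zt (p ^ (n + 1)) + (zt (p ^ (n + 1)))⁻¹ →
        ((γ x : ↥D) : ℂ) =
          zt (p ^ (n + 1)) ^ (1 + p) + (zt (p ^ (n + 1)) ^ (1 + p))⁻¹) →
    ∀ z₀ : ℤ, IsZ0 p n z₀ →
    XMF R p f n z₀ γ (NC h Bn) (fun τ => XX R (lvX p f n) h τ)

/-- (THF) the sums over `Δ` are the sums `SG`. MODEL: `OB/I_TH.lean`.

USES Oi_TSH (`OB/StI.lean`), ZAR. PROOF. As there. `T = (1+p)^j ≡ 1` modulo `p`. For `x` prime to the level: `∃ δ, q ∈ X (γ^j δ)` iff `∃ k < p - 1, M ∣ nm x N - z₀^k T` (`N = nI (b i)`), with at most one `k` (ZAR), and then `t(nm x) t(N) = t(z₀^k)`. If `x` is not prime to the level then `e x = 0` or none of the congruences holds (`THx.cop_lv`, `cop_f`).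
So the indicator function is the sum over `k < p - 1` of the indicator functions, with the factor `t(z₀^k) t(N)⁻¹`; for every `k` TSH with `z₀^k T`. -/
def Ti_THF : Prop :=
  ∀ (p : ℕ) (A B : ℤ) (f : ℕ),
    SetQ p A B f → ∀ g : Ideal (OO A B), idl (A := A) (B := B) (lvX p f 0) ≤ g → g ≤ idl f →
    ∀ (ι : Type) [Fintype ι] (R : Reps A B (p * f) ι) (n : ℕ) (z₀ : ℤ), IsZ0 p n z₀ →
    ∀ (G : Type) [Group G] [Finite G] (γ : G) (Δ : Subgroup G) [Fintype Δ]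
    (X : G → Set (ι × (OO A B ⧸ idl (A := A) (B := B) (lvX p f n)))), XMF R p f n z₀ γ Δ X →
    ∀ (χ : Δ →* ℂˣ) (e0 : OO A B → ℂ) (kp c : ι → ℂ) (w e : OO A B → ℂ) (t : ℤ → ℂ) (q₁ : ℕ),
    q₁ ≠ 0 → IsTw p q₁ t → IsEI g e →
    (∀ x, IsCoprime x ((lvX p f 0 : ℕ) : OO A B) → e0 x * w x = e x * t (nm x)) →
    (∀ (δ : Δ) (j : ℕ), ∀ q ∈ X (γ ^ j * (δ : G)),
      (((χ δ)⁻¹ : ℂˣ) : ℂ) = kp q.1 * e0 (Quotient.out q.2)) →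
    ∀ j : ℕ,
    ∑ δ : Δ, (((χ δ)⁻¹ : ℂˣ) : ℂ) * ∑ᶠ q ∈ X (γ ^ j * (δ : G)), w (Quotient.out q.2) *
        c q.1 * dlX (R.L q.1) (aX p f) (pt R (lvX p f n) q.1 (Quotient.out q.2)) =
      SG p R (lvX p f n) (p ^ (n + 1)) (aX p f) e (kkT R kp c t) t z₀ ((1 + (p : ℤ)) ^ j)

/-- (POW) if the product is a `p`-th power then the sum is small, with the translate `γ^k'`. MODEL: `I31.pows` in `OB/I_I31.lean`.

USES Sn_FOU, MU3I.St_ITG. PROOF. As there, FOU for `T τ = TTN .. (γ^k' τ)` (`EInpO.ew` holds for all `τ'`; the group is commutative). -/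
def Ti_POW : Prop :=
  ∀ (p er : ℕ) (A B : ℤ) (P : Ideal (OO A B)) (V : ValuationSubring ℂ) (f : ℕ)
    (ι : Type) (R : Reps A B (p * f) ι) (u : ℂ)
    (n : ℕ) (D : IntermediateField ℚ ℂ) [FiniteDimensional ℚ D] (h : kk A B ≤ D)
    (C : (letI := algC h; D ≃ₐ[kk A B] D) → ℂ) (_ : EInpO p er P V f R u n h C)
    (w : OO A B → ℂ) (_ : IsTeiP p er P V w),
    letI := algC h
    ∀ (_ : ∀ σ τ : D ≃ₐ[kk A B] D, σ * τ = τ * σ) (c₁ : ℂ) (hc : c₁ ∈ D) (_ : c₁ = C 1)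
      (γ : D ≃ₐ[kk A B] D) (Δ : Subgroup (D ≃ₐ[kk A B] D)) [Fintype Δ] (N k' : ℕ) (b : Δ → ℕ)
      (X : Δ →* ℂˣ) (_ : (∑ δ : Δ, (b δ : ℂ) * (X δ : ℂ)) ∉ V.nonunits) (y : D)
      (_ : y ^ p = ∏ δ : Δ, ((δ : D ≃ₐ[kk A B] D) ((Tg γ)^[N] ⟨c₁, hc⟩)) ^ b δ),
      V.valuation ((∑ j ∈ Finset.range (N + 1),
        (((-1 : ℤ) ^ (N - j) * (N.choose j : ℤ) : ℤ) : ℂ) *
        ∑ δ : Δ, (((X δ)⁻¹ : ℂˣ) : ℂ) * TTN R w (lvX p f n)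
          (aX p f) h (γ ^ (k' + j) * (δ : D ≃ₐ[kk A B] D))) / u) ≤ V.valuation (p : ℂ)

/-- (CHK) `χ` not trivial on `H` implies that its lift `X` (`Oi_CHI`) is not trivial on `H`.

PROOF. Otherwise `X = 1` on `H`; `Δ' = H`, `j` the inclusion: the sum is the integer `Σ_(h ∈ H) θ((χ h)⁻¹).val`, which is modulo `p` equal to `θ(Σ_(h ∈ H) (χ h)⁻¹) = θ(0) = 0` (`χ` is not trivial on `H`), so it is in `V.nonunits`. -/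
def Ti_CHK : Prop :=
  ∀ (p : ℕ) [Fact p.Prime] (V : ValuationSubring ℂ) (_ : (p : ℂ) ∈ V.nonunits)
    (Δ : Type) [Group Δ] [Finite Δ] (χ : Δ →* (IsLocalRing.ResidueField V)ˣ) (X : Δ →* ℂˣ)
    (_ : ∀ (Δ' : Type) [Group Δ'] [Fintype Δ'] (j : Δ' →* Δ), Function.Injective j →
      ∃ θ : IsLocalRing.ResidueField V →+ ZMod p,
        (∑ δ : Δ', ((θ ((χ (j δ))⁻¹ : (IsLocalRing.ResidueField V)ˣ)).val : ℂ) *
          (X (j δ) : ℂ)) ∉ V.nonunits)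
    (H : Subgroup Δ), (∃ g ∈ H, χ g ≠ 1) → ∃ g ∈ H, X g ≠ 1

/-- (EIX) the character `e ψ(N x)`.

PROOF. `x - y ∈ idl (p f l^r)` implies `p f l^r ∣ nm x - nm y` (`nm x - nm y = x star x - y star y` is in the ideal, and an integer in `idl m` is divisible by `m`; see how `OB/I_EPS.lean`, `OT/L_E0L.lean` do it). Support: `e x ≠ 0` iff `x` is prime to `p f`, iff prime to `p f l^r` (`l ∣ f`); then `nm x = x star x` is prime to `l` and `ψ (nm x) ≠ 0`. `nm (-1) = 1`. -/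
def Ti_EIX : Prop :=
  ∀ (p : ℕ) (A B : ℤ) (f : ℕ), SetQ p A B f → ∀ (l r : ℕ), l.Prime → l ∣ f →
    ∀ e : OO A B → ℂ, IsEI (idl (A := A) (B := B) (p * f)) e →
    ∀ ψ : DirichletCharacter ℂ (l ^ r),
    IsEI (idl (A := A) (B := B) (p * (f * l ^ r))) (fun x => e x * ψ (nm x))

/-- THE RESULT of block I: for all large `m`, the input (I3) of block K for `K' = K B_(m+1)`, `N = 1`, `n = 5`, and every `χ` which is not trivial on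
`Gal(K B_(m+1)/K B_m)`. Module of helper79. -/
def O_IT : Prop :=
  ∀ (l g h : ℕ), Gen l g h →
    ∀ (p er : ℕ) [Fact p.Prime] (A B : ℤ) (P : Ideal (OO A B)) (V : ValuationSubring ℂ) (f : ℕ),
    SetO p er A B P V f → l ^ h ∣ f → ∀ (hl : l ∣ f), TorX A B →
    ∀ (ι : Type) [Fintype ι] (R : Reps A B (p * f) ι) (u el lam : ℂ),
    GoodL V (R.L R.i0) u el lam →
    ∀ (K : IntermediateField ℚ ℂ) [FiniteDimensional ℚ K], kk A B ≤ K →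
    (∃ ω ∈ K, IsPrimitiveRoot ω p) →
    (∀ y ∈ K, y ∈ RF (idl (A := A) (B := B) (lvX p f 0))) →
    ∀ (Bl : ℕ → IntermediateField ℚ ℂ), (∀ m, IsLayer l m (Bl m)) → Monotone Bl →
    ∃ r₀ : ℕ, ∀ m, r₀ ≤ m → ∀ (Bn : ℕ → IntermediateField ℚ ℂ)
    [FiniteDimensional ℚ ↥(K ⊔ Bl (m + 1))]
    [∀ n, FiniteDimensional ℚ ↥((K ⊔ Bl (m + 1)) ⊔ Bn n)]
    (hB : BasX p (kk A B) (K ⊔ Bl (m + 1)) Bn)
    (_ : ¬ p ∣ Module.finrank (kk A B) (IntermediateField.extendScalars hB.hk))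
    (hk : kk A B ≤ (K ⊔ Bl (m + 1)) ⊔ Bn 5) (hkK : kk A B ≤ K ⊔ Bl (m + 1))
    (C : (letI := algC hk; ↥((K ⊔ Bl (m + 1)) ⊔ Bn 5) ≃ₐ[kk A B]
      ↥((K ⊔ Bl (m + 1)) ⊔ Bn 5)) → ℂ)
    (_ : EInpO p er P V (f * l ^ (m + 1 + h)) (RL R l (m + 1 + h) hl) u 5 hk C) (c₀ : ℂ)
    (mem : c₀ ∈ (K ⊔ Bl (m + 1)) ⊔ Bn 5) (_ : c₀ = C (letI := algC hk; 1))
    (χ : (letI := algC hkK; (↥(K ⊔ Bl (m + 1)) ≃ₐ[kk A B] ↥(K ⊔ Bl (m + 1))) →*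
      (IsLocalRing.ResidueField V)ˣ)),
    (letI := algC hkK; ∃ s : ↥(K ⊔ Bl (m + 1)) ≃ₐ[kk A B] ↥(K ⊔ Bl (m + 1)),
      (∀ x : ↥(K ⊔ Bl (m + 1)), (x : ℂ) ∈ K ⊔ Bl m → s x = x) ∧ χ s ≠ 1) →
    I3At (IsLocalRing.ResidueField V) p (kk A B) (K ⊔ Bl (m + 1)) Bn hkK χ 1 5 hk c₀ mem

end

end Pool.Agent.OTI
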