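import Pool.Agent.OT.StJ
import Pool.Agent.OT.StI
import Pool.Agent.OT.J_LLV
import Pool.Agent.OT.J_ABL

/-!
# OT, block J (helper19): the results of helper79 (block I) and helper88 (LLV, ABL) in the form of `StJ.lean`
-/

set_option autoImplicit false

open NumberField IsDedekindDomain

namespace Pool.Agent.OTJ

open _root_.MU3 Pool.Agent.MU3 Pool.Agent.MU3A Pool.Agent.MU3B Pool.Agent.RI Pool.Agent.RID
  Pool.Agent.MUX Pool.Agent.MUXK Pool.Agent.MUXE Pool.Agent.MUXJ Pool.Agent.MUXZ Pool.Agent.NSI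
  Pool.Agent.OB
open _root_.Pool.Agent.TWR (Gen)

/-- LLV -/
theorem t_LLV : S_LLV := by
  intro p l g h A B _ T hN hp _ hG f hf K₀ hK r L hL
  exact OT.t_LLV l g h hG A B T hN p f hp.ne_zero hf K₀ hK r L hL

/-- ABL -/
theorem t_ABL : S_ABL := by
  intro p l g h hp h5 hG A B T hN f hf K₀ _ hk hK hA Ln hL r h'
  obtain ⟨h1, h2, h3⟩ := OT.t_ABL l g h hG A B T hN p f hp h5 hf K₀ hk hK hA.cop r (Ln r)
    (hL.lay r) h'
  obtain ⟨ω, hω, hω1⟩ := hA.om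
  exact ⟨h1, h2, h3, ω, (le_sup_left : K₀ ≤ K₀ ⊔ Ln r) hω, hω1⟩

/-- the result of block I -/
theorem t_IT (hI : OTI.O_IT) : O_IT := by
  intro p er _ A B P V f hS T ι _ R u el lam hGL l g h hG hl K₀ _ hk hA hK₀ Ln hL
  have hlh : l ^ h ∣ f := by
    refine Dvd.dvd.trans ?_ hS.f12
    rcases hG with ⟨rfl, -, rfl⟩ | ⟨rfl, -, rfl⟩ <;> norm_num
  obtain ⟨r₀, hr₀⟩ := hI l g h hG p er A B P V f hS hlh hl T ι R u el lam hGL K₀ hk hA.om hK₀
    Ln hL.lay hL.mono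
  refine ⟨r₀, fun r hr K' hKeq Bn _ _ hB hkn hkK hAK _ C hE c₀ mem hc χ hχ => ?_⟩
  subst hKeq
  exact hr₀ r hr Bn hB hAK.cop hkn hkK C hE c₀ mem hc χ hχ

end Pool.Agent.OTJ
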