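import Pool.Agent.OT.StJ
import Pool.Agent.OB.F_ONE

/-!
# OT, block J, module NBT (helper19): the result of the block, for all imaginary quadratic fields except `ℚ(i)`, `ℚ(√-3)`

After `OB/J_NIL.lean` and `OB/F_ONE.lean`.
-/

set_option autoImplicit false

open NumberField IsDedekindDomain

namespace Pool.Agent.OTJ

open _root_.MU3 Pool.Agent.MU3 Pool.Agent.MU3A Pool.Agent.MU3B Pool.Agent.RI Pool.Agent.RID
  Pool.Agent.MUX Pool.Agent.MUXK Pool.Agent.MUXE Pool.Agent.MUXJ Pool.Agent.MUXZ Pool.Agent.NSI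
  Pool.Agent.OB
open _root_.Pool.Agent.TWR (Gen)
open Pool.Agent.OBF.CHIx

/-- (NBT) -/
theorem t_NBT (hM : S_MAINT) (hLAY : OBF.Sf_LAY) : O_TJ := by
  intro p hpf h5 l g h hG k K₀ _ hk h2 hi h4 h3 hA Ln hL
  obtain ⟨d, hd, rfl, -⟩ := JT.j_JQF k h2 hi
  have hd1 : d ≠ 1 := by
    rintro rfl
    exact h4 _ JT.kk_one Complex.I_sq
  have hd3 : d ≠ 3 := by
    rintro rfl
    obtain ⟨z, hz, hz3⟩ := JT.kk_three
    exact h3 z hz hz3
  have hCQ : MUX.CQ (MUXZ.pA d) (MUXZ.pB d) := MUXZ.cq_p hd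
  have ha3 : absD (MUXZ.pA d) (MUXZ.pB d) ≠ 3 := by
    rw [MUXZ.absD_p]
    split_ifs <;> omega
  have ha4 : absD (MUXZ.pA d) (MUXZ.pB d) ≠ 4 := by
    rw [MUXZ.absD_p]
    split_ifs <;> omega
  obtain ⟨r₀, hr₀⟩ := hM p h5 (MUXZ.pA d) (MUXZ.pB d) hCQ ha3 ha4 l g h hG K₀ hk hA Ln hL
  refine ⟨r₀, fun r hr h' χ hχ => ?_⟩
  obtain ⟨B, hlay, hmono, hu⟩ := hLAY p (by omega)
  have hfd := fd_LL hG hL K₀ (r + 1)
  have hfL : ∀ n, FiniteDimensional ℚ ↥(K₀ ⊔ Ln (r + 1) ⊔ B n) := fun n => by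
    obtain ⟨h1, -, -⟩ := LAY_thm p n (B n) (hlay n)
    exact IntermediateField.finiteDimensional_sup (K₀ ⊔ Ln (r + 1)) (B n)
  have hk₀ : ∀ n, kk (MUXZ.pA d) (MUXZ.pB d) ≤ K₀ ⊔ Ln (r + 1) ⊔ B n := fun n =>
    h'.trans le_sup_left
  obtain ⟨hBX, m, hm⟩ := hr₀ r hr (K₀ ⊔ Ln (r + 1)) B rfl hlay hmono hk₀ h' (toC h' χ) (by
    let _ := algC h'
    obtain ⟨s', hs', h1⟩ := hχ
    refine ⟨AlgEquiv.autCongr (extEquiv h') s', fun x hx => ?_, fun h6 => h1 ?_⟩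
    · have h7 := hs' ⟨(x : ℂ), x.2⟩ hx
      exact Subtype.ext (congrArg Subtype.val h7)
    · have e1 : toC h' χ (AlgEquiv.autCongr (extEquiv h') s') = χ s' :=
        toC_apply h' χ (AlgEquiv.autCongr (extEquiv h') s') s' (by
          intro x x' hx
          obtain rfl : x' = ⟨(x : ℂ), x.2⟩ := Subtype.ext hx
          rfl)
      rw [← e1]
      exact h6)
  exact OBF.nil_mu p _ _ B hBX hu hk₀ h' χ m hm

end Pool.Agent.OTJ
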