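import Pool.Agent.OT.StJ
import Pool.Agent.OB.J_SETO
import Pool.Agent.MUX.J_SETG
import Pool.Agent.MUX.J_INJ
import Pool.Agent.MUX.J_DIR
import Pool.Agent.MUX.J_GAL

/-!
# OT, block J: the large field `K = K₀ RF(1)` for a given level `f` (helper14)

After `Pool/Agent/OB/J_SETO.lean`: the level `f` with `K₀ ≤ RF (f p)` is given.
-/

set_option autoImplicit false

open NumberField IsDedekindDomain
open scoped nonZeroDivisors Pointwise

namespace Pool.Agent.OTJ

open _root_.MU3 Pool.Agent.MU3 Pool.Agent.MU3A Pool.Agent.MU3B Pool.Agent.RI Pool.Agent.RID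
  Pool.Agent.MUX Pool.Agent.MUXK Pool.Agent.MUXE Pool.Agent.MUXJ Pool.Agent.OB

open JSET in
/-- SETF: the large field `K`, the level `f` is given. -/
theorem setf (p er : ℕ) (A B : ℤ) (P : Ideal (OO A B)) (V : ValuationSubring ℂ)
    (hX : CaseO p er A B P V)
    (hU : UnrH A B V) (T : TorX A B) (f : ℕ) (hf0 : f ≠ 0) (K₀ : IntermediateField ℚ ℂ)
    [FiniteDimensional ℚ K₀] (hk : kk A B ≤ K₀)
    (hcop : ¬ p ∣ Module.finrank (kk A B) (IntermediateField.extendScalars hk))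
    (hKf : ∀ y ∈ K₀, y ∈ RF (idl (A := A) (B := B) (lvX p f 0)))
    (hom : ∃ ω ∈ K₀, IsPrimitiveRoot ω p)
    (Bn : ℕ → IntermediateField ℚ ℂ) (hlay : ∀ n, IsLayer p n (Bn n)) (hmono : Monotone Bn) :
    ∃ (K : IntermediateField ℚ ℂ) (_ : FiniteDimensional ℚ K),
      SetX p (kk A B) K₀ K Bn ∧
      (∀ y ∈ K, y ∈ RF (idl (A := A) (B := B) (lvX p f 0))) ∧
      ∀ y ∈ RF (⊤ : Ideal (OO A B)), y ∈ K := by
  have hp : p.Prime := hX.pp
  have : Fact p.Prime := ⟨hp⟩
  have hp2 : p ≠ 2 := by have := hX.p5; omega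
  have hp3 : p ≠ 3 := by have := hX.p5; omega
  have hq0 : q0 p = p := if_neg hp2
  have hodd : Odd p := hp.odd_of_ne_two hp2
  have hlv0 : lvX p f 0 ≠ 0 := by
    unfold lvX
    rw [hq0]
    exact mul_ne_zero (mul_ne_zero hf0 hp.ne_zero) (pow_ne_zero _ hp.ne_zero)
  set m₀ : Ideal (OO A B) := idl (lvX p f 0) with hm₀
  have hm₀b : m₀ ≠ ⊥ := idl_ne _ hlv0
  -- the root of unity
  obtain ⟨ω, hω, hωp⟩ := hom
  have hζ : IsPrimitiveRoot (-ω) (2 * p) := by
    have h1 : orderOf (-ω) = 2 * p := by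
      rw [neg_eq_neg_one_mul, (Commute.all _ _).orderOf_mul_eq_mul_orderOf_of_coprime]
      · simp [hωp.eq_orderOf]
      · simp [← hωp.eq_orderOf, hodd]
    rw [← h1]
    exact IsPrimitiveRoot.orderOf _
  -- the fields
  have hkfd : FiniteDimensional ℚ (kk A B) :=
    FiniteDimensional.of_injective (IntermediateField.inclusion hk).toLinearMap
      (IntermediateField.inclusion hk).injective
  set E₀ : IntermediateField (kk A B) ℂ := IntermediateField.extendScalars hk with hE₀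
  have hE₀m : E₀ ≤ RF m₀ := fun x hx => hKf x hx
  set KK : IntermediateField (kk A B) ℂ := E₀ ⊔ RF (⊤ : Ideal (OO A B)) with hKK
  have hHm : RF (⊤ : Ideal (OO A B)) ≤ RF m₀ := T.mono ⊤ m₀ le_top
  have hKKm : KK ≤ RF m₀ := sup_le hE₀m hHm
  have hmfd := T.fin m₀ hm₀b
  have hfdE₀ : FiniteDimensional (kk A B) E₀ :=
    FiniteDimensional.of_injective (IntermediateField.inclusion hE₀m).toLinearMap
      (IntermediateField.inclusion hE₀m).injective
  have hfdKK : FiniteDimensional (kk A B) KK :=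
    FiniteDimensional.of_injective (IntermediateField.inclusion hKKm).toLinearMap
      (IntermediateField.inclusion hKKm).injective
  set K : IntermediateField ℚ ℂ := KK.restrictScalars ℚ with hK
  have hkK : kk A B ≤ K := fun x hx => KK.algebraMap_mem ⟨x, hx⟩
  have hKK' : IntermediateField.extendScalars hkK = KK := SetLike.ext fun x => Iff.rfl
  have hfdK : FiniteDimensional ℚ K := by
    have : FiniteDimensional ℚ KK := FiniteDimensional.trans ℚ (kk A B) KK
    exact this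
  have hK0K : K₀ ≤ K := fun x hx => (le_sup_left : E₀ ≤ KK) (show x ∈ E₀ from hx)
  obtain ⟨hgal0, -, hab0⟩ := t_GAL A B T m₀ hm₀b K₀ hk hKf
  obtain ⟨hgal, -, hab⟩ := t_GAL A B T m₀ hm₀b K hkK (fun x hx => hKKm hx)
  have hgalKK : IsGalois (kk A B) KK := by rw [← hKK']; exact hgal
  have hgalE₀ : IsGalois (kk A B) E₀ := hgal0
  -- the first layer
  have hB1 : ¬ Bn 1 ≤ K := by
    intro hB
    obtain ⟨-, h8⟩ := t_CYCO p hp2 1 (Bn 1) (hlay 1)
    have hpp0 : p ^ (1 + 1) ≠ 0 := pow_ne_zero _ hp.ne_zero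
    have hz := Complex.isPrimitiveRoot_exp (p ^ (1 + 1)) hpp0
    have hz1 := h8 K hB ⟨ω, hK0K hω, hωp⟩ _ hz.pow_eq_one
    have h9 := t_RAMO p A B P V hX.cq hp hX.prime hX.mem hX.hV KK ⟨_, hz1, by
      have e : p * p = p ^ (1 + 1) := by rw [pow_succ, pow_one]
      rw [e]
      exact hz⟩
    have h10 := t_INJ A B V hU T E₀ KK rfl
    have h11 := (h9.trans (mul_dvd_mul_left 2 h10))
    have h12 : p ∣ 2 * Module.finrank (kk A B) E₀ := (Dvd.intro _ rfl).trans h11
    rcases (Nat.Prime.dvd_mul hp).mp h12 with h13 | h13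
    · have := Nat.le_of_dvd (by norm_num) h13
      have := hX.p5
      omega
    · exact hcop h13
  have hB10 : ¬ Bn 1 ≤ K₀ := fun h => hB1 (h.trans hK0K)
  refine ⟨K, hfdK, ?_, ?_, ?_⟩
  · exact
      { b0 := ⟨hk, hgal0, hab0, t_LDX p K₀ Bn hlay hmono hB10, hlay, hmono⟩
        b := ⟨hkK, hgal, hab, t_LDX p K Bn hlay hmono hB1, hlay, hmono⟩
        le := hK0K
        cop := hcop
        om := ⟨ω, hω, hωp⟩
        ze := ⟨-ω, neg_mem (hK0K hω), hζ⟩ }
  · exact fun y hy => hKKm hy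
  · exact fun y hy => (le_sup_right : RF (⊤ : Ideal (OO A B)) ≤ KK) hy

/-- **SETF.** -/
theorem t_SETF : S_SETF := by
  intro p er A B P V hX hU T K₀ _ hk hcop hom f hf0 hKf Bn hlay hmono
  exact setf p er A B P V hX hU T f hf0 K₀ hk hcop hKf hom Bn hlay hmono

end Pool.Agent.OTJ
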