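import Pool.Agent.OB.O_Fin
import Pool.Agent.OB.F_LAY
import Pool.Agent.OT.J_INPT
import Pool.Agent.OT.J_MAINT
import Pool.Agent.OT.J_NBT
import Pool.Agent.OT.J_CONV
import Pool.Agent.OT.J_SETF
import Pool.Agent.OT.J_LEM1S
import Pool.Agent.OT.J_PIGS

/-!
# OT, block J (helper19): the result of the block from the results of the blocks GR, E, I
-/

set_option autoImplicit false

namespace Pool.Agent.OTJ

open _root_.MU3 Pool.Agent.MU3 Pool.Agent.MU3A Pool.Agent.MU3B Pool.Agent.RI Pool.Agent.RID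
  Pool.Agent.MUX Pool.Agent.MUXK Pool.Agent.MUXE Pool.Agent.MUXJ Pool.Agent.MUXW Pool.Agent.MUXZ
  Pool.Agent.OB

/-- THE RESULT of block J -/
theorem o_TJ (hR : O_RFIN) (hE : O_EFIN) (hI : O_IT) : O_TJ :=
  t_NBT
    (t_MAINT hR
      (t_INPT hI t_ABL hR hE OBI.o_SUB OBZ.tl_LVX
        (OBZ.tl_INW OBZ.tl_LVX (OBZ.o_SUB MUXI.i_IAF) z_MEM z_TOW z_SUC z_I1 z_KOL)
        (tz_THN z_THG) z_MEM z_CXS MUXY.z_REX)
      t_LLV t_ABL t_SETF (t_PIGS (t_LEM1S k_GALX k_RSX) OB.o_NRX))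
    OBF.tf_LAY

end Pool.Agent.OTJ
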