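import Pool.Agent.OT.Defs
import Pool.Agent.OB.StHN
import Pool.Agent.TWV.St

/-!
# OT (Theorem T, problem MP_b78433_nt), block H, abstract part (helper60)

`M = p^(n+1)`, `ξ` a primitive `M`-th root of unity, `v = V.valuation` (multiplicative), `x = v(1 - ξ)`, `x^((p-1) p^n) = v p` (`S_VX`). `HypT`, `PV`, `Yh`, `tM`, `coT`, `Ot_H`: `OT/Defs.lean`.

PROOF of `Ot_H`. Let `ρ = p/(1 - ξ)`. Only `a` modulo a power of `p` matters (`S_CNG`), so `a` is in a finite set. `P_c = PV c/ρ`, `c ∈ (ZMod M)ˣ`, is a vector symbol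
(`S_VSY`), and by `S_LAG` for every level `N'` some `P_c` has `v ≥ 1` on a closed cycle of level `N'`. `TWV.S_TWV` gives `c` with `1 ≤ v(Sum_e ψ(e) P_c(∞, e/l^r))`, so `v p ≤ v(Sum PV c) x < v(Sum PV c)`.

Every `def S_X : Prop` is the statement of a module, file `Pool/Agent/OT/H_X.lean`, namespace `Pool.Agent.OTH` (private lemmas in `Pool.Agent.OTH.X`), theorem `h_X (uses ..) : S_X`. Files import originals, never `MVF`.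
-/

set_option autoImplicit false

namespace Pool.Agent.OTH

open _root_.MU3 Pool.Agent.MuSym Pool.Agent.MUXH OnePoint Pool.Agent.OBH Pool.Agent.OT
open Pool.Agent.TWR (Gen)
open Pool.Agent.TWV (IsVSym)

noncomputable section

/-- (VX) valuations of `1 - ξ^m`. Module of helper3.

PROOF. `p = Φ_M(1) = ∏ (1 - ξ^i)` over the units `i` modulo `M`, all factors have the same valuation (`(1 - ξ^i)/(1 - ξ)` and its inverse are integral over `ℤ`); see the proof of DVN (`OB/HN_DVN.lean`). `1 - ξ^m = 1 - ξ'` with `ξ' = ξ^m` a primitive `p^(n+1-j)`-th root of unity: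
`v(1 - ξ')^((p-1) p^(n-j)) = v p = x^((p-1) p^n)`. -/
def S_VX : Prop := ∀ (p : ℕ) (_ : p.Prime) (V : ValuationSubring ℂ) (_ : V.valuation (p : ℂ) < 1)
  (n : ℕ) (ξ : ℂ) (_ : IsPrimitiveRoot ξ (p ^ (n + 1))),
  V.valuation (1 - ξ) ^ ((p - 1) * p ^ n) = V.valuation (p : ℂ) ∧
  V.valuation (1 - ξ) < 1 ∧ V.valuation (1 - ξ) ≠ 0 ∧
  ∀ (m : ℤ) (j : ℕ), j ≤ n → (p : ℤ) ^ j ∣ m → ¬ (p : ℤ) ^ (j + 1) ∣ m →
    V.valuation (1 - ξ ^ m) = V.valuation (1 - ξ) ^ p ^ j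

/-- (LAG) closed cycles for the vector symbol. Module of helper3.

USES VX. PROOF. `nd` of `HypT` for `N'' = N' M²`: `C = (∞, h ∞)`, `h ∈ Γ₁(N'')`, `c₀`. The translated cycles `C_b = tM M b C = (∞, h_b ∞)`, `h_b = T_b h T_b⁻¹ = (α + bγ/M, β + b(δ - α)/M - b²γ/M²; γ, δ - bγ/M)`, are of level `N'` (`M² N' ∣ γ`, `M² N' ∣ δ - 1`, so also `M² N' ∣ α - 1`). Suppose that
`v(PV c C') x < v p` for all closed cycles `C'` of level `N'` and all `c` prime to `p`. `Yh z (Q k) (C_b) = z^(-b) Yh z (Q k) C` for `z^M = 1` (reindex the sum; `Q k` is invariant under `x ↦ x + 1`: `sym` for `(1, 1; 0, 1)`, `nu1`). So `PV c (C_b) = Sum_K w_K z_K^(-b) Y_K`, the sum over the `4(p-1)` triples `K = (k, j, r)`,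
`w_K = t(z₀^k) coT a j r` (`v(w_K) = 1`), `z_K = ξ^(c e_K)`, `e_K = a^(2r) (1+p)^j z₀^k`, `Y_K = Yh z_K (Q k) C`. Write `a = 1 + p a'`, `p ∤ a'`: `a² ≡ 1 + 2 p a'`, `a² (1 + p) ≡ 1 + p(2a' + 1)`, `a² - (1 + p) ≡ p (2a' - 1)` modulo `p²`. `p` does not divide both `2a' + 1` and `2a' - 1`. If `p ∤ 2a' + 1` let `K₀ = (0, 0, 0)`, otherwise `K₀ = (0, 1, 0)`: the differences of `e_(K₀)` and the
other `e_K` are prime to `p` for `k ≠ 0` (`z₀^k ≢ 1` modulo `p` for `0 < k < p - 1`: `gen` and the pigeonhole principle), and exactly divisible by `p` for the three others with `k = 0`. Choose `c` with `c e_(K₀) ≡ c₀` modulo `M`. `L(X) = ∏_(K ≠ K₀) (X - z_K⁻¹)`, coefficients in `V`: `Sum_b L_b PV c (C_b) = w_(K₀) L(z_(K₀)⁻¹) Y_(K₀)` (the other `z_K⁻¹` are roots of `L`), so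
`v(Y_(K₀)) x^(4(p-2) + 3p) x < v p` by VX. But `v p < v(Y_(K₀)) x^(p^(n-2))` (`nd`) and `7 p - 7 ≤ p^3 ≤ p^(n-2)`, `x < 1`. -/
def S_LAG : Prop := ∀ (p n : ℕ) (V : ValuationSubring ℂ) (N : ℕ) (nu : ℤ → ℂ) (s : ℂ) (z₀ : ℤ)
  (t : ℤ → ℂ) (Q : ℕ → OnePoint ℚ → OnePoint ℚ → ℂ) (ξ : ℂ) (l : ℕ)
  (_ : HypT p n V N nu s z₀ t Q ξ l) (a : ℤ) (_ : (p : ℤ) ∣ a - 1)
  (_ : ¬ (p : ℤ) ^ 2 ∣ a - 1) (N' : ℕ) (_ : N' ≠ 0) (_ : N ∣ N'),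
  ∃ (α β γ δ c : ℤ), ¬ (p : ℤ) ∣ c ∧ α * δ - β * γ = 1 ∧ (N' : ℤ) ∣ γ ∧ (N' : ℤ) ∣ δ - 1 ∧
    V.valuation (p : ℂ) ≤ V.valuation (PV p n ξ a z₀ t Q c ∞ (mob α β γ δ ∞)) *
      V.valuation (1 - ξ)

/-- the permutation of the components: `d ↦ d⁻²` in `(ZMod m)ˣ` -/
def sE (m : ℕ) (d : ℤ) : (ZMod m)ˣ :=
  letI := Classical.propDecidable (IsUnit (d : ZMod m))
  if h : IsUnit (d : ZMod m) then (h.unit ^ 2)⁻¹ else 1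

/-- the vector symbol, `ρ = p/(1 - ξ)` -/
def PE (p n : ℕ) (ξ : ℂ) (a z₀ : ℤ) (t : ℤ → ℂ) (Q : ℕ → OnePoint ℚ → OnePoint ℚ → ℂ)
    (e : (ZMod (p ^ (n + 1)))ˣ) (x y : OnePoint ℚ) : ℂ :=
  (1 - ξ) / p * PV p n ξ a z₀ t Q ((e : ZMod (p ^ (n + 1))).val : ℤ) x y

/-- (VSY) the hypotheses of `TWV.S_TWV`. Module of helper34.

PROOF. `PV` depends only on `c` modulo `M`. Equivariance: `g = (α β; γ δ)`, `N M² ∣ γ`: `T_b g = g' T_(b')`, `b' = b δ²`, `g' = (α + bγ/M, β + (bδ - b'α)/M - b b' γ/M²; γ, δ - b'γ/M)` is integral (`α δ ≡ 1` modulo `M`), of level `N`, with `nu(δ - b'γ/M) = nu δ`. So `Yh (ξ^m) (Q k) (g x) (g y) = nu δ * Yh (ξ^(m f)) (Q k) x y`, `f δ² ≡ 1` modulo `M`. Evenness: `-x + b/M = -(x - b/M)`,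
`Q k (-(..)) = s Q (k + (p-1)/2)(..)`, so `Yh (ξ^m) (Q k) (-x) (-y) = s Yh (ξ^(-m)) (Q (k + (p-1)/2)) x y`; `z₀^((p-1)/2) ≡ -1` modulo `M` (its square is `1` modulo `M`, and it is not `1` modulo `p`), `t(z₀^((p-1)/2)) = s`; reindex `k`. -/
def S_VSY : Prop := ∀ (p n : ℕ) (V : ValuationSubring ℂ) (N : ℕ) (nu : ℤ → ℂ) (s : ℂ) (z₀ : ℤ)
  (t : ℤ → ℂ) (Q : ℕ → OnePoint ℚ → OnePoint ℚ → ℂ) (ξ : ℂ) (l : ℕ)
  (_ : HypT p n V N nu s z₀ t Q ξ l) (a : ℤ),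
  IsVSym (N * p ^ (2 * (n + 1))) nu (sE (p ^ (n + 1))) (PE p n ξ a z₀ t Q) ∧
  (∀ e x y, IsAlgebraic ℚ (PE p n ξ a z₀ t Q e x y)) ∧
  (∀ e (x : ℚ), PE p n ξ a z₀ t Q e ∞ ((-x : ℚ) : OnePoint ℚ) =
    PE p n ξ a z₀ t Q e ∞ (x : OnePoint ℚ)) ∧
  (∀ e (x : ℚ), ∑ k ∈ Finset.range l,
    PE p n ξ a z₀ t Q e ∞ ((x + (k : ℚ) / l : ℚ) : OnePoint ℚ) = 0) ∧
  sE (p ^ (n + 1)) 1 = 1 ∧
  (∀ d d' : ℤ, ((N * p ^ (2 * (n + 1)) : ℕ) : ℤ) ∣ d - d' →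
    sE (p ^ (n + 1)) d = sE (p ^ (n + 1)) d') ∧
  (∀ c : ℤ, ¬ (p : ℤ) ∣ c → ∃ e, ∀ x y, PE p n ξ a z₀ t Q e x y =
    (1 - ξ) / p * PV p n ξ a z₀ t Q c x y) ∧
  ∀ e : (ZMod (p ^ (n + 1)))ˣ, ¬ (p : ℤ) ∣ ((e : ZMod (p ^ (n + 1))).val : ℤ)

/-- (CNG) only `a` modulo a power of `p` matters. Module of helper51.

PROOF. `K₁` from `bdd`, `K = K₁ + n + 2`. `p^(n+1) ∣ a - a'`, so the roots of unity are the same; the coefficients `coT a j r` and `coT a' j r` differ by multiples of `p^(K₁+1)`, and `v(p^(K₁+1) Q k x y) ≤ v p`. -/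
def S_CNG : Prop := ∀ (p n : ℕ) (V : ValuationSubring ℂ) (N : ℕ) (nu : ℤ → ℂ) (s : ℂ) (z₀ : ℤ)
  (t : ℤ → ℂ) (Q : ℕ → OnePoint ℚ → OnePoint ℚ → ℂ) (ξ : ℂ) (l : ℕ)
  (_ : HypT p n V N nu s z₀ t Q ξ l), ∃ K : ℕ, 2 ≤ K ∧ ∀ a a' : ℤ, (p : ℤ) ^ K ∣ a - a' →
  ∀ (c : ℤ) (x y : OnePoint ℚ), V.valuation (PV p n ξ a z₀ t Q c x y - PV p n ξ a' z₀ t Q c x y) ≤
    V.valuation (p : ℂ)

/-! (HT) THE RESULT: `Ot_H`. Module of helper51, file `H_HT.lean`: `theorem h_HT (h1 : S_LAG) (h2 : S_VSY) (h3 : S_CNG) (h4 : S_VX) (h5 : TWV.S_TWV) : Ot_H` (`I` = the classes `a` modulo `p^K` with `p ∣ a - 1`, `¬ p^2 ∣ a - 1`,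
`K ≥ 2`; `(N M²)` for `N`; `p^(2 (n+1)) N ∣ N'` gives `N ∣ N'`). -/

/-! ## The field `nd` of `HypT` from `HypQ` (Theorem G, DVN, DVR) -/

/-- ND: closed cycles of all levels on which the Fourier coefficient of `Q` is not too small. -/
def ND (p n : ℕ) (V : ValuationSubring ℂ) (N : ℕ) (ξ : ℂ) (Q : OnePoint ℚ → OnePoint ℚ → ℂ) : Prop :=
  ∀ N' : ℕ, N' ≠ 0 → N ∣ N' → ∃ α β γ δ c : ℤ, α * δ - β * γ = 1 ∧ (N' : ℤ) ∣ γ ∧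
    (N' : ℤ) ∣ δ - 1 ∧ ¬ (p : ℤ) ∣ c ∧
    V.valuation (p : ℂ) < V.valuation (Yh (p ^ (n + 1)) (ξ ^ c) Q ∞ (mob α β γ δ ∞)) *
      V.valuation (1 - ξ) ^ p ^ (n - 2)

/-- (NDN) `er = 1`.

USES VX, `So_DVN` (`OB/HN_DVN.lean`), `So_TYP` (`OB/HN_TYP.lean`). PROOF. `c = 1`, `ζ = ξ^c`. `G` for `N'`: `h ∈ Γ₁(N')`, `C = (∞, h ∞)`, `y b = PT p Q (tM M b ∞) (tM M b (h ∞))`. `y` has period `M` (`sym` for `(1, 1; 0, 1)`, `nu1`), `Sum_j y(b + j p^n) = 0` (depletion: `Q x y = Q ∞ y - Q ∞ x`, `tM M (b + j p^n) x = tM M b x + j/p`, and the hypothesis for `p x'` in place of `x`),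
values in `pi KI` (`typ`), `v p ≤ v(y 0)^((p-1) p²)`, so `1 ≤ v(y 0)` (`gap`) and `1 ≤ v(y 0)^(p-1) v p` (TYP (b), `e = 1`; as in `OB/HN_HN.lean`). DVN: `v p < v(Sum_b ζ^b y b)`. `Sum_b ζ^b y b = (1 - ζ^(-p^(n-2))) Yh M ζ Q C` (`1/p³ = p^(n-2)/M`), `v(1 - ζ^(-p^(n-2))) = x^(p^(n-2))` (VX). -/
def S_NDN : Prop :=
  ∀ (p : ℕ) (V : ValuationSubring ℂ) (N₀ s₀ q' i : ℕ) (nu : ℤ → ℂ)
    (Q : OnePoint ℚ → OnePoint ℚ → ℂ) (pi : ℂ) (KI : Subfield ℂ),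
    HypQ p V N₀ s₀ nu Q pi KI →
    (∀ x : ℚ, ∑ j ∈ Finset.range p, Q ∞ (((x + j) / p : ℚ) : OnePoint ℚ) = 0) →
    (∀ w ∈ KI, V.valuation w < 1 → V.valuation w ≤ V.valuation (p : ℂ)) →
    q' ≤ i * (p - 1) → i < q' → q' < (p - 1) * p ^ 2 →
    V.valuation pi ^ q' * V.valuation (p : ℂ) ^ i = 1 → ∀ (n : ℕ), 2 ≤ n → ∀ ξ : ℂ,
    IsPrimitiveRoot ξ (p ^ (n + 1)) → ND p n V (p ^ (s₀ + 1) * N₀) ξ Q

/-- (NDR) `er = 2`.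

USES VX, `So_DVR`, `So_FAC`, `So_TYP` (`OB/HN_DVR.lean`, `HN_FAC.lean`, `HN_TYP.lean`). PROOF. As NDN with DVR, as in `OB/HN_HR.lean`: `c` with `(ξ^c)^(p^n) om = 1` (`ξ^(p^n)` is a primitive `p`-th root of unity; `c` is prime to `p`). `y b` as in NDN, `Sum_j J(j | p) y(b + j p^n) = G y b` (the relation for `Q ∞ x`, differences), so FAC gives `F`, `H` and the relation for DVR. -/
def S_NDR : Prop :=
  ∀ (p : ℕ) (V : ValuationSubring ℂ) (N₀ s₀ i : ℕ) (nu : ℤ → ℂ)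
    (Q : OnePoint ℚ → OnePoint ℚ → ℂ) (pi : ℂ) (KI : Subfield ℂ) (om : ℂ),
    HypQ p V N₀ s₀ nu Q pi KI → IsPrimitiveRoot om p →
    (∀ x : ℚ, ∑ j ∈ Finset.range p, (jacobiSym (j : ℤ) p : ℂ) *
      Q ∞ ((x + (j : ℚ) / p : ℚ) : OnePoint ℚ) =
      (∑ j ∈ Finset.range p, (jacobiSym (j : ℤ) p : ℂ) * om ^ j) * Q ∞ (x : OnePoint ℚ)) →
    (∀ w ∈ KI, V.valuation w < 1 → V.valuation w ^ 2 ≤ V.valuation (p : ℂ)) →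
    2 ≤ i → i < p - 1 → V.valuation pi ^ (2 * (p - 1)) * V.valuation (p : ℂ) ^ i = 1 →
    ∀ (n : ℕ), 2 ≤ n → ∀ ξ : ℂ, IsPrimitiveRoot ξ (p ^ (n + 1)) → ND p n V (p ^ (s₀ + 1) * N₀) ξ Q

end

end Pool.Agent.OTH
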